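import Pool.Agent.Helper964_DD.Vis

/-!
# Annotated blocks
-/

set_option autoImplicit false

namespace Pool.Agent.Helper964_DD

/-- The data: the number of letters and two automata. -/
abbrev Dat := ℕ × (List ℕ × List ℕ) × (List ℕ × List ℕ)

/-- A bound for the states of both automata. -/
def qb (D : Dat) : ℕ := bd D.2.1.1 + bd D.2.2.1

/-- The number of letters of the annotated words. The letters below `k` are visible, `k` is the
mark, and `k + 1 + x` for `x` below `2 * qb D` is the state `x / 2` of the first (for even `x`) or of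
the second automaton (for odd `x`). -/
def ml (D : Dat) : ℕ := D.1 + 1 + 2 * qb D

/-- The transitions of the union of both automata. -/
def nx (D : Dat) (x a : ℕ) : ℕ :=
  if x % 2 = 0 then 2 * tr D.1 D.2.1.1 (x / 2) a else 2 * tr D.1 D.2.2.1 (x / 2) a + 1

/-- The final states of the union of both automata. -/
def fin (D : Dat) (x : ℕ) : Bool :=
  if x % 2 = 0 then memB D.2.1.2 (x / 2) else memB D.2.2.2 (x / 2)

theorem nx_lt (D : Dat) (x a : ℕ) : nx D x a < 2 * qb D := by
  have h1 := tr_lt D.1 D.2.1.1 (x / 2) a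
  have h2 := tr_lt D.1 D.2.2.1 (x / 2) a
  unfold nx qb
  split_ifs <;> omega

theorem qb_ge (D : Dat) : 2 ≤ qb D := by
  have h1 := bd_pos D.2.1.1
  have h2 := bd_pos D.2.2.1
  unfold qb
  omega

/-- The transitions of the automaton which checks the annotated words. The phases are: 0 (start),
1 and 2 (after a mark), 3 and 4 (after a state), 5 and 6 (after a visible letter), 7 (error); the
even phases indicate that there was a block of the second kind. -/
def ast (D : Dat) (s : ℕ × ℕ) (a : ℕ) : ℕ × ℕ :=
  if s.2 = 0 then (if a = D.1 then (0, 1) else (0, 7))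
  else if s.2 = 1 ∨ s.2 = 2 then
    (if a = D.1 + 1 then (0, s.2 + 2) else if a = D.1 + 2 then (1, 4) else (0, 7))
  else if s.2 = 3 ∨ s.2 = 4 then
    (if a < D.1 then (nx D s.1 a, s.2 + 2)
    else if a = D.1 ∧ fin D s.1 = true then (0, s.2 - 2) else (0, 7))
  else if s.2 = 5 ∨ s.2 = 6 then (if a = D.1 + 1 + s.1 then (s.1, s.2 - 2) else (0, 7))
  else (0, 7)

/-- The run of this automaton. -/
def afold (D : Dat) (s : ℕ × ℕ) (w : List (Fin (ml D))) : ℕ × ℕ :=
  w.foldl (fun (s : ℕ × ℕ) (a : Fin (ml D)) => ast D s (a : ℕ)) s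

/-- The complement of the set of the well formed words with a block of the second kind. -/
def f0 (D : Dat) : Set (List (Fin (ml D))) := {w | (afold D (0, 0) w).2 ≠ 2}

/-- The words which are not well formed. -/
def ill (D : Dat) : Set (List (Fin (ml D))) :=
  {w | (afold D (0, 0) w).2 ≠ 1 ∧ (afold D (0, 0) w).2 ≠ 2}

theorem afold_nil (D : Dat) (s : ℕ × ℕ) : afold D s [] = s := rfl

theorem afold_cons (D : Dat) (s : ℕ × ℕ) (a : Fin (ml D)) (w : List (Fin (ml D))) :
    afold D s (a :: w) = afold D (ast D s a) w := rfl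

theorem afold_append (D : Dat) (s : ℕ × ℕ) (w w' : List (Fin (ml D))) :
    afold D s (w ++ w') = afold D (afold D s w) w' := by
  simp [afold, List.foldl_append]

theorem ast_seven (D : Dat) (x a : ℕ) : ast D (x, 7) a = (0, 7) := by
  simp [ast]

theorem afold_seven (D : Dat) (w : List (Fin (ml D))) : ∀ x, (afold D (x, 7) w).2 = 7 := by
  induction w with
  | nil => intro x; rfl
  | cons a w ih => intro x; rw [afold_cons, ast_seven]; exact ih 0

/-! ### The annotation of a word -/

/-- Letters. -/
def lf (D : Dat) (n : ℕ) : Fin (ml D) := ⟨n % ml D, Nat.mod_lt _ (by unfold ml; omega)⟩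

theorem lf_val {D : Dat} {n : ℕ} (h : n < ml D) : (lf D n : ℕ) = n := Nat.mod_eq_of_lt h

/-- The annotation after the first state. -/
def annT (D : Dat) : ℕ → List (Fin D.1) → List (Fin (ml D))
  | _, [] => []
  | x, a :: w => lf D a :: lf D (D.1 + 1 + nx D x a) :: annT D (nx D x a) w

/-- The run of the union of both automata. -/
def runx (D : Dat) : ℕ → List (Fin D.1) → ℕ
  | x, [] => x
  | x, a :: w => runx D (nx D x a) w

/-- The languages of both automata. -/
def lng (D : Dat) (j : ℕ) : Set (List (Fin D.1)) :=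
  if j = 0 then lang D.1 D.2.1 else lang D.1 D.2.2

theorem runx_even (D : Dat) (w : List (Fin D.1)) : ∀ q, runx D (2 * q) w =
    2 * run D.1 D.2.1.1 q w := by
  induction w with
  | nil => intro q; rfl
  | cons a w ih =>
    intro q
    have h : nx D (2 * q) a = 2 * tr D.1 D.2.1.1 q a := by
      simp [nx]
    rw [runx, h, ih]
    rfl

theorem runx_odd (D : Dat) (w : List (Fin D.1)) : ∀ q, runx D (2 * q + 1) w =
    2 * run D.1 D.2.2.1 q w + 1 := by
  induction w with
  | nil => intro q; rfl
  | cons a w ih =>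
    intro q
    have h1 : (2 * q + 1) % 2 = 1 := by omega
    have h2 : (2 * q + 1) / 2 = q := by omega
    have h : nx D (2 * q + 1) a = 2 * tr D.1 D.2.2.1 q a + 1 := by
      simp [nx, h1, h2]
    rw [runx, h, ih]
    rfl

theorem fin_zero (D : Dat) (w : List (Fin D.1)) : fin D (runx D 0 w) = true ↔
    w ∈ lang D.1 D.2.1 := by
  have h := runx_even D w 0
  rw [Nat.mul_zero] at h
  rw [h, fin, if_pos (by omega), Nat.mul_div_cancel_left _ (by norm_num), memB_iff]
  rfl

theorem fin_one (D : Dat) (w : List (Fin D.1)) : fin D (runx D 1 w) = true ↔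
    w ∈ lang D.1 D.2.2 := by
  have h := runx_odd D w 0
  rw [Nat.mul_zero, Nat.zero_add] at h
  have h2 : (2 * run D.1 D.2.2.1 0 w + 1) / 2 = run D.1 D.2.2.1 0 w := by omega
  rw [h, fin, if_neg (by omega), h2, memB_iff]
  rfl

theorem lt_ml_of_lt {D : Dat} {a : ℕ} (h : a < D.1) : a < ml D := by
  unfold ml
  omega

theorem hid_lt_ml {D : Dat} {x : ℕ} (h : x < 2 * qb D) : D.1 + 1 + x < ml D := by
  unfold ml
  omega

theorem afold_annT (D : Dat) (w : List (Fin D.1)) : ∀ x ph, ph = 3 ∨ ph = 4 →
    afold D (x, ph) (annT D x w) = (runx D x w, ph) := by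
  induction w with
  | nil => intro x ph _; rfl
  | cons a w ih =>
    intro x ph hph
    rw [annT, afold_cons, afold_cons, lf_val (lt_ml_of_lt a.2), lf_val (hid_lt_ml (nx_lt D x a))]
    have h1 : ast D (x, ph) (a : ℕ) = (nx D x a, ph + 2) := by
      rcases hph with rfl | rfl <;> simp [ast]
    have h2 : ast D (nx D x a, ph + 2) (D.1 + 1 + nx D x a) = (nx D x a, ph) := by
      rcases hph with rfl | rfl <;> simp [ast]
    rw [h1, h2, ih _ ph hph]
    rfl

/-- The mark. -/
def dol (D : Dat) : Fin (ml D) := lf D D.1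

theorem dol_val (D : Dat) : (dol D : ℕ) = D.1 := lf_val (by unfold ml; omega)

/-- The annotated block of the kind `j`. -/
def blck (D : Dat) (j : ℕ) (w : List (Fin D.1)) : List (Fin (ml D)) :=
  lf D (D.1 + 1 + j) :: annT D j w

theorem afold_blck_zero (D : Dat) {w : List (Fin D.1)} (hw : w ∈ lang D.1 D.2.1) (ph : ℕ)
    (hph : ph = 1 ∨ ph = 2) : afold D (0, ph) (blck D 0 w ++ [dol D]) = (0, ph) := by
  have hq := qb_ge D
  rw [blck, List.cons_append, afold_cons, afold_append, lf_val (hid_lt_ml (by omega))]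
  have h1 : ast D (0, ph) (D.1 + 1 + 0) = (0, ph + 2) := by
    rcases hph with rfl | rfl <;> simp [ast]
  rw [h1, afold_annT D w 0 (ph + 2) (by omega), afold_cons, afold_nil, dol_val]
  have h2 := (fin_zero D w).2 hw
  rcases hph with rfl | rfl <;> simp [ast, h2]

theorem afold_blck_one (D : Dat) {w : List (Fin D.1)} (hw : w ∈ lang D.1 D.2.2) (ph : ℕ)
    (hph : ph = 1 ∨ ph = 2) : afold D (0, ph) (blck D 1 w ++ [dol D]) = (0, 2) := by
  have hq := qb_ge D
  rw [blck, List.cons_append, afold_cons, afold_append, lf_val (hid_lt_ml (by omega))]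
  have h1 : ast D (0, ph) (D.1 + 1 + 1) = (1, 4) := by
    rcases hph with rfl | rfl <;> simp [ast]
  rw [h1, afold_annT D w 1 4 (by omega), afold_cons, afold_nil, dol_val]
  have h2 := (fin_one D w).2 hw
  simp [ast, h2]

/-! ### The structure of the well formed words -/

/-- The words `w₁ $ w₂ $ ⋯`. -/
def tl {k : ℕ} (ws : List (List (Fin k))) : List (Fin (k + 1)) :=
  ws.flatMap (fun w => w.map Fin.castSucc ++ [Fin.last k])

theorem blocks_eq_tl {k : ℕ} (ws : List (List (Fin k))) :
    blocks Fin.castSucc (Fin.last k) ws = Fin.last k :: tl ws := by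
  induction ws with
  | nil => rfl
  | cons w ws ih =>
    have : blocks Fin.castSucc (Fin.last k) (w :: ws) =
        (Fin.last k :: w.map Fin.castSucc) ++ blocks Fin.castSucc (Fin.last k) ws := by
      simp [blocks]
    rw [this, ih]
    simp [tl]

theorem structure_aux (D : Dat) (r : List (Fin (ml D))) :
    (∀ ph, ph = 1 ∨ ph = 2 → ((afold D (0, ph) r).2 = 1 ∨ (afold D (0, ph) r).2 = 2) →
      ∃ ws, vp (D.1 + 1) (ml D) r = tl ws ∧
        ((afold D (0, ph) r).2 = 1 → ph = 1 ∧ ∀ w ∈ ws, w ∈ lang D.1 D.2.1) ∧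
        ((afold D (0, ph) r).2 = 2 → ph = 2 ∨ ∃ w ∈ ws, w ∈ lang D.1 D.2.2)) ∧
    (∀ x ph, ph = 3 ∨ ph = 4 → ((afold D (x, ph) r).2 = 1 ∨ (afold D (x, ph) r).2 = 2) →
      ∃ w ws, vp (D.1 + 1) (ml D) r = w.map Fin.castSucc ++ Fin.last D.1 :: tl ws ∧
        fin D (runx D x w) = true ∧
        ((afold D (x, ph) r).2 = 1 → ph = 3 ∧ ∀ w ∈ ws, w ∈ lang D.1 D.2.1) ∧
        ((afold D (x, ph) r).2 = 2 → ph = 4 ∨ ∃ w ∈ ws, w ∈ lang D.1 D.2.2)) ∧
    (∀ x ph, ph = 5 ∨ ph = 6 → ((afold D (x, ph) r).2 = 1 ∨ (afold D (x, ph) r).2 = 2) →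
      ∃ w ws, vp (D.1 + 1) (ml D) r = w.map Fin.castSucc ++ Fin.last D.1 :: tl ws ∧
        fin D (runx D x w) = true ∧
        ((afold D (x, ph) r).2 = 1 → ph = 5 ∧ ∀ w ∈ ws, w ∈ lang D.1 D.2.1) ∧
        ((afold D (x, ph) r).2 = 2 → ph = 6 ∨ ∃ w ∈ ws, w ∈ lang D.1 D.2.2)) := by
  induction r with
  | nil =>
    refine ⟨?_, ?_, ?_⟩
    · intro ph hph _
      refine ⟨[], rfl, ?_, ?_⟩
      · intro h
        exact ⟨h, by simp⟩
      · intro h
        exact Or.inl h
    · intro x ph hph h
      simp only [afold_nil] at h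
      omega
    · intro x ph hph h
      simp only [afold_nil] at h
      omega
  | cons c r ih =>
    obtain ⟨ih1, ih2, ih3⟩ := ih
    refine ⟨?_, ?_, ?_⟩
    · intro ph hph h
      rw [afold_cons] at h ⊢
      by_cases h1 : (c : ℕ) = D.1 + 1
      · have e : ast D (0, ph) (c : ℕ) = (0, ph + 2) := by
          rcases hph with rfl | rfl <;> simp [ast, h1]
        rw [e] at h ⊢
        obtain ⟨w, ws, h2, h3, h4, h5⟩ := ih2 0 (ph + 2) (by omega) h
        have hw := (fin_zero D w).1 h3
        refine ⟨w :: ws, ?_, ?_, ?_⟩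
        · rw [vp_cons_ge (by omega), h2]
          simp [tl]
        · intro hf
          obtain ⟨h6, h7⟩ := h4 hf
          refine ⟨by omega, ?_⟩
          intro w' hw'
          rcases List.mem_cons.1 hw' with rfl | hw'
          · exact hw
          · exact h7 w' hw'
        · intro hf
          rcases h5 hf with h6 | ⟨w', h6, h7⟩
          · exact Or.inl (by omega)
          · exact Or.inr ⟨w', by simp [h6], h7⟩
      · by_cases h2 : (c : ℕ) = D.1 + 2
        · have e : ast D (0, ph) (c : ℕ) = (1, 4) := by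
            rcases hph with rfl | rfl <;> simp [ast, h2]
          rw [e] at h ⊢
          obtain ⟨w, ws, h3, h4, h5, h6⟩ := ih2 1 4 (by omega) h
          have hw := (fin_one D w).1 h4
          refine ⟨w :: ws, ?_, ?_, ?_⟩
          · rw [vp_cons_ge (by omega), h3]
            simp [tl]
          · intro hf
            exact absurd (h5 hf).1 (by norm_num)
          · intro _
            exact Or.inr ⟨w, by simp, hw⟩
        · have e : ast D (0, ph) (c : ℕ) = (0, 7) := by
            rcases hph with rfl | rfl <;> simp [ast, h1, h2]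
          rw [e, afold_seven] at h
          omega
    · intro x ph hph h
      rw [afold_cons] at h ⊢
      by_cases h1 : (c : ℕ) < D.1
      · have e : ast D (x, ph) (c : ℕ) = (nx D x c, ph + 2) := by
          rcases hph with rfl | rfl <;> simp [ast, h1]
        rw [e] at h ⊢
        obtain ⟨w, ws, h3, h4, h5, h6⟩ := ih3 (nx D x c) (ph + 2) (by omega) h
        refine ⟨⟨c, h1⟩ :: w, ws, ?_, h4, ?_, ?_⟩
        · rw [vp_cons_lt (show (c : ℕ) < D.1 + 1 by omega), h3]
          rfl
        · intro hf
          exact ⟨by have := (h5 hf).1; omega, (h5 hf).2⟩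
        · intro hf
          rcases h6 hf with h7 | h7
          · exact Or.inl (by omega)
          · exact Or.inr h7
      · by_cases h2 : (c : ℕ) = D.1 ∧ fin D x = true
        · have e : ast D (x, ph) (c : ℕ) = (0, ph - 2) := by
            rcases hph with rfl | rfl <;> simp [ast, h2]
          rw [e] at h ⊢
          obtain ⟨ws, h3, h4, h5⟩ := ih1 (ph - 2) (by omega) h
          refine ⟨[], ws, ?_, h2.2, ?_, ?_⟩
          · rw [vp_cons_lt (show (c : ℕ) < D.1 + 1 by omega), h3]
            simp only [List.map_nil, List.nil_append, List.cons.injEq, and_true]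
            exact Fin.ext h2.1
          · intro hf
            exact ⟨by have := (h4 hf).1; omega, (h4 hf).2⟩
          · intro hf
            rcases h5 hf with h7 | h7
            · exact Or.inl (by omega)
            · exact Or.inr h7
        · have e : ast D (x, ph) (c : ℕ) = (0, 7) := by
            rcases hph with rfl | rfl <;> simp [ast, h1, h2]
          rw [e, afold_seven] at h
          omega
    · intro x ph hph h
      rw [afold_cons] at h ⊢
      by_cases h1 : (c : ℕ) = D.1 + 1 + x
      · have e : ast D (x, ph) (c : ℕ) = (x, ph - 2) := by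
          rcases hph with rfl | rfl <;> simp [ast, h1]
        rw [e] at h ⊢
        obtain ⟨w, ws, h3, h4, h5, h6⟩ := ih2 x (ph - 2) (by omega) h
        refine ⟨w, ws, ?_, h4, ?_, ?_⟩
        · rw [vp_cons_ge (by omega), h3]
        · intro hf
          exact ⟨by have := (h5 hf).1; omega, (h5 hf).2⟩
        · intro hf
          rcases h6 hf with h7 | h7
          · exact Or.inl (by omega)
          · exact Or.inr h7
      · have e : ast D (x, ph) (c : ℕ) = (0, 7) := by
          rcases hph with rfl | rfl <;> simp [ast, h1]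
        rw [e, afold_seven] at h
        omega

theorem well_formed {D : Dat} {y : List (Fin (ml D))} (hy : y ∉ ill D) :
    ∃ ws, vp (D.1 + 1) (ml D) y = blocks Fin.castSucc (Fin.last D.1) ws ∧
      (y ∈ f0 D → ∀ w ∈ ws, w ∈ lang D.1 D.2.1) ∧
      (y ∉ f0 D → ∃ w ∈ ws, w ∈ lang D.1 D.2.2) := by
  have hy' : (afold D (0, 0) y).2 = 1 ∨ (afold D (0, 0) y).2 = 2 := by
    by_contra h
    rw [not_or] at h
    exact hy h
  cases y with
  | nil =>
    simp only [afold_nil] at hy'
    omega
  | cons c r =>
    by_cases h1 : (c : ℕ) = D.1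
    · have e : ast D (0, 0) (c : ℕ) = (0, 1) := by simp [ast, h1]
      rw [afold_cons, e] at hy'
      obtain ⟨ws, h2, h3, h4⟩ := (structure_aux D r).1 1 (Or.inl rfl) hy'
      refine ⟨ws, ?_, ?_, ?_⟩
      · rw [vp_cons_lt (show (c : ℕ) < D.1 + 1 by omega), h2, blocks_eq_tl]
        congr 1
        exact Fin.ext h1
      · intro hf
        have hf' : (afold D (0, 1) r).2 ≠ 2 := by
          have : (afold D (0, 0) (c :: r)).2 ≠ 2 := hf
          rwa [afold_cons, e] at this
        exact (h3 (by omega)).2
      · intro hf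
        have hf' : (afold D (0, 1) r).2 = 2 := by
          have : ¬ (afold D (0, 0) (c :: r)).2 ≠ 2 := hf
          rw [afold_cons, e] at this
          simpa using this
        rcases h4 hf' with h5 | h5
        · omega
        · exact h5
    · have e : ast D (0, 0) (c : ℕ) = (0, 7) := by simp [ast, h1]
      rw [afold_cons, e, afold_seven] at hy'
      omega

/-! ### The ill formed words are given by local conditions -/

/-- The condition for two consecutive letters. -/
def ok2 (D : Dat) (c d : ℕ) : Prop :=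
  (c = D.1 → d = D.1 + 1 ∨ d = D.1 + 2) ∧ (c < D.1 → D.1 < d) ∧
    (D.1 < c → d < D.1 ∨ (d = D.1 ∧ fin D (c - (D.1 + 1)) = true))

/-- The condition for three consecutive letters. -/
def ok3 (D : Dat) (c d e : ℕ) : Prop :=
  D.1 < c → d < D.1 → e = D.1 + 1 + nx D (c - (D.1 + 1)) d

/-- The conditions for all consecutive letters. -/
def Ok (D : Dat) : List (Fin (ml D)) → Prop
  | [] => True
  | [_] => True
  | c :: d :: r => ok2 D c d ∧ (∀ e r', r = e :: r' → ok3 D c d e) ∧ Ok D (d :: r)

theorem local_aux (D : Dat) (r : List (Fin (ml D))) :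
    (∀ (c : Fin (ml D)) ph, (c : ℕ) = D.1 → ph = 1 ∨ ph = 2 →
      ((afold D (0, ph) r).2 ≠ 7 ↔ Ok D (c :: r))) ∧
    (∀ (c : Fin (ml D)) x ph, (c : ℕ) = D.1 + 1 + x → ph = 3 ∨ ph = 4 →
      ((afold D (x, ph) r).2 ≠ 7 ↔ Ok D (c :: r))) ∧
    (∀ (c a : Fin (ml D)) x ph, (c : ℕ) = D.1 + 1 + x → (a : ℕ) < D.1 → ph = 5 ∨ ph = 6 →
      ((afold D (nx D x a, ph) r).2 ≠ 7 ↔ Ok D (c :: a :: r))) := by
  induction r with
  | nil =>
    refine ⟨?_, ?_, ?_⟩
    · intro c ph _ hph
      refine iff_of_true ?_ trivial
      simp only [afold_nil]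
      omega
    · intro c x ph _ hph
      refine iff_of_true ?_ trivial
      simp only [afold_nil]
      omega
    · intro c a x ph hc ha hph
      refine iff_of_true ?_ ?_
      · simp only [afold_nil]
        omega
      · refine ⟨⟨fun h => by omega, fun h => by omega, fun _ => Or.inl ha⟩, ?_, trivial⟩
        intro e r' h
        cases h
  | cons b r ih =>
    obtain ⟨ih1, ih2, ih3⟩ := ih
    refine ⟨?_, ?_, ?_⟩
    · intro c ph hc hph
      rw [afold_cons]
      by_cases h1 : (b : ℕ) = D.1 + 1
      · have e : ast D (0, ph) (b : ℕ) = (0, ph + 2) := by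
          rcases hph with rfl | rfl <;> simp [ast, h1]
        rw [e, ih2 b 0 (ph + 2) (by omega) (by omega)]
        constructor
        · intro h
          exact ⟨⟨fun _ => Or.inl h1, fun h => by omega, fun h => by omega⟩,
            fun e r' _ h => by omega, h⟩
        · exact fun h => h.2.2
      · by_cases h2 : (b : ℕ) = D.1 + 2
        · have e : ast D (0, ph) (b : ℕ) = (1, 4) := by
            rcases hph with rfl | rfl <;> simp [ast, h2]
          rw [e, ih2 b 1 4 (by omega) (by omega)]
          constructor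
          · intro h
            exact ⟨⟨fun _ => Or.inr h2, fun h => by omega, fun h => by omega⟩,
              fun e r' _ h => by omega, h⟩
          · exact fun h => h.2.2
        · have e : ast D (0, ph) (b : ℕ) = (0, 7) := by
            rcases hph with rfl | rfl <;> simp [ast, h1, h2]
          rw [e, afold_seven]
          refine iff_of_false (fun h => h rfl) fun h => ?_
          rcases h.1.1 hc with h3 | h3
          · exact h1 h3
          · exact h2 h3
    · intro c x ph hc hph
      rw [afold_cons]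
      by_cases h1 : (b : ℕ) < D.1
      · have e : ast D (x, ph) (b : ℕ) = (nx D x b, ph + 2) := by
          rcases hph with rfl | rfl <;> simp [ast, h1]
        rw [e]
        exact ih3 c b x (ph + 2) hc h1 (by omega)
      · have hcx : (c : ℕ) - (D.1 + 1) = x := by omega
        by_cases h2 : (b : ℕ) = D.1 ∧ fin D x = true
        · have e : ast D (x, ph) (b : ℕ) = (0, ph - 2) := by
            rcases hph with rfl | rfl <;> simp [ast, h2]
          rw [e, ih1 b (ph - 2) h2.1 (by omega)]
          constructor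
          · intro h
            exact ⟨⟨fun h => by omega, fun h => by omega,
              fun _ => Or.inr ⟨h2.1, by rw [hcx]; exact h2.2⟩⟩, fun e r' _ _ h => by omega, h⟩
          · exact fun h => h.2.2
        · have e : ast D (x, ph) (b : ℕ) = (0, 7) := by
            rcases hph with rfl | rfl <;> simp [ast, h1, h2]
          rw [e, afold_seven]
          refine iff_of_false (fun h => h rfl) fun h => ?_
          rcases h.1.2.2 (by omega) with h3 | h3
          · exact h1 h3
          · rw [hcx] at h3
            exact h2 h3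
    · intro c a x ph hc ha hph
      rw [afold_cons]
      have hcx : (c : ℕ) - (D.1 + 1) = x := by omega
      by_cases h1 : (b : ℕ) = D.1 + 1 + nx D x a
      · have e : ast D (nx D x a, ph) (b : ℕ) = (nx D x a, ph - 2) := by
          rcases hph with rfl | rfl <;> simp [ast, h1]
        rw [e, ih2 b (nx D x a) (ph - 2) h1 (by omega)]
        constructor
        · intro h
          refine ⟨⟨fun h => by omega, fun h => by omega, fun _ => Or.inl ha⟩, ?_,
            ⟨fun h => by omega, fun _ => by omega, fun h => by omega⟩,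
            fun e r' _ h => by omega, h⟩
          intro e r' he _ _
          simp only [List.cons.injEq] at he
          rw [← he.1, hcx]
          exact h1
        · exact fun h => h.2.2.2.2
      · have e : ast D (nx D x a, ph) (b : ℕ) = (0, 7) := by
          rcases hph with rfl | rfl <;> simp [ast, h1]
        rw [e, afold_seven]
        refine iff_of_false (fun h => h rfl) fun h => ?_
        have := h.2.1 b r rfl (by omega) ha
        rw [hcx] at this
        exact h1 this

theorem not_Ok_iff (D : Dat) (y : List (Fin (ml D))) : ¬ Ok D y ↔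
    (∃ (u : List (Fin (ml D))) (c d : Fin (ml D)) (v : List (Fin (ml D))),
      y = u ++ c :: d :: v ∧ ¬ ok2 D c d) ∨
    (∃ (u : List (Fin (ml D))) (c d e : Fin (ml D)) (v : List (Fin (ml D))),
      y = u ++ c :: d :: e :: v ∧ ¬ ok3 D c d e) := by
  induction y with
  | nil =>
    refine iff_of_false (fun h => h trivial) ?_
    rintro (⟨u, c, d, v, h, _⟩ | ⟨u, c, d, e, v, h, _⟩)
    · simp at h
    · simp at h
  | cons a y ih =>
    cases y with
    | nil =>
      refine iff_of_false (fun h => h trivial) ?_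
      rintro (⟨u, c, d, v, h, _⟩ | ⟨u, c, d, e, v, h, _⟩)
      · have := congrArg List.length h
        simp only [List.length_append, List.length_cons, List.length_nil] at this
        omega
      · have := congrArg List.length h
        simp only [List.length_append, List.length_cons, List.length_nil] at this
        omega
    | cons b y =>
      constructor
      · intro h
        by_cases h1 : ok2 D a b
        · by_cases h2 : ∀ e r', y = e :: r' → ok3 D a b e
          · have h3 : ¬ Ok D (b :: y) := fun h3 => h ⟨h1, h2, h3⟩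
            rcases ih.1 h3 with ⟨u, c, d, v, h4, h5⟩ | ⟨u, c, d, e, v, h4, h5⟩
            · exact Or.inl ⟨a :: u, c, d, v, by rw [h4]; rfl, h5⟩
            · exact Or.inr ⟨a :: u, c, d, e, v, by rw [h4]; rfl, h5⟩
          · simp only [not_forall] at h2
            obtain ⟨e, r', h3, h4⟩ := h2
            exact Or.inr ⟨[], a, b, e, r', by rw [h3]; rfl, h4⟩
        · exact Or.inl ⟨[], a, b, y, rfl, h1⟩
      · rintro h ⟨h1, h2, h3⟩
        rcases h with ⟨u, c, d, v, h4, h5⟩ | ⟨u, c, d, e, v, h4, h5⟩
        · cases u with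
          | nil =>
            simp only [List.nil_append, List.cons.injEq] at h4
            rw [h4.1, h4.2.1] at h1
            exact h5 h1
          | cons a' u =>
            simp only [List.cons_append, List.cons.injEq] at h4
            exact ih.2 (Or.inl ⟨u, c, d, v, h4.2, h5⟩) h3
        · cases u with
          | nil =>
            simp only [List.nil_append, List.cons.injEq] at h4
            have := h2 e v h4.2.2
            rw [h4.1, h4.2.1] at this
            exact h5 this
          | cons a' u =>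
            simp only [List.cons_append, List.cons.injEq] at h4
            exact ih.2 (Or.inr ⟨u, c, d, e, v, h4.2, h5⟩) h3

theorem ast_mark {D : Dat} {s : ℕ × ℕ} {a : ℕ} (h : (ast D s a).2 = 1 ∨ (ast D s a).2 = 2) :
    a = D.1 := by
  unfold ast at h
  split_ifs at h with h1 h2 h3 h4 h5 h6 h7 h8 h9 h10
  all_goals first | assumption | (simp only [] at h; omega)

theorem ast_of_mark (D : Dat) (s : ℕ × ℕ) :
    (ast D s D.1).2 = 1 ∨ (ast D s D.1).2 = 2 ∨ (ast D s D.1).2 = 7 := by
  unfold ast
  split_ifs with h1 h2 h3 h4 h5 h6 h7 h8 h9 h10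
  all_goals first | omega | (simp; done) | (simp; omega)

theorem ill_iff (D : Dat) (y : List (Fin (ml D))) : y ∈ ill D ↔
    (¬ ∃ r, y = dol D :: r) ∨ (¬ ∃ r, y = r ++ [dol D]) ∨ ¬ Ok D y := by
  have main : y ∉ ill D ↔ (∃ r, y = dol D :: r) ∧ (∃ r, y = r ++ [dol D]) ∧ Ok D y := by
    have hy' : y ∉ ill D ↔ (afold D (0, 0) y).2 = 1 ∨ (afold D (0, 0) y).2 = 2 := by
      constructor
      · intro hy
        by_contra h
        rw [not_or] at h
        exact hy h
      · rintro h ⟨h1, h2⟩
        omega
    have heq : ∀ c : Fin (ml D), (c : ℕ) = D.1 → c = dol D := fun c hc =>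
      Fin.ext (by rw [hc, dol_val])
    rw [hy']
    constructor
    · intro h
      cases y with
      | nil =>
        simp only [afold_nil] at h
        omega
      | cons c r =>
        have hc : (c : ℕ) = D.1 := by
          by_contra hc
          have e : ast D (0, 0) (c : ℕ) = (0, 7) := by simp [ast, hc]
          rw [afold_cons, e, afold_seven] at h
          omega
        have e : ast D (0, 0) (c : ℕ) = (0, 1) := by simp [ast, hc]
        refine ⟨⟨r, by rw [heq c hc]⟩, ?_, ?_⟩
        · rcases List.eq_nil_or_concat (c :: r) with h' | ⟨r', b, h'⟩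
          · cases h'
          · rw [List.concat_eq_append] at h'
            rw [h', afold_append, afold_cons, afold_nil] at h
            exact ⟨r', by rw [h', heq b (ast_mark h)]⟩
        · rw [afold_cons, e] at h
          exact ((local_aux D r).1 c 1 hc (Or.inl rfl)).1 (by omega)
    · rintro ⟨⟨r, rfl⟩, ⟨r', h1⟩, h2⟩
      have e : ast D (0, 0) (dol D : ℕ) = (0, 1) := by simp [ast, dol_val]
      have h3 := ((local_aux D r).1 (dol D) 1 (dol_val D) (Or.inl rfl)).2 h2
      have h4 : (afold D (0, 0) (dol D :: r)).2 ≠ 7 := by rwa [afold_cons, e]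
      rw [h1, afold_append, afold_cons, afold_nil, dol_val] at h4 ⊢
      rcases ast_of_mark D (afold D (0, 0) r') with h | h | h
      · exact Or.inl h
      · exact Or.inr h
      · exact absurd h h4
  rw [← not_iff_not, main]
  tauto

theorem ill_Pol (D : Dat) : Pol (B 0) (ill D) := by
  have h0 : ∀ {ι : Type} [Finite ι] (F : ι → Set (List (Fin (ml D)))),
      (∀ i, Pol (B 0) (F i)) → Pol (B 0) {w | ∃ i, w ∈ F i} := fun F hF =>
    finite_union (P := {L | Pol (B 0) L}) Pol.empty (fun _ _ h h' => Pol.union _ _ h h') F hF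
  have huniv : Pol (B 0) (Set.univ : Set (List (Fin (ml D)))) := Pol_sub (univ_mem 0)
  have hs : ∀ w : List (Fin (ml D)), Pol (B 0) {w} := fun w => Pol_sub (single_mem 0 w)
  have h1 : {y : List (Fin (ml D)) | ¬ ∃ r, y = dol D :: r} =
      {[]} ∪ {y | ∃ c : {c : Fin (ml D) // c ≠ dol D}, y ∈ cat {[(c : Fin (ml D))]} Set.univ} := by
    ext y
    constructor
    · intro h
      cases y with
      | nil => exact Or.inl rfl
      | cons c r =>
        refine Or.inr ⟨⟨c, fun hc => h ⟨r, by rw [hc]⟩⟩, [c], rfl, r, trivial, rfl⟩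
    · rintro (h | ⟨⟨c, hc⟩, _, rfl, r, _, rfl⟩) ⟨r', h'⟩
      · rw [Set.mem_singleton_iff.1 h] at h'
        cases h'
      · simp only [List.singleton_append, List.cons.injEq] at h'
        exact hc h'.1
  have h2 : {y : List (Fin (ml D)) | ¬ ∃ r, y = r ++ [dol D]} =
      {[]} ∪ {y | ∃ c : {c : Fin (ml D) // c ≠ dol D}, y ∈ cat Set.univ {[(c : Fin (ml D))]}} := by
    ext y
    constructor
    · intro h
      rcases List.eq_nil_or_concat y with rfl | ⟨r, c, rfl⟩
      · exact Or.inl rfl
      · rw [List.concat_eq_append] at h ⊢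
        exact Or.inr ⟨⟨c, fun hc => h ⟨r, by rw [hc]⟩⟩, r, trivial, [c], rfl, rfl⟩
    · rintro (h | ⟨⟨c, hc⟩, r, _, _, rfl, rfl⟩) ⟨r', h'⟩
      · rw [Set.mem_singleton_iff.1 h] at h'
        simp at h'
      · have := List.append_inj_right' h' rfl
        simp only [List.cons.injEq, and_true] at this
        exact hc this
  have h3 : {y : List (Fin (ml D)) | ¬ Ok D y} =
      {y | ∃ p : {p : Fin (ml D) × Fin (ml D) // ¬ ok2 D p.1 p.2},
        y ∈ cat Set.univ (cat {[p.1.1, p.1.2]} Set.univ)} ∪
      {y | ∃ p : {p : Fin (ml D) × Fin (ml D) × Fin (ml D) // ¬ ok3 D p.1 p.2.1 p.2.2},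
        y ∈ cat Set.univ (cat {[p.1.1, p.1.2.1, p.1.2.2]} Set.univ)} := by
    ext y
    rw [Set.mem_ofPred_eq, not_Ok_iff]
    constructor
    · rintro (⟨u, c, d, v, rfl, h⟩ | ⟨u, c, d, e, v, rfl, h⟩)
      · exact Or.inl ⟨⟨(c, d), h⟩, u, trivial, _, ⟨_, rfl, v, trivial, rfl⟩, rfl⟩
      · exact Or.inr ⟨⟨(c, d, e), h⟩, u, trivial, _, ⟨_, rfl, v, trivial, rfl⟩, rfl⟩
    · rintro (⟨⟨⟨c, d⟩, h⟩, u, _, _, ⟨_, rfl, v, _, rfl⟩, rfl⟩ |
        ⟨⟨⟨c, d, e⟩, h⟩, u, _, _, ⟨_, rfl, v, _, rfl⟩, rfl⟩)
      · exact Or.inl ⟨u, c, d, v, rfl, h⟩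
      · exact Or.inr ⟨u, c, d, e, v, rfl, h⟩
  have h4 : ill D = {y : List (Fin (ml D)) | ¬ ∃ r, y = dol D :: r} ∪
      ({y : List (Fin (ml D)) | ¬ ∃ r, y = r ++ [dol D]} ∪ {y | ¬ Ok D y}) := by
    ext y
    rw [ill_iff]
    rfl
  rw [h4, h1, h2, h3]
  refine Pol.union _ _ (Pol.union _ _ (hs _) (h0 _ fun c => Pol_cat (hs _) huniv))
    (Pol.union _ _ (Pol.union _ _ (hs _) (h0 _ fun c => Pol_cat huniv (hs _)))
      (Pol.union _ _ ?_ ?_))
  · exact h0 _ fun p => Pol_cat huniv (Pol_cat (hs _) huniv)
  · exact h0 _ fun p => Pol_cat huniv (Pol_cat (hs _) huniv)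

end Pool.Agent.Helper964_DD
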