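import Pool.Agent.Helper964_DD.Basic

/-!
# Automata given by primitive recursive data
-/

set_option autoImplicit false

namespace Pool.Agent.Helper964_DD

/-- The transition function of the coded automaton. -/
def tr (k : ℕ) (t : List ℕ) (q a : ℕ) : ℕ := t.getD (q * k + a) 0

/-- The run of the coded automaton. -/
def run (k : ℕ) (t : List ℕ) (q : ℕ) (w : List (Fin k)) : ℕ :=
  w.foldl (fun (q : ℕ) (a : Fin k) => tr k t q (a : ℕ)) q

theorem mem_lang (k : ℕ) (c : List ℕ × List ℕ) (w : List (Fin k)) :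
    w ∈ lang k c ↔ run k c.1 0 w ∈ c.2 := Iff.rfl

/-- A bound for the states of the coded automaton. -/
def bd (t : List ℕ) : ℕ := t.foldr max 0 + 1

theorem le_foldr_max (t : List ℕ) (x : ℕ) (h : x ∈ t) : x ≤ t.foldr max 0 := by
  induction t with
  | nil => cases h
  | cons a t ih =>
    rw [List.foldr_cons]
    rcases List.mem_cons.1 h with rfl | h
    · exact le_max_left _ _
    · exact (ih h).trans (le_max_right _ _)

theorem tr_lt (k : ℕ) (t : List ℕ) (q a : ℕ) : tr k t q a < bd t := by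
  rw [tr, bd, Nat.lt_succ_iff]
  by_cases h : q * k + a < t.length
  · rw [List.getD_eq_getElem _ _ h]
    exact le_foldr_max t _ (List.getElem_mem h)
  · rw [List.getD_eq_default _ _ (by omega)]
    exact Nat.zero_le _

theorem bd_pos (t : List ℕ) : 0 < bd t := Nat.succ_pos _

/-- The code of the automaton with the states below `N`, the transition function `g` and the set
`P` of final states. -/
def mkA (N k : ℕ) (g : ℕ → ℕ → ℕ) (P : ℕ → Bool) : List ℕ × List ℕ :=
  ((List.range (N * k)).map fun x => g (x / k) (x % k),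
    (List.range N).map fun q => if P q = true then q else N)

theorem tr_mkA {N k : ℕ} {g : ℕ → ℕ → ℕ} {P : ℕ → Bool} {q a : ℕ} (hq : q < N) (ha : a < k) :
    tr k (mkA N k g P).1 q a = g q a := by
  have h1 : q * k + a < N * k := by
    have : (q + 1) * k ≤ N * k := Nat.mul_le_mul_right k hq
    rw [Nat.add_mul, Nat.one_mul] at this
    omega
  have hk : 0 < k := by omega
  rw [tr, mkA, List.getD_eq_getElem _ _ (by simpa using h1), List.getElem_map,
    List.getElem_range]
  congr 1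
  · rw [mul_comm, Nat.mul_add_div hk, Nat.div_eq_of_lt ha, add_zero]
  · rw [mul_comm, Nat.mul_add_mod, Nat.mod_eq_of_lt ha]

theorem mem_mkA {N k : ℕ} {g : ℕ → ℕ → ℕ} {P : ℕ → Bool} {q : ℕ} (hq : q < N) :
    q ∈ (mkA N k g P).2 ↔ P q = true := by
  simp only [mkA, List.mem_map, List.mem_range]
  constructor
  · rintro ⟨x, hx, h⟩
    by_cases hP : P x = true
    · rw [if_pos hP] at h
      rwa [← h]
    · rw [if_neg hP] at h
      omega
  · intro h
    exact ⟨q, hq, by rw [if_pos h]⟩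

theorem lang_mkA {N k : ℕ} {g : ℕ → ℕ → ℕ} {P : ℕ → Bool} (I : ℕ → Prop) (h0 : I 0)
    (hN : ∀ q, I q → q < N) (hg : ∀ q a, I q → a < k → I (g q a)) :
    lang k (mkA N k g P) = {w | P (w.foldl (fun (q : ℕ) (a : Fin k) => g q (a : ℕ)) 0) = true} := by
  have key : ∀ (w : List (Fin k)) (q : ℕ), I q →
      run k (mkA N k g P).1 q w = w.foldl (fun (q : ℕ) (a : Fin k) => g q (a : ℕ)) q ∧
        I (w.foldl (fun (q : ℕ) (a : Fin k) => g q (a : ℕ)) q) := by
    intro w
    induction w with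
    | nil => intro q hq; exact ⟨rfl, hq⟩
    | cons a w ih =>
      intro q hq
      have := ih (g q a) (hg q a hq a.2)
      rw [run, List.foldl_cons, tr_mkA (hN q hq) a.2, List.foldl_cons]
      exact this
  ext w
  rw [mem_lang, (key w 0 h0).1, mem_mkA (hN _ (key w 0 h0).2)]
  rfl

theorem primrec_mkA {σ : Type} [Primcodable σ] {N k : σ → ℕ} {g : σ → ℕ → ℕ → ℕ}
    {P : σ → ℕ → Bool} (hN : Primrec N) (hk : Primrec k)
    (hg : Primrec fun x : σ × ℕ × ℕ => g x.1 x.2.1 x.2.2)
    (hP : Primrec fun x : σ × ℕ => P x.1 x.2) :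
    Primrec fun c => mkA (N c) (k c) (g c) (P c) := by
  refine Primrec.pair ?_ ?_
  · refine Primrec.list_map (Primrec.list_range.comp (Primrec.nat_mul.comp hN hk)) ?_
    refine (hg.comp (Primrec.pair Primrec.fst (Primrec.pair
      (Primrec.nat_div.comp Primrec.snd (hk.comp Primrec.fst))
      (Primrec.nat_mod.comp Primrec.snd (hk.comp Primrec.fst))))).to₂
  · refine Primrec.list_map (Primrec.list_range.comp hN) ?_
    exact (Primrec.ite (Primrec.eq.comp hP (Primrec.const true)) Primrec.snd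
      (hN.comp Primrec.fst)).to₂

/-- Automata whose states are pairs. -/
def mkB (Q K k : ℕ) (st : ℕ × ℕ → ℕ → ℕ × ℕ) (P : ℕ × ℕ → Bool) : List ℕ × List ℕ :=
  mkA (Nat.pair Q K) k (fun x a => Nat.pair (st x.unpair a).1 (st x.unpair a).2)
    (fun x => P x.unpair)

theorem lang_mkB {Q K k : ℕ} {st : ℕ × ℕ → ℕ → ℕ × ℕ} {P : ℕ × ℕ → Bool} (hQ : 0 < Q)
    (hK : 0 < K)
    (hst : ∀ s a, s.1 < Q → s.2 < K → a < k → (st s a).1 < Q ∧ (st s a).2 < K) :
    lang k (mkB Q K k st P) = {w | P (w.foldl (fun (s : ℕ × ℕ) (a : Fin k) => st s (a : ℕ)) (0, 0)) = true} := by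
  rw [mkB, lang_mkA (fun x => ∃ q p, q < Q ∧ p < K ∧ x = Nat.pair q p)]
  · have key : ∀ (w : List (Fin k)) (s : ℕ × ℕ),
        w.foldl (fun (x : ℕ) (a : Fin k) => Nat.pair (st x.unpair (a : ℕ)).1 (st x.unpair (a : ℕ)).2)
          (Nat.pair s.1 s.2) =
        Nat.pair (w.foldl (fun (s : ℕ × ℕ) (a : Fin k) => st s (a : ℕ)) s).1
          (w.foldl (fun (s : ℕ × ℕ) (a : Fin k) => st s (a : ℕ)) s).2 := by
      intro w
      induction w with
      | nil => intro s; rfl
      | cons a w ih =>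
        intro s
        rw [List.foldl_cons, List.foldl_cons, Nat.unpair_pair]
        exact ih _
    ext w
    have := key w (0, 0)
    simp only [Set.mem_ofPred_eq]
    rw [show Nat.pair (0 : ℕ) 0 = 0 from rfl] at this
    rw [this, Nat.unpair_pair]
  · exact ⟨0, 0, hQ, hK, rfl⟩
  · rintro _ ⟨q, p, hq, hp, rfl⟩
    exact (Nat.pair_lt_pair_left p hq).trans (Nat.pair_lt_pair_right Q hp)
  · rintro _ a ⟨q, p, hq, hp, rfl⟩ ha
    rw [Nat.unpair_pair]
    exact ⟨_, _, (hst (q, p) a hq hp ha).1, (hst (q, p) a hq hp ha).2, rfl⟩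

theorem primrec_mkB {σ : Type} [Primcodable σ] {Q K k : σ → ℕ} {st : σ → ℕ × ℕ → ℕ → ℕ × ℕ}
    {P : σ → ℕ × ℕ → Bool} (hQ : Primrec Q) (hK : Primrec K) (hk : Primrec k)
    (hst : Primrec fun x : σ × (ℕ × ℕ) × ℕ => st x.1 x.2.1 x.2.2)
    (hP : Primrec fun x : σ × (ℕ × ℕ) => P x.1 x.2) :
    Primrec fun c => mkB (Q c) (K c) (k c) (st c) (P c) := by
  refine primrec_mkA (Primrec₂.natPair.comp hQ hK) hk ?_ ?_
  · have h : Primrec fun x : σ × ℕ × ℕ => st x.1 x.2.1.unpair x.2.2 :=
      hst.comp (Primrec.pair Primrec.fst (Primrec.pair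
        (Primrec.unpair.comp (Primrec.fst.comp Primrec.snd)) (Primrec.snd.comp Primrec.snd)))
    exact Primrec₂.natPair.comp (Primrec.fst.comp h) (Primrec.snd.comp h)
  · exact hP.comp (Primrec.pair Primrec.fst (Primrec.unpair.comp Primrec.snd))

theorem primrec_bd : Primrec bd := by
  refine Primrec.succ.comp ?_
  exact Primrec.list_foldr Primrec.id (Primrec.const 0)
    ((Primrec.nat_max.comp (Primrec.fst.comp Primrec.snd) (Primrec.snd.comp Primrec.snd)).to₂)

theorem primrec_tr {σ : Type} [Primcodable σ] {k : σ → ℕ} {t : σ → List ℕ} {q a : σ → ℕ}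
    (hk : Primrec k) (ht : Primrec t) (hq : Primrec q) (ha : Primrec a) :
    Primrec fun c => tr (k c) (t c) (q c) (a c) :=
  (Primrec.list_getD 0).comp ht (Primrec.nat_add.comp (Primrec.nat_mul.comp hq hk) ha)

/-- Membership in a list, as a Boolean. -/
def memB (l : List ℕ) (q : ℕ) : Bool := decide (l.idxOf q < l.length)

theorem memB_iff (l : List ℕ) (q : ℕ) : memB l q = true ↔ q ∈ l := by
  rw [memB, decide_eq_true_eq, List.idxOf_lt_length_iff]

theorem primrec_memB {σ : Type} [Primcodable σ] {l : σ → List ℕ} {q : σ → ℕ}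
    (hl : Primrec l) (hq : Primrec q) : Primrec fun c => memB (l c) (q c) :=
  (Primrec.nat_lt.comp (Primrec.list_idxOf.comp hq hl) (Primrec.list_length.comp hl)).decide

end Pool.Agent.Helper964_DD
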