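import Pool.Agent.Helper964_DD.Decode

/-!
# Coding an alphabet by words over two letters
-/

set_option autoImplicit false

namespace Pool.Agent.Helper964_DD

variable {γ : Type} {k : ℕ}

/-- The code `z oᵉ⁺¹ z` of the letter `e`. -/
def cd (z o : γ) (e : Fin k) : List γ := z :: (List.replicate ((e : ℕ) + 1) o ++ [z])

theorem cd_ne_nil (z o : γ) (e : Fin k) : cd z o e ≠ [] := by simp [cd]

theorem cd_length (z o : γ) (e : Fin k) : (cd z o e).length = (e : ℕ) + 3 := by simp [cd]

theorem rep_z {z o : γ} (h : z ≠ o) : ∀ (a b : ℕ) (x x' : List γ),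
    List.replicate a o ++ z :: x = List.replicate b o ++ z :: x' → a = b ∧ x = x' := by
  intro a
  induction a with
  | zero =>
    intro b x x' e
    cases b with
    | zero => simpa using e
    | succ b => simp [List.replicate_succ, h] at e
  | succ a ih =>
    intro b x x' e
    cases b with
    | zero =>
      simp only [List.replicate_succ, List.cons_append, List.replicate_zero, List.nil_append,
        List.cons.injEq] at e
      exact absurd e.1.symm h
    | succ b =>
      simp only [List.replicate_succ, List.cons_append, List.cons.injEq, true_and] at e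
      obtain ⟨h1, h2⟩ := ih b x x' e
      exact ⟨by omega, h2⟩

theorem cd_cancel {z o : γ} (h : z ≠ o) {e e' : Fin k} {x x' : List γ}
    (hx : cd z o e ++ x = cd z o e' ++ x') : e = e' ∧ x = x' := by
  simp only [cd, List.cons_append, List.append_assoc, List.nil_append,
    List.cons.injEq, true_and] at hx
  obtain ⟨h1, h2⟩ := rep_z h _ _ _ _ hx
  exact ⟨Fin.ext (by omega), h2⟩

theorem cd_align {z o : γ} (h : z ≠ o) : ∀ (u : List (Fin k)) (x : List γ) (e : Fin k)
    (y : List γ), u.flatMap (cd z o) = x ++ (cd z o e ++ y) →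
    ∃ u₁ u₂, u = u₁ ++ e :: u₂ ∧ x = u₁.flatMap (cd z o) ∧ y = u₂.flatMap (cd z o) := by
  intro u
  induction u with
  | nil =>
    intro x e y hx
    have := congrArg List.length hx
    simp only [List.flatMap_nil, List.length_nil, List.length_append, cd_length] at this
    omega
  | cons b u ih =>
    intro x e y hx
    rw [List.flatMap_cons] at hx
    rcases List.append_eq_append_iff.1 hx with ⟨c, hc1, hc2⟩ | ⟨c, hc1, hc2⟩
    · obtain ⟨u₁, u₂, h1, h2, h3⟩ := ih c e y hc2
      exact ⟨b :: u₁, u₂, by rw [h1]; rfl, by rw [hc1, h2]; rfl, h3⟩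
    · cases x with
      | nil =>
        rw [List.nil_append] at hc1
        rw [← hc1] at hc2
        obtain ⟨h1, h2⟩ := cd_cancel h hc2
        exact ⟨[], u, by rw [h1]; rfl, rfl, h2⟩
      | cons d x =>
        simp only [cd, List.cons_append, List.cons.injEq] at hc1
        obtain ⟨rfl, hc1⟩ := hc1
        -- the case that `c` is the last letter of the code
        have last : c = [z] → False := by
          rintro rfl
          simp only [cd, List.cons_append, List.append_assoc, List.nil_append,
            List.cons.injEq, true_and] at hc2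
          cases u with
          | nil => simp [List.replicate_succ] at hc2
          | cons b' u =>
            simp only [List.replicate_succ, List.cons_append, List.flatMap_cons, cd,
              List.cons.injEq] at hc2
            exact h hc2.1.symm
        rcases List.append_eq_append_iff.1 hc1 with ⟨d', hd1, hd2⟩ | ⟨d', hd1, hd2⟩
        · cases d' with
          | nil => exact (last (by simpa using hd2.symm)).elim
          | cons f d' =>
            have h1 := congrArg List.length hd2
            simp only [List.length_nil, List.length_append, List.length_cons] at h1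
            have h2 : c = [] := List.eq_nil_of_length_eq_zero (by omega)
            subst h2
            rw [List.nil_append] at hc2
            obtain ⟨u₁, u₂, h3, h4, h5⟩ := ih [] e y (by simpa using hc2.symm)
            refine ⟨b :: u₁, u₂, by rw [h3]; rfl, ?_, h5⟩
            rw [List.flatMap_cons, ← h4]
            rw [List.append_nil] at hd2
            rw [cd, hd1, ← hd2]
            simp
        · cases d' with
          | nil => exact (last (by simpa using hd2)).elim
          | cons f d' =>
            have : f ∈ List.replicate ((b : ℕ) + 1) o := by rw [hd1]; simp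
            have := (List.mem_replicate.1 this).2
            subst this
            rw [hd2] at hc2
            simp only [cd, List.cons_append, List.cons.injEq] at hc2
            exact absurd hc2.1 h

/-- The relation: `w` is the code of `u`. -/
def RR (z o : γ) (u : List (Fin k)) (w : List γ) : Prop := w = u.flatMap (cd z o)

theorem cd_inj {z o : γ} (h : z ≠ o) : ∀ u u' : List (Fin k),
    u.flatMap (cd z o) = u'.flatMap (cd z o) → u = u' := by
  intro u
  induction u with
  | nil =>
    intro u' e
    cases u' with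
    | nil => rfl
    | cons b u' => simp [cd] at e
  | cons a u ih =>
    intro u' e
    cases u' with
    | nil => simp [cd] at e
    | cons b u' =>
      rw [List.flatMap_cons, List.flatMap_cons] at e
      obtain ⟨h1, h2⟩ := cd_cancel h e
      rw [h1, ih u' h2]

theorem dec_RR {z o : γ} (h : z ≠ o) : Dec (RR (k := k) z o) where
  fn u u' w h1 h2 := cd_inj h _ _ (h1.symm.trans h2)
  mul u u' w w' h1 h2 := by
    rw [RR] at h1 h2 ⊢
    rw [h1, h2, List.flatMap_append]
  lift u u' w h1 := by
    rw [RR] at h1
    exact ⟨_, _, by rw [h1, List.flatMap_append], rfl, rfl⟩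

/-- The words which are neither empty nor begin with a code. -/
def Ybad (k : ℕ) (z o : γ) : Set (List γ) := {y | y ≠ [] ∧ ∀ (e : Fin k) x, y ≠ cd z o e ++ x}

theorem Ybad_not {z o : γ} (u : List (Fin k)) : u.flatMap (cd z o) ∉ Ybad k z o := by
  rintro ⟨h1, h2⟩
  cases u with
  | nil => exact h1 rfl
  | cons a u => exact h2 a (u.flatMap (cd z o)) rfl

theorem compl_G {z o : γ} (h : z ≠ o) : (sub (RR (k := k) z o) Set.univ)ᶜ =
    Ybad k z o ∪ {w | ∃ e : Fin k, w ∈ cat Set.univ (cat {cd z o e} (Ybad k z o))} := by
  ext w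
  constructor
  · induction hn : w.length using Nat.strong_induction_on generalizing w with
    | _ n ih =>
      intro hw
      by_cases h1 : w = []
      · exact absurd ⟨[], trivial, h1⟩ hw
      · by_cases h2 : ∃ (e : Fin k) (x : List γ), w = cd z o e ++ x
        · obtain ⟨e, x, rfl⟩ := h2
          have hx : x ∉ sub (RR (k := k) z o) Set.univ := by
            rintro ⟨u, _, hu⟩
            exact hw ⟨e :: u, trivial, by rw [RR] at hu ⊢; rw [hu]; rfl⟩
          rcases ih x.length (by rw [← hn, List.length_append, cd_length]; omega) x rfl hx with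
            h3 | ⟨e', p, _, _, ⟨_, rfl, y, hy, rfl⟩, h3⟩
          · right
            exact ⟨e, [], trivial, _, ⟨_, rfl, x, h3, rfl⟩, rfl⟩
          · right
            exact ⟨e', cd z o e ++ p, trivial, _, ⟨_, rfl, y, hy, rfl⟩, by rw [h3]; simp⟩
        · left
          exact ⟨h1, fun e x hx => h2 ⟨e, x, hx⟩⟩
  · rintro (hw | ⟨e, x, _, _, ⟨_, rfl, y, hy, rfl⟩, rfl⟩)
    · rintro ⟨u, _, hu⟩
      rw [RR] at hu
      rw [hu] at hw
      exact Ybad_not u hw
    · rintro ⟨u, _, hu⟩
      rw [RR] at hu
      obtain ⟨u₁, u₂, _, _, h3⟩ := cd_align h u x e y hu.symm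
      rw [h3] at hy
      exact Ybad_not u₂ hy

theorem TU_Ybad [Finite γ] (z o : γ) : TU (Ybad k z o) := by
  refine TU_prefix _ (k + 2) fun w hw => ?_
  have h1 : w ≠ [] := by
    rintro rfl
    simp at hw
  have h2 : w.take (k + 2) ≠ [] := by
    intro h
    have := congrArg List.length h
    rw [List.length_take] at this
    simp only [List.length_nil] at this
    omega
  have h3 : ∀ e : Fin k, (∃ x, w = cd z o e ++ x) ↔ ∃ x, w.take (k + 2) = cd z o e ++ x := by
    intro e
    constructor
    · rintro ⟨x, rfl⟩
      refine ⟨x.take (k + 2 - (cd z o e).length), ?_⟩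
      rw [List.take_append, List.take_of_length_le]
      rw [cd_length]
      have := e.2
      omega
    · rintro ⟨x, hx⟩
      refine ⟨x ++ w.drop (k + 2), ?_⟩
      rw [← List.append_assoc, ← hx, List.take_append_drop]
  constructor
  · rintro ⟨_, h⟩
    refine ⟨h2, fun e x hx => ?_⟩
    obtain ⟨x', hx'⟩ := (h3 e).2 ⟨x, hx⟩
    exact h e x' hx'
  · rintro ⟨_, h⟩
    refine ⟨h1, fun e x hx => ?_⟩
    obtain ⟨x', hx'⟩ := (h3 e).1 ⟨x, hx⟩
    exact h e x' hx'

theorem sub_RR_univ_mem [Finite γ] {z o : γ} (h : z ≠ o) :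
    sub (RR (k := k) z o) Set.univ ∈ B (α := γ) 1 := by
  rw [← compl_compl (sub (RR (k := k) z o) Set.univ), compl_G h]
  apply B_compl
  have hY : Pol (B (α := γ) 0) (Ybad k z o) := Pol_of_TU (TU_Ybad z o)
  refine B_union (Pol_le hY) ?_
  refine finite_union (P := B 1) (empty_mem 1) (fun _ _ h h' => B_union h h') _ fun e => ?_
  exact Pol_le (Pol_cat (Pol_sub (univ_mem 0)) (Pol_cat (Pol_sub (single_mem 0 _)) hY))

/-- The image of a template. -/
def imgT (z o : γ) : List (Option (Fin k)) → Set (List γ)
  | [] => {[]}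
  | some e :: t => cat {cd z o e} (imgT z o t)
  | none :: t => cat Set.univ (imgT z o t)

theorem imgT_Pol (z o : γ) (t : List (Option (Fin k))) : Pol (B (α := γ) 0) (imgT z o t) := by
  induction t with
  | nil => exact Pol_sub (single_mem 0 _)
  | cons a t ih =>
    cases a with
    | none => exact Pol_cat (Pol_sub (univ_mem 0)) ih
    | some a => exact Pol_cat (Pol_sub (single_mem 0 _)) ih

theorem imgT_of_Tpl (z o : γ) (t : List (Option (Fin k))) : ∀ u ∈ Tpl t,
    u.flatMap (cd z o) ∈ imgT z o t := by
  induction t with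
  | nil =>
    intro u hu
    rw [Tpl, Set.mem_singleton_iff] at hu
    subst hu
    exact rfl
  | cons a t ih =>
    cases a with
    | none =>
      rintro _ ⟨v, _, u, hu, rfl⟩
      rw [List.flatMap_append]
      exact ⟨_, trivial, _, ih u hu, rfl⟩
    | some a =>
      rintro _ ⟨_, rfl, u, hu, rfl⟩
      exact ⟨_, rfl, _, ih u hu, by simp⟩

theorem Tpl_of_imgT {z o : γ} (h : z ≠ o) : ∀ (t : List (Option (Fin k))) (u : List (Fin k)),
    u.flatMap (cd z o) ∈ imgT z o t → u ∈ Tpl t
  | [], u, hu => by
    rw [imgT, Set.mem_singleton_iff] at hu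
    cases u with
    | nil => rfl
    | cons a u => simp [cd] at hu
  | some a :: t, u, hu => by
    obtain ⟨_, rfl, y, hy, e⟩ := hu
    obtain ⟨u₁, u₂, h1, h2, h3⟩ := cd_align h u [] a y (by simpa using e)
    have h4 : u₁ = [] := by
      cases u₁ with
      | nil => rfl
      | cons b u₁ => simp [cd] at h2
    subst h4
    rw [h3] at hy
    exact ⟨[a], rfl, u₂, Tpl_of_imgT h t u₂ hy, by rw [h1]; rfl⟩
  | [none], u, _ => ⟨u, trivial, [], rfl, by simp⟩
  | none :: none :: t, u, hu => by
    obtain ⟨x, _, _, ⟨x', _, y, hy, rfl⟩, e⟩ := hu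
    have h1 := Tpl_of_imgT h (none :: t) u ⟨x ++ x', trivial, y, hy, by rw [e]; simp⟩
    obtain ⟨v, _, v', h2, h3⟩ := h1
    exact ⟨v, trivial, _, ⟨[], trivial, v', h2, rfl⟩, by rw [h3]; simp⟩
  | none :: some a :: t, u, hu => by
    obtain ⟨x, _, _, ⟨_, rfl, y, hy, rfl⟩, e⟩ := hu
    obtain ⟨u₁, u₂, h1, h2, h3⟩ := cd_align h u x a y e
    rw [h3] at hy
    exact ⟨u₁, trivial, _, ⟨[a], rfl, u₂, Tpl_of_imgT h t u₂ hy, rfl⟩, by rw [h1]; simp⟩

theorem sub_RR_Tpl {z o : γ} (h : z ≠ o) (t : List (Option (Fin k))) :
    sub (RR z o) (Tpl t) = sub (RR (k := k) z o) Set.univ ∩ imgT z o t := by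
  ext w
  constructor
  · rintro ⟨u, hu, hw⟩
    refine ⟨⟨u, trivial, hw⟩, ?_⟩
    rw [RR] at hw
    rw [hw]
    exact imgT_of_Tpl z o t u hu
  · rintro ⟨⟨u, _, hw⟩, h2⟩
    refine ⟨u, ?_, hw⟩
    rw [RR] at hw
    rw [hw] at h2
    exact Tpl_of_imgT h t u h2

theorem sub_RR_MC [Finite γ] {z o : γ} (h : z ≠ o) {K : Set (List (Fin k))}
    (hK : K ∈ MC (B (α := Fin k) 0)) : sub (RR z o) K ∈ B (α := γ) 1 := by
  have : ∀ K : Set (List (Fin k)), TU K → sub (RR z o) K ∈ B (α := γ) 1 := by
    intro K hK
    induction hK with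
    | empty => rw [sub_empty]; exact empty_mem 1
    | tpl t =>
      rw [sub_RR_Tpl h]
      exact B_inter (sub_RR_univ_mem h) (Pol_le (imgT_Pol z o t))
    | union L K _ _ h1 h2 => rw [sub_union]; exact B_union h1 h2
  exact this K (TU_Pol (Pol.base K hK))

/-- **Coding an alphabet by words over two letters preserves the positive levels.** -/
theorem code_iff [Finite γ] {z o : γ} (h : z ≠ o) (i : ℕ) (L : Set (List (Fin k))) :
    L ∈ B (1 + i) ↔ sub (RR z o) L ∈ B (α := γ) (1 + i) := by
  constructor
  · have := ((dec_RR h).up 0 (by simpa using sub_RR_univ_mem h)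
      (fun K hK => by simpa using sub_RR_MC h hK) i).1 L
    simpa using this
  · intro hL
    have h1 := (pre_mem (cd (k := k) z o) (cd_ne_nil z o) (1 + i)).1 _ hL [] []
    have h2 : pre (cd (k := k) z o) (sub (RR z o) L) [] [] = L := by
      ext u
      constructor
      · rintro ⟨u', hu', h'⟩
        rw [RR] at h'
        have := cd_inj h u u' (by simpa using h')
        rw [this]
        exact hu'
      · intro hu
        exact ⟨u, hu, by simp [RR]⟩
    rwa [h2] at h1

end Pool.Agent.Helper964_DD
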