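import Pool.Agent.Helper964_DD.HidDec

/-!
# Hiding all letters raises the level exactly by one
-/

set_option autoImplicit false

namespace Pool.Agent.Helper964_DD

variable {α γ : Type}

theorem gdec_rep_pad (cl : γ → Cl α) {x : γ} (hx : cl x = .pad) (n : ℕ) (b : Bool) (w : List γ) :
    gdec cl b (rep [x] n ++ w) = gdec cl b w := by
  induction n with
  | zero => rfl
  | succ n ih =>
    rw [rep_succ]
    simp only [List.cons_append, List.nil_append]
    rw [gdec, hx]
    exact ih

theorem rep_mem_allIn {D : Set γ} {u : List γ} (h : u ∈ allIn D) (n : ℕ) : rep u n ∈ allIn D := by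
  intro c hc
  simp only [rep, List.mem_flatten, List.mem_replicate] at hc
  obtain ⟨v, ⟨_, rfl⟩, hc⟩ := hc
  exact h c hc

theorem blk_mem {cl : γ → Cl α} {H : Type} {x : γ} {e : H → γ} {i : H → α}
    (hx : cl x = .pad) (he : ∀ a, cl (e a) = .hid (i a)) (l : List H) (n : ℕ) :
    blk x e l n ∈ YY cl := by
  intro c hc
  simp only [blk, List.mem_flatMap, List.mem_cons] at hc
  obtain ⟨b, _, rfl | hc⟩ := hc
  · simp [Cl.start, he]
  · simp only [rep, List.mem_flatten, List.mem_replicate] at hc
    obtain ⟨v, ⟨_, rfl⟩, hc⟩ := hc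
    simp only [List.mem_singleton] at hc
    subst hc
    simp [Cl.start, hx]

theorem HR_enc_letter {cl : γ → Cl α} {H : Type} {sh x : γ} {e : H → γ} {i : H → α}
    (hsh : cl sh = .sh) (hx : cl x = .pad) (he : ∀ a, cl (e a) = .hid (i a))
    (l : List H) (n : ℕ) (a : H) : HR cl [i a] (enc sh x e l n a) := by
  refine ⟨?_, ?_⟩
  · intro c v h
    simp only [enc, List.cons.injEq] at h
    rw [← h.1, hsh]
    trivial
  · rw [enc, gdec, hsh]
    change gdec cl true _ = _
    rw [gdec_rep_pad cl hx, gdec, he]
    simp only [if_true, List.cons.injEq, true_and]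
    apply gdec_YY
    intro c hc
    rcases List.mem_append.1 hc with hc | hc
    · exact rep_mem_allIn (D := {c | ¬ (cl c).start})
        (by intro d hd; simp only [List.mem_singleton] at hd; subst hd; simp [Cl.start, hx]) n c hc
    · exact rep_mem_allIn (blk_mem hx he l n) n c hc

theorem HR_enc {cl : γ → Cl α} {H : Type} {sh x : γ} {e : H → γ} {i : H → α}
    (hsh : cl sh = .sh) (hx : cl x = .pad) (he : ∀ a, cl (e a) = .hid (i a))
    (l : List H) (n : ℕ) (u : List H) : HR cl (u.map i) (u.flatMap (enc sh x e l n)) := by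
  induction u with
  | nil => exact ⟨nil_good cl, rfl⟩
  | cons a u ih =>
    have := (dec_HR cl).mul _ _ _ _ (HR_enc_letter hsh hx he l n a) ih
    simpa using this

/-- **Hiding all letters raises the level exactly by one.** -/
theorem hid_iff [Finite α] [Finite γ] {cl : γ → Cl α} {sh x : γ} {e : α → γ}
    (hsh : cl sh = .sh) (hx : cl x = .pad) (he : ∀ a, cl (e a) = .hid a) (i : ℕ)
    (L : Set (List α)) : L ∈ B (1 + i) ↔ sub (HR cl) L ∈ B (1 + i + 1) := by
  constructor
  · exact (sub_HR_up cl i).1 L
  · intro h
    cases nonempty_fintype α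
    classical
    let l : List α := Finset.univ.toList
    have hl : ∀ a, a ∈ l := by simp [l]
    have h1 := (shift (tgt_B (α := α) 0) Filter.atTop (fun n => enc sh x e l n) 1
      (fun K hK => by simpa using pre_hid sh x e l hl K hK) (i + 1)).1 (sub (HR cl) L)
      (by rw [show 1 + (i + 1) = 1 + i + 1 by omega]; exact h)
    obtain ⟨n, hn⟩ := h1.exists
    have h2 := hn [] []
    have h3 : pre (enc sh x e l n) (sub (HR cl) L) [] [] = L := by
      ext u
      have hu : HR cl u (u.flatMap (enc sh x e l n)) := by
        have := HR_enc hsh hx (i := id) he l n u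
        simpa using this
      constructor
      · rintro ⟨u', hu', h⟩
        have := (dec_HR cl).fn u u' _ hu (by simpa using h)
        rw [this]
        exact hu'
      · intro h
        exact ⟨u, h, by simpa using hu⟩
    rw [h3] at h2
    simpa [add_comm] using h2

end Pool.Agent.Helper964_DD
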