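import Pool.Agent.Helper964_DD.Aut
import Pool.Agent.Helper964_DD.HidIff
import Pool.Agent.Helper964_DD.Code

/-!
# The automata of the codings
-/

set_option autoImplicit false

namespace Pool.Agent.Helper964_DD

/-! ### Hidden letters -/

/-- The classes of the letters of `{0, …, m + 1}`: the letters below `v` are visible, the other
letters below `m` are hidden, `m` is the sharp and `m + 1` the padding letter. -/
def clF (v m : ℕ) (e : Fin (m + 2)) : Cl (Fin m) :=
  if h : (e : ℕ) < m then (if (e : ℕ) < v then .vis ⟨e, h⟩ else .hid ⟨e, h⟩)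
  else if (e : ℕ) = m then .sh else .pad

/-- The transition function. The phases are: 0 (start), 1 (idle), 2 (after a sharp), 3 (dead). -/
def hst (v m : ℕ) (t : List ℕ) (s : ℕ × ℕ) (a : ℕ) : ℕ × ℕ :=
  if s.2 = 3 then (0, 3)
  else if a < m then
    (if a < v ∨ s.2 = 2 then (tr m t s.1 a, 1)
    else if s.2 = 0 then (0, 3) else (s.1, 1))
  else if a = m then (s.1, 2)
  else if s.2 = 0 then (0, 3) else (s.1, s.2)

/-- The automaton of the coded words. -/
def hidA (v m : ℕ) (c : List ℕ × List ℕ) : List ℕ × List ℕ :=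
  mkB (bd c.1) 4 (m + 2) (hst v m c.1) (fun s => decide (s.2 < 3) && memB c.2 s.1)

theorem hst_bound (v m : ℕ) (t : List ℕ) (s : ℕ × ℕ) (a : ℕ) (h1 : s.1 < bd t) (h2 : s.2 < 4) :
    (hst v m t s a).1 < bd t ∧ (hst v m t s a).2 < 4 := by
  have h0 := bd_pos t
  have h3 := tr_lt m t s.1 a
  unfold hst
  split_ifs <;> exact ⟨by assumption, by first | assumption | norm_num⟩

theorem foldl_dead (v m : ℕ) (t : List ℕ) (w : List (Fin (m + 2))) :
    w.foldl (fun (s : ℕ × ℕ) (a : Fin (m + 2)) => hst v m t s (a : ℕ)) (0, 3) = (0, 3) := by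
  induction w with
  | nil => rfl
  | cons a w ih => rw [List.foldl_cons]; exact ih

theorem foldl_hid (v m : ℕ) (t : List ℕ) (w : List (Fin (m + 2))) : ∀ (q : ℕ) (b : Bool),
    ∃ p, p < 3 ∧ w.foldl (fun (s : ℕ × ℕ) (a : Fin (m + 2)) => hst v m t s (a : ℕ))
      (q, if b then 2 else 1) = (run m t q (gdec (clF v m) b w), p) := by
  induction w with
  | nil => intro q b; exact ⟨_, by split_ifs <;> norm_num, rfl⟩
  | cons a w ih =>
    intro q b
    rw [List.foldl_cons, gdec]
    by_cases h1 : (a : ℕ) < m
    · by_cases h2 : (a : ℕ) < v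
      · have hcl : clF v m a = .vis ⟨a, h1⟩ := by simp [clF, h1, h2]
        obtain ⟨p, hp, h⟩ := ih (tr m t q a) false
        refine ⟨p, hp, ?_⟩
        rw [hcl]
        have e : hst v m t (q, if b then 2 else 1) (a : ℕ) = (tr m t q a, 1) := by
          cases b <;> simp [hst, h1, h2]
        rw [e]
        exact h
      · have hcl : clF v m a = .hid ⟨a, h1⟩ := by simp [clF, h1, h2]
        rw [hcl]
        cases b with
        | true =>
          obtain ⟨p, hp, h⟩ := ih (tr m t q a) false
          refine ⟨p, hp, ?_⟩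
          have e : hst v m t (q, if true then 2 else 1) (a : ℕ) = (tr m t q a, 1) := by
            simp [hst, h1]
          rw [e]
          exact h
        | false =>
          obtain ⟨p, hp, h⟩ := ih q false
          refine ⟨p, hp, ?_⟩
          have e : hst v m t (q, if false then 2 else 1) (a : ℕ) = (q, 1) := by
            simp [hst, h1, h2]
          rw [e]
          exact h
    · by_cases h2 : (a : ℕ) = m
      · have hcl : clF v m a = .sh := by simp [clF, h2]
        rw [hcl]
        obtain ⟨p, hp, h⟩ := ih q true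
        refine ⟨p, hp, ?_⟩
        have e : hst v m t (q, if b then 2 else 1) (a : ℕ) = (q, 2) := by
          cases b <;> simp [hst, h1, h2]
        rw [e]
        exact h
      · have hcl : clF v m a = .pad := by simp [clF, h1, h2]
        rw [hcl]
        obtain ⟨p, hp, h⟩ := ih q b
        refine ⟨p, hp, ?_⟩
        have e : hst v m t (q, if b then 2 else 1) (a : ℕ) = (q, if b then 2 else 1) := by
          cases b <;> simp [hst, h1, h2]
        rw [e]
        exact h

theorem lang_hidA (v m : ℕ) (c : List ℕ × List ℕ) :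
    lang (m + 2) (hidA v m c) = sub (HR (clF v m)) (lang m c) := by
  rw [hidA, lang_mkB (bd_pos _) (by norm_num) (fun s a h1 h2 _ => hst_bound v m c.1 s a h1 h2)]
  have hsub : ∀ w, w ∈ sub (HR (clF v m)) (lang m c) ↔
      w ∈ good (clF v m) ∧ run m c.1 0 (gdec (clF v m) false w) ∈ c.2 := by
    intro w
    constructor
    · rintro ⟨u, hu, h1, h2⟩
      exact ⟨h1, by rw [h2]; exact hu⟩
    · rintro ⟨h1, h2⟩
      exact ⟨_, h2, h1, rfl⟩
  ext w
  rw [hsub]
  simp only [Set.mem_ofPred_eq, Bool.and_eq_true, decide_eq_true_eq, memB_iff]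
  cases w with
  | nil =>
    simp only [List.foldl_nil]
    exact ⟨fun h => ⟨nil_good _, h.2⟩, fun h => ⟨by norm_num, h.2⟩⟩
  | cons a w =>
    have hgood : ∀ h : (clF v m a).start, (a :: w) ∈ good (clF v m) := by
      intro h c v hc
      simp only [List.cons.injEq] at hc
      rw [← hc.1]
      exact h
    have hbad : ¬ (clF v m a).start → (a :: w) ∉ good (clF v m) := fun h h' => h (h' a w rfl)
    rw [List.foldl_cons]
    by_cases h1 : (a : ℕ) < m
    · by_cases h2 : (a : ℕ) < v
      · have hcl : clF v m a = .vis ⟨a, h1⟩ := by simp [clF, h1, h2]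
        obtain ⟨p, hp, h⟩ := foldl_hid v m c.1 w (tr m c.1 0 a) false
        have e : hst v m c.1 (0, 0) (a : ℕ) = (tr m c.1 0 a, 1) := by simp [hst, h1, h2]
        rw [e]
        simp only [Bool.false_eq_true, if_false] at h
        rw [h, gdec, hcl]
        constructor
        · rintro ⟨_, h⟩
          exact ⟨hgood (by rw [hcl]; trivial), h⟩
        · rintro ⟨_, h⟩
          exact ⟨hp, h⟩
      · have hcl : clF v m a = .hid ⟨a, h1⟩ := by simp [clF, h1, h2]
        have e : hst v m c.1 (0, 0) (a : ℕ) = (0, 3) := by simp [hst, h1, h2]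
        rw [e, foldl_dead]
        refine iff_of_false (fun h => absurd h.1 (by norm_num)) fun h => ?_
        exact hbad (by rw [hcl]; exact id) h.1
    · by_cases h2 : (a : ℕ) = m
      · have hcl : clF v m a = .sh := by simp [clF, h1, h2]
        obtain ⟨p, hp, h⟩ := foldl_hid v m c.1 w 0 true
        have e : hst v m c.1 (0, 0) (a : ℕ) = (0, 2) := by simp [hst, h1, h2]
        rw [e]
        simp only [if_true] at h
        rw [h, gdec, hcl]
        constructor
        · rintro ⟨_, h⟩
          exact ⟨hgood (by rw [hcl]; trivial), h⟩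
        · rintro ⟨_, h⟩
          exact ⟨hp, h⟩
      · have hcl : clF v m a = .pad := by simp [clF, h1, h2]
        have e : hst v m c.1 (0, 0) (a : ℕ) = (0, 3) := by simp [hst, h1, h2]
        rw [e, foldl_dead]
        refine iff_of_false (fun h => absurd h.1 (by norm_num)) fun h => ?_
        exact hbad (by rw [hcl]; exact id) h.1

theorem primrec_hidA : Primrec fun x : ℕ × ℕ × List ℕ × List ℕ => hidA x.1 x.2.1 x.2.2 := by
  have hv : Primrec fun x : (ℕ × ℕ × List ℕ × List ℕ) × (ℕ × ℕ) × ℕ => x.1.1 :=
    Primrec.fst.comp Primrec.fst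
  have hm : Primrec fun x : (ℕ × ℕ × List ℕ × List ℕ) × (ℕ × ℕ) × ℕ => x.1.2.1 :=
    Primrec.fst.comp (Primrec.snd.comp Primrec.fst)
  have ht : Primrec fun x : (ℕ × ℕ × List ℕ × List ℕ) × (ℕ × ℕ) × ℕ => x.1.2.2.1 :=
    Primrec.fst.comp (Primrec.snd.comp (Primrec.snd.comp Primrec.fst))
  have hs1 : Primrec fun x : (ℕ × ℕ × List ℕ × List ℕ) × (ℕ × ℕ) × ℕ => x.2.1.1 :=
    Primrec.fst.comp (Primrec.fst.comp Primrec.snd)
  have hs2 : Primrec fun x : (ℕ × ℕ × List ℕ × List ℕ) × (ℕ × ℕ) × ℕ => x.2.1.2 :=
    Primrec.snd.comp (Primrec.fst.comp Primrec.snd)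
  have ha : Primrec fun x : (ℕ × ℕ × List ℕ × List ℕ) × (ℕ × ℕ) × ℕ => x.2.2 :=
    Primrec.snd.comp Primrec.snd
  refine primrec_mkB (primrec_bd.comp (Primrec.fst.comp (Primrec.snd.comp Primrec.snd)))
    (Primrec.const 4) (Primrec.nat_add.comp (Primrec.fst.comp Primrec.snd) (Primrec.const 2))
    ?_ ?_
  · unfold hst
    refine Primrec.ite (Primrec.eq.comp hs2 (Primrec.const 3)) (Primrec.const (0, 3)) ?_
    refine Primrec.ite (Primrec.nat_lt.comp ha hm) ?_ ?_
    · refine Primrec.ite ((Primrec.nat_lt.comp ha hv).or (Primrec.eq.comp hs2 (Primrec.const 2)))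
        (Primrec.pair (primrec_tr hm ht hs1 ha) (Primrec.const 1)) ?_
      exact Primrec.ite (Primrec.eq.comp hs2 (Primrec.const 0)) (Primrec.const (0, 3))
        (Primrec.pair hs1 (Primrec.const 1))
    · refine Primrec.ite (Primrec.eq.comp ha hm) (Primrec.pair hs1 (Primrec.const 2)) ?_
      exact Primrec.ite (Primrec.eq.comp hs2 (Primrec.const 0)) (Primrec.const (0, 3))
        (Primrec.pair hs1 hs2)
  · refine Primrec.and.comp ?_ ?_
    · exact (Primrec.nat_lt.comp (Primrec.snd.comp Primrec.snd) (Primrec.const 3)).decide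
    · exact primrec_memB (Primrec.snd.comp (Primrec.snd.comp (Primrec.snd.comp Primrec.fst)))
        (Primrec.fst.comp Primrec.snd)

/-! ### The coding over two letters -/

/-- The transition function. The phases are: 0 (between two codes), `j + 1` (after `z oʲ`) and
`k + 2` (dead). -/
def cst (k : ℕ) (t : List ℕ) (s : ℕ × ℕ) (a : ℕ) : ℕ × ℕ :=
  if a = 0 then
    (if s.2 = 0 then (s.1, 1)
    else if s.2 = 1 then (0, k + 2)
    else if s.2 < k + 2 then (tr k t s.1 (s.2 - 2), 0) else (0, k + 2))
  else if a = 1 then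
    (if s.2 = 0 then (0, k + 2)
    else if s.2 ≤ k then (s.1, s.2 + 1) else (0, k + 2))
  else (0, k + 2)

/-- The automaton of the coded words. -/
def codA (n k : ℕ) (c : List ℕ × List ℕ) : List ℕ × List ℕ :=
  mkB (bd c.1) (k + 3) n (cst k c.1) (fun s => decide (s.2 = 0) && memB c.2 s.1)

theorem cst_bound (k : ℕ) (t : List ℕ) (s : ℕ × ℕ) (a : ℕ) (h1 : s.1 < bd t) :
    (cst k t s a).1 < bd t ∧ (cst k t s a).2 < k + 3 := by
  have h0 := bd_pos t
  have h3 := tr_lt k t s.1 (s.2 - 2)
  unfold cst
  split_ifs <;> exact ⟨by assumption, by simp only []; omega⟩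

theorem foldl_cdead (n k : ℕ) (t : List ℕ) (w : List (Fin n)) :
    w.foldl (fun (s : ℕ × ℕ) (a : Fin n) => cst k t s (a : ℕ)) (0, k + 2) = (0, k + 2) := by
  induction w with
  | nil => rfl
  | cons a w ih =>
    rw [List.foldl_cons]
    have : cst k t (0, k + 2) (a : ℕ) = (0, k + 2) := by
      unfold cst
      split_ifs <;> first | rfl | (simp_all; done) | (simp_all; omega)
    rw [this]
    exact ih

/-- The state of the coding automaton after a word. -/
def cfold (n k : ℕ) (t : List ℕ) (s : ℕ × ℕ) (w : List (Fin n)) : ℕ × ℕ :=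
  w.foldl (fun (s : ℕ × ℕ) (a : Fin n) => cst k t s (a : ℕ)) s

theorem cfold_cons (n k : ℕ) (t : List ℕ) (s : ℕ × ℕ) (a : Fin n) (w : List (Fin n)) :
    cfold n k t s (a :: w) = cfold n k t (cst k t s a) w := rfl

theorem cfold_dead (n k : ℕ) (t : List ℕ) (w : List (Fin n)) :
    cfold n k t (0, k + 2) w = (0, k + 2) := foldl_cdead n k t w

theorem cfold_spec {n k : ℕ} {z o : Fin n} (hz : (z : ℕ) = 0) (ho : (o : ℕ) = 1)
    (c : List ℕ × List ℕ) (w : List (Fin n)) :
    (∀ q, ((cfold n k c.1 (q, 0) w).2 = 0 ∧ (cfold n k c.1 (q, 0) w).1 ∈ c.2) ↔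
      ∃ u : List (Fin k), w = u.flatMap (cd z o) ∧ run k c.1 q u ∈ c.2) ∧
    (∀ q j, j ≤ k → (((cfold n k c.1 (q, j + 1) w).2 = 0 ∧
      (cfold n k c.1 (q, j + 1) w).1 ∈ c.2) ↔
      ∃ (e : Fin k) (u : List (Fin k)), j ≤ (e : ℕ) + 1 ∧
        w = List.replicate ((e : ℕ) + 1 - j) o ++ z :: u.flatMap (cd z o) ∧
        run k c.1 (tr k c.1 q e) u ∈ c.2)) := by
  have hzo : z ≠ o := by
    intro h
    rw [h, ho] at hz
    exact absurd hz (by norm_num)
  induction w with
  | nil =>
    constructor
    · intro q
      constructor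
      · rintro ⟨_, h⟩
        exact ⟨[], rfl, h⟩
      · rintro ⟨u, h1, h2⟩
        cases u with
        | nil => exact ⟨rfl, h2⟩
        | cons a u => simp [cd] at h1
    · intro q j hj
      refine iff_of_false (fun h => absurd h.1 (by simp [cfold])) ?_
      rintro ⟨e, u, _, h, _⟩
      simp at h
  | cons a w ih =>
    by_cases h0 : (a : ℕ) = 0
    · have haz : a = z := Fin.ext (by rw [h0, hz])
      subst haz
      constructor
      · intro q
        rw [cfold_cons]
        have e : cst k c.1 (q, 0) (a : ℕ) = (q, 0 + 1) := by simp [cst, h0]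
        rw [e, ih.2 q 0 (Nat.zero_le k)]
        constructor
        · rintro ⟨e, u, _, h1, h2⟩
          refine ⟨e :: u, ?_, h2⟩
          rw [h1]
          simp [cd]
        · rintro ⟨u, h1, h2⟩
          cases u with
          | nil => simp at h1
          | cons e u =>
            refine ⟨e, u, by omega, ?_, h2⟩
            simp only [List.flatMap_cons, cd, List.cons_append, List.cons.injEq, true_and] at h1
            rw [h1]
            simp
      · intro q j hj
        rw [cfold_cons]
        cases j with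
        | zero =>
          have e : cst k c.1 (q, 0 + 1) (a : ℕ) = (0, k + 2) := by simp [cst, h0]
          rw [e, cfold_dead]
          refine iff_of_false (fun h => absurd h.1 (by simp)) ?_
          rintro ⟨e, u, _, h, _⟩
          simp only [Nat.sub_zero, List.replicate_succ, List.cons_append, List.cons.injEq] at h
          exact hzo h.1
        | succ j =>
          have e : cst k c.1 (q, j + 1 + 1) (a : ℕ) = (tr k c.1 q j, 0) := by
            simp [cst, h0, show j < k by omega]
          rw [e, ih.1]
          constructor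
          · rintro ⟨u, h1, h2⟩
            refine ⟨⟨j, by omega⟩, u, le_rfl, ?_, h2⟩
            simp [h1]
          · rintro ⟨e, u, h1, h2, h3⟩
            have h4 : (e : ℕ) + 1 - (j + 1) = 0 := by
              by_contra h
              obtain ⟨d, hd⟩ := Nat.exists_eq_succ_of_ne_zero h
              rw [hd] at h2
              simp only [List.replicate_succ, List.cons_append, List.cons.injEq] at h2
              exact hzo h2.1
            have h5 : (e : ℕ) = j := by omega
            rw [h4] at h2
            refine ⟨u, by simpa using h2, by rwa [h5] at h3⟩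
    · by_cases h1 : (a : ℕ) = 1
      · have hao : a = o := Fin.ext (by rw [h1, ho])
        subst hao
        constructor
        · intro q
          rw [cfold_cons]
          have e : cst k c.1 (q, 0) (a : ℕ) = (0, k + 2) := by simp [cst, h1]
          rw [e, cfold_dead]
          refine iff_of_false (fun h => absurd h.1 (by simp)) ?_
          rintro ⟨u, h, _⟩
          cases u with
          | nil => simp at h
          | cons e u =>
            simp only [List.flatMap_cons, cd, List.cons_append, List.cons.injEq] at h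
            exact hzo h.1.symm
        · intro q j hj
          rw [cfold_cons]
          by_cases hjk : j + 1 ≤ k
          · have e : cst k c.1 (q, j + 1) (a : ℕ) = (q, (j + 1) + 1) := by simp [cst, h1, hjk]
            rw [e, ih.2 q (j + 1) hjk]
            constructor
            · rintro ⟨e, u, h2, h3, h4⟩
              refine ⟨e, u, by omega, ?_, h4⟩
              rw [h3, show (e : ℕ) + 1 - j = ((e : ℕ) + 1 - (j + 1)) + 1 by omega,
                List.replicate_succ]
              rfl
            · rintro ⟨e, u, h2, h3, h4⟩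
              have h5 : j < (e : ℕ) + 1 := by
                by_contra h
                rw [show (e : ℕ) + 1 - j = 0 by omega] at h3
                simp only [List.replicate_zero, List.nil_append, List.cons.injEq] at h3
                exact hzo h3.1.symm
              refine ⟨e, u, by omega, ?_, h4⟩
              rw [show (e : ℕ) + 1 - j = ((e : ℕ) + 1 - (j + 1)) + 1 by omega,
                List.replicate_succ] at h3
              simpa using h3
          · have e : cst k c.1 (q, j + 1) (a : ℕ) = (0, k + 2) := by simp [cst, h1, hjk]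
            rw [e, cfold_dead]
            refine iff_of_false (fun h => absurd h.1 (by simp)) ?_
            rintro ⟨e, u, _, h, _⟩
            rw [show (e : ℕ) + 1 - j = 0 by have := e.2; omega] at h
            simp only [List.replicate_zero, List.nil_append, List.cons.injEq] at h
            exact hzo h.1.symm
      · have hst : ∀ s, cst k c.1 s (a : ℕ) = (0, k + 2) := fun s => by simp [cst, h0, h1]
        have haz : a ≠ z := fun h => h0 (by rw [h, hz])
        have hao : a ≠ o := fun h => h1 (by rw [h, ho])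
        constructor
        · intro q
          rw [cfold_cons, hst, cfold_dead]
          refine iff_of_false (fun h => absurd h.1 (by simp)) ?_
          rintro ⟨u, h, _⟩
          cases u with
          | nil => simp at h
          | cons e u =>
            simp only [List.flatMap_cons, cd, List.cons_append, List.cons.injEq] at h
            exact haz h.1
        · intro q j hj
          rw [cfold_cons, hst, cfold_dead]
          refine iff_of_false (fun h => absurd h.1 (by simp)) ?_
          rintro ⟨e, u, _, h, _⟩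
          cases hd : (e : ℕ) + 1 - j with
          | zero =>
            rw [hd] at h
            simp only [List.replicate_zero, List.nil_append, List.cons.injEq] at h
            exact haz h.1
          | succ d =>
            rw [hd] at h
            simp only [List.replicate_succ, List.cons_append, List.cons.injEq] at h
            exact hao h.1

theorem lang_codA {n k : ℕ} {z o : Fin n} (hz : (z : ℕ) = 0) (ho : (o : ℕ) = 1)
    (c : List ℕ × List ℕ) : lang n (codA n k c) = sub (RR z o) (lang k c) := by
  rw [codA, lang_mkB (bd_pos _) (by omega) (fun s a h1 _ _ => cst_bound k c.1 s a h1)]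
  ext w
  have h := (cfold_spec hz ho (k := k) c w).1 0
  simp only [Set.mem_ofPred_eq, Bool.and_eq_true, decide_eq_true_eq, memB_iff]
  rw [cfold] at h
  rw [h]
  constructor
  · rintro ⟨u, h1, h2⟩
    exact ⟨u, h2, h1⟩
  · rintro ⟨u, h1, h2⟩
    exact ⟨u, h2, h1⟩

theorem primrec_codA (n : ℕ) : Primrec fun x : ℕ × List ℕ × List ℕ => codA n x.1 x.2 := by
  have hk : Primrec fun x : (ℕ × List ℕ × List ℕ) × (ℕ × ℕ) × ℕ => x.1.1 :=
    Primrec.fst.comp Primrec.fst
  have ht : Primrec fun x : (ℕ × List ℕ × List ℕ) × (ℕ × ℕ) × ℕ => x.1.2.1 :=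
    Primrec.fst.comp (Primrec.snd.comp Primrec.fst)
  have hs1 : Primrec fun x : (ℕ × List ℕ × List ℕ) × (ℕ × ℕ) × ℕ => x.2.1.1 :=
    Primrec.fst.comp (Primrec.fst.comp Primrec.snd)
  have hs2 : Primrec fun x : (ℕ × List ℕ × List ℕ) × (ℕ × ℕ) × ℕ => x.2.1.2 :=
    Primrec.snd.comp (Primrec.fst.comp Primrec.snd)
  have ha : Primrec fun x : (ℕ × List ℕ × List ℕ) × (ℕ × ℕ) × ℕ => x.2.2 :=
    Primrec.snd.comp Primrec.snd
  have hk2 : Primrec fun x : (ℕ × List ℕ × List ℕ) × (ℕ × ℕ) × ℕ => x.1.1 + 2 :=
    Primrec.nat_add.comp hk (Primrec.const 2)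
  have hdead : Primrec fun x : (ℕ × List ℕ × List ℕ) × (ℕ × ℕ) × ℕ => (0, x.1.1 + 2) :=
    Primrec.pair (Primrec.const 0) hk2
  refine primrec_mkB (primrec_bd.comp (Primrec.fst.comp Primrec.snd))
    (Primrec.nat_add.comp Primrec.fst (Primrec.const 3)) (Primrec.const n) ?_ ?_
  · unfold cst
    refine Primrec.ite (Primrec.eq.comp ha (Primrec.const 0)) ?_ ?_
    · refine Primrec.ite (Primrec.eq.comp hs2 (Primrec.const 0))
        (Primrec.pair hs1 (Primrec.const 1)) ?_
      refine Primrec.ite (Primrec.eq.comp hs2 (Primrec.const 1)) hdead ?_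
      refine Primrec.ite (Primrec.nat_lt.comp hs2 hk2) ?_ hdead
      exact Primrec.pair (primrec_tr hk ht hs1 (Primrec.nat_sub.comp hs2 (Primrec.const 2)))
        (Primrec.const 0)
    · refine Primrec.ite (Primrec.eq.comp ha (Primrec.const 1)) ?_ hdead
      refine Primrec.ite (Primrec.eq.comp hs2 (Primrec.const 0)) hdead ?_
      refine Primrec.ite (Primrec.nat_le.comp hs2 hk) ?_ hdead
      exact Primrec.pair hs1 (Primrec.nat_add.comp hs2 (Primrec.const 1))
  · refine Primrec.and.comp ?_ ?_
    · exact (Primrec.eq.comp (Primrec.snd.comp Primrec.snd) (Primrec.const 0)).decide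
    · exact primrec_memB (Primrec.snd.comp (Primrec.snd.comp Primrec.fst))
        (Primrec.fst.comp Primrec.snd)

/-! ### Composition -/

/-- One hiding step with all letters hidden. -/
def hstep (x : ℕ × List ℕ × List ℕ) : ℕ × List ℕ × List ℕ := (x.1 + 2, hidA 0 x.1 x.2)

theorem primrec_hstep : Primrec hstep :=
  Primrec.pair (Primrec.nat_add.comp Primrec.fst (Primrec.const 2))
    (primrec_hidA.comp (Primrec.pair (Primrec.const 0) Primrec.id))

theorem primrec_iterate {f : ℕ × List ℕ × List ℕ → ℕ × List ℕ × List ℕ} (hf : Primrec f)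
    (d : ℕ) : Primrec f^[d] := by
  induction d with
  | zero => exact Primrec.id
  | succ d ih => exact ih.comp hf

theorem hstep_iff (x : ℕ × List ℕ × List ℕ) (i : ℕ) : lang x.1 x.2 ∈ B (1 + i) ↔
    lang (hstep x).1 (hstep x).2 ∈ B (1 + i + 1) := by
  have hl : lang (x.1 + 2) (hidA 0 x.1 x.2) = sub (HR (clF 0 x.1)) (lang x.1 x.2) :=
    lang_hidA 0 x.1 x.2
  have key := hid_iff (α := Fin x.1) (γ := Fin (x.1 + 2)) (cl := clF 0 x.1)
    (sh := ⟨x.1, by omega⟩) (x := ⟨x.1 + 1, by omega⟩) (e := fun a => ⟨a, by omega⟩)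
    (by simp [clF]) (by simp [clF]) (fun a => by simp [clF]) i (lang x.1 x.2)
  rw [← hl] at key
  exact key

theorem hstep_iterate_iff (d : ℕ) (x : ℕ × List ℕ × List ℕ) (i : ℕ) :
    lang x.1 x.2 ∈ B (1 + i) ↔ lang (hstep^[d] x).1 (hstep^[d] x).2 ∈ B (1 + i + d) := by
  induction d generalizing x i with
  | zero => rfl
  | succ d ih =>
    rw [hstep_iff, Function.iterate_succ_apply]
    have := ih (hstep x) (i + 1)
    rw [show 1 + (i + 1) + d = 1 + i + (d + 1) by omega,
      show 1 + (i + 1) = 1 + i + 1 by omega] at this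
    exact this

/-- The reduction: hide `d` times, then code over two letters. -/
def red (n d : ℕ) (x : ℕ × List ℕ × List ℕ) : List ℕ × List ℕ :=
  codA n (hstep^[d] x).1 (hstep^[d] x).2

theorem primrec_red (n d : ℕ) : Primrec (red n d) :=
  (primrec_codA n).comp (primrec_iterate primrec_hstep d)

theorem red_iff (n d : ℕ) (hn : 2 ≤ n) (x : ℕ × List ℕ × List ℕ) (i : ℕ) :
    lang x.1 x.2 ∈ B (1 + i) ↔ lang n (red n d x) ∈ B (1 + i + d) := by
  rw [hstep_iterate_iff d x i, red,
    lang_codA (z := (⟨0, by omega⟩ : Fin n)) (o := ⟨1, by omega⟩) rfl rfl]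
  have h : (⟨0, by omega⟩ : Fin n) ≠ ⟨1, by omega⟩ := by
    intro h
    simp at h
  have := code_iff (k := (hstep^[d] x).1) h (i + d) (lang (hstep^[d] x).1 (hstep^[d] x).2)
  rw [show 1 + (i + d) = 1 + i + d by omega] at this
  exact this

end Pool.Agent.Helper964_DD
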