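import Pool.Agent.Helper964_DD.Insert
import Pool.Agent.Helper964_DD.HidAut

/-!
# From half levels to full levels
-/

set_option autoImplicit false

namespace Pool.Agent.Helper964_DD

variable {α γ : Type}

/-- The words which contain a block `d w d` with `w` in `L`. -/
def bar (e : α → γ) (d : γ) (L : Set (List α)) : Set (List γ) :=
  {z | ∃ a, ∃ w ∈ L, ∃ b, z = a ++ d :: (w.map e ++ d :: b)}

theorem split_mark {e : α → γ} {d : γ} (hd : ∀ a, e a ≠ d) : ∀ (x : List α) (a r s : List γ),
    x.map e ++ d :: r = a ++ d :: s →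
    (a = x.map e ∧ r = s) ∨ (∃ a', a = x.map e ++ d :: a' ∧ r = a' ++ d :: s) := by
  intro x
  induction x with
  | nil =>
    intro a r s h
    cases a with
    | nil => left; simpa using h
    | cons a0 a =>
      simp only [List.map_nil, List.nil_append, List.cons_append, List.cons.injEq] at h
      right
      exact ⟨a, by rw [← h.1]; rfl, h.2⟩
  | cons x0 x ih =>
    intro a r s h
    cases a with
    | nil =>
      simp only [List.map_cons, List.nil_append, List.cons_append, List.cons.injEq] at h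
      exact absurd h.1 (hd x0)
    | cons a0 a =>
      simp only [List.map_cons, List.cons_append, List.cons.injEq] at h
      obtain ⟨rfl, h⟩ := h
      rcases ih a r s h with ⟨h1, h2⟩ | ⟨a', h1, h2⟩
      · left; exact ⟨by rw [h1]; rfl, h2⟩
      · right; exact ⟨a', by rw [h1]; rfl, h2⟩

theorem mark_not_mem {e : α → γ} {d : γ} (hd : ∀ a, e a ≠ d) (w : List α) (a s : List γ) :
    w.map e ≠ a ++ d :: s := by
  intro h
  have : d ∈ w.map e := by rw [h]; simp
  obtain ⟨c, _, hc⟩ := List.mem_map.1 this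
  exact hd c hc

theorem mem_bar_mark {e : α → γ} (he : Function.Injective e) {d : γ} (hd : ∀ a, e a ≠ d)
    (L : Set (List α)) (x : List α) (r : List γ) :
    d :: (x.map e ++ d :: r) ∈ bar e d L ↔ x ∈ L ∨ d :: r ∈ bar e d L := by
  constructor
  · rintro ⟨a, w, hw, b, h⟩
    cases a with
    | nil =>
      simp only [List.nil_append, List.cons.injEq, true_and] at h
      rcases split_mark hd x (w.map e) r b h with ⟨h1, _⟩ | ⟨a', h1, _⟩
      · left
        rw [← List.map_injective_iff.2 he h1]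
        exact hw
      · exact absurd h1 (by
          intro h1
          exact mark_not_mem hd w _ _ h1)
    | cons a0 a =>
      simp only [List.cons_append, List.cons.injEq] at h
      right
      rcases split_mark hd x a r _ h.2 with ⟨_, h2⟩ | ⟨a', _, h2⟩
      · exact ⟨[], w, hw, b, by rw [h2]; rfl⟩
      · exact ⟨d :: a', w, hw, b, by rw [h2]; rfl⟩
  · rintro (h | ⟨a, w, hw, b, h⟩)
    · exact ⟨[], x, h, r, rfl⟩
    · exact ⟨d :: (x.map e ++ a), w, hw, b, by rw [h]; simp⟩

theorem single_not_bar {e : α → γ} {d : γ} (L : Set (List α)) : [d] ∉ bar e d L := by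
  rintro ⟨a, w, _, b, h⟩
  have := congrArg List.length h
  simp only [List.length_append, List.length_cons, List.length_nil, List.length_map] at this
  omega

/-- The word `d x₁ d x₂ ⋯ d xₙ d`. -/
def blocks (e : α → γ) (d : γ) (l : List (List α)) : List γ :=
  l.flatMap (fun x => d :: x.map e) ++ [d]

theorem blocks_cons (e : α → γ) (d : γ) (x : List α) (l : List (List α)) :
    ∃ r, blocks e d l = d :: r ∧ blocks e d (x :: l) = d :: (x.map e ++ d :: r) := by
  cases l with
  | nil => exact ⟨[], by simp [blocks], by simp [blocks]⟩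
  | cons y l => exact ⟨y.map e ++ (l.flatMap (fun x => d :: x.map e) ++ [d]),
      by simp [blocks], by simp [blocks]⟩

theorem blocks_mem_bar {e : α → γ} (he : Function.Injective e) {d : γ} (hd : ∀ a, e a ≠ d)
    (L : Set (List α)) (l : List (List α)) : blocks e d l ∈ bar e d L ↔ ∃ x ∈ l, x ∈ L := by
  induction l with
  | nil => simp [blocks, single_not_bar]
  | cons x l ih =>
    obtain ⟨r, h1, h2⟩ := blocks_cons e d x l
    rw [h2, mem_bar_mark he hd, ← h1, ih]
    simp

theorem blocks_rep (e : α → γ) (d : γ) (x : List α) (n : ℕ) (l : List (List α)) :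
    blocks e d (List.replicate n x ++ l) = rep (d :: x.map e) n ++ blocks e d l := by
  induction n with
  | zero => simp
  | succ n ih =>
    rw [List.replicate_succ, List.cons_append, rep_succ, List.append_assoc, ← ih]
    simp [blocks]

/-! ### Larger alphabets -/

theorem ext_B0 {e : α → γ} (he : Function.Injective e) {K : Set (List α)}
    (hK : K ∈ B (α := α) 0) : ∃ K' ∈ B (α := γ) 0, ∀ w : List α, w.map e ∈ K' ↔ w ∈ K := by
  have hi : ∀ (S : Set (List α)) (w : List α), w.map e ∈ (fun w : List α => w.map e) '' S ↔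
      w ∈ S := by
    intro S w
    constructor
    · rintro ⟨w', hw', h⟩
      rw [← List.map_injective_iff.2 he h]
      exact hw'
    · intro h
      exact ⟨w, h, rfl⟩
  rcases hK with h | h
  · exact ⟨(fun w : List α => w.map e) '' K, Or.inl (h.image _), hi K⟩
  · refine ⟨((fun w : List α => w.map e) '' Kᶜ)ᶜ, Or.inr ?_, fun w => ?_⟩
    · rw [compl_compl]
      exact h.image _
    · rw [Set.mem_compl_iff, hi]
      simp

theorem ext_prodL {e : α → γ} {C : Set (Set (List γ))} (m : List (Set (List α)))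
    (hm : ∀ K ∈ m, ∃ K' ∈ C, ∀ w : List α, w.map e ∈ K' ↔ w ∈ K) :
    ∃ K' ∈ MC C, ∀ w : List α, w.map e ∈ K' ↔ w ∈ prodL m := by
  induction m with
  | nil =>
    refine ⟨{[]}, MC_one C, fun w => ?_⟩
    simp [prodL]
  | cons K m ih =>
    obtain ⟨M', hM', hM⟩ := ih fun K' h => hm K' (by simp [h])
    obtain ⟨K', hK', hK⟩ := hm K (by simp)
    refine ⟨cat K' M', MC_cat (MC_sub hK') hM', fun w => ?_⟩
    constructor
    · rintro ⟨u, hu, v, hv, h⟩
      obtain ⟨u₁, v₁, rfl, rfl, rfl⟩ := List.map_eq_append_iff.1 h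
      exact ⟨u₁, (hK u₁).1 hu, v₁, (hM v₁).1 hv, rfl⟩
    · rintro ⟨u, hu, v, hv, rfl⟩
      exact ⟨u.map e, (hK u).2 hu, v.map e, (hM v).2 hv, by simp⟩

theorem ext_B {e : α → γ} (he : Function.Injective e) (i : ℕ) : ∀ K ∈ B (α := α) i,
    ∃ K' ∈ B (α := γ) i, ∀ w : List α, w.map e ∈ K' ↔ w ∈ K := by
  induction i with
  | zero => exact fun K hK => ext_B0 he hK
  | succ i ih =>
    refine B_induction ?_ ?_ ?_
    · rintro _ ⟨m, hm, rfl⟩
      obtain ⟨K', hK', h⟩ := ext_prodL m fun K hK => ih K (hm K hK)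
      exact ⟨K', BC.base _ hK', h⟩
    · rintro L ⟨K', hK', h⟩
      exact ⟨K'ᶜ, B_compl hK', fun w => not_congr (h w)⟩
    · rintro L K ⟨L', hL', h⟩ ⟨K', hK', h'⟩
      exact ⟨L' ∪ K', B_union hL' hK', fun w => or_congr (h w) (h' w)⟩

theorem ext_Pol {e : α → γ} (he : Function.Injective e) (i : ℕ) {K : Set (List α)}
    (hK : Pol (B i) K) : ∃ K', Pol (B i) K' ∧ ∀ w : List α, w.map e ∈ K' ↔ w ∈ K := by
  induction hK with
  | empty => exact ⟨∅, Pol.empty, fun w => Iff.rfl⟩
  | base K hK =>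
    obtain ⟨m, hm, rfl⟩ := hK
    obtain ⟨K', hK', h⟩ := ext_prodL m fun K hK => ext_B he i K (hm K hK)
    exact ⟨K', Pol.base _ hK', h⟩
  | union L K _ _ h1 h2 =>
    obtain ⟨L', hL', h⟩ := h1
    obtain ⟨K', hK', h'⟩ := h2
    exact ⟨L' ∪ K', Pol.union _ _ hL' hK', fun w => or_congr (h w) (h' w)⟩

theorem mem_allIn_range {e : α → γ} (z : List γ) :
    z ∈ allIn (Set.range e) ↔ ∃ w : List α, z = w.map e := by
  induction z with
  | nil => exact ⟨fun _ => ⟨[], rfl⟩, fun _ => nil_allIn _⟩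
  | cons c z ih =>
    constructor
    · intro h
      obtain ⟨a, ha⟩ := h c (by simp)
      obtain ⟨w, hw⟩ := ih.1 fun d hd => h d (by simp [hd])
      exact ⟨a :: w, by rw [hw, ← ha]; rfl⟩
    · rintro ⟨w, hw⟩ d hd
      rw [hw] at hd
      obtain ⟨a, _, ha⟩ := List.mem_map.1 hd
      exact ⟨a, ha⟩

theorem Pol_img [Finite γ] {e : α → γ} (he : Function.Injective e) (i : ℕ) {K : Set (List α)}
    (hK : Pol (B (1 + i)) K) :
    Pol (B (α := γ) (1 + i)) {z | ∃ w ∈ K, z = w.map e} := by
  obtain ⟨K', hK', h⟩ := ext_Pol he (1 + i) hK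
  have e1 : {z | ∃ w ∈ K, z = w.map e} = allIn (Set.range e) ∩ K' := by
    ext z
    constructor
    · rintro ⟨w, hw, rfl⟩
      exact ⟨(mem_allIn_range _).2 ⟨w, rfl⟩, (h w).2 hw⟩
    · rintro ⟨h1, h2⟩
      obtain ⟨w, rfl⟩ := (mem_allIn_range z).1 h1
      exact ⟨w, (h w).1 h2, rfl⟩
  rw [e1]
  exact Pol_inter (Pol_sub (B_mono (Nat.le_add_right 1 i) (allIn_mem _))) hK'

/-! ### The equivalence -/

theorem bar_Pol [Finite γ] {e : α → γ} (he : Function.Injective e) (d : γ) (i : ℕ)
    {L : Set (List α)} (hL : Pol (B (1 + i)) L) : Pol (B (α := γ) (1 + i)) (bar e d L) := by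
  have e1 : bar e d L = cat Set.univ (cat {[d]} (cat {z | ∃ w ∈ L, z = w.map e}
      (cat {[d]} Set.univ))) := by
    ext z
    constructor
    · rintro ⟨a, w, hw, b, rfl⟩
      exact ⟨a, trivial, _, ⟨[d], rfl, _, ⟨_, ⟨w, hw, rfl⟩, _, ⟨[d], rfl, b, trivial, rfl⟩, rfl⟩,
        rfl⟩, by simp⟩
    · rintro ⟨a, _, _, ⟨_, rfl, _, ⟨_, ⟨w, hw, rfl⟩, _, ⟨_, rfl, b, _, rfl⟩, rfl⟩, rfl⟩, rfl⟩
      exact ⟨a, w, hw, b, by simp⟩
  rw [e1]
  exact Pol_cat (Pol_sub (univ_mem _)) (Pol_cat (Pol_sub (single_mem _ _))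
    (Pol_cat (Pol_img he i hL) (Pol_cat (Pol_sub (single_mem _ _)) (Pol_sub (univ_mem _)))))

theorem Pol_of_bar [Finite α] [Finite γ] {e : α → γ} (he : Function.Injective e) {d : γ}
    (hd : ∀ a, e a ≠ d) (i : ℕ) {L : Set (List α)} (hL : bar e d L ∈ B (α := γ) (i + 1)) :
    Pol (B i) L := by
  obtain ⟨S, hS, hf, N, hN⟩ := insIff_B (i + 1) _ hL
  have key : ∀ x ∈ Lᶜ, ∀ y ∈ L, ∃ Q ∈ S, y ∈ pre (fun a => [e a]) Q [d] [] ∧
      x ∉ pre (fun a => [e a]) Q [d] [] := by
    intro x hx y hy
    by_contra hcon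
    have hpre : ∀ (Q : Set (List γ)) (w : List α),
        w ∈ pre (fun a => [e a]) Q [d] [] ↔ d :: w.map e ∈ Q := by
      intro Q w
      simp only [pre, Set.mem_ofPred_eq, List.append_nil, List.singleton_append]
      rw [← List.map_eq_flatMap]
    have ho : Ord S (d :: y.map e) (d :: x.map e) := by
      intro Q hQ h1
      by_contra h2
      exact hcon ⟨Q, hQ, (hpre Q y).2 h1, fun h => h2 ((hpre Q x).1 h)⟩
    have h1 := hN N le_rfl (d :: x.map e) (d :: y.map e) (by simp) ho [] [d]
    have h2 : [] ++ (rep (d :: x.map e) N ++ [d]) = blocks e d (List.replicate N x ++ []) := by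
      rw [blocks_rep]
      simp [blocks]
    have h3 : [] ++ (rep (d :: x.map e) N ++ ((d :: y.map e) ++ (rep (d :: x.map e) N ++ [d]))) =
        blocks e d (List.replicate N x ++ y :: (List.replicate N x ++ [])) := by
      rw [blocks_rep]
      obtain ⟨r, h4, h5⟩ := blocks_cons e d y (List.replicate N x ++ [])
      rw [h5]
      rw [blocks_rep] at h4
      have h6 : blocks e d [] = [d] := by simp [blocks]
      rw [h6] at h4
      rw [h4]
      simp
    rw [h2, h3, blocks_mem_bar he hd, blocks_mem_bar he hd] at h1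
    obtain ⟨z, hz, hzL⟩ := h1.2 ⟨y, by simp, hy⟩
    simp only [List.append_nil, List.mem_replicate] at hz
    rw [hz.2] at hzL
    exact hx hzL
  obtain ⟨K, hK, h1, h2⟩ := exists_separator (P := {L : Set (List α) | Pol (B i) L}) Pol.empty
    (Pol_sub (univ_mem i)) (fun _ _ h h' => Pol.union _ _ h h') (fun _ _ h h' => Pol_inter h h')
    hf (fun Q => pre (fun a => [e a]) Q [d] [])
    (fun Q hQ => (pre_mem (fun a => [e a]) (by simp) i).2 Q (hS hQ) [d] []) Lᶜ L key
  have : K = L := by
    ext w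
    constructor
    · intro hw
      by_contra h
      exact h2 w h hw
    · exact fun hw => h1 hw
  rw [← this]
  exact hK

/-- **A language is in a half level if and only if the words without a block from the language are
in the full level above.** -/
theorem bar_iff [Finite α] [Finite γ] {e : α → γ} (he : Function.Injective e) {d : γ}
    (hd : ∀ a, e a ≠ d) (i : ℕ) (L : Set (List α)) :
    Pol (B (1 + i)) L ↔ (bar e d L)ᶜ ∈ B (α := γ) (1 + i + 1) := by
  constructor
  · intro h
    exact B_compl (Pol_le (bar_Pol he d i h))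
  · intro h
    have := B_compl h
    rw [compl_compl] at this
    exact Pol_of_bar he hd (1 + i) this

end Pool.Agent.Helper964_DD
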