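import Pool.Agent.Helper964_DD.Bar

/-!
# The automaton of the words without a block from the language
-/

set_option autoImplicit false

namespace Pool.Agent.Helper964_DD

/-- The transition function. The phases are: 0 (before the first mark), 1 (in a block), 2 (there was
a block from the language). The mark is the letter `k`. -/
def bst (k : ℕ) (c : List ℕ × List ℕ) (s : ℕ × ℕ) (a : ℕ) : ℕ × ℕ :=
  if a = k then
    (if s.2 = 0 then (0, 1)
    else if s.2 = 1 then (if memB c.2 s.1 = true then (0, 2) else (0, 1)) else (s.1, s.2))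
  else if s.2 = 1 then (tr k c.1 s.1 a, 1) else (s.1, s.2)

/-- The automaton of the words without a block from the language. -/
def barA (k : ℕ) (c : List ℕ × List ℕ) : List ℕ × List ℕ :=
  mkB (bd c.1) 3 (k + 1) (bst k c) (fun s => decide (s.2 < 2))

theorem bst_bound (k : ℕ) (c : List ℕ × List ℕ) (s : ℕ × ℕ) (a : ℕ) (h1 : s.1 < bd c.1)
    (h2 : s.2 < 3) : (bst k c s a).1 < bd c.1 ∧ (bst k c s a).2 < 3 := by
  have h0 := bd_pos c.1
  have h3 := tr_lt k c.1 s.1 a
  unfold bst
  split_ifs <;> exact ⟨by assumption, by first | assumption | norm_num⟩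

/-- The state of the automaton after a word. -/
def bfold (k : ℕ) (c : List ℕ × List ℕ) (s : ℕ × ℕ) (w : List (Fin (k + 1))) : ℕ × ℕ :=
  w.foldl (fun (s : ℕ × ℕ) (a : Fin (k + 1)) => bst k c s (a : ℕ)) s

theorem bfold_cons (k : ℕ) (c : List ℕ × List ℕ) (s : ℕ × ℕ) (a : Fin (k + 1))
    (w : List (Fin (k + 1))) : bfold k c s (a :: w) = bfold k c (bst k c s a) w := rfl

theorem bfold_two (k : ℕ) (c : List ℕ × List ℕ) (w : List (Fin (k + 1))) :
    ∀ q, (bfold k c (q, 2) w).2 = 2 := by
  induction w with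
  | nil => intro q; rfl
  | cons a w ih =>
    intro q
    rw [bfold_cons]
    have : bst k c (q, 2) (a : ℕ) = (q, 2) := by simp [bst]
    rw [this]
    exact ih q

theorem castSucc_ne (k : ℕ) (a : Fin k) : a.castSucc ≠ Fin.last k := (Fin.castSucc_lt_last a).ne

theorem mem_bar_cons_last (k : ℕ) (L : Set (List (Fin k))) (w : List (Fin (k + 1))) :
    Fin.last k :: w ∈ bar Fin.castSucc (Fin.last k) L ↔
      (∃ x r, w = x.map Fin.castSucc ++ Fin.last k :: r ∧ x ∈ L) ∨
      w ∈ bar Fin.castSucc (Fin.last k) L := by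
  constructor
  · rintro ⟨a, x, hx, b, h⟩
    cases a with
    | nil =>
      simp only [List.nil_append, List.cons.injEq, true_and] at h
      exact Or.inl ⟨x, b, h, hx⟩
    | cons a0 a =>
      simp only [List.cons_append, List.cons.injEq] at h
      exact Or.inr ⟨a, x, hx, b, h.2⟩
  · rintro (⟨x, r, h, hx⟩ | ⟨a, x, hx, b, h⟩)
    · exact ⟨[], x, hx, r, by rw [h]; rfl⟩
    · exact ⟨Fin.last k :: a, x, hx, b, by rw [h]; rfl⟩

theorem mem_bar_cons_castSucc (k : ℕ) (L : Set (List (Fin k))) (a : Fin k)
    (w : List (Fin (k + 1))) :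
    a.castSucc :: w ∈ bar Fin.castSucc (Fin.last k) L ↔
      w ∈ bar Fin.castSucc (Fin.last k) L := by
  constructor
  · rintro ⟨a', x, hx, b, h⟩
    cases a' with
    | nil =>
      simp only [List.nil_append, List.cons.injEq] at h
      exact absurd h.1 (castSucc_ne k a)
    | cons a0 a' =>
      simp only [List.cons_append, List.cons.injEq] at h
      exact ⟨a', x, hx, b, h.2⟩
  · rintro ⟨a', x, hx, b, h⟩
    exact ⟨a.castSucc :: a', x, hx, b, by rw [h]; rfl⟩

theorem bfold_one (k : ℕ) (c : List ℕ × List ℕ) (w : List (Fin (k + 1))) : ∀ q,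
    ((bfold k c (q, 1) w).2 = 2 ↔
      (∃ x r, w = x.map Fin.castSucc ++ Fin.last k :: r ∧ run k c.1 q x ∈ c.2) ∨
      w ∈ bar Fin.castSucc (Fin.last k) (lang k c)) := by
  induction w with
  | nil =>
    intro q
    refine iff_of_false (fun h => absurd h (by simp [bfold])) ?_
    rintro (⟨x, r, h, _⟩ | ⟨a, x, _, b, h⟩)
    · simp at h
    · simp at h
  | cons a w ih =>
    intro q
    rw [bfold_cons]
    cases a using Fin.lastCases with
    | last =>
      rw [mem_bar_cons_last]
      by_cases hq : q ∈ c.2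
      · have : bst k c (q, 1) (Fin.last k : Fin (k + 1)) = (0, 2) := by
          simp [bst, memB_iff, hq]
        rw [this]
        refine iff_of_true (bfold_two k c w 0) ?_
        exact Or.inl ⟨[], w, rfl, hq⟩
      · have : bst k c (q, 1) (Fin.last k : Fin (k + 1)) = (0, 1) := by
          simp [bst, memB_iff, hq]
        rw [this, ih 0]
        constructor
        · exact fun h => Or.inr h
        · rintro (⟨x, r, h, hx⟩ | h)
          · exfalso
            cases x with
            | nil => exact hq hx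
            | cons x0 x =>
              simp only [List.map_cons, List.cons_append, List.cons.injEq] at h
              exact castSucc_ne k x0 h.1.symm
          · exact h
    | cast a =>
      rw [mem_bar_cons_castSucc]
      have : bst k c (q, 1) (a.castSucc : Fin (k + 1)) = (tr k c.1 q a, 1) := by
        simp [bst, a.2.ne]
      rw [this, ih]
      refine or_congr ?_ Iff.rfl
      constructor
      · rintro ⟨x, r, h, hx⟩
        exact ⟨a :: x, r, by rw [h]; rfl, hx⟩
      · rintro ⟨x, r, h, hx⟩
        cases x with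
        | nil =>
          simp only [List.map_nil, List.nil_append, List.cons.injEq] at h
          exact absurd h.1 (castSucc_ne k a)
        | cons x0 x =>
          simp only [List.map_cons, List.cons_append, List.cons.injEq] at h
          have h0 := Fin.castSucc_injective k h.1
          subst h0
          exact ⟨x, r, h.2, hx⟩

theorem bfold_zero (k : ℕ) (c : List ℕ × List ℕ) (w : List (Fin (k + 1))) : ∀ q,
    ((bfold k c (q, 0) w).2 = 2 ↔ w ∈ bar Fin.castSucc (Fin.last k) (lang k c)) := by
  induction w with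
  | nil =>
    intro q
    refine iff_of_false (fun h => absurd h (by simp [bfold])) ?_
    rintro ⟨a, x, _, b, h⟩
    simp at h
  | cons a w ih =>
    intro q
    rw [bfold_cons]
    cases a using Fin.lastCases with
    | last =>
      rw [mem_bar_cons_last]
      have : bst k c (q, 0) (Fin.last k : Fin (k + 1)) = (0, 1) := by simp [bst]
      rw [this, bfold_one]
      rfl
    | cast a =>
      rw [mem_bar_cons_castSucc]
      have : bst k c (q, 0) (a.castSucc : Fin (k + 1)) = (q, 0) := by
        simp [bst, a.2.ne]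
      rw [this, ih]

theorem bfold_lt (k : ℕ) (c : List ℕ × List ℕ) (w : List (Fin (k + 1))) : ∀ s : ℕ × ℕ,
    s.1 < bd c.1 → s.2 < 3 → (bfold k c s w).2 < 3 := by
  induction w with
  | nil => intro s _ h; exact h
  | cons a w ih =>
    intro s h1 h2
    rw [bfold_cons]
    have := bst_bound k c s a h1 h2
    exact ih _ this.1 this.2

theorem lang_barA (k : ℕ) (c : List ℕ × List ℕ) :
    lang (k + 1) (barA k c) = (bar Fin.castSucc (Fin.last k) (lang k c))ᶜ := by
  rw [barA, lang_mkB (bd_pos _) (by norm_num) (fun s a h1 h2 _ => bst_bound k c s a h1 h2)]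
  ext w
  have h := bfold_zero k c w 0
  have h' := bfold_lt k c w (0, 0) (bd_pos _) (by norm_num)
  simp only [Set.mem_ofPred_eq, decide_eq_true_eq, Set.mem_compl_iff]
  rw [← h]
  change (bfold k c (0, 0) w).2 < 2 ↔ ¬ (bfold k c (0, 0) w).2 = 2
  omega

theorem primrec_barA : Primrec fun x : ℕ × List ℕ × List ℕ => barA x.1 x.2 := by
  have hk : Primrec fun x : (ℕ × List ℕ × List ℕ) × (ℕ × ℕ) × ℕ => x.1.1 :=
    Primrec.fst.comp Primrec.fst
  have ht : Primrec fun x : (ℕ × List ℕ × List ℕ) × (ℕ × ℕ) × ℕ => x.1.2.1 :=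
    Primrec.fst.comp (Primrec.snd.comp Primrec.fst)
  have hF : Primrec fun x : (ℕ × List ℕ × List ℕ) × (ℕ × ℕ) × ℕ => x.1.2.2 :=
    Primrec.snd.comp (Primrec.snd.comp Primrec.fst)
  have hs1 : Primrec fun x : (ℕ × List ℕ × List ℕ) × (ℕ × ℕ) × ℕ => x.2.1.1 :=
    Primrec.fst.comp (Primrec.fst.comp Primrec.snd)
  have hs2 : Primrec fun x : (ℕ × List ℕ × List ℕ) × (ℕ × ℕ) × ℕ => x.2.1.2 :=
    Primrec.snd.comp (Primrec.fst.comp Primrec.snd)
  have ha : Primrec fun x : (ℕ × List ℕ × List ℕ) × (ℕ × ℕ) × ℕ => x.2.2 :=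
    Primrec.snd.comp Primrec.snd
  refine primrec_mkB (primrec_bd.comp (Primrec.fst.comp Primrec.snd)) (Primrec.const 3)
    (Primrec.nat_add.comp Primrec.fst (Primrec.const 1)) ?_ ?_
  · unfold bst
    refine Primrec.ite (Primrec.eq.comp ha hk) ?_ ?_
    · refine Primrec.ite (Primrec.eq.comp hs2 (Primrec.const 0)) (Primrec.const (0, 1)) ?_
      refine Primrec.ite (Primrec.eq.comp hs2 (Primrec.const 1)) ?_ (Primrec.pair hs1 hs2)
      exact Primrec.ite (Primrec.eq.comp (primrec_memB hF hs1) (Primrec.const true))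
        (Primrec.const (0, 2)) (Primrec.const (0, 1))
    · refine Primrec.ite (Primrec.eq.comp hs2 (Primrec.const 1)) ?_ (Primrec.pair hs1 hs2)
      exact Primrec.pair (primrec_tr hk ht hs1 ha) (Primrec.const 1)
  · exact (Primrec.nat_lt.comp (Primrec.snd.comp Primrec.snd) (Primrec.const 2)).decide

/-- The reduction for the half levels. -/
def hred (n d : ℕ) (x : ℕ × List ℕ × List ℕ) : List ℕ × List ℕ :=
  red n d (x.1 + 1, barA x.1 x.2)

theorem primrec_hred (n d : ℕ) : Primrec (hred n d) :=
  (primrec_red n d).comp (Primrec.pair (Primrec.nat_add.comp Primrec.fst (Primrec.const 1))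
    primrec_barA)

theorem hred_iff (n d : ℕ) (hn : 2 ≤ n) (x : ℕ × List ℕ × List ℕ) (i : ℕ) :
    Pol (B (1 + i)) (lang x.1 x.2) ↔ lang n (hred n d x) ∈ B (1 + i + 1 + d) := by
  have h := red_iff n d hn (x.1 + 1, barA x.1 x.2) (i + 1)
  rw [show 1 + (i + 1) = 1 + i + 1 by omega] at h
  rw [hred, ← h, lang_barA]
  exact bar_iff (Fin.castSucc_injective _) (castSucc_ne _) i _

end Pool.Agent.Helper964_DD
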