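import Pool.Agent.Helper964_DD.Defs

/-!
# The dot-depth hierarchy: first closure properties
-/

set_option autoImplicit false

namespace Pool.Agent.Helper964_DD

variable {α : Type}

/-! ### Concatenation -/

theorem mem_cat {L K : Set (List α)} {w : List α} :
    w ∈ cat L K ↔ ∃ u ∈ L, ∃ v ∈ K, w = u ++ v := Iff.rfl

theorem append_mem_cat {L K : Set (List α)} {u v : List α} (hu : u ∈ L) (hv : v ∈ K) :
    u ++ v ∈ cat L K := ⟨u, hu, v, hv, rfl⟩

theorem cat_assoc (L K M : Set (List α)) : cat (cat L K) M = cat L (cat K M) := by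
  ext w
  constructor
  · rintro ⟨_, ⟨a, ha, b, hb, rfl⟩, c, hc, rfl⟩
    exact ⟨a, ha, b ++ c, ⟨b, hb, c, hc, rfl⟩, by simp⟩
  · rintro ⟨a, ha, _, ⟨b, hb, c, hc, rfl⟩, rfl⟩
    exact ⟨a ++ b, ⟨a, ha, b, hb, rfl⟩, c, hc, by simp⟩

theorem one_cat (L : Set (List α)) : cat {[]} L = L := by
  ext w
  constructor
  · rintro ⟨a, ha, b, hb, rfl⟩
    rw [Set.mem_singleton_iff] at ha
    subst ha
    simpa using hb
  · intro h
    exact ⟨[], rfl, w, h, by simp⟩

theorem cat_one (L : Set (List α)) : cat L {[]} = L := by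
  ext w
  constructor
  · rintro ⟨a, ha, b, hb, rfl⟩
    rw [Set.mem_singleton_iff] at hb
    subst hb
    simpa using ha
  · intro h
    exact ⟨w, h, [], rfl, by simp⟩

theorem cat_empty (L : Set (List α)) : cat L ∅ = ∅ := by
  ext w
  simp [cat]

theorem empty_cat (L : Set (List α)) : cat ∅ L = ∅ := by
  ext w
  simp [cat]

theorem cat_union (L K M : Set (List α)) : cat L (K ∪ M) = cat L K ∪ cat L M := by
  ext w
  constructor
  · rintro ⟨a, ha, b, hb | hb, rfl⟩
    · exact Or.inl ⟨a, ha, b, hb, rfl⟩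
    · exact Or.inr ⟨a, ha, b, hb, rfl⟩
  · rintro (⟨a, ha, b, hb, rfl⟩ | ⟨a, ha, b, hb, rfl⟩)
    · exact ⟨a, ha, b, Or.inl hb, rfl⟩
    · exact ⟨a, ha, b, Or.inr hb, rfl⟩

theorem union_cat (L K M : Set (List α)) : cat (L ∪ K) M = cat L M ∪ cat K M := by
  ext w
  constructor
  · rintro ⟨a, ha | ha, b, hb, rfl⟩
    · exact Or.inl ⟨a, ha, b, hb, rfl⟩
    · exact Or.inr ⟨a, ha, b, hb, rfl⟩
  · rintro (⟨a, ha, b, hb, rfl⟩ | ⟨a, ha, b, hb, rfl⟩)
    · exact ⟨a, Or.inl ha, b, hb, rfl⟩
    · exact ⟨a, Or.inr ha, b, hb, rfl⟩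

theorem prodL_append (l m : List (Set (List α))) :
    prodL (l ++ m) = cat (prodL l) (prodL m) := by
  induction l with
  | nil => simp [prodL, one_cat]
  | cons K l ih => simp [prodL, ih, cat_assoc]

theorem prodL_single (K : Set (List α)) : prodL [K] = K := by
  simp [prodL, cat_one]

/-! ### Monoid closure and polynomial closure -/

theorem MC_one (C : Set (Set (List α))) : ({[]} : Set (List α)) ∈ MC C := ⟨[], by simp, rfl⟩

theorem MC_sub {C : Set (Set (List α))} {K : Set (List α)} (h : K ∈ C) : K ∈ MC C :=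
  ⟨[K], by simpa using h, (prodL_single K).symm⟩

theorem MC_cat {C : Set (Set (List α))} {K M : Set (List α)} (h : K ∈ MC C) (h' : M ∈ MC C) :
    cat K M ∈ MC C := by
  obtain ⟨l, hl, rfl⟩ := h
  obtain ⟨m, hm, rfl⟩ := h'
  refine ⟨l ++ m, ?_, (prodL_append l m).symm⟩
  intro K hK
  rcases List.mem_append.1 hK with h | h
  · exact hl K h
  · exact hm K h

theorem MC_mono {C D : Set (Set (List α))} (h : C ⊆ D) : MC C ⊆ MC D := by
  rintro L ⟨l, hl, rfl⟩
  exact ⟨l, fun K hK => h (hl K hK), rfl⟩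

theorem Pol_mono {C D : Set (Set (List α))} (h : C ⊆ D) {L : Set (List α)} (hL : Pol C L) :
    Pol D L := by
  induction hL with
  | empty => exact Pol.empty
  | base L hL => exact Pol.base L (MC_mono h hL)
  | union L K _ _ h1 h2 => exact Pol.union L K h1 h2

theorem Pol_sub {C : Set (Set (List α))} {K : Set (List α)} (h : K ∈ C) : Pol C K :=
  Pol.base K (MC_sub h)

theorem Pol_cat {C : Set (Set (List α))} {K M : Set (List α)} (h : Pol C K) (h' : Pol C M) :
    Pol C (cat K M) := by
  induction h with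
  | empty => rw [empty_cat]; exact Pol.empty
  | base L hL =>
    induction h' with
    | empty => rw [cat_empty]; exact Pol.empty
    | base L' hL' => exact Pol.base _ (MC_cat hL hL')
    | union L' K' _ _ h1 h2 => rw [cat_union]; exact Pol.union _ _ h1 h2
  | union L K _ _ h1 h2 => rw [union_cat]; exact Pol.union _ _ h1 h2

/-- A family closed under finite unions is closed under unions indexed by a finset. -/
theorem finset_union {P : Set (Set (List α))} (h0 : ∅ ∈ P)
    (hU : ∀ L K, L ∈ P → K ∈ P → L ∪ K ∈ P) {ι : Type} (s : Finset ι)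
    (F : ι → Set (List α)) (hF : ∀ i ∈ s, F i ∈ P) : {w | ∃ i ∈ s, w ∈ F i} ∈ P := by
  classical
  induction s using Finset.induction_on with
  | empty => simpa using h0
  | insert a s ha ih =>
    have : {w | ∃ i ∈ insert a s, w ∈ F i} = F a ∪ {w | ∃ i ∈ s, w ∈ F i} := by
      ext w
      simp
    rw [this]
    exact hU _ _ (hF a (by simp)) (ih fun i hi => hF i (by simp [hi]))

/-- The same for a finite index type. -/
theorem finite_union {P : Set (Set (List α))} (h0 : ∅ ∈ P)
    (hU : ∀ L K, L ∈ P → K ∈ P → L ∪ K ∈ P) {ι : Type} [Finite ι]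
    (F : ι → Set (List α)) (hF : ∀ i, F i ∈ P) : {w | ∃ i, w ∈ F i} ∈ P := by
  classical
  cases nonempty_fintype ι
  have := finset_union h0 hU Finset.univ F (fun i _ => hF i)
  simpa using this

/-! ### The levels are Boolean algebras -/

theorem B0_compl {L : Set (List α)} (h : L ∈ B (α := α) 0) : Lᶜ ∈ B (α := α) 0 := by
  rcases h with h | h
  · right; simpa using h
  · left; exact h

theorem B0_union {L K : Set (List α)} (h : L ∈ B (α := α) 0) (h' : K ∈ B (α := α) 0) :
    L ∪ K ∈ B (α := α) 0 := by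
  rcases h with h | h
  · rcases h' with h' | h'
    · left; exact h.union h'
    · right; rw [Set.compl_union]; exact h'.subset Set.inter_subset_right
  · right; rw [Set.compl_union]; exact h.subset Set.inter_subset_left

theorem B_compl {i : ℕ} {L : Set (List α)} (h : L ∈ B i) : Lᶜ ∈ B i := by
  cases i with
  | zero => exact B0_compl h
  | succ i => exact BC.compl L h

theorem B_union {i : ℕ} {L K : Set (List α)} (h : L ∈ B i) (h' : K ∈ B i) : L ∪ K ∈ B i := by
  cases i with
  | zero => exact B0_union h h'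
  | succ i => exact BC.union L K h h'

theorem B_inter {i : ℕ} {L K : Set (List α)} (h : L ∈ B i) (h' : K ∈ B i) : L ∩ K ∈ B i := by
  have := B_compl (B_union (B_compl h) (B_compl h'))
  rwa [Set.compl_union, compl_compl, compl_compl] at this

theorem B_sdiff {i : ℕ} {L K : Set (List α)} (h : L ∈ B i) (h' : K ∈ B i) : L \ K ∈ B i := by
  rw [Set.sdiff_eq]
  exact B_inter h (B_compl h')

theorem B_succ {i : ℕ} {L : Set (List α)} (h : L ∈ B i) : L ∈ B (i + 1) := BC.base L (MC_sub h)

theorem B_mono {i j : ℕ} (h : i ≤ j) {L : Set (List α)} (hL : L ∈ B i) : L ∈ B j := by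
  induction h with
  | refl => exact hL
  | step _ ih => exact B_succ ih

theorem fin_mem (i : ℕ) {L : Set (List α)} (h : L.Finite) : L ∈ B i :=
  B_mono (Nat.zero_le i) (Or.inl h)

theorem empty_mem (i : ℕ) : (∅ : Set (List α)) ∈ B i := fin_mem i Set.finite_empty

theorem univ_mem (i : ℕ) : (Set.univ : Set (List α)) ∈ B i := by
  have := B_compl (empty_mem (α := α) i)
  simpa using this

theorem single_mem (i : ℕ) (w : List α) : ({w} : Set (List α)) ∈ B i :=
  fin_mem i (Set.finite_singleton w)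

theorem Pol_le {i : ℕ} {L : Set (List α)} (h : Pol (B i) L) : L ∈ B (i + 1) := by
  induction h with
  | empty => exact empty_mem _
  | base L hL => exact BC.base L hL
  | union L K _ _ h1 h2 => exact B_union h1 h2

theorem Pol_B_mono {i j : ℕ} (h : i ≤ j) {L : Set (List α)} (hL : Pol (B i) L) : Pol (B j) L :=
  Pol_mono (fun _ hK => B_mono h hK) hL

/-- Induction principle for `B (i + 1)` avoiding intersections. -/
theorem B_induction {i : ℕ} {P : Set (List α) → Prop} (hb : ∀ L ∈ MC (B i), P L)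
    (hc : ∀ L, P L → P Lᶜ) (hu : ∀ L K, P L → P K → P (L ∪ K)) :
    ∀ L ∈ B (i + 1), P L := by
  intro L hL
  induction hL with
  | base L hL => exact hb L hL
  | compl L _ ih => exact hc L ih
  | union L K _ _ h1 h2 => exact hu L K h1 h2
  | inter L K _ _ h1 h2 =>
    have := hc _ (hu _ _ (hc _ h1) (hc _ h2))
    rwa [Set.compl_union, compl_compl, compl_compl] at this

end Pool.Agent.Helper964_DD
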