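import Pool.Agent.Helper964_DD.Annot

/-!
# Annotated blocks with connectors
-/

set_option autoImplicit false

namespace Pool.Agent.Helper964_DD

/-- The data: the number of letters and a list of automata. -/
abbrev Dt := ℕ × List (List ℕ × List ℕ)

/-- The number of kinds of blocks. -/
def sz (D : Dt) : ℕ := max 2 D.2.length

theorem sz_ge (D : Dt) : 2 ≤ sz D := le_max_left _ _

/-- The automaton for the blocks of kind `j`. -/
def atm (D : Dt) (j : ℕ) : List ℕ × List ℕ := D.2.getD j ([], [])

/-- A bound for the states of the automata. -/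
def qs (D : Dt) : ℕ := bd (D.2.map fun c => bd c.1)

theorem tr_lt_qs (D : Dt) (j q a : ℕ) : tr D.1 (atm D j).1 q a < qs D := by
  refine (tr_lt _ _ _ _).trans_le ?_
  by_cases h : j < D.2.length
  · rw [atm, List.getD_eq_getElem _ _ h]
    have h1 : bd (D.2[j]).1 ∈ D.2.map fun c => bd c.1 :=
      List.mem_map.2 ⟨_, List.getElem_mem h, rfl⟩
    have h2 := le_foldr_max _ _ h1
    have h3 : qs D = (D.2.map fun c => bd c.1).foldr max 0 + 1 := rfl
    omega
  · rw [atm, List.getD_eq_default _ _ (by omega)]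
    exact bd_pos _

theorem qs_pos (D : Dt) : 0 < qs D := bd_pos _

/-- The transitions of the union of the automata. The state `q` of the automaton `j` is
`j + sz D * q`. -/
def nxs (D : Dt) (x a : ℕ) : ℕ :=
  x % sz D + sz D * tr D.1 (atm D (x % sz D)).1 (x / sz D) a

/-- The final states of the union of the automata. -/
def fins (D : Dt) (x : ℕ) : Bool := memB (atm D (x % sz D)).2 (x / sz D)

/-- The run of the union of the automata. -/
def runs (D : Dt) : ℕ → List (Fin D.1) → ℕ
  | x, [] => x
  | x, a :: w => runs D (nxs D x a) w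

/-- The language of the automaton `j`. -/
def lngs (D : Dt) (j : ℕ) : Set (List (Fin D.1)) := lang D.1 (atm D j)

theorem nxs_lt (D : Dt) (x a : ℕ) : nxs D x a < sz D * qs D := by
  have h0 := sz_ge D
  have h1 : x % sz D < sz D := Nat.mod_lt _ (by omega)
  have h2 := tr_lt_qs D (x % sz D) (x / sz D) a
  have h3 : sz D * (tr D.1 (atm D (x % sz D)).1 (x / sz D) a + 1) ≤ sz D * qs D :=
    Nat.mul_le_mul_left _ h2
  rw [Nat.mul_add, Nat.mul_one] at h3
  unfold nxs
  omega

theorem nxs_mod (D : Dt) (x a : ℕ) : nxs D x a % sz D = x % sz D := by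
  rw [nxs, Nat.add_mul_mod_self_left, Nat.mod_mod]

theorem nxs_add {D : Dt} {j : ℕ} (hj : j < sz D) (q a : ℕ) :
    nxs D (j + sz D * q) a = j + sz D * tr D.1 (atm D j).1 q a := by
  have h1 : (j + sz D * q) % sz D = j := by
    rw [Nat.add_mul_mod_self_left, Nat.mod_eq_of_lt hj]
  have h2 : (j + sz D * q) / sz D = q := by
    rw [Nat.add_mul_div_left _ _ (by omega), Nat.div_eq_of_lt hj, Nat.zero_add]
  rw [nxs, h1, h2]

theorem runs_add {D : Dt} {j : ℕ} (hj : j < sz D) (w : List (Fin D.1)) : ∀ q,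
    runs D (j + sz D * q) w = j + sz D * run D.1 (atm D j).1 q w := by
  induction w with
  | nil => intro q; rfl
  | cons a w ih =>
    intro q
    rw [runs, nxs_add hj, ih]
    rfl

theorem fins_runs {D : Dt} {j : ℕ} (hj : j < sz D) (w : List (Fin D.1)) :
    fins D (runs D j w) = true ↔ w ∈ lngs D j := by
  have h := runs_add hj w 0
  rw [Nat.mul_zero, Nat.add_zero] at h
  have h1 : (j + sz D * run D.1 (atm D j).1 0 w) % sz D = j := by
    rw [Nat.add_mul_mod_self_left, Nat.mod_eq_of_lt hj]
  have h2 : (j + sz D * run D.1 (atm D j).1 0 w) / sz D = run D.1 (atm D j).1 0 w := by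
    rw [Nat.add_mul_div_left _ _ (by omega), Nat.div_eq_of_lt hj, Nat.zero_add]
  rw [h, fins, h1, h2, memB_iff]
  rfl

/-! ### Codes -/

/-- The number of letters of the words with connectors. The letters below `k` are visible, `k` is the
mark, and `k + 1 + h` is the hidden letter with the code `h`. The codes `h < 3 * sz D` are those of
the connectors, `3 * sz D + x` is the code of the state `x`. The kind of a code is its rest
modulo `sz D`. -/
def ml2 (D : Dt) : ℕ := D.1 + 1 + (3 * sz D + sz D * qs D)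

/-- The state which belongs to a code. -/
def hval (D : Dt) (h : ℕ) : ℕ := if h < 3 * sz D then h % sz D else h - 3 * sz D

/-- The code after a visible letter. -/
def nxh (D : Dt) (h a : ℕ) : ℕ := 3 * sz D + nxs D (hval D h) a

/-- Final codes. -/
def finh (D : Dt) (h : ℕ) : Bool := fins D (hval D h)

/-- A block which starts with the connector `μ` may follow a block which ends with the code `h`.
The connector `j` (for `j < sz D`) leads from the kind `j` to the kind `j`, the connector
`sz D + j` leads from the kind `j - 1` to the kind `j`, the connector `2 * sz D` leads from all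
kinds except for `0` to the kind `0`, and the connector `2 * sz D + j` (for `0 < j`) leads from
the kind `0` to the kind `j`. -/
def alw (D : Dt) (h μ : ℕ) : Prop :=
  (μ < sz D ∧ μ % sz D = h % sz D) ∨
    (sz D ≤ μ ∧ μ < 2 * sz D ∧ μ % sz D = (h + 1) % sz D) ∨
      (2 * sz D ≤ μ ∧ μ < 3 * sz D ∧
        ((μ % sz D = 0 ∧ h % sz D ≠ 0) ∨ (μ % sz D ≠ 0 ∧ h % sz D = 0)))

instance (D : Dt) (h μ : ℕ) : Decidable (alw D h μ) := by
  unfold alw
  infer_instance

theorem nxh_lt (D : Dt) (h a : ℕ) : nxh D h a < 3 * sz D + sz D * qs D := by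
  have := nxs_lt D (hval D h) a
  unfold nxh
  omega

theorem nxh_ge (D : Dt) (h a : ℕ) : 3 * sz D ≤ nxh D h a := Nat.le_add_right _ _

theorem hval_mod (D : Dt) (h : ℕ) : hval D h % sz D = h % sz D := by
  unfold hval
  split_ifs with h1
  · exact Nat.mod_mod _ _
  · conv_rhs => rw [show h = (h - 3 * sz D) + sz D * 3 by rw [Nat.mul_comm]; omega]
    rw [Nat.add_mul_mod_self_left]

theorem nxh_mod (D : Dt) (h a : ℕ) : nxh D h a % sz D = h % sz D := by
  rw [nxh, Nat.add_comm, Nat.mul_comm 3, Nat.add_mul_mod_self_left, nxs_mod, hval_mod]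

theorem hval_nxh (D : Dt) (h a : ℕ) : hval D (nxh D h a) = nxs D (hval D h) a := by
  have := nxh_ge D h a
  rw [hval, if_neg (by omega), nxh]
  omega

theorem alw_lt {D : Dt} {h μ : ℕ} (ha : alw D h μ) : μ < 3 * sz D := by
  have := sz_ge D
  rcases ha with ha | ha | ha <;> omega

theorem alw_congr {D : Dt} {h h' : ℕ} (e : h % sz D = h' % sz D) (μ : ℕ) :
    alw D h μ ↔ alw D h' μ := by
  unfold alw
  rw [e, Nat.add_mod h, Nat.add_mod h', e]

/-! ### The local automaton -/

/-- The transitions of the local automaton. The phases are: 0 (start), 1 (after the first mark),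
2 (after a hidden letter), 3 (after a visible letter), 4 (after a mark), 5 (error). The first
connector is `m`. -/
def lst (D : Dt) (m : ℕ) (s : ℕ × ℕ) (a : ℕ) : ℕ × ℕ :=
  if s.2 = 0 then (if a = D.1 then (0, 1) else (0, 5))
  else if s.2 = 1 then (if a = D.1 + 1 + m then (m, 2) else (0, 5))
  else if s.2 = 2 then
    (if a < D.1 then (nxh D s.1 a, 3)
    else if a = D.1 ∧ finh D s.1 = true then (s.1, 4) else (0, 5))
  else if s.2 = 3 then (if a = D.1 + 1 + s.1 then (s.1, 2) else (0, 5))
  else if s.2 = 4 then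
    (if D.1 < a ∧ alw D s.1 (a - (D.1 + 1)) then (a - (D.1 + 1), 2) else (0, 5))
  else (0, 5)

/-- The run of the local automaton. -/
def lfold (D : Dt) (m : ℕ) (s : ℕ × ℕ) (w : List (Fin (ml2 D))) : ℕ × ℕ :=
  w.foldl (fun (s : ℕ × ℕ) (a : Fin (ml2 D)) => lst D m s (a : ℕ)) s

/-- The words which are not well formed. -/
def ill2 (D : Dt) (m : ℕ) : Set (List (Fin (ml2 D))) := {y | (lfold D m (0, 0) y).2 ≠ 4}

variable {D : Dt} {m : ℕ}

theorem lfold_nil (s : ℕ × ℕ) : lfold D m s [] = s := rfl

theorem lfold_cons (s : ℕ × ℕ) (a : Fin (ml2 D)) (w : List (Fin (ml2 D))) :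
    lfold D m s (a :: w) = lfold D m (lst D m s a) w := rfl

theorem lfold_append (s : ℕ × ℕ) (w w' : List (Fin (ml2 D))) :
    lfold D m s (w ++ w') = lfold D m (lfold D m s w) w' := by
  simp [lfold, List.foldl_append]

theorem lst_five (x a : ℕ) : lst D m (x, 5) a = (0, 5) := by simp [lst]

theorem lfold_five (w : List (Fin (ml2 D))) : ∀ x, (lfold D m (x, 5) w).2 = 5 := by
  induction w with
  | nil => intro x; rfl
  | cons a w ih => intro x; rw [lfold_cons, lst_five]; exact ih 0

/-! ### Block words -/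

/-- Letters. -/
def lg (D : Dt) (n : ℕ) : Fin (ml2 D) := ⟨n % ml2 D, Nat.mod_lt _ (by unfold ml2; omega)⟩

theorem lg_val {n : ℕ} (h : n < ml2 D) : (lg D n : ℕ) = n := Nat.mod_eq_of_lt h

theorem eq_lg {c : Fin (ml2 D)} {n : ℕ} (h : (c : ℕ) = n) : c = lg D n := by
  refine Fin.ext ?_
  rw [lg_val (by rw [← h]; exact c.2), h]

theorem vis_lt {a : ℕ} (h : a < D.1) : a < ml2 D := by
  unfold ml2
  omega

theorem hid_lt {h : ℕ} (hh : h < 3 * sz D + sz D * qs D) : D.1 + 1 + h < ml2 D := by
  unfold ml2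
  omega

/-- The mark. -/
def mk2 (D : Dt) : Fin (ml2 D) := lg D D.1

theorem mk2_val : (mk2 D : ℕ) = D.1 := lg_val (by unfold ml2; omega)

/-- The annotation of a word, after a hidden letter with the code `h`. -/
def ann (D : Dt) : ℕ → List (Fin D.1) → List (Fin (ml2 D))
  | _, [] => []
  | h, a :: w => lg D a :: lg D (D.1 + 1 + nxh D h a) :: ann D (nxh D h a) w

/-- The last code. -/
def endh (D : Dt) : ℕ → List (Fin D.1) → ℕ
  | h, [] => h
  | h, a :: w => endh D (nxh D h a) w

/-- The block with the connector `μ` and the content `w`. -/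
def bw (D : Dt) (μ : ℕ) (w : List (Fin D.1)) : List (Fin (ml2 D)) :=
  lg D (D.1 + 1 + μ) :: ann D μ w

/-- A sequence of blocks, without the first mark. -/
def rt (D : Dt) (l : List (ℕ × List (Fin D.1))) : List (Fin (ml2 D)) :=
  l.flatMap (fun b => bw D b.1 b.2 ++ [mk2 D])

theorem rt_cons (b : ℕ × List (Fin D.1)) (l : List (ℕ × List (Fin D.1))) :
    rt D (b :: l) = bw D b.1 b.2 ++ mk2 D :: rt D l := by
  simp [rt]

theorem rt_append (l l' : List (ℕ × List (Fin D.1))) : rt D (l ++ l') = rt D l ++ rt D l' := by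
  simp [rt]

theorem endh_mod (w : List (Fin D.1)) : ∀ h, endh D h w % sz D = h % sz D := by
  induction w with
  | nil => intro h; rfl
  | cons a w ih => intro h; rw [endh, ih, nxh_mod]

theorem hval_endh (w : List (Fin D.1)) : ∀ h, hval D (endh D h w) = runs D (hval D h) w := by
  induction w with
  | nil => intro h; rfl
  | cons a w ih => intro h; rw [endh, ih, hval_nxh]; rfl

theorem finh_endh {μ : ℕ} (hμ : μ < 3 * sz D) (w : List (Fin D.1)) :
    finh D (endh D μ w) = true ↔ w ∈ lngs D (μ % sz D) := by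
  have := sz_ge D
  rw [finh, hval_endh, hval, if_pos hμ]
  exact fins_runs (Nat.mod_lt _ (by omega)) w

theorem lfold_ann (w : List (Fin D.1)) : ∀ h, lfold D m (h, 2) (ann D h w) = (endh D h w, 2) := by
  induction w with
  | nil => intro h; rfl
  | cons a w ih =>
    intro h
    rw [ann, lfold_cons, lfold_cons, lg_val (vis_lt a.2), lg_val (hid_lt (nxh_lt D h a))]
    have h1 : lst D m (h, 2) (a : ℕ) = (nxh D h a, 3) := by simp [lst]
    have h2 : lst D m (nxh D h a, 3) (D.1 + 1 + nxh D h a) = (nxh D h a, 2) := by simp [lst]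
    rw [h1, h2, ih]
    rfl

theorem conn_lt {μ : ℕ} (hμ : μ < 3 * sz D) : D.1 + 1 + μ < ml2 D := hid_lt (by omega)

theorem lfold_block {h μ : ℕ} (hf : finh D h = true) (ha : alw D h μ) (w : List (Fin D.1)) :
    lfold D m (h, 2) (mk2 D :: bw D μ w) = (endh D μ w, 2) := by
  rw [bw, lfold_cons, lfold_cons, mk2_val, lg_val (conn_lt (alw_lt ha))]
  have h1 : lst D m (h, 2) D.1 = (h, 4) := by simp [lst, hf]
  have h2 : lst D m (h, 4) (D.1 + 1 + μ) = (μ, 2) := by
    have h3 : D.1 + 1 + μ - (D.1 + 1) = μ := by omega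
    have h4 : D.1 < D.1 + 1 + μ := by omega
    unfold lst
    simp only [h3]
    simp [h4, ha]
  rw [h1, h2, lfold_ann]

/-! ### The structure of the well formed words -/

/-- The conditions for a sequence of blocks after a block which ends with the code `h`. -/
def BsOk (D : Dt) : ℕ → List (ℕ × List (Fin D.1)) → Prop
  | _, [] => True
  | h, b :: l => alw D h b.1 ∧ b.2 ∈ lngs D (b.1 % sz D) ∧ BsOk D b.1 l

theorem BsOk_congr {h h' : ℕ} (e : h % sz D = h' % sz D) (l : List (ℕ × List (Fin D.1)))
    (hl : BsOk D h l) : BsOk D h' l := by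
  cases l with
  | nil => trivial
  | cons b l => exact ⟨(alw_congr e _).1 hl.1, hl.2.1, hl.2.2⟩

theorem structure2 (r : List (Fin (ml2 D))) :
    (∀ h, (lfold D m (h, 4) r).2 = 4 → ∃ l, r = rt D l ∧ BsOk D h l) ∧
    (∀ h, (lfold D m (h, 2) r).2 = 4 → ∃ w l, r = ann D h w ++ mk2 D :: rt D l ∧
      finh D (endh D h w) = true ∧ BsOk D (endh D h w) l) ∧
    (∀ h, (lfold D m (h, 3) r).2 = 4 → ∃ w l,
      r = lg D (D.1 + 1 + h) :: (ann D h w ++ mk2 D :: rt D l) ∧
      finh D (endh D h w) = true ∧ BsOk D (endh D h w) l) := by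
  induction r with
  | nil =>
    refine ⟨fun h _ => ⟨[], rfl, trivial⟩, ?_, ?_⟩
    · intro h hh
      simp [lfold_nil] at hh
    · intro h hh
      simp [lfold_nil] at hh
  | cons c r ih =>
    obtain ⟨ih1, ih2, ih3⟩ := ih
    refine ⟨?_, ?_, ?_⟩
    · intro h hh
      rw [lfold_cons] at hh
      by_cases h1 : D.1 < (c : ℕ) ∧ alw D h ((c : ℕ) - (D.1 + 1))
      · have e : lst D m (h, 4) (c : ℕ) = ((c : ℕ) - (D.1 + 1), 2) := by
          unfold lst
          simp [h1]
        rw [e] at hh
        obtain ⟨w, l, h2, h3, h4⟩ := ih2 _ hh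
        have hc : c = lg D (D.1 + 1 + ((c : ℕ) - (D.1 + 1))) := eq_lg (by omega)
        refine ⟨((c : ℕ) - (D.1 + 1), w) :: l, ?_, h1.2, ?_, ?_⟩
        · rw [rt_cons, h2]
          change c :: _ = lg D (D.1 + 1 + ((c : ℕ) - (D.1 + 1))) :: _
          rw [← hc]
          rfl
        · exact (finh_endh (alw_lt h1.2) w).1 h3
        · exact BsOk_congr (endh_mod w _) l h4
      · have e : lst D m (h, 4) (c : ℕ) = (0, 5) := by
          simp [lst, h1]
        rw [e, lfold_five] at hh
        norm_num at hh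
    · intro h hh
      rw [lfold_cons] at hh
      by_cases h1 : (c : ℕ) < D.1
      · have e : lst D m (h, 2) (c : ℕ) = (nxh D h c, 3) := by simp [lst, h1]
        rw [e] at hh
        obtain ⟨w, l, h2, h3, h4⟩ := ih3 _ hh
        refine ⟨⟨c, h1⟩ :: w, l, ?_, h3, h4⟩
        have hc : c = lg D (c : ℕ) := eq_lg rfl
        rw [h2]
        change _ = lg D (c : ℕ) :: _
        rw [← hc]
        rfl
      · by_cases h2 : (c : ℕ) = D.1 ∧ finh D h = true
        · have e : lst D m (h, 2) (c : ℕ) = (h, 4) := by simp [lst, h2]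
          rw [e] at hh
          obtain ⟨l, h3, h4⟩ := ih1 _ hh
          refine ⟨[], l, ?_, h2.2, h4⟩
          have hc : c = mk2 D := eq_lg h2.1
          rw [h3, hc]
          rfl
        · have e : lst D m (h, 2) (c : ℕ) = (0, 5) := by
            simp [lst, h1, h2]
          rw [e, lfold_five] at hh
          norm_num at hh
    · intro h hh
      rw [lfold_cons] at hh
      by_cases h1 : (c : ℕ) = D.1 + 1 + h
      · have e : lst D m (h, 3) (c : ℕ) = (h, 2) := by simp [lst, h1]
        rw [e] at hh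
        obtain ⟨w, l, h2, h3, h4⟩ := ih2 _ hh
        refine ⟨w, l, ?_, h3, h4⟩
        rw [← eq_lg h1, h2]
      · have e : lst D m (h, 3) (c : ℕ) = (0, 5) := by simp [lst, h1]
        rw [e, lfold_five] at hh
        norm_num at hh

theorem well_formed2 (hm : m < 3 * sz D) {y : List (Fin (ml2 D))}
    (hy : (lfold D m (0, 0) y).2 = 4) :
    ∃ w l, y = mk2 D :: rt D ((m, w) :: l) ∧ w ∈ lngs D (m % sz D) ∧ BsOk D m l := by
  cases y with
  | nil => simp [lfold_nil] at hy
  | cons c r =>
    rw [lfold_cons] at hy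
    by_cases h1 : (c : ℕ) = D.1
    · have e : lst D m (0, 0) (c : ℕ) = (0, 1) := by simp [lst, h1]
      rw [e] at hy
      cases r with
      | nil => simp [lfold_nil] at hy
      | cons d r =>
        rw [lfold_cons] at hy
        by_cases h2 : (d : ℕ) = D.1 + 1 + m
        · have e : lst D m (0, 1) (d : ℕ) = (m, 2) := by simp [lst, h2]
          rw [e] at hy
          obtain ⟨w, l, h3, h4, h5⟩ := (structure2 r).2.1 m hy
          refine ⟨w, l, ?_, ?_, ?_⟩
          · have hc : c = mk2 D := eq_lg h1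
            have hd : d = lg D (D.1 + 1 + m) := eq_lg h2
            rw [rt_cons, h3, hc, hd]
            rfl
          · exact (finh_endh hm w).1 h4
          · exact BsOk_congr (endh_mod w m) l h5
        · have e : lst D m (0, 1) (d : ℕ) = (0, 5) := by simp [lst, h2]
          rw [e, lfold_five] at hy
          norm_num at hy
    · have e : lst D m (0, 0) (c : ℕ) = (0, 5) := by simp [lst, h1]
      rw [e, lfold_five] at hy
      norm_num at hy

end Pool.Agent.Helper964_DD
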