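import Pool.Agent.Helper964_DD.Annot
import Pool.Agent.Helper964_DD.BarAut

/-!
# The automata of the reduction of separation to membership
-/

set_option autoImplicit false

namespace Pool.Agent.Helper964_DD

/-- The automaton of the language `f0`. -/
def annA (D : Dat) : List ℕ × List ℕ :=
  mkB (2 * qb D) 8 (ml D) (ast D) (fun s => !decide (s.2 = 2))

theorem ast_bound (D : Dat) (s : ℕ × ℕ) (a : ℕ) (h1 : s.1 < 2 * qb D) (h2 : s.2 < 8) :
    (ast D s a).1 < 2 * qb D ∧ (ast D s a).2 < 8 := by
  have h3 := nx_lt D s.1 a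
  have h4 := qb_ge D
  unfold ast
  split_ifs <;> exact ⟨by first | assumption | omega | (simp only []; omega), by
    first | omega | (norm_num; done) | (simp only []; omega)⟩

theorem lang_annA (D : Dat) : lang (ml D) (annA D) = f0 D := by
  have h4 := qb_ge D
  rw [annA, lang_mkB (by omega) (by norm_num) (fun s a h1 h2 _ => ast_bound D s a h1 h2)]
  ext w
  simp only [Set.mem_ofPred_eq, Bool.not_eq_true', decide_eq_false_iff_not]
  rfl

theorem primrec_qb : Primrec qb :=
  Primrec.nat_add.comp (primrec_bd.comp (Primrec.fst.comp (Primrec.fst.comp Primrec.snd)))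
    (primrec_bd.comp (Primrec.fst.comp (Primrec.snd.comp Primrec.snd)))

theorem primrec_ml : Primrec ml :=
  Primrec.nat_add.comp (Primrec.nat_add.comp Primrec.fst (Primrec.const 1))
    (Primrec.nat_mul.comp (Primrec.const 2) primrec_qb)

theorem primrec_nx {σ : Type} [Primcodable σ] {D : σ → Dat} {x a : σ → ℕ} (hD : Primrec D)
    (hx : Primrec x) (ha : Primrec a) : Primrec fun c => nx (D c) (x c) (a c) := by
  have hk : Primrec fun c => (D c).1 := Primrec.fst.comp hD
  have h1 : Primrec fun c => (D c).2.1.1 :=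
    Primrec.fst.comp (Primrec.fst.comp (Primrec.snd.comp hD))
  have h2 : Primrec fun c => (D c).2.2.1 :=
    Primrec.fst.comp (Primrec.snd.comp (Primrec.snd.comp hD))
  have hx2 : Primrec fun c => x c / 2 := Primrec.nat_div.comp hx (Primrec.const 2)
  unfold nx
  refine Primrec.ite (Primrec.eq.comp (Primrec.nat_mod.comp hx (Primrec.const 2))
    (Primrec.const 0)) ?_ ?_
  · exact Primrec.nat_mul.comp (Primrec.const 2) (primrec_tr hk h1 hx2 ha)
  · exact Primrec.succ.comp (Primrec.nat_mul.comp (Primrec.const 2) (primrec_tr hk h2 hx2 ha))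

theorem primrec_fin {σ : Type} [Primcodable σ] {D : σ → Dat} {x : σ → ℕ} (hD : Primrec D)
    (hx : Primrec x) : Primrec fun c => fin (D c) (x c) := by
  have h1 : Primrec fun c => (D c).2.1.2 :=
    Primrec.snd.comp (Primrec.fst.comp (Primrec.snd.comp hD))
  have h2 : Primrec fun c => (D c).2.2.2 :=
    Primrec.snd.comp (Primrec.snd.comp (Primrec.snd.comp hD))
  have hx2 : Primrec fun c => x c / 2 := Primrec.nat_div.comp hx (Primrec.const 2)
  unfold fin
  exact Primrec.ite (Primrec.eq.comp (Primrec.nat_mod.comp hx (Primrec.const 2))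
    (Primrec.const 0)) (primrec_memB h1 hx2) (primrec_memB h2 hx2)

theorem primrec_annA : Primrec annA := by
  have hD : Primrec fun x : Dat × (ℕ × ℕ) × ℕ => x.1 := Primrec.fst
  have hk : Primrec fun x : Dat × (ℕ × ℕ) × ℕ => x.1.1 := Primrec.fst.comp Primrec.fst
  have hs1 : Primrec fun x : Dat × (ℕ × ℕ) × ℕ => x.2.1.1 :=
    Primrec.fst.comp (Primrec.fst.comp Primrec.snd)
  have hs2 : Primrec fun x : Dat × (ℕ × ℕ) × ℕ => x.2.1.2 :=
    Primrec.snd.comp (Primrec.fst.comp Primrec.snd)
  have ha : Primrec fun x : Dat × (ℕ × ℕ) × ℕ => x.2.2 := Primrec.snd.comp Primrec.snd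
  have hk1 : Primrec fun x : Dat × (ℕ × ℕ) × ℕ => x.1.1 + 1 :=
    Primrec.nat_add.comp hk (Primrec.const 1)
  have hk2 : Primrec fun x : Dat × (ℕ × ℕ) × ℕ => x.1.1 + 2 :=
    Primrec.nat_add.comp hk (Primrec.const 2)
  have hp : Primrec fun x : Dat × (ℕ × ℕ) × ℕ => x.2.1.2 + 2 :=
    Primrec.nat_add.comp hs2 (Primrec.const 2)
  have hm : Primrec fun x : Dat × (ℕ × ℕ) × ℕ => x.2.1.2 - 2 :=
    Primrec.nat_sub.comp hs2 (Primrec.const 2)
  have hdead : Primrec fun _ : Dat × (ℕ × ℕ) × ℕ => ((0, 7) : ℕ × ℕ) := Primrec.const (0, 7)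
  have hc : ∀ c : ℕ, PrimrecPred fun x : Dat × (ℕ × ℕ) × ℕ => x.2.1.2 = c := fun c =>
    Primrec.eq.comp hs2 (Primrec.const c)
  refine primrec_mkB (Primrec.nat_mul.comp (Primrec.const 2) primrec_qb) (Primrec.const 8)
    primrec_ml ?_ ?_
  · unfold ast
    refine Primrec.ite (hc 0) (Primrec.ite (Primrec.eq.comp ha hk) (Primrec.const (0, 1)) hdead) ?_
    refine Primrec.ite ((hc 1).or (hc 2)) ?_ ?_
    · refine Primrec.ite (Primrec.eq.comp ha hk1) (Primrec.pair (Primrec.const 0) hp) ?_
      exact Primrec.ite (Primrec.eq.comp ha hk2) (Primrec.const (1, 4)) hdead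
    refine Primrec.ite ((hc 3).or (hc 4)) ?_ ?_
    · refine Primrec.ite (Primrec.nat_lt.comp ha hk) (Primrec.pair (primrec_nx hD hs1 ha) hp) ?_
      exact Primrec.ite ((Primrec.eq.comp ha hk).and
        (Primrec.eq.comp (primrec_fin hD hs1) (Primrec.const true)))
        (Primrec.pair (Primrec.const 0) hm) hdead
    refine Primrec.ite ((hc 5).or (hc 6)) ?_ hdead
    exact Primrec.ite (Primrec.eq.comp ha (Primrec.nat_add.comp hk1 hs1))
      (Primrec.pair hs1 hm) hdead
  · exact Primrec.not.comp (Primrec.eq.comp (Primrec.snd.comp Primrec.snd) (Primrec.const 2)).decide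

/-- The automata of the iterated codings. -/
def hcode (D : Dat) : ℕ → List ℕ × List ℕ
  | 0 => annA D
  | t + 1 => hidA (D.1 + 1) (al (ml D) t) (hcode D t)

theorem lang_hcode (D : Dat) (t : ℕ) :
    lang (al (ml D) t) (hcode D t) = FL (D.1 + 1) (ml D) (f0 D) t := by
  induction t with
  | zero => exact lang_annA D
  | succ t ih =>
    have h := lang_hidA (D.1 + 1) (al (ml D) t) (hcode D t)
    rw [ih] at h
    exact h

theorem primrec_al (t : ℕ) : Primrec fun D : Dat => al (ml D) t := by
  induction t with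
  | zero => exact primrec_ml
  | succ t ih => exact Primrec.nat_add.comp ih (Primrec.const 2)

theorem primrec_hcode (t : ℕ) : Primrec fun D : Dat => hcode D t := by
  induction t with
  | zero => exact primrec_annA
  | succ t ih =>
    exact primrec_hidA.comp (Primrec.pair (Primrec.nat_add.comp Primrec.fst (Primrec.const 1))
      (Primrec.pair (primrec_al t) ih))

/-- The reduction of separation to membership. -/
def sred (n d t : ℕ) (D : Dat) : List ℕ × List ℕ := hred n d (al (ml D) t, hcode D t)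

theorem primrec_sred (n d t : ℕ) : Primrec (sred n d t) :=
  (primrec_hred n d).comp (Primrec.pair (primrec_al t) (primrec_hcode t))

end Pool.Agent.Helper964_DD
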