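import Pool.Agent.Helper964_DD.Blk
import Pool.Agent.Helper964_DD.SepAut

/-!
# Automata for annotated blocks with connectors
-/

set_option autoImplicit false

namespace Pool.Agent.Helper964_DD

/-! ### Primitive recursive functions -/

section prim

variable {σ : Type} [Primcodable σ] {D : σ → Dt} {x a h μ : σ → ℕ}

theorem primrec_sz (hD : Primrec D) : Primrec fun c => sz (D c) :=
  Primrec.nat_max.comp (Primrec.const 2) (Primrec.list_length.comp (Primrec.snd.comp hD))

theorem primrec_qs (hD : Primrec D) : Primrec fun c => qs (D c) := by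
  refine primrec_bd.comp (Primrec.list_map (Primrec.snd.comp hD) ?_)
  exact (primrec_bd.comp (Primrec.fst.comp Primrec.snd)).to₂

theorem primrec_bds (hD : Primrec D) : Primrec fun c => 3 * sz (D c) + sz (D c) * qs (D c) :=
  Primrec.nat_add.comp (Primrec.nat_mul.comp (Primrec.const 3) (primrec_sz hD))
    (Primrec.nat_mul.comp (primrec_sz hD) (primrec_qs hD))

theorem primrec_ml2 (hD : Primrec D) : Primrec fun c => ml2 (D c) :=
  Primrec.nat_add.comp (Primrec.nat_add.comp (Primrec.fst.comp hD) (Primrec.const 1))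
    (primrec_bds hD)

theorem primrec_atm (hD : Primrec D) (hx : Primrec x) : Primrec fun c => atm (D c) (x c) :=
  (Primrec.list_getD (([], []) : List ℕ × List ℕ)).comp (Primrec.snd.comp hD) hx

theorem primrec_nxs (hD : Primrec D) (hx : Primrec x) (ha : Primrec a) :
    Primrec fun c => nxs (D c) (x c) (a c) := by
  have hs := primrec_sz hD
  have hm := Primrec.nat_mod.comp hx hs
  exact Primrec.nat_add.comp hm (Primrec.nat_mul.comp hs
    (primrec_tr (Primrec.fst.comp hD) (Primrec.fst.comp (primrec_atm hD hm))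
      (Primrec.nat_div.comp hx hs) ha))

theorem primrec_fins (hD : Primrec D) (hx : Primrec x) : Primrec fun c => fins (D c) (x c) := by
  have hs := primrec_sz hD
  exact primrec_memB (Primrec.snd.comp (primrec_atm hD (Primrec.nat_mod.comp hx hs)))
    (Primrec.nat_div.comp hx hs)

theorem primrec_hval (hD : Primrec D) (hh : Primrec h) : Primrec fun c => hval (D c) (h c) := by
  have hs := primrec_sz hD
  have h3 := Primrec.nat_mul.comp (Primrec.const 3) hs
  exact Primrec.ite (Primrec.nat_lt.comp hh h3) (Primrec.nat_mod.comp hh hs)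
    (Primrec.nat_sub.comp hh h3)

theorem primrec_nxh (hD : Primrec D) (hh : Primrec h) (ha : Primrec a) :
    Primrec fun c => nxh (D c) (h c) (a c) :=
  Primrec.nat_add.comp (Primrec.nat_mul.comp (Primrec.const 3) (primrec_sz hD))
    (primrec_nxs hD (primrec_hval hD hh) ha)

theorem primrec_finh (hD : Primrec D) (hh : Primrec h) : Primrec fun c => finh (D c) (h c) :=
  primrec_fins hD (primrec_hval hD hh)

theorem primrec_alw (hD : Primrec D) (hh : Primrec h) (hμ : Primrec μ) :
    PrimrecPred fun c => alw (D c) (h c) (μ c) := by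
  have hs := primrec_sz hD
  have h2 := Primrec.nat_mul.comp (Primrec.const 2) hs
  have h3 := Primrec.nat_mul.comp (Primrec.const 3) hs
  have m1 := Primrec.nat_mod.comp hμ hs
  have m2 := Primrec.nat_mod.comp hh hs
  have m3 := Primrec.nat_mod.comp (Primrec.succ.comp hh) hs
  have c0 : Primrec fun _ : σ => 0 := Primrec.const 0
  unfold alw
  refine ((Primrec.nat_lt.comp hμ hs).and (Primrec.eq.comp m1 m2)).or
    (((Primrec.nat_le.comp hs hμ).and ((Primrec.nat_lt.comp hμ h2).and
      (Primrec.eq.comp m1 m3))).or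
      ((Primrec.nat_le.comp h2 hμ).and ((Primrec.nat_lt.comp hμ h3).and ?_)))
  exact ((Primrec.eq.comp m1 c0).and (Primrec.eq.comp m2 c0).not).or
    ((Primrec.eq.comp m1 c0).not.and (Primrec.eq.comp m2 c0))

theorem primrec_lst {m p : σ → ℕ} (hD : Primrec D) (hm : Primrec m) (hx : Primrec x)
    (hp : Primrec p) (ha : Primrec a) :
    Primrec fun c => lst (D c) (m c) (x c, p c) (a c) := by
  have hk : Primrec fun c => (D c).1 := Primrec.fst.comp hD
  have hk1 : Primrec fun c => (D c).1 + 1 := Primrec.succ.comp hk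
  have hdead : Primrec fun _ : σ => ((0, 5) : ℕ × ℕ) := Primrec.const (0, 5)
  have hc : ∀ i : ℕ, PrimrecPred fun c => p c = i := fun i =>
    Primrec.eq.comp hp (Primrec.const i)
  have hsub := Primrec.nat_sub.comp ha hk1
  unfold lst
  refine Primrec.ite (hc 0) (Primrec.ite (Primrec.eq.comp ha hk) (Primrec.const (0, 1)) hdead) ?_
  refine Primrec.ite (hc 1) (Primrec.ite (Primrec.eq.comp ha (Primrec.nat_add.comp hk1 hm))
    (Primrec.pair hm (Primrec.const 2)) hdead) ?_
  refine Primrec.ite (hc 2) ?_ ?_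
  · refine Primrec.ite (Primrec.nat_lt.comp ha hk)
      (Primrec.pair (primrec_nxh hD hx ha) (Primrec.const 3)) ?_
    exact Primrec.ite ((Primrec.eq.comp ha hk).and
      (Primrec.eq.comp (primrec_finh hD hx) (Primrec.const true)))
      (Primrec.pair hx (Primrec.const 4)) hdead
  refine Primrec.ite (hc 3) (Primrec.ite (Primrec.eq.comp ha (Primrec.nat_add.comp hk1 hx))
    (Primrec.pair hx (Primrec.const 2)) hdead) ?_
  refine Primrec.ite (hc 4) ?_ hdead
  exact Primrec.ite ((Primrec.nat_lt.comp hk ha).and (primrec_alw hD hx hsub))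
    (Primrec.pair hsub (Primrec.const 2)) hdead

end prim

/-! ### Products with a second automaton -/

/-- The transitions of the product of the local automaton and of a second automaton with at most
eight states. -/
def pst (D : Dt) (m : ℕ) (g : ℕ → ℕ → ℕ) (s : ℕ × ℕ) (a : ℕ) : ℕ × ℕ :=
  ((lst D m (s.1, s.2 / 8) a).1, (lst D m (s.1, s.2 / 8) a).2 * 8 + g (s.2 % 8) a)

/-- The product automaton. -/
def prodA (D : Dt) (m : ℕ) (g : ℕ → ℕ → ℕ) (P : ℕ → ℕ → Bool) : List ℕ × List ℕ :=
  mkB (3 * sz D + sz D * qs D) 48 (ml2 D) (pst D m g) (fun s => P (s.2 / 8) (s.2 % 8))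

/-- The run of the second automaton. -/
def gfd {m : ℕ} (g : ℕ → ℕ → ℕ) (σ : ℕ) (w : List (Fin m)) : ℕ :=
  w.foldl (fun (σ : ℕ) (a : Fin m) => g σ (a : ℕ)) σ

theorem lst_bound (D : Dt) {m : ℕ} (hm : m < 3 * sz D) (s : ℕ × ℕ) (a : ℕ)
    (h1 : s.1 < 3 * sz D + sz D * qs D) (h2 : s.2 < 6) (ha : a < ml2 D) :
    (lst D m s a).1 < 3 * sz D + sz D * qs D ∧ (lst D m s a).2 < 6 := by
  have h3 := nxh_lt D s.1 a
  have h4 := sz_ge D
  have h5 : a - (D.1 + 1) < 3 * sz D + sz D * qs D := by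
    unfold ml2 at ha
    omega
  unfold lst
  split_ifs <;> exact ⟨by first | assumption | omega | (simp only []; omega), by
    first | omega | (norm_num; done) | (simp only []; omega)⟩

theorem prod_run (D : Dt) (m : ℕ) {g : ℕ → ℕ → ℕ} (hg : ∀ σ a, σ < 8 → g σ a < 8)
    (w : List (Fin (ml2 D))) : ∀ x p σ, σ < 8 →
    w.foldl (fun (s : ℕ × ℕ) (a : Fin (ml2 D)) => pst D m g s (a : ℕ)) (x, p * 8 + σ) =
      ((lfold D m (x, p) w).1, (lfold D m (x, p) w).2 * 8 + gfd g σ w) := by
  induction w with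
  | nil => intro x p σ _; rfl
  | cons a w ih =>
    intro x p σ hσ
    have h1 : (p * 8 + σ) / 8 = p := by omega
    have h2 : (p * 8 + σ) % 8 = σ := by omega
    rw [List.foldl_cons, pst, h1, h2]
    exact ih _ _ _ (hg σ a hσ)

theorem lang_prodA (D : Dt) {m : ℕ} (hm : m < 3 * sz D) {g : ℕ → ℕ → ℕ}
    (hg : ∀ σ a, σ < 8 → g σ a < 8) (P : ℕ → ℕ → Bool) :
    lang (ml2 D) (prodA D m g P) = {w | P (lfold D m (0, 0) w).2 (gfd g 0 w) = true} := by
  have h4 := sz_ge D
  have hgf : ∀ (w : List (Fin (ml2 D))) σ, σ < 8 → gfd g σ w < 8 := by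
    intro w
    induction w with
    | nil => intro σ hσ; exact hσ
    | cons a w ih => intro σ hσ; exact ih _ (hg σ a hσ)
  rw [prodA, lang_mkB (by omega) (by norm_num)]
  · ext w
    have h := prod_run D m hg w 0 0 0 (by norm_num)
    simp only [Nat.zero_mul, Nat.add_zero] at h
    simp only [Set.mem_ofPred_eq]
    rw [h]
    have h5 := hgf w 0 (by norm_num)
    have h6 : ((lfold D m (0, 0) w).2 * 8 + gfd g 0 w) / 8 = (lfold D m (0, 0) w).2 := by omega
    have h7 : ((lfold D m (0, 0) w).2 * 8 + gfd g 0 w) % 8 = gfd g 0 w := by omega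
    simp only [h6, h7]
  · intro s a h1 h2 ha
    obtain ⟨h5, h6⟩ := lst_bound D hm (s.1, s.2 / 8) a h1 (by simp only []; omega) ha
    have h7 := hg (s.2 % 8) a (Nat.mod_lt _ (by norm_num))
    refine ⟨h5, ?_⟩
    change (lst D m (s.1, s.2 / 8) a).2 * 8 + g (s.2 % 8) a < 48
    omega

theorem primrec_prodA {σ : Type} [Primcodable σ] {D : σ → Dt} {m : σ → ℕ}
    {g : σ → ℕ → ℕ → ℕ} {P : ℕ → ℕ → Bool} (hD : Primrec D) (hm : Primrec m)
    (hg : Primrec fun x : σ × ℕ × ℕ => g x.1 x.2.1 x.2.2)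
    (hP : Primrec fun x : ℕ × ℕ => P x.1 x.2) :
    Primrec fun c => prodA (D c) (m c) (g c) P := by
  have ps1 : Primrec fun x : σ × (ℕ × ℕ) × ℕ => x.2.1.1 :=
    Primrec.fst.comp (Primrec.fst.comp Primrec.snd)
  have ps2 : Primrec fun x : σ × (ℕ × ℕ) × ℕ => x.2.1.2 :=
    Primrec.snd.comp (Primrec.fst.comp Primrec.snd)
  have pa : Primrec fun x : σ × (ℕ × ℕ) × ℕ => x.2.2 := Primrec.snd.comp Primrec.snd
  have pd : Primrec fun x : σ × (ℕ × ℕ) × ℕ => x.2.1.2 / 8 :=
    Primrec.nat_div.comp ps2 (Primrec.const 8)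
  have pm : Primrec fun x : σ × (ℕ × ℕ) × ℕ => x.2.1.2 % 8 :=
    Primrec.nat_mod.comp ps2 (Primrec.const 8)
  have pl := primrec_lst (hD.comp Primrec.fst) (hm.comp Primrec.fst) ps1 pd pa
  have pg : Primrec fun x : σ × (ℕ × ℕ) × ℕ => g x.1 (x.2.1.2 % 8) x.2.2 :=
    hg.comp (Primrec.pair Primrec.fst (Primrec.pair pm pa))
  refine primrec_mkB (primrec_bds hD) (Primrec.const 48) (primrec_ml2 hD) ?_ ?_
  · exact Primrec.pair (Primrec.fst.comp pl) (Primrec.nat_add.comp
      (Primrec.nat_mul.comp (Primrec.snd.comp pl) (Primrec.const 8)) pg)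
  · have p2 : Primrec fun x : σ × (ℕ × ℕ) => x.2.2 := Primrec.snd.comp Primrec.snd
    exact hP.comp (Primrec.pair (Primrec.nat_div.comp p2 (Primrec.const 8))
      (Primrec.nat_mod.comp p2 (Primrec.const 8)))

end Pool.Agent.Helper964_DD
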