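import Pool.Agent.Helper964_DD.EasyF

/-!
# Chains of words with connectors
-/

set_option autoImplicit false

namespace Pool.Agent.Helper964_DD

variable {D : Dt}

/-- The block with the connector `μ`, after a mark; the contents are given by `u`. -/
def bk (D : Dt) (u : ℕ → List (Fin D.1)) (μ : ℕ) : List (Fin (ml2 D)) :=
  mk2 D :: bw D μ (u (μ % sz D))

/-- A sequence of blocks. -/
def bks (D : Dt) (u : ℕ → List (Fin D.1)) (cs : List ℕ) : List (Fin (ml2 D)) :=
  cs.flatMap (bk D u)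

/-- The word which is given by a sequence of connectors. -/
def wrd (D : Dt) (u : ℕ → List (Fin D.1)) (cs : List ℕ) : List (Fin (ml2 D)) :=
  bks D u cs ++ [mk2 D]

/-- Insertion of a sequence of connectors in a power. -/
inductive Stp (M n : ℕ) : List ℕ → List ℕ → Prop
  | mk (p x v q : List ℕ) (hx : x ≠ []) (hl : v.length = x.length) (hxM : ∀ μ ∈ x, μ < M)
      (hvM : ∀ μ ∈ v, μ < M) :
      Stp M n (p ++ (rep x n ++ q)) (p ++ (rep x n ++ (v ++ (rep x n ++ q))))

/-- The visible letters. -/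
def gv2 (D : Dt) (t : ℕ) (a : Fin D.1) : Fin (al (ml2 D) t) :=
  ⟨a, by have := le_al (ml2 D) t; have := vis_lt (D := D) a.2; omega⟩

/-- A hidden letter. -/
def h02 (D : Dt) : Fin (ml2 D) := lg D (D.1 + 1)

theorem h02_ge (D : Dt) : D.1 + 1 ≤ (h02 D : ℕ) := by
  have := sz_ge D
  rw [h02, lg_val (by unfold ml2; omega)]

theorem ann_indist {t : ℕ} {E : Fin (ml2 D) → List (Fin (al (ml2 D) t))}
    (hE : IsE (D.1 + 1) (ml2 D) t E) {S : Set (Set (List (Fin (al (ml2 D) t))))}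
    (hS : Indist (D.1 + 1) E S) {Q : Set (List (Fin (al (ml2 D) t)))} (hQ : Q ∈ S)
    (w : List (Fin D.1)) : ∀ (x : ℕ) (p : List (Fin (al (ml2 D) t))),
    (p ++ (ann D x w).flatMap E ∈ Q ↔ p ++ w.flatMap (fun a => gv2 D t a :: E (h02 D)) ∈ Q) := by
  induction w with
  | nil => intro x p; exact Iff.rfl
  | cons a w ih =>
    intro x p
    have ha : ((lg D a : Fin (ml2 D)) : ℕ) = a := lg_val (vis_lt a.2)
    obtain ⟨a', h1, h2⟩ := hE.visible (lg D a) (by rw [ha]; omega)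
    have h3 : a' = gv2 D t a := Fin.ext (by rw [h1, ha]; rfl)
    have h4 : D.1 + 1 ≤ ((lg D (D.1 + 1 + nxh D x a) : Fin (ml2 D)) : ℕ) := by
      rw [lg_val (hid_lt (nxh_lt D x a))]
      omega
    rw [ann, List.flatMap_cons, List.flatMap_cons, h2, h3, List.flatMap_cons]
    have h5 := hS Q hQ _ _ h4 (h02_ge D) (p ++ [gv2 D t a]) ((ann D (nxh D x a) w).flatMap E)
    have h6 := ih (nxh D x a) (p ++ (gv2 D t a :: E (h02 D)))
    have e1 : p ++ ([gv2 D t a] ++ (E (lg D (D.1 + 1 + nxh D x a)) ++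
        (ann D (nxh D x a) w).flatMap E)) =
        (p ++ [gv2 D t a]) ++ (E (lg D (D.1 + 1 + nxh D x a)) ++
          (ann D (nxh D x a) w).flatMap E) := by simp
    have e2 : (p ++ [gv2 D t a]) ++ (E (h02 D) ++ (ann D (nxh D x a) w).flatMap E) =
        (p ++ (gv2 D t a :: E (h02 D))) ++ (ann D (nxh D x a) w).flatMap E := by simp
    rw [e1, h5, e2, h6]
    simp

theorem bk_indist {t : ℕ} {E : Fin (ml2 D) → List (Fin (al (ml2 D) t))}
    (hE : IsE (D.1 + 1) (ml2 D) t E) {S : Set (Set (List (Fin (al (ml2 D) t))))}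
    (hS : Indist (D.1 + 1) E S) {Q : Set (List (Fin (al (ml2 D) t)))} (hQ : Q ∈ S)
    {μ : ℕ} (hμ : μ < 3 * sz D) (w : List (Fin D.1)) :
    (mk2 D :: bw D μ w).flatMap E ∈ Q ↔ tau (dm D t) (gv2 D t) (E (h02 D)) w ∈ Q := by
  obtain ⟨d', h1, h2⟩ := hE.visible (mk2 D) (by rw [mk2_val]; omega)
  have h3 : d' = dm D t := Fin.ext (by rw [h1]; rfl)
  have h4 : D.1 + 1 ≤ ((lg D (D.1 + 1 + μ) : Fin (ml2 D)) : ℕ) := by
    rw [lg_val (conn_lt hμ)]
    omega
  rw [bw, List.flatMap_cons, List.flatMap_cons, h2, h3]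
  have h5 := hS Q hQ _ _ h4 (h02_ge D) [dm D t] ((ann D μ w).flatMap E)
  have h6 := ann_indist hE hS hQ w μ (dm D t :: E (h02 D))
  rw [h5]
  have e2 : [dm D t] ++ (E (h02 D) ++ (ann D μ w).flatMap E) =
      (dm D t :: E (h02 D)) ++ (ann D μ w).flatMap E := by simp
  rw [e2, h6]
  simp [tau]

/-- Sequences of blocks of the same length are not distinguished. -/
theorem bks_indist {t : ℕ} {E : Fin (ml2 D) → List (Fin (al (ml2 D) t))}
    {u : ℕ → List (Fin D.1)} {Q : Set (List (Fin (al (ml2 D) t)))}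
    (h : ∀ μ ν, μ < 3 * sz D → ν < 3 * sz D → ∀ p q : List (Fin (al (ml2 D) t)),
      (p ++ ((bk D u μ).flatMap E ++ q) ∈ Q ↔ p ++ ((bk D u ν).flatMap E ++ q) ∈ Q))
    (cs : List ℕ) : ∀ cs' : List ℕ, cs'.length = cs.length → (∀ μ ∈ cs, μ < 3 * sz D) →
      (∀ μ ∈ cs', μ < 3 * sz D) → ∀ p q : List (Fin (al (ml2 D) t)),
      (p ++ ((bks D u cs).flatMap E ++ q) ∈ Q ↔ p ++ ((bks D u cs').flatMap E ++ q) ∈ Q) := by
  induction cs with
  | nil =>
    intro cs' hl _ _ p q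
    rw [List.length_nil, List.length_eq_zero_iff] at hl
    rw [hl]
  | cons μ cs ih =>
    intro cs' hl h1 h2 p q
    cases cs' with
    | nil => simp at hl
    | cons ν cs' =>
      simp only [List.length_cons, Nat.add_right_cancel_iff] at hl
      have h3 := h μ ν (h1 μ (by simp)) (h2 ν (by simp)) p ((bks D u cs).flatMap E ++ q)
      have h4 := ih cs' hl (fun μ hμ => h1 μ (by simp [hμ])) (fun μ hμ => h2 μ (by simp [hμ]))
        (p ++ (bk D u ν).flatMap E) q
      have e : ∀ ν cs, (bks D u (ν :: cs)).flatMap E =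
          (bk D u ν).flatMap E ++ (bks D u cs).flatMap E := by
        intro ν cs
        simp [bks]
      rw [e, e, List.append_assoc, List.append_assoc, h3]
      simpa using h4

theorem bks_append (u : ℕ → List (Fin D.1)) (cs cs' : List ℕ) :
    bks D u (cs ++ cs') = bks D u cs ++ bks D u cs' := by simp [bks]

theorem bks_rep (u : ℕ → List (Fin D.1)) (x : List ℕ) (n : ℕ) :
    bks D u (rep x n) = rep (bks D u x) n := by
  induction n with
  | zero => rfl
  | succ n ih => rw [rep_succ, rep_succ, bks_append, ih]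

/-- **Chains and full levels.** If a language of the level `t + 3` separates the words of the
language `X` from the words of the language `Y` (after hiding), and if there are arbitrarily long
chains which alternate between `X` and `Y`, then finitely many languages of a half level
distinguish the words of the languages of `D`. -/
theorem chain_hard (t : ℕ) {X Y : Set (List (Fin (ml2 D)))}
    {K : Set (List (Fin (al (ml2 D) (t + 2))))} (hK : K ∈ B (t + 3))
    (hX : ∀ z ∈ FL (D.1 + 1) (ml2 D) X (t + 2), z ∈ K)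
    (hY : ∀ z ∈ FL (D.1 + 1) (ml2 D) Y (t + 2), z ∉ K)
    (hch : ∀ u : ℕ → List (Fin D.1), (∀ j < sz D, u j ∈ lngs D j) → ∀ n r : ℕ,
      ∃ c : ℕ → List ℕ, (∀ i < r, Relation.ReflTransGen (Stp (3 * sz D) n) (c i) (c (i + 1))) ∧
        ∀ i ≤ r, (i % 2 = 0 → wrd D u (c i) ∈ X) ∧ (i % 2 = 1 → wrd D u (c i) ∈ Y)) :
    ∃ V : Set (Set (List (Fin D.1))), V.Finite ∧ (∀ W ∈ V, SPol (ST (t + 1)) W) ∧
      ¬ ∃ u : ℕ → List (Fin D.1), (∀ j < sz D, u j ∈ lngs D j) ∧
        ∀ W ∈ V, ∀ i < sz D, ∀ j < sz D, (u i ∈ W ↔ u j ∈ W) := by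
  have hv := le_ml2 D
  obtain ⟨KK, hKK, hKf, hdet⟩ := det_BC (C := MC (B (t + 2))) hK
  have hins : ∀ K' ∈ KK, Ins (Tst (t + 2)) K' := fun K' h => ins_Pol (t + 2) (Pol.base _ (hKK h))
  -- common data for the family
  have hcom : ∃ S ⊆ Tst (α := Fin (al (ml2 D) (t + 2))) (t + 2), S.Finite ∧ ∃ n, ∀ K' ∈ KK,
      ∀ u v : List (Fin (al (ml2 D) (t + 2))), u ≠ [] → Ord S v u → ∀ p q,
        p ++ (rep u n ++ q) ∈ K' → p ++ (rep u n ++ (v ++ (rep u n ++ q))) ∈ K' := by
    choose! S hS hSf N hN using hins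
    obtain ⟨n, hn⟩ : ∃ n, ∀ K' ∈ KK, N K' ≤ n := by
      obtain ⟨n, hn⟩ := (hKf.image N).bddAbove
      exact ⟨n, fun K' h => hn ⟨K', h, rfl⟩⟩
    refine ⟨⋃ K' ∈ KK, S K', ?_, hKf.biUnion fun K' h => hSf K' h, n, ?_⟩
    · intro Q hQ
      simp only [Set.mem_iUnion] at hQ
      obtain ⟨K', h1, h2⟩ := hQ
      exact hS K' h1 h2
    · intro K' hK' u v hu ho p q
      exact hN K' hK' n (hn K' hK') u v hu
        (ho.mono fun Q hQ => by simp only [Set.mem_iUnion]; exact ⟨K', hK', hQ⟩) p q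
  obtain ⟨S, hS, hSf, n, hn⟩ := hcom
  have hSP : ∀ Q ∈ S, Pol (B (t + 1)) Q := fun Q hQ => hS hQ
  -- closure under quotients
  let S' : Set (Set (List (Fin (al (ml2 D) (t + 2))))) := ⋃ Q ∈ S, {R | ∃ p q, R = quo Q p q}
  have hS'f : S'.Finite := hSf.biUnion fun Q hQ => FQ_B _ Q (Pol_le (hSP Q hQ))
  have hS'P : ∀ Q ∈ S', Pol (B (1 + t)) Q := by
    intro Q hQ
    simp only [S', Set.mem_iUnion] at hQ
    obtain ⟨Q', hQ', p, q, rfl⟩ := hQ
    rw [Nat.add_comm 1 t]
    exact quo_Pol (hSP Q' hQ') p q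
  obtain ⟨E, hE, hI, N, h1, h2⟩ := exists_top_code hv t (gv2 D (t + 2)) hS'f hS'P
  obtain ⟨ξ, hξ⟩ := h1 (h02 D) (h02_ge D)
  let ρ : List (Fin (al (ml2 D) (t + 2))) := ξ ++ rep [padA (ml2 D) (t + 1)] N
  let F : Set (List (Fin (al (ml2 D) (t + 2)))) → Set (List (Fin D.1)) := fun Q =>
    pre (psi (gv2 D (t + 2)) (shA (ml2 D) (t + 1)) (padA (ml2 D) (t + 1)) N ρ) Q
      (dm D (t + 2) :: (shA (ml2 D) (t + 1) :: rep [padA (ml2 D) (t + 1)] N)) ρ
  have hF : ∀ Q ∈ S', SPol (ST (1 + t)) (F Q) := fun Q hQ => h2 Q hQ ρ ⟨ξ, rfl⟩ _ _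
  have key : ∀ Q ∈ S', ∀ μ < 3 * sz D, ∀ w : List (Fin D.1),
      ((mk2 D :: bw D μ w).flatMap E ∈ Q ↔ w ∈ F Q) := by
    intro Q hQ μ hμ w
    rw [bk_indist hE hI hQ hμ w, hξ]
    exact tau_mem _ _ _ _ _ _ _ _
  refine ⟨F '' S', hS'f.image F, ?_, ?_⟩
  · rintro _ ⟨Q, hQ, rfl⟩
    rw [Nat.add_comm t 1]
    exact hF Q hQ
  rintro ⟨u, hu, htype⟩
  -- the blocks are not distinguished
  have hmod : ∀ μ, μ % sz D < sz D := fun μ => Nat.mod_lt _ (by have := sz_ge D; omega)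
  have hblock : ∀ Q ∈ S, ∀ μ ν, μ < 3 * sz D → ν < 3 * sz D →
      ∀ p q : List (Fin (al (ml2 D) (t + 2))),
      (p ++ ((bk D u μ).flatMap E ++ q) ∈ Q ↔ p ++ ((bk D u ν).flatMap E ++ q) ∈ Q) := by
    intro Q hQ μ ν hμ hν p q
    have hQ' : quo Q p q ∈ S' := by
      simp only [S', Set.mem_iUnion]
      exact ⟨Q, hQ, p, q, rfl⟩
    have h3 := key _ hQ' μ hμ (u (μ % sz D))
    have h4 := key _ hQ' ν hν (u (ν % sz D))
    have h5 := htype (F (quo Q p q)) ⟨_, hQ', rfl⟩ _ (hmod μ) _ (hmod ν)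
    exact h3.trans (h5.trans h4.symm)
  -- monotonicity
  have hstep : ∀ K' ∈ KK, ∀ cs cs', Stp (3 * sz D) n cs cs' →
      (wrd D u cs).flatMap E ∈ K' → (wrd D u cs').flatMap E ∈ K' := by
    rintro K' hK' _ _ ⟨p, x, v, q, hx, hl, hxM, hvM⟩ hm
    have ho : Ord S ((bks D u v).flatMap E) ((bks D u x).flatMap E) := by
      intro Q hQ hvQ
      have := bks_indist (hblock Q hQ) v x hl.symm hvM hxM [] []
      simp only [List.append_nil, List.nil_append] at this
      exact this.1 hvQ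
    have hne : (bks D u x).flatMap E ≠ [] := by
      obtain ⟨μ, x', rfl⟩ := List.exists_cons_of_ne_nil hx
      obtain ⟨d', _, h3⟩ := hE.visible (mk2 D) (by rw [mk2_val]; omega)
      simp [bks, bk, h3]
    have e : (wrd D u (p ++ (rep x n ++ q))).flatMap E = (bks D u p).flatMap E ++
        (rep ((bks D u x).flatMap E) n ++ ((bks D u q).flatMap E ++ [mk2 D].flatMap E)) := by
      rw [wrd, bks_append, bks_append, bks_rep]
      simp only [List.flatMap_append, rep_flatMap, List.append_assoc]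
    have e' : (wrd D u (p ++ (rep x n ++ (v ++ (rep x n ++ q))))).flatMap E =
        (bks D u p).flatMap E ++ (rep ((bks D u x).flatMap E) n ++ ((bks D u v).flatMap E ++
          (rep ((bks D u x).flatMap E) n ++ ((bks D u q).flatMap E ++ [mk2 D].flatMap E)))) := by
      rw [wrd, bks_append, bks_append, bks_append, bks_append, bks_rep]
      simp only [List.flatMap_append, rep_flatMap, List.append_assoc]
    rw [e] at hm
    rw [e']
    exact hn K' hK' _ _ hne ho _ _ hm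
  have hsteps : ∀ K' ∈ KK, ∀ cs cs', Relation.ReflTransGen (Stp (3 * sz D) n) cs cs' →
      (wrd D u cs).flatMap E ∈ K' → (wrd D u cs').flatMap E ∈ K' := by
    intro K' hK' cs cs' h hm
    induction h with
    | refl => exact hm
    | tail _ h ih => exact hstep K' hK' _ _ h ih
  obtain ⟨c, hc1, hc2⟩ := hch u hu n (KK.ncard + 1)
  -- the sets of the tests which are passed
  let Z : ℕ → Set (Set (List (Fin (al (ml2 D) (t + 2))))) := fun i =>
    {K' | K' ∈ KK ∧ (wrd D u (c i)).flatMap E ∈ K'}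
  have hZf : ∀ i, (Z i).Finite := fun i => hKf.subset fun K' h => h.1
  have hne : ∀ i < KK.ncard + 1, Z i ≠ Z (i + 1) := by
    intro i hi heq
    have hag : ∀ K' ∈ KK, ((wrd D u (c i)).flatMap E ∈ K' ↔
        (wrd D u (c (i + 1))).flatMap E ∈ K') := by
      intro K' hK'
      have := Set.ext_iff.1 heq K'
      simp only [Z, Set.mem_ofPred_eq, hK', true_and] at this
      exact this
    have ha := hc2 i (by omega)
    have hb := hc2 (i + 1) (by omega)
    rcases Nat.mod_two_eq_zero_or_one i with h | h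
    · have h3 := hX _ ((hE.mem_FL hv X _).2 (ha.1 h))
      have h4 := hY _ ((hE.mem_FL hv Y _).2 (hb.2 (by omega)))
      exact h4 (hdet _ _ hag h3)
    · have h3 := hX _ ((hE.mem_FL hv X _).2 (hb.1 (by omega)))
      have h4 := hY _ ((hE.mem_FL hv Y _).2 (ha.2 h))
      exact h4 (hdet _ _ (fun K' hK' => (hag K' hK').symm) h3)
  have hmono : ∀ i ≤ KK.ncard + 1, i ≤ (Z i).ncard := by
    intro i
    induction i with
    | zero => intro _; exact Nat.zero_le _
    | succ i ih =>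
      intro hi
      have h3 := ih (by omega)
      have h4 : Z i ⊂ Z (i + 1) := by
        refine (Set.ssubset_iff_subset_ne).2 ⟨?_, hne i (by omega)⟩
        rintro K' ⟨hK', h5⟩
        exact ⟨hK', hsteps K' hK' _ _ (hc1 i (by omega)) h5⟩
      have h5 := Set.ncard_lt_ncard h4 (hZf (i + 1))
      omega
  have h3 := hmono (KK.ncard + 1) le_rfl
  have h4 := Set.ncard_le_ncard (s := Z (KK.ncard + 1)) (t := KK) (fun K' h => h.1) hKf
  omega

end Pool.Agent.Helper964_DD
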