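import Pool.Agent.Helper964_DD.BarAut

/-!
# Reductions of half levels
-/

set_option autoImplicit false

namespace Pool.Agent.Helper964_DD

variable {α γ : Type}

/-- Hiding all letters raises the half levels exactly by one. -/
theorem hid_Pol_iff [Finite α] [Finite γ] {cl : γ → Cl α} {sh x : γ} {e : α → γ}
    (hsh : cl sh = .sh) (hx : cl x = .pad) (he : ∀ a, cl (e a) = .hid a) (i : ℕ)
    (L : Set (List α)) : Pol (B (1 + i)) L ↔ Pol (B (1 + i + 1)) (sub (HR cl) L) := by
  constructor
  · exact (sub_HR_up cl (1 + i)).2 L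
  · intro h
    cases nonempty_fintype α
    classical
    let l : List α := Finset.univ.toList
    have hl : ∀ a, a ∈ l := by simp [l]
    have h1 := (shift (tgt_B (α := α) 0) Filter.atTop (fun n => enc sh x e l n) 1
      (fun K hK => by simpa using pre_hid sh x e l hl K hK) (i + 1)).2 (sub (HR cl) L)
      (by rw [show 1 + (i + 1) = 1 + i + 1 by omega]; exact h)
    obtain ⟨n, hn⟩ := h1.exists
    have h2 := hn [] []
    have h3 : pre (enc sh x e l n) (sub (HR cl) L) [] [] = L := by
      ext u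
      have hu : HR cl u (u.flatMap (enc sh x e l n)) := by
        have := HR_enc hsh hx (i := id) he l n u
        simpa using this
      constructor
      · rintro ⟨u', hu', h⟩
        have := (dec_HR cl).fn u u' _ hu (by simpa using h)
        rw [this]
        exact hu'
      · intro h
        exact ⟨u, h, by simpa using hu⟩
    rw [h3] at h2
    simpa [add_comm] using h2

/-- Coding an alphabet by words over two letters preserves the half levels. -/
theorem code_Pol_iff {k : ℕ} [Finite γ] {z o : γ} (h : z ≠ o) (i : ℕ) (L : Set (List (Fin k))) :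
    Pol (B (1 + i)) L ↔ Pol (B (α := γ) (1 + i)) (sub (RR z o) L) := by
  constructor
  · have := ((dec_RR h).up 0 (by simpa using sub_RR_univ_mem h)
      (fun K hK => by simpa using sub_RR_MC h hK) i).2 L
    simpa using this
  · intro hL
    have h1 := (pre_mem (cd (k := k) z o) (cd_ne_nil z o) (1 + i)).2 _ hL [] []
    have h2 : pre (cd (k := k) z o) (sub (RR z o) L) [] [] = L := by
      ext u
      constructor
      · rintro ⟨u', hu', h'⟩
        rw [RR] at h'
        have := cd_inj h u u' (by simpa using h')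
        rw [this]
        exact hu'
      · intro hu
        exact ⟨u, hu, by simp [RR]⟩
    rwa [h2] at h1

theorem hstep_Pol_iff (x : ℕ × List ℕ × List ℕ) (i : ℕ) : Pol (B (1 + i)) (lang x.1 x.2) ↔
    Pol (B (1 + i + 1)) (lang (hstep x).1 (hstep x).2) := by
  have hl : lang (x.1 + 2) (hidA 0 x.1 x.2) = sub (HR (clF 0 x.1)) (lang x.1 x.2) :=
    lang_hidA 0 x.1 x.2
  have key := hid_Pol_iff (α := Fin x.1) (γ := Fin (x.1 + 2)) (cl := clF 0 x.1)
    (sh := ⟨x.1, by omega⟩) (x := ⟨x.1 + 1, by omega⟩) (e := fun a => ⟨a, by omega⟩)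
    (by simp [clF]) (by simp [clF]) (fun a => by simp [clF]) i (lang x.1 x.2)
  rw [← hl] at key
  exact key

theorem hstep_Pol_iterate_iff (d : ℕ) (x : ℕ × List ℕ × List ℕ) (i : ℕ) :
    Pol (B (1 + i)) (lang x.1 x.2) ↔
      Pol (B (1 + i + d)) (lang (hstep^[d] x).1 (hstep^[d] x).2) := by
  induction d generalizing x i with
  | zero => rfl
  | succ d ih =>
    rw [hstep_Pol_iff, Function.iterate_succ_apply]
    have := ih (hstep x) (i + 1)
    rw [show 1 + (i + 1) + d = 1 + i + (d + 1) by omega,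
      show 1 + (i + 1) = 1 + i + 1 by omega] at this
    exact this

theorem red_Pol_iff (n d : ℕ) (hn : 2 ≤ n) (x : ℕ × List ℕ × List ℕ) (i : ℕ) :
    Pol (B (1 + i)) (lang x.1 x.2) ↔ Pol (B (1 + i + d)) (lang n (red n d x)) := by
  rw [hstep_Pol_iterate_iff d x i, red,
    lang_codA (z := (⟨0, by omega⟩ : Fin n)) (o := ⟨1, by omega⟩) rfl rfl]
  have h : (⟨0, by omega⟩ : Fin n) ≠ ⟨1, by omega⟩ := by
    intro h
    simp at h
  have := code_Pol_iff (k := (hstep^[d] x).1) h (i + d) (lang (hstep^[d] x).1 (hstep^[d] x).2)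
  rw [show 1 + (i + d) = 1 + i + d by omega] at this
  exact this

/-- The automaton of the words with a block from the language. -/
def barB (k : ℕ) (c : List ℕ × List ℕ) : List ℕ × List ℕ :=
  mkB (bd c.1) 3 (k + 1) (bst k c) (fun s => decide (s.2 = 2))

theorem lang_barB (k : ℕ) (c : List ℕ × List ℕ) :
    lang (k + 1) (barB k c) = bar Fin.castSucc (Fin.last k) (lang k c) := by
  rw [barB, lang_mkB (bd_pos _) (by norm_num) (fun s a h1 h2 _ => bst_bound k c s a h1 h2)]
  ext w
  have h := bfold_zero k c w 0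
  simp only [Set.mem_ofPred_eq, decide_eq_true_eq]
  exact h

theorem primrec_barB : Primrec fun x : ℕ × List ℕ × List ℕ => barB x.1 x.2 := by
  have hk : Primrec fun x : (ℕ × List ℕ × List ℕ) × (ℕ × ℕ) × ℕ => x.1.1 :=
    Primrec.fst.comp Primrec.fst
  have ht : Primrec fun x : (ℕ × List ℕ × List ℕ) × (ℕ × ℕ) × ℕ => x.1.2.1 :=
    Primrec.fst.comp (Primrec.snd.comp Primrec.fst)
  have hF : Primrec fun x : (ℕ × List ℕ × List ℕ) × (ℕ × ℕ) × ℕ => x.1.2.2 :=
    Primrec.snd.comp (Primrec.snd.comp Primrec.fst)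
  have hs1 : Primrec fun x : (ℕ × List ℕ × List ℕ) × (ℕ × ℕ) × ℕ => x.2.1.1 :=
    Primrec.fst.comp (Primrec.fst.comp Primrec.snd)
  have hs2 : Primrec fun x : (ℕ × List ℕ × List ℕ) × (ℕ × ℕ) × ℕ => x.2.1.2 :=
    Primrec.snd.comp (Primrec.fst.comp Primrec.snd)
  have ha : Primrec fun x : (ℕ × List ℕ × List ℕ) × (ℕ × ℕ) × ℕ => x.2.2 :=
    Primrec.snd.comp Primrec.snd
  refine primrec_mkB (primrec_bd.comp (Primrec.fst.comp Primrec.snd)) (Primrec.const 3)
    (Primrec.nat_add.comp Primrec.fst (Primrec.const 1)) ?_ ?_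
  · unfold bst
    refine Primrec.ite (Primrec.eq.comp ha hk) ?_ ?_
    · refine Primrec.ite (Primrec.eq.comp hs2 (Primrec.const 0)) (Primrec.const (0, 1)) ?_
      refine Primrec.ite (Primrec.eq.comp hs2 (Primrec.const 1)) ?_ (Primrec.pair hs1 hs2)
      exact Primrec.ite (Primrec.eq.comp (primrec_memB hF hs1) (Primrec.const true))
        (Primrec.const (0, 2)) (Primrec.const (0, 1))
    · refine Primrec.ite (Primrec.eq.comp hs2 (Primrec.const 1)) ?_ (Primrec.pair hs1 hs2)
      exact Primrec.pair (primrec_tr hk ht hs1 ha) (Primrec.const 1)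
  · exact (Primrec.eq.comp (Primrec.snd.comp Primrec.snd) (Primrec.const 2)).decide

/-- The reduction of the half levels. -/
def gred (n d : ℕ) (x : ℕ × List ℕ × List ℕ) : List ℕ × List ℕ :=
  red n d (x.1 + 1, barB x.1 x.2)

theorem primrec_gred (n d : ℕ) : Primrec (gred n d) :=
  (primrec_red n d).comp (Primrec.pair (Primrec.nat_add.comp Primrec.fst (Primrec.const 1))
    primrec_barB)

/-- The image is in the half level, or it is not even in the full level above. -/
theorem gred_iff (n d : ℕ) (hn : 2 ≤ n) (x : ℕ × List ℕ × List ℕ) (i : ℕ) :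
    (Pol (B (1 + i)) (lang x.1 x.2) ↔ Pol (B (1 + i + d)) (lang n (gred n d x))) ∧
    (Pol (B (1 + i)) (lang x.1 x.2) ↔ lang n (gred n d x) ∈ B (1 + i + 1 + d)) := by
  have hinj := Fin.castSucc_injective x.1
  have h1 : Pol (B (1 + i)) (lang x.1 x.2) → Pol (B (1 + i + d)) (lang n (gred n d x)) := by
    intro h
    refine (red_Pol_iff n d hn (x.1 + 1, barB x.1 x.2) i).1 ?_
    change Pol (B (1 + i)) (lang (x.1 + 1) (barB x.1 x.2))
    rw [lang_barB]
    exact bar_Pol hinj _ i h
  have h2 : Pol (B (1 + i + d)) (lang n (gred n d x)) →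
      lang n (gred n d x) ∈ B (1 + i + 1 + d) := by
    intro h
    have := Pol_le h
    rwa [show 1 + i + d + 1 = 1 + i + 1 + d by omega] at this
  have h3 : lang n (gred n d x) ∈ B (1 + i + 1 + d) → Pol (B (1 + i)) (lang x.1 x.2) := by
    intro h
    have h4 := (red_iff n d hn (x.1 + 1, barB x.1 x.2) (i + 1)).2
      (by rw [show 1 + (i + 1) + d = 1 + i + 1 + d by omega]; exact h)
    change lang (x.1 + 1) (barB x.1 x.2) ∈ B (1 + (i + 1)) at h4
    rw [lang_barB, show 1 + (i + 1) = 1 + i + 1 by omega] at h4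
    exact Pol_of_bar hinj (castSucc_ne _) (1 + i) h4
  exact ⟨⟨h1, fun h => h3 (h2 h)⟩, ⟨fun h => h2 (h1 h), h3⟩⟩

end Pool.Agent.Helper964_DD
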