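import Pool.Agent.Helper964_DD.CovStep
import Pool.Agent.Helper964_DD.Gap

/-!
# The reduction of covering to membership
-/

set_option autoImplicit false

namespace Pool.Agent.Helper964_DD

/-! ### Automata -/

/-- The automaton of rows. -/
def rowA (k : ℕ) (c₁ c₂ : List ℕ × List ℕ) (acc : ℕ) : List ℕ × List ℕ :=
  mkB (bd c₁.1 + bd c₂.1) 7 (k + 3) (gst k c₁ c₂) (fun s => decide (s.2 = acc))

theorem gst_bound (k : ℕ) (c₁ c₂ : List ℕ × List ℕ) (s : ℕ × ℕ) (a : ℕ)
    (h1 : s.1 < bd c₁.1 + bd c₂.1) (h2 : s.2 < 7) :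
    (gst k c₁ c₂ s a).1 < bd c₁.1 + bd c₂.1 ∧ (gst k c₁ c₂ s a).2 < 7 := by
  have h3 := tr_lt k c₁.1 s.1 a
  have h4 := tr_lt k c₂.1 s.1 a
  have h5 := bd_pos c₁.1
  unfold gst
  split_ifs <;> exact ⟨by first | omega | (simp only []; omega), by
    first | omega | (norm_num; done) | (simp only []; omega)⟩

theorem lang_rowA (k : ℕ) (c₁ c₂ : List ℕ × List ℕ) (acc : ℕ) :
    lang (k + 3) (rowA k c₁ c₂ acc) = {y | (gfold k c₁ c₂ (0, 0) y).2 = acc} := by
  have h5 := bd_pos c₁.1
  rw [rowA, lang_mkB (by omega) (by norm_num) (fun s a h1 h2 _ => gst_bound k c₁ c₂ s a h1 h2)]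
  ext w
  simp only [Set.mem_ofPred_eq, decide_eq_true_eq]
  rfl

theorem primrec_rowA {σ : Type} [Primcodable σ] {k : σ → ℕ} {c₁ c₂ : σ → List ℕ × List ℕ}
    (hk : Primrec k) (h1 : Primrec c₁) (h2 : Primrec c₂) (acc : ℕ) :
    Primrec fun x => rowA (k x) (c₁ x) (c₂ x) acc := by
  have pk : Primrec fun x : σ × (ℕ × ℕ) × ℕ => k x.1 := hk.comp Primrec.fst
  have pt1 : Primrec fun x : σ × (ℕ × ℕ) × ℕ => (c₁ x.1).1 :=
    Primrec.fst.comp (h1.comp Primrec.fst)
  have pF1 : Primrec fun x : σ × (ℕ × ℕ) × ℕ => (c₁ x.1).2 :=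
    Primrec.snd.comp (h1.comp Primrec.fst)
  have pt2 : Primrec fun x : σ × (ℕ × ℕ) × ℕ => (c₂ x.1).1 :=
    Primrec.fst.comp (h2.comp Primrec.fst)
  have pF2 : Primrec fun x : σ × (ℕ × ℕ) × ℕ => (c₂ x.1).2 :=
    Primrec.snd.comp (h2.comp Primrec.fst)
  have ps1 : Primrec fun x : σ × (ℕ × ℕ) × ℕ => x.2.1.1 :=
    Primrec.fst.comp (Primrec.fst.comp Primrec.snd)
  have ps2 : Primrec fun x : σ × (ℕ × ℕ) × ℕ => x.2.1.2 :=
    Primrec.snd.comp (Primrec.fst.comp Primrec.snd)
  have pa : Primrec fun x : σ × (ℕ × ℕ) × ℕ => x.2.2 := Primrec.snd.comp Primrec.snd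
  have pk1 : Primrec fun x : σ × (ℕ × ℕ) × ℕ => k x.1 + 1 :=
    Primrec.nat_add.comp pk (Primrec.const 1)
  have pk2 : Primrec fun x : σ × (ℕ × ℕ) × ℕ => k x.1 + 2 :=
    Primrec.nat_add.comp pk (Primrec.const 2)
  have hdead : Primrec fun _ : σ × (ℕ × ℕ) × ℕ => ((0, 6) : ℕ × ℕ) := Primrec.const (0, 6)
  have hc : ∀ c : ℕ, PrimrecPred fun x : σ × (ℕ × ℕ) × ℕ => x.2.1.2 = c := fun c =>
    Primrec.eq.comp ps2 (Primrec.const c)
  refine primrec_mkB (Primrec.nat_add.comp (primrec_bd.comp (Primrec.fst.comp h1))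
    (primrec_bd.comp (Primrec.fst.comp h2))) (Primrec.const 7)
    (Primrec.nat_add.comp hk (Primrec.const 3)) ?_ ?_
  · unfold gst
    refine Primrec.ite (hc 0) (Primrec.ite (Primrec.eq.comp pa pk) (Primrec.const (0, 1)) hdead) ?_
    refine Primrec.ite (hc 1) ?_ ?_
    · refine Primrec.ite (Primrec.eq.comp pa pk2) (Primrec.const (0, 2)) ?_
      exact Primrec.ite (Primrec.eq.comp pa pk1) (Primrec.const (0, 3)) hdead
    refine Primrec.ite (hc 2) ?_ ?_
    · refine Primrec.ite (Primrec.nat_lt.comp pa pk)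
        (Primrec.pair (primrec_tr pk pt1 ps1 pa) (Primrec.const 2)) ?_
      exact Primrec.ite ((Primrec.eq.comp pa pk).and
        (Primrec.eq.comp (primrec_memB pF1 ps1) (Primrec.const true)))
        (Primrec.const (0, 1)) hdead
    refine Primrec.ite (hc 3) ?_ ?_
    · refine Primrec.ite (Primrec.nat_lt.comp pa pk) (Primrec.const (0, 3)) ?_
      exact Primrec.ite (Primrec.eq.comp pa pk) (Primrec.const (0, 4)) hdead
    refine Primrec.ite (hc 4) ?_ ?_
    · exact Primrec.ite (Primrec.eq.comp pa pk2) (Primrec.const (0, 5)) hdead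
    refine Primrec.ite (hc 5) ?_ hdead
    refine Primrec.ite (Primrec.nat_lt.comp pa pk)
      (Primrec.pair (primrec_tr pk pt2 ps1 pa) (Primrec.const 5)) ?_
    exact Primrec.ite ((Primrec.eq.comp pa pk).and
      (Primrec.eq.comp (primrec_memB pF2 ps1) (Primrec.const true)))
      (Primrec.const (0, 4)) hdead
  · exact (Primrec.eq.comp (Primrec.snd.comp Primrec.snd) (Primrec.const acc)).decide

/-- The automata of the iterated codings. -/
def hcd (v m : ℕ) (c : List ℕ × List ℕ) : ℕ → List ℕ × List ℕ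
  | 0 => c
  | t + 1 => hidA v (al m t) (hcd v m c t)

theorem lang_hcd (v m : ℕ) (c : List ℕ × List ℕ) (t : ℕ) :
    lang (al m t) (hcd v m c t) = FL v m (lang m c) t := by
  induction t with
  | zero => rfl
  | succ t ih =>
    have h := lang_hidA v (al m t) (hcd v m c t)
    rw [ih] at h
    exact h

theorem primrec_al' {σ : Type} [Primcodable σ] {m : σ → ℕ} (hm : Primrec m) (t : ℕ) :
    Primrec fun x => al (m x) t := by
  induction t with
  | zero => exact hm
  | succ t ih => exact Primrec.nat_add.comp ih (Primrec.const 2)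

theorem primrec_hcd {σ : Type} [Primcodable σ] {v m : σ → ℕ} {c : σ → List ℕ × List ℕ}
    (hv : Primrec v) (hm : Primrec m) (hc : Primrec c) (t : ℕ) :
    Primrec fun x => hcd (v x) (m x) (c x) t := by
  induction t with
  | zero => exact hc
  | succ t ih => exact primrec_hidA.comp (Primrec.pair hv (Primrec.pair (primrec_al' hm t) ih))

/-! ### Instances of the covering problem -/

/-- Instances of the covering problem: the number of letters, the language which has to be covered,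
the first one and the list of the other languages. -/
abbrev Inst := ℕ × (List ℕ × List ℕ) × (List ℕ × List ℕ) × List (List ℕ × List ℕ)

/-- The covering problem. -/
def CovI (t : ℕ) (x : Inst) : Prop :=
  Cov {K : Set (List (Fin x.1)) | SPol (ST t) K} (lang x.1 x.2.1)
    (lang x.1 x.2.2.1 :: x.2.2.2.map (lang x.1))

/-- The coded rows. -/
def crow (t k : ℕ) (c₁ c₂ : List ℕ × List ℕ) (acc : ℕ) : List ℕ × List ℕ :=
  hcd (k + 1) (k + 3) (rowA k c₁ c₂ acc) t

/-- The instance with one language less. -/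
def cstep (t : ℕ) (x : Inst) : Inst :=
  (al (x.1 + 3) t, crow t x.1 x.2.1 x.2.1 1, crow t x.1 x.2.2.1 x.2.2.2.headI 4,
    x.2.2.2.tail.map (fun c => crow t x.1 c c 1))

theorem lang_crow (t k : ℕ) (c₁ c₂ : List ℕ × List ℕ) (acc : ℕ) :
    lang (al (k + 3) t) (crow t k c₁ c₂ acc) =
      FL (k + 1) (k + 3) {y | (gfold k c₁ c₂ (0, 0) y).2 = acc} t := by
  rw [crow, lang_hcd, lang_rowA]

theorem cstep_iff (s : ℕ) (x : Inst) (hx : x.2.2.2 ≠ []) :
    CovI (s + 1) x ↔ CovI (s + 1) (cstep (s + 1) x) := by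
  obtain ⟨k, c, c₁, cs⟩ := x
  cases cs with
  | nil => exact absurd rfl hx
  | cons c₂ cs =>
    have e : CovI (s + 1) (cstep (s + 1) (k, c, c₁, c₂ :: cs)) ↔
        Cov {K | SPol (ST (s + 1)) K} (FL (k + 1) (k + 3) (RS k c) (s + 1))
          (FL (k + 1) (k + 3) (RS2 k c₁ c₂) (s + 1) ::
            cs.map (fun c => FL (k + 1) (k + 3) (RS k c) (s + 1))) := by
      unfold CovI cstep
      simp only [List.headI_cons, List.tail_cons, List.map_map, lang_crow]
      have e2 : (lang (al (k + 3) (s + 1)) ∘ fun c => crow (s + 1) k c c 1) =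
          fun c => FL (k + 1) (k + 3) (RS k c) (s + 1) := by
        funext c
        exact lang_crow (s + 1) k c c 1
      rw [e2]
      rfl
    rw [e]
    unfold CovI
    exact ⟨cov_step_up (Nat.succ_le_succ (Nat.zero_le s)), cov_step_down⟩

theorem cstep_length (t : ℕ) (x : Inst) : (cstep t x).2.2.2.length = x.2.2.2.length - 1 := by
  simp [cstep]

theorem cstep_iterate (s : ℕ) (n : ℕ) : ∀ x : Inst, x.2.2.2.length = n →
    (CovI (s + 1) x ↔ CovI (s + 1) ((cstep (s + 1))^[n] x)) ∧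
      ((cstep (s + 1))^[n] x).2.2.2 = [] := by
  induction n with
  | zero =>
    intro x hx
    exact ⟨Iff.rfl, List.length_eq_zero_iff.1 hx⟩
  | succ n ih =>
    intro x hx
    have h1 : x.2.2.2 ≠ [] := by
      intro h
      rw [h] at hx
      simp at hx
    obtain ⟨h2, h3⟩ := ih (cstep (s + 1) x) (by rw [cstep_length, hx]; rfl)
    rw [Function.iterate_succ_apply]
    exact ⟨(cstep_iff s x h1).trans h2, h3⟩

/-- The automaton of all words. -/
def topA : List ℕ × List ℕ := ([], [0])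

theorem lang_topA (k : ℕ) : lang k topA = Set.univ := by
  ext w
  simp only [Set.mem_univ, iff_true]
  rw [mem_lang]
  have : ∀ (w : List (Fin k)), run k topA.1 0 w = 0 := by
    intro w
    induction w with
    | nil => rfl
    | cons a w ih =>
      have h : tr k topA.1 0 a = 0 := by simp [tr, topA]
      rw [run, List.foldl_cons, h]
      exact ih
  rw [this]
  simp [topA]

/-- The instance of the separation problem. -/
def sinst (t : ℕ) (x : ℕ × (List ℕ × List ℕ) × List (List ℕ × List ℕ)) : Inst :=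
  (cstep t)^[x.2.2.length] (x.1, x.2.1, topA, x.2.2)

/-- The reduction of covering to membership. -/
def cred (n d s : ℕ) (x : ℕ × (List ℕ × List ℕ) × List (List ℕ × List ℕ)) : List ℕ × List ℕ :=
  let y := sinst (s + 1) x
  let D : Dat := (y.1, y.2.2.1, y.2.1)
  gred n d (al (ml D) (s + 2), hcode D (s + 2))

theorem primrec_crow {σ : Type} [Primcodable σ] {k : σ → ℕ} {c₁ c₂ : σ → List ℕ × List ℕ}
    (hk : Primrec k) (h1 : Primrec c₁) (h2 : Primrec c₂) (t acc : ℕ) :
    Primrec fun x => crow t (k x) (c₁ x) (c₂ x) acc :=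
  primrec_hcd (Primrec.nat_add.comp hk (Primrec.const 1))
    (Primrec.nat_add.comp hk (Primrec.const 3)) (primrec_rowA hk h1 h2 acc) t

theorem primrec_cstep (t : ℕ) : Primrec (cstep t) := by
  have hk : Primrec fun x : Inst => x.1 := Primrec.fst
  have hc : Primrec fun x : Inst => x.2.1 := Primrec.fst.comp Primrec.snd
  have hc1 : Primrec fun x : Inst => x.2.2.1 := Primrec.fst.comp (Primrec.snd.comp Primrec.snd)
  have hcs : Primrec fun x : Inst => x.2.2.2 := Primrec.snd.comp (Primrec.snd.comp Primrec.snd)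
  refine Primrec.pair (primrec_al' (Primrec.nat_add.comp hk (Primrec.const 3)) t)
    (Primrec.pair (primrec_crow hk hc hc t 1) (Primrec.pair
      (primrec_crow hk hc1 (Primrec.list_headI.comp hcs) t 4) ?_))
  refine Primrec.list_map (Primrec.list_tail.comp hcs) ?_
  exact (primrec_crow (hk.comp Primrec.fst) Primrec.snd Primrec.snd t 1).to₂

theorem primrec_sinst (t : ℕ) : Primrec (sinst t) := by
  refine Primrec.nat_iterate (f := fun x : ℕ × (List ℕ × List ℕ) × List (List ℕ × List ℕ) =>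
      x.2.2.length)
    (g := fun x => ((x.1, x.2.1, topA, x.2.2) : Inst)) (h := fun _ y => cstep t y)
    (Primrec.list_length.comp (Primrec.snd.comp Primrec.snd)) ?_
    ((primrec_cstep t).comp Primrec.snd).to₂
  exact Primrec.pair Primrec.fst (Primrec.pair (Primrec.fst.comp Primrec.snd)
    (Primrec.pair (Primrec.const topA) (Primrec.snd.comp Primrec.snd)))

theorem primrec_cred (n d s : ℕ) : Primrec (cred n d s) := by
  have hy := primrec_sinst (s + 1)
  have hD : Primrec fun x => (((sinst (s + 1) x).1, (sinst (s + 1) x).2.2.1,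
      (sinst (s + 1) x).2.1) : Dat) :=
    Primrec.pair (Primrec.fst.comp hy) (Primrec.pair
      (Primrec.fst.comp (Primrec.snd.comp (Primrec.snd.comp hy)))
      (Primrec.fst.comp (Primrec.snd.comp hy)))
  exact (primrec_gred n d).comp (Primrec.pair ((primrec_al (s + 2)).comp hD)
    ((primrec_hcode (s + 2)).comp hD))

theorem cov_single {α : Type} {P : Set (Set (List α))} {L M : Set (List α)} :
    Cov P L [M] ↔ ∃ K, K ∈ P ∧ L ⊆ K ∧ ∀ x ∈ M, x ∉ K := by
  constructor
  · rintro ⟨Ks, hKs, hcov⟩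
    cases hKs with
    | @cons K _ _ _ h h' =>
      cases h'
      refine ⟨K, h.1, fun w hw => ?_, h.2⟩
      obtain ⟨K', hK', hw'⟩ := hcov w hw
      rw [List.mem_singleton] at hK'
      rwa [← hK']
  · rintro ⟨K, h1, h2, h3⟩
    exact ⟨[K], List.Forall₂.cons ⟨h1, h3⟩ List.Forall₂.nil, fun w hw => ⟨K, by simp, h2 hw⟩⟩

/-- Covering reduces to membership. -/
theorem cred_iff (n d : ℕ) (hn : 2 ≤ n) (s : ℕ)
    (x : ℕ × (List ℕ × List ℕ) × List (List ℕ × List ℕ)) :
    (CovI (s + 1) (x.1, x.2.1, topA, x.2.2) ↔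
      Pol (B (s + 2 + d)) (lang n (cred n d s x))) ∧
    (CovI (s + 1) (x.1, x.2.1, topA, x.2.2) ↔
      lang n (cred n d s x) ∈ B (s + 3 + d)) := by
  obtain ⟨h1, h2⟩ := cstep_iterate s x.2.2.length (x.1, x.2.1, topA, x.2.2) rfl
  rw [h1]
  change (CovI (s + 1) (sinst (s + 1) x) ↔ _) ∧ (CovI (s + 1) (sinst (s + 1) x) ↔ _)
  change (sinst (s + 1) x).2.2.2 = [] at h2
  unfold cred
  generalize sinst (s + 1) x = y at h2 ⊢
  obtain ⟨k, c, c₁, cs⟩ := y
  simp only [] at h2
  subst h2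
  have h3 : CovI (s + 1) (k, c, c₁, []) ↔
      Pol (B (1 + (s + 1))) (FL (k + 1) (ml (k, c₁, c)) (f0 (k, c₁, c)) (s + 2)) := by
    rw [← sep_iff (k, c₁, c) s]
    unfold CovI
    rw [List.map_nil, cov_single, Nat.add_comm 1 s]
    rfl
  have h4 := lang_hcode (k, c₁, c) (s + 2)
  have h5 := gred_iff n d hn (al (ml (k, c₁, c)) (s + 2), hcode (k, c₁, c) (s + 2)) (s + 1)
  simp only [] at h5
  rw [h4] at h5
  rw [h3]
  rw [show s + 2 + d = 1 + (s + 1) + d by omega, show s + 3 + d = 1 + (s + 1) + 1 + d by omega]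
  exact h5

end Pool.Agent.Helper964_DD
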