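import Pool.Agent.Helper964_DD.DefsST

/-!
# The covering problem: definition
-/

set_option autoImplicit false

namespace Pool.Agent.Helper964_DD

variable {α : Type}

/-- The language `L` is contained in the union of finitely many members of `C`, each of which is
disjoint from one of the languages of the list `Ls`. For a single language `M` and for a family `C`
which is closed under finite unions, this means that `L` can be separated from `M` by a member
of `C`. -/
def Coverable (C : Set (Set (List α))) (L : Set (List α)) (Ls : List (Set (List α))) : Prop :=
  ∃ Ks : List (Set (List α)), (∀ K ∈ Ks, K ∈ C ∧ ∃ M ∈ Ls, Disjoint K M) ∧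
    ∀ w ∈ L, ∃ K ∈ Ks, w ∈ K

end Pool.Agent.Helper964_DD
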