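import Pool.Agent.Helper964_DD.CovAut
import Pool.Agent.Helper964_DD.DefsCov

/-!
# The covering problem
-/

set_option autoImplicit false

namespace Pool.Agent.Helper964_DD

variable {α : Type}

theorem cov_coverable {C : Set (Set (List α))} (L : Set (List α)) (Ls : List (Set (List α))) :
    Cov {K | SPol C K} L (Set.univ :: Ls) ↔ Coverable {K | SPol C K} L Ls := by
  constructor
  · rintro ⟨Ks, hKs, hcov⟩
    cases hKs with
    | @cons K₀ _ Ks' _ h h' =>
      refine ⟨Ks', ?_, ?_⟩
      · intro K hK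
        obtain ⟨M, hM, h1, h2⟩ := forall₂_left h' K hK
        exact ⟨h1, M, hM, Set.disjoint_right.2 h2⟩
      · intro w hw
        obtain ⟨K, hK, hwK⟩ := hcov w hw
        rcases List.mem_cons.1 hK with rfl | hK
        · exact absurd hwK (h.2 w trivial)
        · exact ⟨K, hK, hwK⟩
  · rintro ⟨Ks, hKs, hcov⟩
    let F : Set (List α) → Set (List α) := fun M =>
      {w | ∃ K ∈ {K | K ∈ Ks ∧ Disjoint K M}, w ∈ K}
    refine ⟨∅ :: Ls.map F, List.Forall₂.cons ⟨SPol.empty, fun x _ h => h⟩ ?_, ?_⟩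
    · rw [List.forall₂_map_left_iff, List.forall₂_same]
      intro M _
      refine ⟨?_, ?_⟩
      · refine SPol_sUnion ((List.finite_toSet Ks).subset fun K hK => hK.1) id ?_
        exact fun K hK => (hKs K hK.1).1
      · rintro x hx ⟨K, ⟨_, hK⟩, hxK⟩
        exact Set.disjoint_left.1 hK hxK hx
    · intro w hw
      obtain ⟨K, hK, hwK⟩ := hcov w hw
      obtain ⟨_, M, hM, hd⟩ := hKs K hK
      refine ⟨F M, ?_, K, ⟨hK, hd⟩, hwK⟩
      simp only [List.mem_cons, List.mem_map]
      exact Or.inr ⟨M, hM, rfl⟩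

theorem cred_coverable (n d : ℕ) (hn : 2 ≤ n) (s k : ℕ) (c : List ℕ × List ℕ)
    (cs : List (List ℕ × List ℕ)) :
    (Coverable {K | SPol (ST (s + 1)) K} (lang k c) (cs.map (lang k)) ↔
      Pol (B (s + 2 + d)) (lang n (cred n d s (k, c, cs)))) ∧
    (Coverable {K | SPol (ST (s + 1)) K} (lang k c) (cs.map (lang k)) ↔
      lang n (cred n d s (k, c, cs)) ∈ B (s + 3 + d)) := by
  have h := cred_iff n d hn s (k, c, cs)
  have e : CovI (s + 1) (k, c, topA, cs) ↔
      Coverable {K | SPol (ST (s + 1)) K} (lang k c) (cs.map (lang k)) := by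
    rw [← cov_coverable, CovI, lang_topA]
  rw [e] at h
  exact h

end Pool.Agent.Helper964_DD
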