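import Pool.Agent.Helper964_DD.Shift

/-!
# Powers in languages of the hierarchy, and letters hidden from level one
-/

set_option autoImplicit false

namespace Pool.Agent.Helper964_DD

variable {α γ : Type}

/-- The power `u ^ n` of a word. -/
def rep (u : List γ) (n : ℕ) : List γ := (List.replicate n u).flatten

@[simp] theorem rep_zero (u : List γ) : rep u 0 = [] := rfl

theorem rep_succ (u : List γ) (n : ℕ) : rep u (n + 1) = u ++ rep u n := by
  simp [rep, List.replicate_succ]

theorem rep_add (u : List γ) (m n : ℕ) : rep u (m + n) = rep u m ++ rep u n := by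
  induction m with
  | zero => simp
  | succ m ih => rw [Nat.succ_add, rep_succ, rep_succ, ih, List.append_assoc]

theorem rep_one (u : List γ) : rep u 1 = u := by simp [rep_succ]

theorem rep_succ' (u : List γ) (n : ℕ) : rep u (n + 1) = rep u n ++ u := by
  rw [rep_add, rep_one]

theorem rep_length (u : List γ) (n : ℕ) : (rep u n).length = n * u.length := by
  simp [rep]

theorem cut_rep (u : List γ) : ∀ (n : ℕ) (p q s s' : List γ),
    p ++ (rep u n ++ q) = s ++ s' →
    (∃ c, p = s ++ c ∧ s' = c ++ (rep u n ++ q)) ∨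
    (∃ c, q = c ++ s' ∧ s = p ++ (rep u n ++ c)) ∨
    (∃ i j y y', i + 1 + j = n ∧ u = y ++ y' ∧ s = p ++ (rep u i ++ y) ∧
      s' = y' ++ (rep u j ++ q)) := by
  intro n
  induction n with
  | zero =>
    intro p q s s' h
    simp only [rep_zero, List.nil_append] at h ⊢
    rcases List.append_eq_append_iff.1 h with ⟨c, hc1, hc2⟩ | ⟨c, hc1, hc2⟩
    · right; left
      exact ⟨c, hc2, hc1⟩
    · left
      exact ⟨c, hc1, hc2⟩
  | succ n ih =>
    intro p q s s' h
    rw [rep_succ, List.append_assoc, ← List.append_assoc] at h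
    rcases ih (p ++ u) q s s' h with ⟨c, hc1, hc2⟩ | ⟨c, hc1, hc2⟩ | ⟨i, j, y, y', h1, h2, h3, h4⟩
    · rcases List.append_eq_append_iff.1 hc1 with ⟨d, hd1, hd2⟩ | ⟨d, hd1, hd2⟩
      · right; right
        refine ⟨0, n, d, c, by omega, hd2, by simp [hd1], hc2⟩
      · left
        refine ⟨d, hd1, ?_⟩
        rw [hc2, hd2, rep_succ]
        simp
    · right; left
      exact ⟨c, hc1, by rw [hc2, rep_succ]; simp⟩
    · right; right
      exact ⟨i + 1, j, y, y', by omega, h2, by rw [h3, rep_succ]; simp, h4⟩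

/-! ### Aperiodicity -/

/-- The language does not distinguish large powers. -/
def Aper (K : Set (List γ)) : Prop :=
  ∃ N, ∀ n ≥ N, ∀ u p q : List γ, p ++ (rep u n ++ q) ∈ K ↔ p ++ (rep u (n + 1) ++ q) ∈ K

theorem exists_threshold {K : Set (List γ)} (h : K ∈ B (α := γ) 0) :
    ∃ n, (∀ w : List γ, n ≤ w.length → w ∈ K) ∨ (∀ w : List γ, n ≤ w.length → w ∉ K) := by
  rcases h with h | h
  · obtain ⟨n, hn⟩ := exists_length_bound h
    exact ⟨n, Or.inr fun w hw h => absurd (hn w h) (by omega)⟩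
  · obtain ⟨n, hn⟩ := exists_length_bound h
    refine ⟨n, Or.inl fun w hw => ?_⟩
    by_contra h
    exact absurd (hn w h) (by omega)

theorem aper_B0 {K : Set (List γ)} (h : K ∈ B (α := γ) 0) : Aper K := by
  obtain ⟨N, hN⟩ := exists_threshold h
  refine ⟨N, fun n hn u p q => ?_⟩
  rcases u with _ | ⟨a, u⟩
  · have : ∀ n, rep ([] : List γ) n = [] := fun n => by
      apply List.eq_nil_of_length_eq_zero
      simp [rep_length]
    rw [this, this]
  · have h1 : N ≤ (p ++ (rep (a :: u) n ++ q)).length := by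
      simp only [List.length_append, rep_length, List.length_cons]
      nlinarith
    have h2 : N ≤ (p ++ (rep (a :: u) (n + 1) ++ q)).length := by
      simp only [List.length_append, rep_length, List.length_cons]
      nlinarith
    rcases hN with hN | hN
    · exact iff_of_true (hN _ h1) (hN _ h2)
    · exact iff_of_false (hN _ h1) (hN _ h2)

theorem Aper.compl {K : Set (List γ)} (h : Aper K) : Aper Kᶜ := by
  obtain ⟨N, hN⟩ := h
  exact ⟨N, fun n hn u p q => not_congr (hN n hn u p q)⟩

theorem Aper.union {K K' : Set (List γ)} (h : Aper K) (h' : Aper K') : Aper (K ∪ K') := by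
  obtain ⟨N, hN⟩ := h
  obtain ⟨N', hN'⟩ := h'
  exact ⟨max N N', fun n hn u p q => or_congr (hN n (le_of_max_le_left hn) u p q)
    (hN' n (le_of_max_le_right hn) u p q)⟩

theorem Aper.cat {K K' : Set (List γ)} (h : Aper K) (h' : Aper K') : Aper (cat K K') := by
  obtain ⟨N, hN⟩ := h
  obtain ⟨N', hN'⟩ := h'
  refine ⟨N + N' + 1, fun n hn u p q => ⟨?_, ?_⟩⟩
  · rintro ⟨s, hs, s', hs', e⟩
    rcases cut_rep u n p q s s' e with ⟨c, h1, h2⟩ | ⟨c, h1, h2⟩ | ⟨i, j, y, y', h1, h2, h3, h4⟩
    · refine ⟨s, hs, c ++ (rep u (n + 1) ++ q), ?_, by rw [h1]; simp⟩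
      rw [← hN' n (by omega)]
      exact h2 ▸ hs'
    · refine ⟨p ++ (rep u (n + 1) ++ c), ?_, s', hs', by rw [h1]; simp⟩
      rw [← hN n (by omega)]
      exact h2 ▸ hs
    · have hu : ∀ t : List γ, u ++ t = y ++ (y' ++ t) := fun t => by rw [h2]; simp
      by_cases hi : N ≤ i
      · refine ⟨p ++ (rep u (i + 1) ++ y), ?_, s', hs', ?_⟩
        · rw [← hN i hi]
          exact h3 ▸ hs
        · rw [h4, ← h1, show i + 1 + j + 1 = (i + 1) + (1 + j) by ring, rep_add u (i + 1),
            rep_add u 1, rep_one]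
          simp only [List.append_assoc]
          rw [hu]
      · refine ⟨s, hs, y' ++ (rep u (j + 1) ++ q), ?_, ?_⟩
        · rw [← hN' j (by omega)]
          exact h4 ▸ hs'
        · rw [h3, ← h1, show i + 1 + j + 1 = i + (1 + (j + 1)) by ring, rep_add u i,
            rep_add u 1, rep_one]
          simp only [List.append_assoc]
          rw [hu]
  · rintro ⟨s, hs, s', hs', e⟩
    rcases cut_rep u (n + 1) p q s s' e with
      ⟨c, h1, h2⟩ | ⟨c, h1, h2⟩ | ⟨i, j, y, y', h1, h2, h3, h4⟩
    · refine ⟨s, hs, c ++ (rep u n ++ q), ?_, by rw [h1]; simp⟩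
      rw [hN' n (by omega)]
      exact h2 ▸ hs'
    · refine ⟨p ++ (rep u n ++ c), ?_, s', hs', by rw [h1]; simp⟩
      rw [hN n (by omega)]
      exact h2 ▸ hs
    · have hu : ∀ t : List γ, u ++ t = y ++ (y' ++ t) := fun t => by rw [h2]; simp
      by_cases hi : N + 1 ≤ i
      · obtain ⟨i, rfl⟩ : ∃ i', i = i' + 1 := ⟨i - 1, by omega⟩
        refine ⟨p ++ (rep u i ++ y), ?_, s', hs', ?_⟩
        · rw [hN i (by omega)]
          exact h3 ▸ hs
        · rw [h4, show n = i + (1 + j) by omega, rep_add u i, rep_add u 1, rep_one]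
          simp only [List.append_assoc]
          rw [hu]
      · obtain ⟨j, rfl⟩ : ∃ j', j = j' + 1 := ⟨j - 1, by omega⟩
        refine ⟨s, hs, y' ++ (rep u j ++ q), ?_, ?_⟩
        · rw [hN' j (by omega)]
          exact h4 ▸ hs'
        · rw [h3, show n = i + (1 + j) by omega, rep_add u i, rep_add u 1, rep_one]
          simp only [List.append_assoc]
          rw [hu]

theorem aper_prodL (m : List (Set (List γ))) (h : ∀ K ∈ m, Aper K) : Aper (prodL m) := by
  induction m with
  | nil => exact aper_B0 (single_mem 0 [])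
  | cons K m ih => exact (h K (by simp)).cat (ih fun K' hK' => h K' (by simp [hK']))

theorem aper_B (i : ℕ) : ∀ K ∈ B (α := γ) i, Aper K := by
  induction i with
  | zero => exact fun K hK => aper_B0 hK
  | succ i ih =>
    refine B_induction ?_ (fun L h => h.compl) (fun L K h h' => h.union h')
    rintro L ⟨m, hm, rfl⟩
    exact aper_prodL m fun K hK => ih K (hm K hK)

/-- An `Aper` language with its constant. -/
theorem Aper.iff_of_ge {K : Set (List γ)} {N : ℕ}
    (hN : ∀ n ≥ N, ∀ u p q : List γ, p ++ (rep u n ++ q) ∈ K ↔ p ++ (rep u (n + 1) ++ q) ∈ K)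
    {m n : ℕ} (hm : N ≤ m) (hn : N ≤ n) (u p q : List γ) :
    p ++ (rep u m ++ q) ∈ K ↔ p ++ (rep u n ++ q) ∈ K := by
  have : ∀ d, ∀ m ≥ N, (p ++ (rep u m ++ q) ∈ K ↔ p ++ (rep u (m + d) ++ q) ∈ K) := by
    intro d
    induction d with
    | zero => intro m _; rfl
    | succ d ih =>
      intro m hm
      rw [ih m hm, hN (m + d) (by omega)]
      rfl
  rcases le_total m n with h | h
  · obtain ⟨d, rfl⟩ := Nat.exists_eq_add_of_le h
    exact this d m hm
  · obtain ⟨d, rfl⟩ := Nat.exists_eq_add_of_le h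
    exact (this d n hn).symm

/-! ### Insertion -/

theorem insertion_aux (m : List (Set (List γ))) (hm : ∀ K ∈ m, K ∈ B (α := γ) 0) :
    ∃ N, ∀ n ≥ N, ∀ (x : γ) (p q : List γ), p ++ (rep [x] n ++ q) ∈ prodL m →
      ∃ a b, a + b = n ∧ ∀ v, p ++ (rep [x] a ++ (v ++ (rep [x] b ++ q))) ∈ prodL m := by
  induction m with
  | nil =>
    refine ⟨1, fun n hn x p q h => ?_⟩
    have : (p ++ (rep [x] n ++ q)).length = 0 := by
      rw [Set.mem_singleton_iff.1 h]; rfl
    simp only [List.length_append, rep_length, List.length_singleton] at this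
    omega
  | cons K m ih =>
    obtain ⟨N, hN⟩ := ih fun K' h => hm K' (by simp [h])
    obtain ⟨n₀, hn₀⟩ := exists_threshold (hm K (by simp))
    refine ⟨n₀ + N + 1, fun n hn x p q h => ?_⟩
    obtain ⟨s, hs, s', hs', e⟩ := h
    have long : ∀ s ∈ K, n₀ ≤ s.length → ∀ w : List γ, n₀ ≤ w.length → w ∈ K := by
      intro s hs h
      rcases hn₀ with h' | h'
      · exact h'
      · exact absurd hs (h' s h)
    rcases cut_rep [x] n p q s s' e with ⟨c, h1, h2⟩ | ⟨c, h1, h2⟩ | ⟨i, j, y, y', h1, h2, h3, h4⟩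
    · obtain ⟨a, b, hab, h⟩ := hN n (by omega) x c q (h2 ▸ hs')
      refine ⟨a, b, hab, fun v => ⟨s, hs, _, h v, by rw [h1]; simp⟩⟩
    · refine ⟨n, 0, by omega, fun v => ⟨p ++ (rep [x] n ++ (v ++ c)), ?_, s', hs', ?_⟩⟩
      · apply long s hs
        · rw [h2]
          simp only [List.length_append, rep_length, List.length_singleton]
          omega
        · simp only [List.length_append, rep_length, List.length_singleton]
          omega
      · rw [h1]; simp
    · have hx : ∀ t : List γ, [x] ++ t = y ++ (y' ++ t) := fun t => by rw [h2]; simp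
      by_cases hi : n₀ ≤ i
      · refine ⟨i, j + 1, by omega, fun v => ⟨p ++ (rep [x] i ++ (v ++ y)), ?_, s', hs', ?_⟩⟩
        · apply long s hs
          · rw [h3]
            simp only [List.length_append, rep_length, List.length_singleton]
            omega
          · simp only [List.length_append, rep_length, List.length_singleton]
            omega
        · rw [h4, rep_succ]
          simp only [List.append_assoc]
          rw [hx]
      · obtain ⟨a, b, hab, h⟩ := hN j (by omega) x y' q (h4 ▸ hs')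
        refine ⟨i + 1 + a, b, by omega, fun v => ⟨s, hs, _, h v, ?_⟩⟩
        rw [h3, rep_add, rep_add, rep_one]
        simp only [List.append_assoc]
        rw [hx]

/-- In a product of finite and cofinite languages one can insert any word in a long power of a
letter. -/
theorem insertion {K : Set (List γ)} (hK : K ∈ MC (B (α := γ) 0)) :
    ∃ N, ∀ n ≥ N, ∀ (x : γ) (p q v : List γ), p ++ (rep [x] n ++ q) ∈ K →
      p ++ (rep [x] n ++ (v ++ (rep [x] n ++ q))) ∈ K := by
  obtain ⟨m, hm, rfl⟩ := hK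
  obtain ⟨N, hN⟩ := insertion_aux m hm
  refine ⟨N, fun n hn x p q v h => ?_⟩
  obtain ⟨a, b, hab, h⟩ := hN n hn x p q h
  have h2 := h (rep [x] b ++ (v ++ rep [x] a))
  have e1 : rep [x] n = rep [x] a ++ rep [x] b := by rw [← rep_add, hab]
  have e2 : rep [x] n = rep [x] a ++ rep [x] b := by rw [← rep_add, hab]
  rw [e1]
  simpa using h2

/-- Insertion of a product of blocks `b xⁿ` after `xⁿ`. -/
theorem insertion_list {K : Set (List γ)} {N : ℕ}
    (hN : ∀ n ≥ N, ∀ (x : γ) (p q v : List γ), p ++ (rep [x] n ++ q) ∈ K →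
      p ++ (rep [x] n ++ (v ++ (rep [x] n ++ q))) ∈ K) {H : Type} (e : H → γ) (x : γ) (n : ℕ)
    (hn : N ≤ n) (l : List H) : ∀ p q : List γ, p ++ (rep [x] n ++ q) ∈ K →
      p ++ (rep [x] n ++ (l.flatMap (fun b => e b :: rep [x] n) ++ q)) ∈ K := by
  induction l with
  | nil => intro p q h; simpa using h
  | cons b l ih =>
    intro p q h
    have h1 := hN n hn x p q [e b] h
    have h2 := ih (p ++ (rep [x] n ++ [e b])) q (by simpa using h1)
    simpa using h2

/-! ### Hidden letters -/

/-- The word `x₁ xⁿ x₂ xⁿ ⋯` of all hidden letters. -/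
def blk {H : Type} (x : γ) (e : H → γ) (l : List H) (n : ℕ) : List γ :=
  l.flatMap fun b => e b :: rep [x] n

/-- The code `# xⁿ h xⁿ πⁿ` of the hidden letter `h`. -/
def enc {H : Type} (sh x : γ) (e : H → γ) (l : List H) (n : ℕ) (h : H) : List γ :=
  sh :: (rep [x] n ++ (e h :: (rep [x] n ++ rep (blk x e l n) n)))

/-- The word `# xⁿ πⁿ`. -/
def enc0 {H : Type} (sh x : γ) (e : H → γ) (l : List H) (n : ℕ) : List γ :=
  sh :: (rep [x] n ++ rep (blk x e l n) n)

/-- In all contexts, the codes of hidden letters are not distinguished by `K` from the fixed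
word `enc0`, if the exponent is large. -/
def Hid (K : Set (List γ)) : Prop :=
  ∃ N, ∀ n ≥ N, ∀ (sh x : γ) (H : Type) (e : H → γ) (l : List H), ∀ h ∈ l, ∀ p q : List γ,
    (p ++ (enc sh x e l n h ++ q) ∈ K ↔ p ++ (enc0 sh x e l n ++ q) ∈ K)

theorem hid_MC {K : Set (List γ)} (hK : K ∈ MC (B (α := γ) 0)) : Hid K := by
  obtain ⟨N₁, hN₁⟩ := insertion hK
  obtain ⟨N₂, hN₂⟩ := aper_B 1 K (BC.base K hK)
  refine ⟨max N₁ N₂, fun n hn sh x H e l h hh p q => ?_⟩
  have hn₁ : N₁ ≤ n := le_of_max_le_left hn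
  have hn₂ : N₂ ≤ n := le_of_max_le_right hn
  constructor
  · intro hw
    obtain ⟨l₁, l₂, rfl⟩ := List.append_of_mem hh
    have h1 := insertion_list hN₁ e x n hn₁ l₁ (p ++ [sh])
      (e h :: (rep [x] n ++ (rep (blk x e (l₁ ++ h :: l₂) n) n ++ q))) (by simpa [enc] using hw)
    have h2 := insertion_list hN₁ e x n hn₁ l₂
      (p ++ (sh :: (rep [x] n ++ (blk x e l₁ n ++ [e h]))))
      (rep (blk x e (l₁ ++ h :: l₂) n) n ++ q) (by simpa [blk] using h1)
    have h3 : (p ++ (sh :: rep [x] n)) ++ (rep (blk x e (l₁ ++ h :: l₂) n) (n + 1) ++ q) ∈ K := by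
      rw [rep_succ]
      simpa [blk] using h2
    rw [← hN₂ n hn₂] at h3
    simpa [enc0] using h3
  · intro hw
    have h1 := hN₁ n hn₁ x (p ++ [sh]) (rep (blk x e l n) n ++ q) [e h]
      (by simpa [enc0] using hw)
    simpa [enc] using h1

theorem hid_B1 : ∀ K ∈ B (α := γ) 1, Hid K := by
  refine B_induction (fun K hK => hid_MC hK) ?_ ?_
  · rintro L ⟨N, hN⟩
    exact ⟨N, fun n hn sh x H e l h hh p q => not_congr (hN n hn sh x H e l h hh p q)⟩
  · rintro L K ⟨N, hN⟩ ⟨N', hN'⟩
    exact ⟨max N N', fun n hn sh x H e l h hh p q =>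
      or_congr (hN n (le_of_max_le_left hn) sh x H e l h hh p q)
        (hN' n (le_of_max_le_right hn) sh x H e l h hh p q)⟩

/-- Words of hidden letters: only the length is seen at level one. -/
theorem hid_word {K : Set (List γ)} {n : ℕ} {sh x : γ} {H : Type} {e : H → γ} {l : List H}
    (hl : ∀ h, h ∈ l) (hK : ∀ h ∈ l, ∀ p q : List γ,
      (p ++ (enc sh x e l n h ++ q) ∈ K ↔ p ++ (enc0 sh x e l n ++ q) ∈ K)) (u : List H) :
    ∀ p q : List γ, (p ++ (u.flatMap (enc sh x e l n) ++ q) ∈ K ↔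
      p ++ (rep (enc0 sh x e l n) u.length ++ q) ∈ K) := by
  induction u with
  | nil => intro p q; simp
  | cons h u ih =>
    intro p q
    rw [List.flatMap_cons, List.length_cons, rep_succ, List.append_assoc, hK h (hl h),
      ← List.append_assoc, ih]
    simp

theorem pre_hid {H : Type} [Finite H] (sh x : γ) (e : H → γ) (l : List H) (hl : ∀ h, h ∈ l) :
    ∀ K ∈ B (α := γ) 1, ∀ᶠ n in Filter.atTop, ∀ p q,
      pre (enc sh x e l n) K p q ∈ B (α := H) 0 := by
  intro K hK
  obtain ⟨N₁, hN₁⟩ := hid_B1 K hK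
  obtain ⟨N₂, hN₂⟩ := aper_B 1 K hK
  filter_upwards [Filter.eventually_ge_atTop N₁] with n hn p q
  have key := fun u : List H => hid_word hl (hN₁ n hn sh x H e l) u p q
  by_cases h : p ++ (rep (enc0 sh x e l n) N₂ ++ q) ∈ K
  · right
    refine (finite_length_lt N₂).subset fun u hu => ?_
    by_contra hlen
    apply hu
    change p ++ (u.flatMap (enc sh x e l n) ++ q) ∈ K
    rw [key, Aper.iff_of_ge hN₂ (m := u.length) (n := N₂) (by simpa using hlen) le_rfl]
    exact h
  · left
    refine (finite_length_lt N₂).subset fun u hu => ?_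
    by_contra hlen
    apply h
    rw [← Aper.iff_of_ge hN₂ (m := u.length) (n := N₂) (by simpa using hlen) le_rfl, ← key]
    exact hu

end Pool.Agent.Helper964_DD
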