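import Pool.Agent.Helper964_DD.Quo
import Pool.Agent.Helper964_DD.Hidden

/-!
# Insertion of words in large powers
-/

set_option autoImplicit false

namespace Pool.Agent.Helper964_DD

variable {α : Type}

/-- The tests for the level `i`. -/
def Tst : ℕ → Set (Set (List α))
  | 0 => ∅
  | i + 1 => {L | Pol (B i) L}

theorem Tst_succ (i : ℕ) : Tst (α := α) i ⊆ Tst (i + 1) := by
  cases i with
  | zero => exact Set.empty_subset _
  | succ i => exact fun L hL => Pol_B_mono (Nat.le_succ i) hL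

/-- All tests in `S` which are passed by `v` are passed by `u`. -/
def Ord (S : Set (Set (List α))) (v u : List α) : Prop := ∀ Q ∈ S, v ∈ Q → u ∈ Q

theorem Ord.mono {S S' : Set (Set (List α))} (h : S ⊆ S') {v u : List α} (ho : Ord S' v u) :
    Ord S v u := fun Q hQ => ho Q (h hQ)

/-- Insertion in large powers. -/
def Ins (T : Set (Set (List α))) (K : Set (List α)) : Prop :=
  ∃ S ⊆ T, S.Finite ∧ ∃ N, ∀ n ≥ N, ∀ u v : List α, u ≠ [] → Ord S v u → ∀ p q : List α,
    p ++ (rep u n ++ q) ∈ K → p ++ (rep u n ++ (v ++ (rep u n ++ q))) ∈ K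

/-- Insertion in large powers does not change the membership. -/
def InsIff (T : Set (Set (List α))) (K : Set (List α)) : Prop :=
  ∃ S ⊆ T, S.Finite ∧ ∃ N, ∀ n ≥ N, ∀ u v : List α, u ≠ [] → Ord S v u → ∀ p q : List α,
    (p ++ (rep u n ++ q) ∈ K ↔ p ++ (rep u n ++ (v ++ (rep u n ++ q))) ∈ K)

theorem InsIff.ins {T : Set (Set (List α))} {K : Set (List α)} (h : InsIff T K) : Ins T K := by
  obtain ⟨S, hS, hf, N, hN⟩ := h
  exact ⟨S, hS, hf, N, fun n hn u v hu ho p q => (hN n hn u v hu ho p q).1⟩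

theorem Ins.mono {T T' : Set (Set (List α))} (hT : T ⊆ T') {K : Set (List α)} (h : Ins T K) :
    Ins T' K := by
  obtain ⟨S, hS, h⟩ := h
  exact ⟨S, hS.trans hT, h⟩

theorem Ins.union {T : Set (Set (List α))} {K K' : Set (List α)} (h : Ins T K) (h' : Ins T K') :
    Ins T (K ∪ K') := by
  obtain ⟨S, hS, hf, N, hN⟩ := h
  obtain ⟨S', hS', hf', N', hN'⟩ := h'
  refine ⟨S ∪ S', Set.union_subset hS hS', hf.union hf', max N N', ?_⟩
  rintro n hn u v hu ho p q (h | h)
  · exact Or.inl (hN n (le_of_max_le_left hn) u v hu (ho.mono Set.subset_union_left) p q h)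
  · exact Or.inr (hN' n (le_of_max_le_right hn) u v hu (ho.mono Set.subset_union_right) p q h)

theorem InsIff.compl {T : Set (Set (List α))} {K : Set (List α)} (h : InsIff T K) :
    InsIff T Kᶜ := by
  obtain ⟨S, hS, hf, N, hN⟩ := h
  exact ⟨S, hS, hf, N, fun n hn u v hu ho p q => not_congr (hN n hn u v hu ho p q)⟩

theorem InsIff.union {T : Set (Set (List α))} {K K' : Set (List α)} (h : InsIff T K)
    (h' : InsIff T K') : InsIff T (K ∪ K') := by
  obtain ⟨S, hS, hf, N, hN⟩ := h
  obtain ⟨S', hS', hf', N', hN'⟩ := h'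
  refine ⟨S ∪ S', Set.union_subset hS hS', hf.union hf', max N N', ?_⟩
  intro n hn u v hu ho p q
  exact or_congr (hN n (le_of_max_le_left hn) u v hu (ho.mono Set.subset_union_left) p q)
    (hN' n (le_of_max_le_right hn) u v hu (ho.mono Set.subset_union_right) p q)

theorem length_rep_ge {u : List α} (hu : u ≠ []) (n : ℕ) : n ≤ (rep u n).length := by
  rw [rep_length]
  exact Nat.le_mul_of_pos_right n (List.length_pos_iff.2 hu)

theorem insIff_B0 {K : Set (List α)} (h : K ∈ B (α := α) 0) : InsIff ∅ K := by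
  obtain ⟨N, hN⟩ := exists_threshold h
  refine ⟨∅, Set.Subset.rfl, Set.finite_empty, N, fun n hn u v hu _ p q => ?_⟩
  have h0 := length_rep_ge hu n
  have h1 : N ≤ (p ++ (rep u n ++ q)).length := by
    simp only [List.length_append]
    omega
  have h2 : N ≤ (p ++ (rep u n ++ (v ++ (rep u n ++ q)))).length := by
    simp only [List.length_append]
    omega
  rcases hN with hN | hN
  · exact iff_of_true (hN _ h1) (hN _ h2)
  · exact iff_of_false (hN _ h1) (hN _ h2)

theorem Ins.cat {T : Set (Set (List α))} {K K' : Set (List α)} (h : Ins T K) (h' : Ins T K')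
    (ha : Aper (cat K K')) : Ins T (cat K K') := by
  obtain ⟨S, hS, hf, N₁, hN₁⟩ := h
  obtain ⟨S', hS', hf', N₂, hN₂⟩ := h'
  obtain ⟨N₃, hN₃⟩ := ha
  refine ⟨S ∪ S', Set.union_subset hS hS', hf.union hf', 2 * (N₁ + N₂ + N₃) + 1, ?_⟩
  intro n hn u v hu ho p q hw
  have ho₁ : Ord S v u := ho.mono Set.subset_union_left
  have ho₂ : Ord S' v u := ho.mono Set.subset_union_right
  obtain ⟨s, hs, s', hs', e⟩ := hw
  rcases cut_rep u n p q s s' e with ⟨c, h1, h2⟩ | ⟨c, h1, h2⟩ | ⟨i, j, y, y', h1, h2, h3, h4⟩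
  · refine ⟨s, hs, _, hN₂ n (by omega) u v hu ho₂ c q (h2 ▸ hs'), by rw [h1]; simp⟩
  · refine ⟨_, hN₁ n (by omega) u v hu ho₁ p c (h2 ▸ hs), s', hs', by rw [h1]; simp⟩
  · have hx : ∀ t : List α, u ++ t = y ++ (y' ++ t) := fun t => by rw [h2]; simp
    by_cases hi : N₁ + N₂ + N₃ ≤ i
    · have h5 := hN₁ i (by omega) u v hu ho₁ p y (h3 ▸ hs)
      have h6 : p ++ (rep u i ++ (v ++ (rep u n ++ q))) ∈ Helper964_DD.cat K K' := by
        refine ⟨_, h5, s', hs', ?_⟩
        rw [h4, ← h1, show i + 1 + j = i + (1 + j) by ring, rep_add u i, rep_add u 1, rep_one]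
        simp only [List.append_assoc]
        rw [hx]
      rwa [Aper.iff_of_ge hN₃ (m := i) (n := n) (by omega) (by omega)] at h6
    · have h5 := hN₂ j (by omega) u v hu ho₂ y' q (h4 ▸ hs')
      have h6 : (p ++ (rep u n ++ v)) ++ (rep u j ++ q) ∈ Helper964_DD.cat K K' := by
        refine ⟨s, hs, _, h5, ?_⟩
        rw [h3, ← h1, show i + 1 + j = i + (1 + j) by ring, rep_add u i, rep_add u 1, rep_one]
        simp only [List.append_assoc]
        rw [hx]
      rw [Aper.iff_of_ge hN₃ (m := j) (n := n) (by omega) (by omega)] at h6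
      simpa using h6

theorem ins_prodL {T : Set (Set (List α))} (m : List (Set (List α))) (h : ∀ K ∈ m, Ins T K)
    (ha : ∀ K ∈ m, Aper K) : Ins T (prodL m) := by
  induction m with
  | nil =>
    refine ⟨∅, Set.empty_subset _, Set.finite_empty, 1, fun n hn u v hu _ p q hw => ?_⟩
    exfalso
    have h1 := congrArg List.length (Set.mem_singleton_iff.1 hw)
    have h2 := length_rep_ge hu n
    simp only [List.length_append, List.length_nil] at h1
    omega
  | cons K m ih =>
    exact (h K (by simp)).cat (ih (fun K' h' => h K' (by simp [h']))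
      fun K' h' => ha K' (by simp [h'])) (aper_prodL (K :: m) ha)

theorem del_Pol [Finite α] {i : ℕ} {K : Set (List α)} (hK : Pol (B i) K) :
    ∃ S ⊆ Tst (α := α) (i + 1), S.Finite ∧ ∃ N, ∀ n ≥ N, ∀ u v : List α, Ord S v u →
      ∀ p q : List α, p ++ (rep u n ++ (v ++ (rep u n ++ q))) ∈ K → p ++ (rep u n ++ q) ∈ K := by
  obtain ⟨N, hN⟩ := aper_B (i + 1) K (Pol_le hK)
  refine ⟨{Q | ∃ p q, Q = quo K p q}, ?_, FQ_B (i + 1) K (Pol_le hK), N, ?_⟩
  · rintro _ ⟨p, q, rfl⟩
    exact quo_Pol hK p q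
  · intro n hn u v ho p q hw
    have h1 : v ∈ quo K (p ++ rep u n) (rep u n ++ q) := by
      change (p ++ rep u n) ++ (v ++ (rep u n ++ q)) ∈ K
      simpa using hw
    have h2 := ho _ ⟨_, _, rfl⟩ h1
    have h3 : p ++ (rep u (n + (1 + n)) ++ q) ∈ K := by
      rw [rep_add, rep_add, rep_one]
      have : (p ++ rep u n) ++ (u ++ (rep u n ++ q)) ∈ K := h2
      simpa using this
    rwa [Aper.iff_of_ge hN (m := n + (1 + n)) (n := n) (by omega) hn] at h3

theorem insIff_MC [Finite α] {i : ℕ} (ih : ∀ K ∈ B (α := α) i, InsIff (Tst i) K)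
    {K : Set (List α)} (hK : K ∈ MC (B i)) : InsIff (Tst (i + 1)) K := by
  have hP : Pol (B i) K := Pol.base K hK
  obtain ⟨m, hm, rfl⟩ := hK
  have h1 : Ins (Tst i) (prodL m) :=
    ins_prodL m (fun K hK => (ih K (hm K hK)).ins) fun K hK => aper_B i K (hm K hK)
  obtain ⟨S, hS, hf, N, hN⟩ := h1
  obtain ⟨S', hS', hf', N', hN'⟩ := del_Pol hP
  refine ⟨S ∪ S', Set.union_subset (hS.trans (Tst_succ i)) hS', hf.union hf', max N N', ?_⟩
  intro n hn u v hu ho p q
  exact ⟨hN n (le_of_max_le_left hn) u v hu (ho.mono Set.subset_union_left) p q,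
    hN' n (le_of_max_le_right hn) u v (ho.mono Set.subset_union_right) p q⟩

/-- **Insertion theorem.** A language of level `i` does not distinguish `u ^ n` and `u ^ n v u ^ n`,
if `n` is large and all tests (from a finite set of languages of the half level below) which are
passed by `v` are passed by `u`. -/
theorem insIff_B [Finite α] (i : ℕ) : ∀ K ∈ B (α := α) i, InsIff (Tst i) K := by
  induction i with
  | zero => exact fun K hK => insIff_B0 hK
  | succ i ih =>
    exact B_induction (fun K hK => insIff_MC ih hK) (fun L h => h.compl)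
      (fun L K h h' => h.union h')

theorem ins_Pol [Finite α] (i : ℕ) {K : Set (List α)} (hK : Pol (B (α := α) i) K) :
    Ins (Tst i) K := by
  induction hK with
  | empty =>
    exact ⟨∅, Set.empty_subset _, Set.finite_empty, 0, fun n hn u v hu _ p q hw => hw.elim⟩
  | base K hK =>
    obtain ⟨m, hm, rfl⟩ := hK
    exact ins_prodL m (fun K hK => (insIff_B i K (hm K hK)).ins) fun K hK =>
      aper_B i K (hm K hK)
  | union L K _ _ h1 h2 => exact h1.union h2

end Pool.Agent.Helper964_DD
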