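import Pool.Agent.Helper964_DD.HidFree

/-!
# Inverse images in the Straubing-Thérien hierarchy
-/

set_option autoImplicit false

namespace Pool.Agent.Helper964_DD

variable {α γ : Type}

/-- The superwords of a word. -/
def supw (w : List α) : Set (List α) := {w' | w.Sublist w'}

theorem supw_cons (a : α) (w : List α) : supw (a :: w) = mrk Set.univ a (supw w) := by
  ext w'
  constructor
  · intro h
    have h' : (a :: w).Sublist w' := h
    rw [List.cons_sublist_iff] at h'
    obtain ⟨r₁, r₂, rfl, h1, h2⟩ := h'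
    obtain ⟨s, t, rfl⟩ := List.append_of_mem h1
    refine ⟨s, trivial, t ++ r₂, ?_, by simp⟩
    exact h2.trans (List.sublist_append_right t r₂)
  · rintro ⟨u, _, v, hv, rfl⟩
    exact (List.Sublist.cons_cons a hv).trans (List.sublist_append_right u (a :: v))

theorem supw_SPol (w : List α) : SPol ({∅, Set.univ} : Set (Set (List α))) (supw w) := by
  induction w with
  | nil =>
    have : supw ([] : List α) = Set.univ := by
      ext w
      simp [supw]
    rw [this]
    exact SPol.base _ (Or.inr rfl)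
  | cons a w ih =>
    rw [supw_cons]
    exact SPol.mark _ a _ (Or.inr rfl) ih

/-- Higman's theorem: the upward closed sets are finite unions of the sets of superwords. -/
theorem upward_SPol [Finite α] {U : Set (List α)}
    (hU : ∀ w w' : List α, w ∈ U → w.Sublist w' → w' ∈ U) :
    SPol ({∅, Set.univ} : Set (Set (List α))) U := by
  let M : Set (List α) := {w | w ∈ U ∧ ∀ w' ∈ U, w'.Sublist w → w' = w}
  have hM : M.Finite := by
    have h1 : (Set.univ : Set α).PartiallyWellOrderedOn (fun a b => a = b) :=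
      (Set.toFinite _).partiallyWellOrderedOn
    have h2 := Set.PartiallyWellOrderedOn.partiallyWellOrderedOn_sublistForall₂ _ h1
    have h3 : (M.PartiallyWellOrderedOn (List.SublistForall₂ (fun a b : α => a = b))) :=
      h2.mono fun w _ x _ => trivial
    refine IsAntichain.finite_of_partiallyWellOrderedOn ?_ h3
    intro w hw w' hw' hne h
    rw [List.sublistForall₂_iff] at h
    obtain ⟨l, h4, h5⟩ := h
    have h6 : w = l := by
      have := h4
      rwa [show (fun a b : α => a = b) = ((· = ·) : α → α → Prop) from rfl,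
        List.forall₂_eq_eq_eq] at this
    rw [← h6] at h5
    exact hne (hw'.2 w hw.1 h5)
  have hmin : ∀ w ∈ U, ∃ w' ∈ M, w'.Sublist w := by
    intro w
    induction hn : w.length using Nat.strong_induction_on generalizing w with
    | _ n ih =>
      intro hw
      by_cases h : ∀ w' ∈ U, w'.Sublist w → w' = w
      · exact ⟨w, ⟨hw, h⟩, List.Sublist.refl w⟩
      · simp only [not_forall] at h
        obtain ⟨w', h1, h2, h3⟩ := h
        have hlt : w'.length < n := by
          rw [← hn]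
          refine lt_of_le_of_ne h2.length_le fun he => h3 (h2.eq_of_length he)
        obtain ⟨w'', h4, h5⟩ := ih _ hlt w' rfl h1
        exact ⟨w'', h4, h5.trans h2⟩
  have : U = {w | ∃ v ∈ M, w ∈ supw v} := by
    ext w
    constructor
    · exact fun hw => hmin w hw
    · rintro ⟨v, hv, h⟩
      exact hU v w hv.1 h
  rw [this]
  exact SPol_sUnion hM _ fun v _ => supw_SPol v

theorem nil_ST1 [Finite α] : ({[]} : Set (List α)) ∈ ST (α := α) 1 := by
  have : ({[]} : Set (List α)) = ({w : List α | ∃ a : α, w ∈ mrk Set.univ a Set.univ})ᶜ := by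
    ext w
    constructor
    · intro h
      rw [Set.mem_singleton_iff] at h
      rintro ⟨a, u, _, v, _, h'⟩
      rw [h] at h'
      simp at h'
    · intro h
      cases w with
      | nil => rfl
      | cons a w => exact absurd ⟨a, [], trivial, w, trivial, rfl⟩ h
  rw [this]
  refine BC.compl _ ?_
  refine BC.base _ ?_
  refine finite_union (P := {L | SPol (Hy ({∅, Set.univ} : Set (Set (List α))) 0) L}) SPol.empty
    (fun _ _ h h' => SPol.union _ _ h h') _ fun a => ?_
  exact SPol.mark _ a _ (Or.inr rfl) (SPol.base _ (Or.inr rfl))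

/-- The morphism `a ↦ ρ g(a) # xᴺ`. -/
def psi (g : α → γ) (sh x : γ) (N : ℕ) (ρ : List γ) (a : α) : List γ :=
  ρ ++ (g a :: (sh :: rep [x] N))

theorem psi_upward {K : Set (List γ)} {N₀ : ℕ}
    (hN₀ : ∀ n ≥ N₀, ∀ (x : γ) (p q v : List γ), p ++ (rep [x] n ++ q) ∈ K →
      p ++ (rep [x] n ++ (v ++ (rep [x] n ++ q))) ∈ K) (g : α → γ) (sh x : γ) {N : ℕ}
    (hN : N₀ ≤ N) {ρ : List γ} (hρ : ∃ ξ, ρ = ξ ++ rep [x] N) (p q : List γ) (w₁ w₂ : List α)
    (b : α) (hne : w₁ ++ w₂ ≠ []) (h : w₁ ++ w₂ ∈ pre (psi g sh x N ρ) K p q) :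
    w₁ ++ b :: w₂ ∈ pre (psi g sh x N ρ) K p q := by
  obtain ⟨ξ, hξ⟩ := hρ
  simp only [pre, Set.mem_ofPred_eq, List.flatMap_append, List.flatMap_cons] at h ⊢
  rcases List.eq_nil_or_concat w₁ with rfl | ⟨w, c, rfl⟩
  · cases w₂ with
    | nil => exact absurd rfl hne
    | cons a w₂ =>
      have h1 := hN₀ N hN x (p ++ ξ) (g a :: (sh :: rep [x] N) ++ w₂.flatMap (psi g sh x N ρ) ++ q)
        (g b :: (sh :: (rep [x] N ++ ξ))) (by
          have h' := h
          simp only [List.flatMap_nil, List.nil_append, List.flatMap_cons] at h'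
          have e : psi g sh x N ρ a = ξ ++ (rep [x] N ++ (g a :: (sh :: rep [x] N))) := by
            simp [psi, hξ]
          rw [e] at h'
          simpa using h')
      simp only [List.flatMap_nil, List.nil_append, List.flatMap_cons]
      have e : ∀ c, psi g sh x N ρ c = ξ ++ (rep [x] N ++ (g c :: (sh :: rep [x] N))) :=
        fun c => by simp [psi, hξ]
      rw [e a, e b]
      simpa using h1
  · have h1 := hN₀ N hN x (p ++ (w.flatMap (psi g sh x N ρ) ++ (ρ ++ [g c, sh])))
      (w₂.flatMap (psi g sh x N ρ) ++ q) (ρ ++ [g b, sh]) (by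
        have h' := h
        simp only [List.concat_eq_append, List.flatMap_append, List.flatMap_cons,
          List.flatMap_nil] at h'
        have e : psi g sh x N ρ c = ρ ++ [g c, sh] ++ rep [x] N := by simp [psi]
        rw [e] at h'
        simpa using h')
    simp only [List.concat_eq_append, List.flatMap_append, List.flatMap_cons, List.flatMap_nil]
    have e : ∀ c, psi g sh x N ρ c = ρ ++ [g c, sh] ++ rep [x] N := fun c => by simp [psi]
    rw [e b, e c]
    simpa using h1

theorem psi_upward_sublist {K : Set (List γ)} {N₀ : ℕ}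
    (hN₀ : ∀ n ≥ N₀, ∀ (x : γ) (p q v : List γ), p ++ (rep [x] n ++ q) ∈ K →
      p ++ (rep [x] n ++ (v ++ (rep [x] n ++ q))) ∈ K) (g : α → γ) (sh x : γ) {N : ℕ}
    (hN : N₀ ≤ N) {ρ : List γ} (hρ : ∃ ξ, ρ = ξ ++ rep [x] N) (p q : List γ) {w w' : List α}
    (hs : w.Sublist w') : ∀ r : List α, r ++ w ≠ [] → r ++ w ∈ pre (psi g sh x N ρ) K p q →
    r ++ w' ∈ pre (psi g sh x N ρ) K p q := by
  induction hs with
  | slnil => exact fun r _ h => h
  | @cons l₁ l₂ a _ ih =>
    intro r hr h
    refine psi_upward hN₀ g sh x hN hρ p q r l₂ a ?_ (ih r hr h)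
    intro h0
    have h1 : r = [] := (List.append_eq_nil_iff.1 h0).1
    have h2 : l₂ = [] := (List.append_eq_nil_iff.1 h0).2
    subst h1 h2
    rename_i h3
    rw [List.sublist_nil.1 h3] at hr
    exact hr rfl
  | @cons_cons l₁ l₂ a _ ih =>
    intro r _ h
    have := ih (r ++ [a]) (by simp) (by simpa using h)
    simpa using this

theorem psi_ST1 [Finite α] {K : Set (List γ)} (hK : K ∈ MC (B (α := γ) 0)) (g : α → γ)
    (sh x : γ) : ∃ N₀, ∀ N ≥ N₀, ∀ ρ : List γ, (∃ ξ, ρ = ξ ++ rep [x] N) → ∀ p q,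
      pre (psi g sh x N ρ) K p q ∈ ST (α := α) 1 := by
  obtain ⟨N₀, hN₀⟩ := insertion hK
  refine ⟨N₀, fun N hN ρ hρ p q => ?_⟩
  have h1 : SPol ({∅, Set.univ} : Set (Set (List α)))
      {w | w ≠ [] ∧ w ∈ pre (psi g sh x N ρ) K p q} := by
    apply upward_SPol
    rintro w w' ⟨h1, h2⟩ hs
    refine ⟨?_, ?_⟩
    · rintro rfl
      exact h1 (List.sublist_nil.1 hs)
    · have := psi_upward_sublist hN₀ g sh x hN hρ p q hs [] (by simpa using h1) (by simpa using h2)
      simpa using this
  have h2 : {w | w ≠ [] ∧ w ∈ pre (psi g sh x N ρ) K p q} ∈ ST (α := α) 1 := BC.base _ h1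
  by_cases h : [] ∈ pre (psi g sh x N ρ) K p q
  · have : pre (psi g sh x N ρ) K p q = {[]} ∪ {w | w ≠ [] ∧ w ∈ pre (psi g sh x N ρ) K p q} := by
      ext w
      constructor
      · intro hw
        by_cases hn : w = []
        · exact Or.inl hn
        · exact Or.inr ⟨hn, hw⟩
      · rintro (hw | hw)
        · rw [Set.mem_singleton_iff] at hw
          rw [hw]
          exact h
        · exact hw.2
    rw [this]
    exact BC.union _ _ nil_ST1 h2
  · have : pre (psi g sh x N ρ) K p q = {w | w ≠ [] ∧ w ∈ pre (psi g sh x N ρ) K p q} := by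
      ext w
      constructor
      · intro hw
        refine ⟨?_, hw⟩
        rintro rfl
        exact h hw
      · exact fun hw => hw.2
    rw [this]
    exact h2

theorem psi_B1 [Finite α] (g : α → γ) (sh x : γ) : ∀ K ∈ B (α := γ) 1,
    ∃ N₀, ∀ N ≥ N₀, ∀ ρ : List γ, (∃ ξ, ρ = ξ ++ rep [x] N) → ∀ p q,
      pre (psi g sh x N ρ) K p q ∈ ST (α := α) 1 := by
  refine B_induction (fun K hK => psi_ST1 hK g sh x) ?_ ?_
  · rintro L ⟨N, hN⟩
    exact ⟨N, fun n hn ρ hρ p q => BC.compl _ (hN n hn ρ hρ p q)⟩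
  · rintro L K ⟨N, hN⟩ ⟨N', hN'⟩
    exact ⟨max N N', fun n hn ρ hρ p q => BC.union _ _ (hN n (le_of_max_le_left hn) ρ hρ p q)
      (hN' n (le_of_max_le_right hn) ρ hρ p q)⟩

/-- The pull-back of the half level `Pol (B (1 + t))`. -/
theorem psi_Pol [Finite α] (g : α → γ) (sh x : γ) (t : ℕ) {K : Set (List γ)}
    (hK : Pol (B (1 + t)) K) : ∃ N₀, ∀ N ≥ N₀, ∀ ρ : List γ, (∃ ξ, ρ = ξ ++ rep [x] N) → ∀ p q,
      SPol (ST (α := α) (1 + t)) (pre (psi g sh x N ρ) K p q) := by
  let ι := {y : ℕ × List γ // ∃ ξ, y.2 = ξ ++ rep [x] y.1}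
  let l : Filter ι := Filter.comap (fun y => y.1.1) Filter.atTop
  have tgt : Tgt (α := α) (fun t => ST (1 + t)) (fun t => {L | SPol (ST (1 + t)) L}) :=
    tgt_Hy {∅, Set.univ} 1
  have h := (shift tgt l (fun y => psi g sh x y.1.1 y.1.2) 1 (fun K hK => by
    obtain ⟨N₀, hN₀⟩ := psi_B1 (α := α) g sh x K hK
    rw [Filter.eventually_comap]
    filter_upwards [Filter.eventually_ge_atTop N₀] with N hN
    rintro ⟨⟨N', ρ⟩, hρ⟩ rfl p q
    exact hN₀ N' hN ρ hρ p q) t).2 K hK
  rw [Filter.eventually_comap] at h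
  obtain ⟨N₀, hN₀⟩ := Filter.eventually_atTop.1 h
  exact ⟨N₀, fun N hN ρ hρ p q => hN₀ N hN ⟨(N, ρ), hρ⟩ rfl p q⟩

end Pool.Agent.Helper964_DD
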