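import Pool.Agent.Helper964_DD.SepAut
import Pool.Agent.Helper964_DD.STpull
import Pool.Agent.Helper964_DD.Insert

/-!
# Separation at a level of the Straubing-Thérien hierarchy and membership at a dot-depth level
-/

set_option autoImplicit false

namespace Pool.Agent.Helper964_DD

/-! ### A separator gives a polynomial -/

theorem ill_sub (D : Dat) : ill D ⊆ f0 D := fun _ h => h.2

theorem easy (D : Dat) (t : ℕ) {K : Set (List (Fin D.1))} (hK : SPol (ST (1 + t)) K)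
    (h2 : lang D.1 D.2.2 ⊆ K) (h1 : ∀ x ∈ lang D.1 D.2.1, x ∉ K) :
    Pol (B (1 + (t + 1))) (FL (D.1 + 1) (ml D) (f0 D) (t + 2)) := by
  have hv : D.1 + 1 ≤ ml D := by
    unfold ml
    omega
  have hinj := Fin.castSucc_injective D.1
  have hne := castSucc_ne D.1
  have e : FL (D.1 + 1) (ml D) (f0 D) (t + 2) = FL (D.1 + 1) (ml D) (ill D) (t + 2) ∪
      (FL (D.1 + 1) (ml D) Set.univ (t + 2) ∩
        {z | vp (D.1 + 1) (al (ml D) (t + 2)) z ∈ bar Fin.castSucc (Fin.last D.1) K}ᶜ) := by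
    ext z
    constructor
    · intro hz
      have hu := FL_mono (Set.subset_univ (f0 D)) (t + 2) hz
      obtain ⟨y, hy1, hy2⟩ := FL_decode hv (t + 2) z hu
      by_cases hy : y ∈ ill D
      · exact Or.inl ((hy2 _).2 hy)
      · obtain ⟨ws, h3, h4, _⟩ := well_formed hy
        refine Or.inr ⟨hu, ?_⟩
        intro h5
        have h6 : vp (D.1 + 1) (al (ml D) (t + 2)) z ∈ bar Fin.castSucc (Fin.last D.1) K := h5
        rw [hy1, h3, blocks_mem_bar hinj hne] at h6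
        obtain ⟨w, hw, hwK⟩ := h6
        exact h1 w (h4 ((hy2 _).1 hz) w hw) hwK
    · rintro (hz | ⟨hz, hz'⟩)
      · exact FL_mono (ill_sub D) (t + 2) hz
      · obtain ⟨y, hy1, hy2⟩ := FL_decode hv (t + 2) z hz
        rw [hy2]
        by_contra hy
        have hi : y ∉ ill D := fun h => hy (ill_sub D h)
        obtain ⟨ws, h3, _, h4⟩ := well_formed hi
        obtain ⟨w, hw, hw2⟩ := h4 hy
        apply hz'
        change vp (D.1 + 1) (al (ml D) (t + 2)) z ∈ bar Fin.castSucc (Fin.last D.1) K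
        rw [hy1, h3, blocks_mem_bar hinj hne]
        exact ⟨w, hw, h2 hw2⟩
  rw [e]
  refine Pol.union _ _ ?_ (Pol_sub (B_inter ?_ (B_compl ?_)))
  · exact Pol_B_mono (by omega) (FL_Pol (D.1 + 1) (ill_Pol D) (t + 2))
  · exact FL_univ_mem (D.1 + 1) (ml D) (t + 1)
  · have := Pol_le (vp_bar_Pol (hv.trans (le_al (ml D) (t + 2))) t hK)
    exact B_mono (by omega) this

/-! ### The words -/

theorem afold_loop (D : Dat) (b : List (Fin (ml D))) (s : ℕ × ℕ) (h : afold D s b = s) (n : ℕ) :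
    afold D s (rep b n) = s := by
  induction n with
  | zero => rfl
  | succ n ih => rw [rep_succ, afold_append, h, ih]

theorem rep_conj {γ : Type} (d : γ) (b : List γ) (n : ℕ) :
    rep (d :: b) n ++ [d] = d :: rep (b ++ [d]) n := by
  induction n with
  | zero => rfl
  | succ n ih =>
    rw [rep_succ, rep_succ, List.append_assoc, ih]
    simp

theorem start_state (D : Dat) : ast D (0, 0) (dol D : ℕ) = (0, 1) := by
  simp [ast, dol_val]

theorem good_word (D : Dat) {w₁ : List (Fin D.1)} (h1 : w₁ ∈ lang D.1 D.2.1) (n : ℕ) :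
    rep (dol D :: blck D 0 w₁) n ++ [dol D] ∈ f0 D := by
  rw [rep_conj]
  change (afold D (0, 0) _).2 ≠ 2
  rw [afold_cons, start_state, afold_loop D _ _ (afold_blck_zero D h1 1 (Or.inl rfl))]
  norm_num

theorem bad_word (D : Dat) {w₁ w₂ : List (Fin D.1)} (h1 : w₁ ∈ lang D.1 D.2.1)
    (h2 : w₂ ∈ lang D.1 D.2.2) (n : ℕ) :
    rep (dol D :: blck D 0 w₁) n ++ ((dol D :: blck D 1 w₂) ++
      (rep (dol D :: blck D 0 w₁) n ++ [dol D])) ∉ f0 D := by
  have e : rep (dol D :: blck D 0 w₁) n ++ ((dol D :: blck D 1 w₂) ++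
      (rep (dol D :: blck D 0 w₁) n ++ [dol D])) =
      dol D :: (rep (blck D 0 w₁ ++ [dol D]) n ++ ((blck D 1 w₂ ++ [dol D]) ++
        rep (blck D 0 w₁ ++ [dol D]) n)) := by
    have := rep_conj (dol D) (blck D 0 w₁) n
    rw [this]
    have h3 : rep (dol D :: blck D 0 w₁) n ++ ((dol D :: blck D 1 w₂) ++
        (dol D :: rep (blck D 0 w₁ ++ [dol D]) n)) =
        (rep (dol D :: blck D 0 w₁) n ++ [dol D]) ++ (blck D 1 w₂ ++
          (dol D :: rep (blck D 0 w₁ ++ [dol D]) n)) := by simp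
    rw [h3, this]
    simp
  rw [e]
  change ¬ (afold D (0, 0) _).2 ≠ 2
  rw [afold_cons, start_state, afold_append, afold_append,
    afold_loop D _ _ (afold_blck_zero D h1 1 (Or.inl rfl)),
    afold_blck_one D h2 1 (Or.inl rfl),
    afold_loop D _ _ (afold_blck_zero D h1 2 (Or.inr rfl))]
  simp

/-! ### The form of the codes -/

theorem enc_form {γ H : Type} (sh x : γ) (e : H → γ) (l : List H) (n : ℕ) (h : H) :
    ∃ ξ, enc sh x e l n h = sh :: (rep [x] n ++ (ξ ++ rep [x] n)) := by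
  rcases Nat.eq_zero_or_pos n with rfl | hn
  · exact ⟨[e h], by simp [enc]⟩
  · rcases List.eq_nil_or_concat l with rfl | ⟨l', b, hl⟩
    · refine ⟨[e h], ?_⟩
      have : rep (blk x e ([] : List H) n) n = [] := by
        apply List.eq_nil_of_length_eq_zero
        simp [rep_length, blk]
      simp [enc, this]
    · rw [List.concat_eq_append] at hl
      obtain ⟨m, rfl⟩ : ∃ m, n = m + 1 := ⟨n - 1, by omega⟩
      have h1 : blk x e l (m + 1) = l'.flatMap (fun b => e b :: rep [x] (m + 1)) ++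
          (e b :: rep [x] (m + 1)) := by
        simp [blk, hl]
      have h2 : rep (blk x e l (m + 1)) (m + 1) = rep (blk x e l (m + 1)) m ++
          (l'.flatMap (fun b => e b :: rep [x] (m + 1)) ++ (e b :: rep [x] (m + 1))) := by
        rw [← h1, rep_succ']
      refine ⟨e h :: (rep [x] (m + 1) ++ (rep (blk x e l (m + 1)) m ++
        (l'.flatMap (fun b => e b :: rep [x] (m + 1)) ++ [e b]))), ?_⟩
      rw [enc, h2]
      simp

theorem theta_form {v m' N : ℕ} (w : List (Fin m')) (h1 : w ≠ [])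
    (h2 : ∀ c ∈ w, v ≤ (c : ℕ)) : ∃ ξ, w.flatMap (phi v m' N) =
      shF m' :: (rep [padF m'] N ++ (ξ ++ rep [padF m'] N)) := by
  have hphi : ∀ c ∈ w, ∃ ξ, phi v m' N c =
      shF m' :: (rep [padF m'] N ++ (ξ ++ rep [padF m'] N)) := by
    intro c hc
    rw [phi, if_neg (by have := h2 c hc; omega)]
    exact enc_form _ _ _ _ _ _
  cases w with
  | nil => exact absurd rfl h1
  | cons c r =>
    obtain ⟨ξ, hξ⟩ := hphi c (by simp)
    rcases List.eq_nil_or_concat r with rfl | ⟨r', b, rfl⟩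
    · exact ⟨ξ, by simp [hξ]⟩
    · obtain ⟨ξ', hξ'⟩ := hphi b (by simp)
      refine ⟨ξ ++ (rep [padF m'] N ++ (r'.flatMap (phi v m' N) ++
        (shF m' :: (rep [padF m'] N ++ ξ')))), ?_⟩
      simp [List.concat_eq_append, hξ, hξ']

/-- Moving the separators. -/
theorem flatMap_move {α γ : Type} (g : α → γ) (σ ρ : List γ) (w : List α) :
    ρ ++ w.flatMap (fun a => g a :: (σ ++ ρ)) = w.flatMap (fun a => ρ ++ (g a :: σ)) ++ ρ := by
  induction w with
  | nil => simp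
  | cons a w ih =>
    rw [List.flatMap_cons, List.flatMap_cons, List.append_assoc, List.append_assoc, ← ih]
    simp

/-- The code of an annotated block. -/
def tau {α γ : Type} (d : γ) (g : α → γ) (θ : List γ) (w : List α) : List γ :=
  d :: (θ ++ w.flatMap (fun a => g a :: θ))

theorem tau_mem {α γ : Type} (d : γ) (g : α → γ) (sh x : γ) (N : ℕ) (ρ : List γ)
    (Q : Set (List γ)) (w : List α) :
    tau d g (sh :: (rep [x] N ++ ρ)) w ∈ Q ↔
      w ∈ pre (psi g sh x N ρ) Q (d :: (sh :: rep [x] N)) ρ := by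
  have h := flatMap_move g (sh :: rep [x] N) ρ w
  have e : tau d g (sh :: (rep [x] N ++ ρ)) w =
      (d :: (sh :: rep [x] N)) ++ (w.flatMap (psi g sh x N ρ) ++ ρ) := by
    have h' : w.flatMap (psi g sh x N ρ) ++ ρ =
        ρ ++ w.flatMap (fun a => g a :: ((sh :: rep [x] N) ++ ρ)) := h.symm
    rw [h', tau]
    simp
  rw [e]
  rfl

/-- The visible letters. -/
def gv (D : Dat) (t : ℕ) (a : Fin D.1) : Fin (al (ml D) t) :=
  ⟨a, by have := le_al (ml D) t; have := lt_ml_of_lt (D := D) a.2; omega⟩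

/-- The visible mark. -/
def dv (D : Dat) (t : ℕ) : Fin (al (ml D) t) :=
  ⟨D.1, by have := le_al (ml D) t; have : D.1 < ml D := by { unfold ml; omega }; omega⟩

/-- A hidden letter. -/
def h0 (D : Dat) : Fin (ml D) := lf D (D.1 + 1)

theorem h0_ge (D : Dat) : D.1 + 1 ≤ (h0 D : ℕ) := by
  have := qb_ge D
  rw [h0, lf_val (by unfold ml; omega)]

theorem annT_indist {D : Dat} {t : ℕ} {E : Fin (ml D) → List (Fin (al (ml D) t))}
    (hE : IsE (D.1 + 1) (ml D) t E) {S : Set (Set (List (Fin (al (ml D) t))))}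
    (hS : Indist (D.1 + 1) E S) {Q : Set (List (Fin (al (ml D) t)))} (hQ : Q ∈ S)
    (w : List (Fin D.1)) : ∀ (x : ℕ) (p : List (Fin (al (ml D) t))),
    (p ++ (annT D x w).flatMap E ∈ Q ↔ p ++ w.flatMap (fun a => gv D t a :: E (h0 D)) ∈ Q) := by
  induction w with
  | nil => intro x p; exact Iff.rfl
  | cons a w ih =>
    intro x p
    have ha : ((lf D a : Fin (ml D)) : ℕ) = a := lf_val (lt_ml_of_lt a.2)
    obtain ⟨a', h1, h2⟩ := hE.visible (lf D a) (by rw [ha]; omega)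
    have h3 : a' = gv D t a := Fin.ext (by rw [h1, ha]; rfl)
    have h4 : D.1 + 1 ≤ ((lf D (D.1 + 1 + nx D x a) : Fin (ml D)) : ℕ) := by
      rw [lf_val (hid_lt_ml (nx_lt D x a))]
      omega
    rw [annT, List.flatMap_cons, List.flatMap_cons, h2, h3, List.flatMap_cons]
    have h5 := hS Q hQ _ _ h4 (h0_ge D) (p ++ [gv D t a]) ((annT D (nx D x a) w).flatMap E)
    have h6 := ih (nx D x a) (p ++ (gv D t a :: E (h0 D)))
    have e1 : p ++ ([gv D t a] ++ (E (lf D (D.1 + 1 + nx D x a)) ++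
        (annT D (nx D x a) w).flatMap E)) =
        (p ++ [gv D t a]) ++ (E (lf D (D.1 + 1 + nx D x a)) ++
          (annT D (nx D x a) w).flatMap E) := by simp
    have e2 : (p ++ [gv D t a]) ++ (E (h0 D) ++ (annT D (nx D x a) w).flatMap E) =
        (p ++ (gv D t a :: E (h0 D))) ++ (annT D (nx D x a) w).flatMap E := by simp
    rw [e1, h5, e2, h6]
    simp

theorem block_indist {D : Dat} {t : ℕ} {E : Fin (ml D) → List (Fin (al (ml D) t))}
    (hE : IsE (D.1 + 1) (ml D) t E) {S : Set (Set (List (Fin (al (ml D) t))))}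
    (hS : Indist (D.1 + 1) E S) {Q : Set (List (Fin (al (ml D) t)))} (hQ : Q ∈ S)
    (j : ℕ) (hj : j < 2) (w : List (Fin D.1)) :
    (dol D :: blck D j w).flatMap E ∈ Q ↔ tau (dv D t) (gv D t) (E (h0 D)) w ∈ Q := by
  have hq := qb_ge D
  obtain ⟨d', h1, h2⟩ := hE.visible (dol D) (by rw [dol_val]; omega)
  have h3 : d' = dv D t := Fin.ext (by rw [h1, dol_val]; rfl)
  have h4 : D.1 + 1 ≤ ((lf D (D.1 + 1 + j) : Fin (ml D)) : ℕ) := by
    rw [lf_val (hid_lt_ml (by omega))]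
    omega
  rw [blck, List.flatMap_cons, List.flatMap_cons, h2, h3]
  have h5 := hS Q hQ _ _ h4 (h0_ge D) [dv D t] ((annT D j w).flatMap E)
  have h6 := annT_indist hE hS hQ w j (dv D t :: E (h0 D))
  rw [h5]
  have e2 : [dv D t] ++ (E (h0 D) ++ (annT D j w).flatMap E) =
      (dv D t :: E (h0 D)) ++ (annT D j w).flatMap E := by simp
  rw [e2, h6]
  simp [tau]

/-! ### A polynomial gives a separator -/

theorem phi_Pol {v m : ℕ} (hv : v ≤ m) (t : ℕ) {Q : Set (List (Fin (m + 2)))}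
    (hQ : Pol (B (1 + t)) Q) : ∀ᶠ N in Filter.atTop, ∀ p q,
      pre (phi v m N) Q p q ∈ Hy (T0 (hdF v m)) (t + 1) := by
  have h := (shift (tgt_Hy0 (T0 (hdF v m))) Filter.atTop (phi v m) 1
    (fun K hK => pre_phi_T0 hv ((hid_B1 K hK).hidR _) (aper_B 1 K hK) (FQ_B 1 K hK)) t).2 Q hQ
  filter_upwards [h] with N hN p q
  exact BC.base _ (hN p q)

/-- The last sharp. -/
def shA (m t : ℕ) : Fin (al m (t + 1)) := shF (al m t)

/-- The last padding letter. -/
def padA (m t : ℕ) : Fin (al m (t + 1)) := padF (al m t)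

theorem exists_top_code {v m : ℕ} (hv : v ≤ m) (t : ℕ) {α : Type} [Finite α]
    (g : α → Fin (al m (t + 2))) {S : Set (Set (List (Fin (al m (t + 2)))))} (hf : S.Finite)
    (hS : ∀ Q ∈ S, Pol (B (1 + t)) Q) : ∃ E, IsE v m (t + 2) E ∧ Indist v E S ∧
      ∃ N, (∀ a : Fin m, v ≤ (a : ℕ) → ∃ ξ, E a = shA m (t + 1) ::
        (rep [padA m (t + 1)] N ++ (ξ ++ rep [padA m (t + 1)] N))) ∧
      ∀ Q ∈ S, ∀ ρ : List (Fin (al m (t + 2))), (∃ ξ, ρ = ξ ++ rep [padA m (t + 1)] N) →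
        ∀ p q, SPol (ST (1 + t)) (pre (psi g (shA m (t + 1)) (padA m (t + 1)) N ρ)
          Q p q) := by
  have hv1 : v ≤ al m (t + 1) := hv.trans (le_al m (t + 1))
  have h1 : ∀ Q ∈ S, ∀ᶠ N in Filter.atTop, ∀ p q,
      pre (phi v (al m (t + 1)) N) Q p q ∈ Hy (T0 (hdF v (al m (t + 1)))) (t + 1) :=
    fun Q hQ => phi_Pol hv1 t (hS Q hQ)
  have h2 : ∀ Q ∈ S, ∀ᶠ N in Filter.atTop, ∀ ρ : List (Fin (al m (t + 2))),
      (∃ ξ, ρ = ξ ++ rep [padA m (t + 1)] N) →
        ∀ p q, SPol (ST (1 + t)) (pre (psi g (shA m (t + 1)) (padA m (t + 1)) N ρ)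
          Q p q) := by
    intro Q hQ
    obtain ⟨N₀, hN₀⟩ := psi_Pol g (shA m (t + 1)) (padA m (t + 1)) t (hS Q hQ)
    filter_upwards [Filter.eventually_ge_atTop N₀] with N hN
    exact hN₀ N hN
  rw [← Filter.eventually_all_finite hf] at h1 h2
  obtain ⟨N, h3, h4⟩ := (h1.and h2).exists
  have h5 : (⋃ Q ∈ S, {X | ∃ p q, X = pre (phi v (al m (t + 1)) N) Q p q}).Finite :=
    hf.biUnion fun Q hQ => pre_finite (FQ_B _ Q (Pol_le (hS Q hQ))) _
  have h6 : (⋃ Q ∈ S, {X | ∃ p q, X = pre (phi v (al m (t + 1)) N) Q p q}) ⊆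
      Hy (T0 (hdF v (al m (t + 1)))) (t + 1) := by
    intro X hX
    simp only [Set.mem_iUnion] at hX
    obtain ⟨Q, hQ, p, q, rfl⟩ := hX
    exact h3 Q hQ p q
  obtain ⟨E', hE', h7⟩ := exists_code hv (t + 1) _ h5 h6
  refine ⟨_, IsE.succ (t + 1) E' N hE', indist_step (m' := al m (t + 1)) S N E' h7, N, ?_, h4⟩
  intro a ha
  obtain ⟨h8, h9⟩ := hE'.hidden hv a ha
  exact theta_form (E' a) h8 h9

theorem hard (D : Dat) (t : ℕ)
    (h : Pol (B (1 + (t + 1))) (FL (D.1 + 1) (ml D) (f0 D) (t + 2))) :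
    ∃ K, SPol (ST (α := Fin D.1) (1 + t)) K ∧ lang D.1 D.2.2 ⊆ K ∧
      ∀ x ∈ lang D.1 D.2.1, x ∉ K := by
  have hv : D.1 + 1 ≤ ml D := by
    unfold ml
    omega
  rw [show 1 + (t + 1) = t + 2 by omega] at h
  obtain ⟨S, hS, hf, N₁, hN₁⟩ := ins_Pol (t + 2) h
  have hS' : ∀ Q ∈ S, Pol (B (1 + t)) Q := by
    intro Q hQ
    have := hS hQ
    have h' : Pol (B (t + 1)) Q := this
    rwa [Nat.add_comm t 1] at h'
  obtain ⟨E, hE, hI, N, h1, h2⟩ := exists_top_code hv t (gv D (t + 2)) hf hS'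
  obtain ⟨ξ, hξ⟩ := h1 (h0 D) (h0_ge D)
  let ρ : List (Fin (al (ml D) (t + 2))) := ξ ++ rep [padA (ml D) (t + 1)] N
  let F : Set (List (Fin (al (ml D) (t + 2)))) → Set (List (Fin D.1)) := fun Q =>
    pre (psi (gv D (t + 2)) (shA (ml D) (t + 1)) (padA (ml D) (t + 1)) N ρ) Q
      (dv D (t + 2) :: (shA (ml D) (t + 1) :: rep [padA (ml D) (t + 1)] N)) ρ
  have hF : ∀ Q ∈ S, SPol (ST (1 + t)) (F Q) := fun Q hQ => h2 Q hQ ρ ⟨ξ, rfl⟩ _ _
  have key : ∀ Q ∈ S, ∀ j < 2, ∀ w : List (Fin D.1),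
      ((dol D :: blck D j w).flatMap E ∈ Q ↔ w ∈ F Q) := by
    intro Q hQ j hj w
    rw [block_indist hE hI hQ j hj w, hξ]
    exact tau_mem _ _ _ _ _ _ _ _
  have sep : ∀ x ∈ lang D.1 D.2.1, ∀ y ∈ lang D.1 D.2.2, ∃ Q ∈ S, y ∈ F Q ∧ x ∉ F Q := by
    intro x hx y hy
    by_contra hcon
    have ho : Ord S ((dol D :: blck D 1 y).flatMap E) ((dol D :: blck D 0 x).flatMap E) := by
      intro Q hQ hm
      rw [key Q hQ 0 (by norm_num)]
      rw [key Q hQ 1 (by norm_num)] at hm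
      by_contra hn
      exact hcon ⟨Q, hQ, hm, hn⟩
    have hu : (dol D :: blck D 0 x).flatMap E ≠ [] := by
      obtain ⟨d', _, hd⟩ := hE.visible (dol D) (by rw [dol_val]; omega)
      rw [List.flatMap_cons, hd]
      simp
    have h3 := hN₁ N₁ le_rfl _ _ hu ho [] ([dol D].flatMap E) (by
      have h4 := (hE.mem_FL hv (f0 D) (rep (dol D :: blck D 0 x) N₁ ++ [dol D])).2
        (good_word D hx N₁)
      rw [List.flatMap_append, rep_flatMap] at h4
      exact h4)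
    refine bad_word D hx hy N₁ ((hE.mem_FL hv (f0 D) _).1 ?_)
    rw [List.flatMap_append, List.flatMap_append, List.flatMap_append, rep_flatMap]
    exact h3
  obtain ⟨K, hK, h5, h6⟩ := exists_separator (P := {L | SPol (ST (1 + t)) L}) SPol.empty
    (SPol.base _ (QB_ST _).univ) (fun _ _ h h' => SPol.union _ _ h h')
    (fun L K h h' => SPol_inter (QB_ST _) h K h') hf F hF _ _ sep
  exact ⟨K, hK, h5, h6⟩

theorem sep_iff (D : Dat) (t : ℕ) :
    (∃ K, SPol (ST (α := Fin D.1) (1 + t)) K ∧ lang D.1 D.2.2 ⊆ K ∧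
      ∀ x ∈ lang D.1 D.2.1, x ∉ K) ↔
    Pol (B (1 + (t + 1))) (FL (D.1 + 1) (ml D) (f0 D) (t + 2)) :=
  ⟨fun ⟨_, hK, h2, h1⟩ => easy D t hK h2 h1, hard D t⟩

theorem sred_iff (n d : ℕ) (hn : 2 ≤ n) (D : Dat) (t : ℕ) :
    (∃ K, SPol (ST (α := Fin D.1) (1 + t)) K ∧ lang D.1 D.2.2 ⊆ K ∧
      ∀ x ∈ lang D.1 D.2.1, x ∉ K) ↔
    lang n (sred n d (t + 2) D) ∈ B (1 + (t + 1) + 1 + d) := by
  rw [sep_iff, ← lang_hcode]
  exact hred_iff n d hn (al (ml D) (t + 2), hcode D (t + 2)) (t + 1)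

end Pool.Agent.Helper964_DD
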