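import Pool.Agent.Helper964_DD.RowTest
import Pool.Agent.Helper964_DD.Sep

/-!
# Covering with one language less
-/

set_option autoImplicit false

namespace Pool.Agent.Helper964_DD

variable {α : Type}

/-- The language `L` is covered by languages of `P` which are disjoint from the languages of the
list. -/
def Cov (P : Set (Set (List α))) (L : Set (List α)) (Ls : List (Set (List α))) : Prop :=
  ∃ Ks : List (Set (List α)), List.Forall₂ (fun K M => K ∈ P ∧ ∀ x ∈ M, x ∉ K) Ks Ls ∧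
    ∀ w ∈ L, ∃ K ∈ Ks, w ∈ K

theorem forall₂_right {β δ : Type} {R : β → δ → Prop} {l : List β} {l' : List δ}
    (h : List.Forall₂ R l l') : ∀ y ∈ l', ∃ x ∈ l, R x y := by
  induction h with
  | nil => intro y hy; cases hy
  | cons h _ ih =>
    intro y hy
    rcases List.mem_cons.1 hy with rfl | hy
    · exact ⟨_, by simp, h⟩
    · obtain ⟨x, hx, h'⟩ := ih y hy
      exact ⟨x, by simp [hx], h'⟩

theorem forall₂_left {β δ : Type} {R : β → δ → Prop} {l : List β} {l' : List δ}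
    (h : List.Forall₂ R l l') : ∀ x ∈ l, ∃ y ∈ l', R x y := by
  induction h with
  | nil => intro y hy; cases hy
  | cons h _ ih =>
    intro y hy
    rcases List.mem_cons.1 hy with rfl | hy
    · exact ⟨_, by simp, h⟩
    · obtain ⟨x, hx, h'⟩ := ih y hy
      exact ⟨x, by simp [hx], h'⟩

/-- Compactness: a covering exists, or there are words which are not distinguished. -/
theorem cov_or {P : Set (Set (List α))} (h0 : ∅ ∈ P) (h1 : Set.univ ∈ P)
    (hU : ∀ L K, L ∈ P → K ∈ P → L ∪ K ∈ P) (hI : ∀ L K, L ∈ P → K ∈ P → L ∩ K ∈ P)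
    {S : Set (Set (List α))} (hS : S.Finite) (hSP : S ⊆ P) (L : Set (List α))
    (Ls : List (Set (List α))) :
    Cov P L Ls ∨ ∃ w ∈ L, ∀ M ∈ Ls, ∃ w' ∈ M, ∀ Q ∈ S, w ∈ Q → w' ∈ Q := by
  by_cases h : ∃ w ∈ L, ∀ M ∈ Ls, ∃ w' ∈ M, ∀ Q ∈ S, w ∈ Q → w' ∈ Q
  · exact Or.inr h
  · left
    have key : ∀ Ls : List (Set (List α)), ∃ Ks : List (Set (List α)),
        List.Forall₂ (fun K M => (K ∈ P ∧ ∀ x ∈ M, x ∉ K) ∧
          ∀ w ∈ L, (∀ w' ∈ M, ∃ Q ∈ S, w ∈ Q ∧ w' ∉ Q) → w ∈ K) Ks Ls := by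
      intro Ls
      induction Ls with
      | nil => exact ⟨[], List.Forall₂.nil⟩
      | cons M Ls ih =>
        obtain ⟨Ks, hKs⟩ := ih
        obtain ⟨K, hK, h2, h3⟩ := exists_separator h0 h1 hU hI hS id (fun Q hQ => hSP hQ) M
          {w | w ∈ L ∧ ∀ w' ∈ M, ∃ Q ∈ S, w ∈ Q ∧ w' ∉ Q} (fun x hx y hy => hy.2 x hx)
        exact ⟨K :: Ks, List.Forall₂.cons ⟨⟨hK, h3⟩, fun w hw hw' => h2 ⟨hw, hw'⟩⟩ hKs⟩
    obtain ⟨Ks, hKs⟩ := key Ls
    refine ⟨Ks, hKs.imp fun _ _ h => h.1, fun w hw => ?_⟩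
    simp only [not_exists, not_and, not_forall] at h
    obtain ⟨M, hM, h2⟩ := h w hw
    obtain ⟨K, hK, h3⟩ := forall₂_right hKs M hM
    refine ⟨K, hK, h3.2 w hw fun w' hw' => ?_⟩
    obtain ⟨Q, hQ, h4, h5⟩ := h2 w' hw'
    exact ⟨Q, hQ, h4, h5⟩

/-! ### The levels of both hierarchies -/

theorem ST_sub_B (i : ℕ) : (∀ K ∈ ST (α := α) i, K ∈ B i) ∧
    (∀ K : Set (List α), SPol (ST i) K → Pol (B i) K) := by
  have step : ∀ i, (∀ K ∈ ST (α := α) i, K ∈ B i) →
      (∀ K : Set (List α), SPol (ST i) K → Pol (B i) K) :=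
    fun i h K hK => Pol_of_SPol (SPol_mono h hK)
  have main : ∀ i, ∀ K ∈ ST (α := α) i, K ∈ B i := by
    intro i
    induction i with
    | zero =>
      rintro K (rfl | rfl)
      · exact empty_mem 0
      · exact univ_mem 0
    | succ i ih =>
      exact Hy_induction (fun K hK => Pol_le (step i ih K hK)) (fun K h => B_compl h)
        (fun K K' h h' => B_union h h')
  exact ⟨main i, step i (main i)⟩

theorem exists_codeB {v m : ℕ} (hv : v ≤ m) (s : ℕ)
    {S : Set (Set (List (Fin (al m (s + 1)))))} (hf : S.Finite) (hS : S ⊆ B (s + 1)) :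
    ∃ E, IsE v m (s + 1) E ∧ Indist v E S := by
  have hv1 : v ≤ al m s := hv.trans (le_al m s)
  have h1 : ∀ Q ∈ S, ∀ᶠ N in Filter.atTop, ∀ p q,
      pre (phi v (al m s) N) Q p q ∈ Hy (T0 (hdF v (al m s))) s := by
    intro Q hQ
    refine (shift (tgt_Hy0 (T0 (hdF v (al m s)))) Filter.atTop (phi v (al m s)) 1
      (fun K hK => pre_phi_T0 hv1 ((hid_B1 K hK).hidR _) (aper_B 1 K hK) (FQ_B 1 K hK)) s).1 Q ?_
    rw [Nat.add_comm 1 s]
    exact hS hQ
  rw [← Filter.eventually_all_finite hf] at h1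
  obtain ⟨N, hN⟩ := h1.exists
  have h5 : (⋃ Q ∈ S, {X | ∃ p q, X = pre (phi v (al m s) N) Q p q}).Finite :=
    hf.biUnion fun Q hQ => pre_finite (FQ_B (s + 1) Q (hS hQ)) _
  have h6 : (⋃ Q ∈ S, {X | ∃ p q, X = pre (phi v (al m s) N) Q p q}) ⊆
      Hy (T0 (hdF v (al m s))) s := by
    intro X hX
    simp only [Set.mem_iUnion] at hX
    obtain ⟨Q, hQ, p, q, rfl⟩ := hX
    exact hN Q hQ p q
  obtain ⟨E', hE', h7⟩ := exists_code hv s _ h5 h6
  exact ⟨_, IsE.succ s E' N hE', indist_step (m' := al m s) S N E' h7⟩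

/-! ### The languages of rows -/

/-- The rows of blocks from the language of `c`. -/
def RS (k : ℕ) (c : List ℕ × List ℕ) : Set (List (Fin (k + 3))) :=
  {y | (gfold k c c (0, 0) y).2 = 1}

/-- The rows of blocks from the language of `c₁`, a middle block, and blocks from the language
of `c₂`. -/
def RS2 (k : ℕ) (c₁ c₂ : List ℕ × List ℕ) : Set (List (Fin (k + 3))) :=
  {y | (gfold k c₁ c₂ (0, 0) y).2 = 4}

variable {k : ℕ} {c c₁ c₂ : List ℕ × List ℕ}

theorem row_mem {w : List (Fin k)} (hw : w ∈ lang k c) (n : ℕ) :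
    rep (dl k :: hm k :: w.map (e3 k)) n ++ [dl k] ∈ RS k c := by
  rw [rep_conj]
  change (gfold k c c (0, 0) _).2 = 1
  rw [gfold_cons]
  have e : gst k c c (0, 0) (dl k : Fin (k + 3)) = (0, 1) := by simp [gst, dl]
  have h : gfold k c c (0, 1) (hm k :: w.map (e3 k) ++ [dl k]) = (0, 1) := gfold_block_one hw
  rw [e, gfold_loop _ _ h]

theorem row_conj {γ : Type} (d : γ) (b₁ b b₂ : List γ) (n : ℕ) :
    rep (d :: b₁) n ++ ((d :: b) ++ (rep (d :: b₂) n ++ [d])) =
      d :: (rep (b₁ ++ [d]) n ++ ((b ++ [d]) ++ rep (b₂ ++ [d]) n)) := by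
  have h1 := rep_conj d b₁ n
  have h2 := rep_conj d b₂ n
  rw [h2]
  have h3 : rep (d :: b₁) n ++ ((d :: b) ++ (d :: rep (b₂ ++ [d]) n)) =
      (rep (d :: b₁) n ++ [d]) ++ (b ++ (d :: rep (b₂ ++ [d]) n)) := by simp
  rw [h3, h1]
  simp

theorem row2_mem {w₁ w₂ : List (Fin k)} (h1 : w₁ ∈ lang k c₁) (h2 : w₂ ∈ lang k c₂)
    (w : List (Fin k)) (n : ℕ) :
    rep (dl k :: hm k :: w₁.map (e3 k)) n ++ ((dl k :: hu k :: w.map (e3 k)) ++
      (rep (dl k :: hm k :: w₂.map (e3 k)) n ++ [dl k])) ∈ RS2 k c₁ c₂ := by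
  rw [row_conj]
  change (gfold k c₁ c₂ (0, 0) _).2 = 4
  rw [gfold_cons]
  have e : gst k c₁ c₂ (0, 0) (dl k : Fin (k + 3)) = (0, 1) := by simp [gst, dl]
  have e1 : gfold k c₁ c₂ (0, 1) (hm k :: w₁.map (e3 k) ++ [dl k]) = (0, 1) :=
    gfold_block_one h1
  have e2 : gfold k c₁ c₂ (0, 1) (hu k :: w.map (e3 k) ++ [dl k]) = (0, 4) :=
    gfold_block_mid w
  have e3 : gfold k c₁ c₂ (0, 4) (hm k :: w₂.map (e3 k) ++ [dl k]) = (0, 4) :=
    gfold_block_four h2
  rw [e, gfold_append, gfold_append, gfold_loop _ _ e1, e2, gfold_loop _ _ e3]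

/-- Raising the blocks of a row. -/
theorem raise {γ : Type} {K : Set (List γ)} {u u' : List γ}
    (h : ∀ p q, p ++ (u ++ q) ∈ K → p ++ (u' ++ q) ∈ K) (a : List γ) (n : ℕ) :
    ∀ p q, p ++ (rep (a ++ u) n ++ q) ∈ K → p ++ (rep (a ++ u') n ++ q) ∈ K := by
  induction n with
  | zero => exact fun p q h => h
  | succ n ih =>
    intro p q hw
    rw [rep_succ] at hw ⊢
    have h1 := h (p ++ a) (rep (a ++ u) n ++ q) (by simpa using hw)
    have h2 := ih (p ++ (a ++ u')) q (by simpa using h1)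
    simpa using h2

/-- The embedding of the visible letters. -/
def iv (k t : ℕ) (a : Fin k) : Fin (al (k + 3) t) := upt t (e3 k a)

theorem code_map {t : ℕ} {E : Fin (k + 3) → List (Fin (al (k + 3) t))}
    (hE : IsE (k + 1) (k + 3) t E) (w : List (Fin k)) :
    (w.map (e3 k)).flatMap E = w.map (iv k t) := by
  induction w with
  | nil => rfl
  | cons a w ih =>
    rw [List.map_cons, List.flatMap_cons, ih, List.map_cons]
    obtain ⟨a', h1, h2⟩ := hE.visible (e3 k a) (by change (a : ℕ) < k + 1; omega)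
    have h3 : a' = iv k t a := Fin.ext (by rw [h1]; rfl)
    rw [h2, h3]
    rfl

theorem code_block {t : ℕ} {E : Fin (k + 3) → List (Fin (al (k + 3) t))}
    (hE : IsE (k + 1) (k + 3) t E) (h : Fin (k + 3)) (w : List (Fin k)) :
    (dl k :: h :: w.map (e3 k)).flatMap E = (dz k t :: E h) ++ w.map (iv k t) := by
  rw [List.flatMap_cons, List.flatMap_cons, code_map hE]
  obtain ⟨a', h1, h2⟩ := hE.visible (dl k) (Nat.lt_succ_self k)
  have h3 : a' = dz k t := Fin.ext (by rw [h1]; rfl)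
  rw [h2, h3]
  simp

theorem map_eq_flatMap {γ : Type} (f : α → γ) (w : List α) :
    w.flatMap (fun a => [f a]) = w.map f := by
  induction w with
  | nil => rfl
  | cons a w ih => rw [List.flatMap_cons, ih]; rfl

/-- **Covering with one language less, first direction.** -/
theorem cov_step_up {l : ℕ} (hl : 1 ≤ l) {cs : List (List ℕ × List ℕ)}
    (h : Cov {K | SPol (ST l) K} (lang k c) (lang k c₁ :: lang k c₂ :: cs.map (lang k))) :
    Cov {K | SPol (ST l) K} (FL (k + 1) (k + 3) (RS k c) l)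
      (FL (k + 1) (k + 3) (RS2 k c₁ c₂) l ::
        cs.map (fun c => FL (k + 1) (k + 3) (RS k c) l)) := by
  obtain ⟨_, hKs, hcov⟩ := h
  cases hKs with
  | @cons K₁ _ _ _ h1 h1' =>
    cases h1' with
    | @cons K₂ _ Ks _ h2 h3 =>
      refine ⟨K2 k l K₁ K₂ :: Ks.map (K1 k l), List.Forall₂.cons ⟨K2_SPol hl h1.1 h2.1, ?_⟩ ?_,
        ?_⟩
      · intro z hz
        exact disj2 h1.2 h2.2 (FL_idec _ _ _ l z hz)
      · rw [List.forall₂_map_left_iff, List.forall₂_map_right_iff]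
        rw [List.forall₂_map_right_iff] at h3
        refine h3.imp fun K c' h => ⟨K1_SPol hl h.1, fun z hz => ?_⟩
        exact disj1 h.2 (FL_idec _ _ _ l z hz)
      · intro z hz
        rcases cover_mem hcov (FL_idec _ _ _ l z hz) with h | ⟨K, hK, h⟩
        · exact ⟨_, by simp, h⟩
        · exact ⟨K1 k l K, by simp only [List.mem_cons, List.mem_map]; exact Or.inr ⟨K, hK, rfl⟩, h⟩

/-- **Covering with one language less, second direction.** -/
theorem cov_step_down {s : ℕ} {cs : List (List ℕ × List ℕ)}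
    (h : Cov {K | SPol (ST (s + 1)) K} (FL (k + 1) (k + 3) (RS k c) (s + 1))
      (FL (k + 1) (k + 3) (RS2 k c₁ c₂) (s + 1) ::
        cs.map (fun c => FL (k + 1) (k + 3) (RS k c) (s + 1)))) :
    Cov {K | SPol (ST (s + 1)) K} (lang k c)
      (lang k c₁ :: lang k c₂ :: cs.map (lang k)) := by
  have hv : k + 1 ≤ k + 3 := by omega
  obtain ⟨Ks, hKs, hcov⟩ := h
  -- the tests on the contents of the blocks
  let S : Set (Set (List (Fin k))) :=
    ⋃ K ∈ {K | K ∈ Ks}, {X | ∃ p q, X = pre (fun a => [iv k (s + 1) a]) K p q}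
  have hKsP : ∀ K ∈ Ks, SPol (ST (s + 1)) K := fun K hK => by
    obtain ⟨_, _, h⟩ := forall₂_left hKs K hK
    exact h.1
  have hSf : S.Finite := (List.finite_toSet Ks).biUnion fun K hK =>
    pre_finite (FQ_SPol (QB_ST (s + 1)).fin (hKsP K hK)) _
  have hSP : S ⊆ {K | SPol (ST (s + 1)) K} := by
    intro X hX
    simp only [S, Set.mem_iUnion] at hX
    obtain ⟨K, hK, p, q, rfl⟩ := hX
    exact emb_ST _ _ (hKsP K hK) p q
  rcases cov_or (P := {K | SPol (ST (s + 1)) K}) SPol.empty (SPol_univ _)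
    (fun _ _ h h' => SPol.union _ _ h h') (fun _ K h h' => SPol_inter (QB_ST _) h K h') hSf hSP
    (lang k c) (lang k c₁ :: lang k c₂ :: cs.map (lang k)) with h | ⟨w, hw, hord⟩
  · exact h
  exfalso
  have up : ∀ w' : List (Fin k), (∀ Q ∈ S, w ∈ Q → w' ∈ Q) → ∀ K ∈ Ks, ∀ p q,
      p ++ (w.map (iv k (s + 1)) ++ q) ∈ K → p ++ (w'.map (iv k (s + 1)) ++ q) ∈ K := by
    intro w' h K hK p q hp
    have h1 := h (pre (fun a => [iv k (s + 1) a]) K p q)
      (by simp only [S, Set.mem_iUnion]; exact ⟨K, hK, p, q, rfl⟩)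
      (by change p ++ (w.flatMap _ ++ q) ∈ K; rw [map_eq_flatMap]; exact hp)
    have h2 : p ++ (w'.flatMap (fun a => [iv k (s + 1) a]) ++ q) ∈ K := h1
    rwa [map_eq_flatMap] at h2
  cases hKs with
  | @cons K'' _ Kr _ hK'' hKr =>
    obtain ⟨S₁, hS₁, hf₁, N, hN⟩ := ins_Pol (s + 1) ((ST_sub_B (s + 1)).2 K'' hK''.1)
    have hS₁B : S₁ ⊆ B (s + 1) := fun Q hQ => Pol_le (hS₁ hQ)
    obtain ⟨E, hE, hI⟩ := exists_codeB hv s hf₁ hS₁B
    have hrow : ∀ w' c', w' ∈ lang k c' → rep ((dz k (s + 1) :: E (hm k)) ++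
        w'.map (iv k (s + 1))) N ++ [dz k (s + 1)] ∈ FL (k + 1) (k + 3) (RS k c') (s + 1) := by
      intro w' c' hw'
      have h1 := (hE.mem_FL hv (RS k c') _).2 (row_mem hw' N)
      have h2 := code_block hE (hm k) w'
      rw [List.flatMap_append, rep_flatMap, h2] at h1
      obtain ⟨a', h3, h4⟩ := hE.visible (dl k) (Nat.lt_succ_self k)
      have h5 : a' = dz k (s + 1) := Fin.ext (by rw [h3]; rfl)
      rw [List.flatMap_cons, List.flatMap_nil, List.append_nil, h4, h5] at h1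
      exact h1
    obtain ⟨K, hK, hz⟩ := hcov _ (hrow w c hw)
    rcases List.mem_cons.1 hK with rfl | hKr'
    · -- insertion of the middle block
      obtain ⟨w₁, hw₁, ho₁⟩ := hord (lang k c₁) (by simp)
      obtain ⟨w₂, hw₂, ho₂⟩ := hord (lang k c₂) (by simp)
      have hord' : Ord S₁ ((dz k (s + 1) :: E (hu k)) ++ w.map (iv k (s + 1)))
          ((dz k (s + 1) :: E (hm k)) ++ w.map (iv k (s + 1))) := by
        intro Q hQ hm'
        have := hI Q hQ (hu k) (hm k) (by change k + 1 ≤ k + 1; omega)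
          (by change k + 1 ≤ k + 2; omega) [dz k (s + 1)] (w.map (iv k (s + 1)))
        have h1 : [dz k (s + 1)] ++ (E (hu k) ++ w.map (iv k (s + 1))) ∈ Q := by
          simpa using hm'
        have h2 := this.1 h1
        simpa using h2
      have h1 := hN N le_rfl _ _ (by simp) hord' [] [dz k (s + 1)] hz
      rw [List.nil_append] at h1
      have h2 := raise (up w₁ ho₁ K hK) (dz k (s + 1) :: E (hm k)) N [] _ h1
      rw [List.nil_append] at h2
      have h3 := raise (up w₂ ho₂ K hK) (dz k (s + 1) :: E (hm k)) N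
        (rep ((dz k (s + 1) :: E (hm k)) ++ w₁.map (iv k (s + 1))) N ++
          ((dz k (s + 1) :: E (hu k)) ++ w.map (iv k (s + 1)))) [dz k (s + 1)]
        (by simpa using h2)
      have h4 := (hE.mem_FL hv (RS2 k c₁ c₂) _).2 (row2_mem hw₁ hw₂ w N)
      have e1 := code_block hE (hm k) w₁
      have e2 := code_block hE (hm k) w₂
      have e3 := code_block hE (hu k) w
      rw [List.flatMap_append, List.flatMap_append, List.flatMap_append, rep_flatMap,
        rep_flatMap, e1, e2, e3] at h4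
      obtain ⟨a', h5, h6⟩ := hE.visible (dl k) (Nat.lt_succ_self k)
      have h7 : a' = dz k (s + 1) := Fin.ext (by rw [h5]; rfl)
      rw [List.flatMap_cons, List.flatMap_nil, List.append_nil, h6, h7] at h4
      exact hK''.2 _ h4 (by simpa using h3)
    · -- raising
      rw [List.forall₂_map_right_iff] at hKr
      obtain ⟨c', hc', h1⟩ := forall₂_left hKr K hKr'
      obtain ⟨w', hw', ho⟩ := hord (lang k c') (by
        simp only [List.mem_cons, List.mem_map]
        exact Or.inr (Or.inr ⟨c', hc', rfl⟩))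
      have h2 := raise (up w' ho K hK) (dz k (s + 1) :: E (hm k)) N [] [dz k (s + 1)]
        (by simpa using hz)
      exact h1.2 _ (hrow w' c' hw') (by simpa using h2)

end Pool.Agent.Helper964_DD
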