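import Pool.Agent.Helper964_DD.Hidden

/-!
# Codings which are compatible with the concatenation
-/

set_option autoImplicit false

namespace Pool.Agent.Helper964_DD

variable {α γ : Type}

/-! ### Templates -/

/-- The language `w₀ A* w₁ A* ⋯` described by a list: `some a` is the letter `a` and `none` stands
for `A*`. -/
def Tpl : List (Option α) → Set (List α)
  | [] => {[]}
  | some a :: t => cat {[a]} (Tpl t)
  | none :: t => cat Set.univ (Tpl t)

/-- Finite unions of templates. -/
inductive TU : Set (List α) → Prop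
  | empty : TU ∅
  | tpl (t : List (Option α)) : TU (Tpl t)
  | union (L K : Set (List α)) : TU L → TU K → TU (L ∪ K)

theorem Tpl_append (s t : List (Option α)) : Tpl (s ++ t) = cat (Tpl s) (Tpl t) := by
  induction s with
  | nil => simp [Tpl, one_cat]
  | cons a s ih => cases a <;> simp [Tpl, ih, cat_assoc]

theorem TU.cat {L K : Set (List α)} (h : TU L) (h' : TU K) : TU (cat L K) := by
  induction h with
  | empty => rw [empty_cat]; exact TU.empty
  | tpl s =>
    induction h' with
    | empty => rw [cat_empty]; exact TU.empty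
    | tpl t => rw [← Tpl_append]; exact TU.tpl _
    | union L' K' _ _ h1 h2 => rw [cat_union]; exact TU.union _ _ h1 h2
  | union L K _ _ h1 h2 => rw [union_cat]; exact TU.union _ _ h1 h2

theorem Tpl_word (w : List α) : Tpl (w.map some) = {w} := by
  induction w with
  | nil => rfl
  | cons a w ih =>
    rw [List.map_cons, Tpl, ih]
    ext v
    constructor
    · rintro ⟨_, rfl, _, rfl, rfl⟩
      rfl
    · rintro rfl
      exact ⟨[a], rfl, w, rfl, rfl⟩

theorem TU_finite {L : Set (List α)} (h : L.Finite) : TU L := by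
  induction L, h using Set.Finite.induction_on with
  | empty => exact TU.empty
  | @insert a s _ _ ih =>
    rw [Set.insert_eq]
    refine TU.union _ _ ?_ ih
    rw [← Tpl_word]
    exact TU.tpl _

theorem TU_univ : TU (Set.univ : Set (List α)) := by
  have : (Set.univ : Set (List α)) = Tpl [none] := by
    simp [Tpl, cat_one]
  rw [this]
  exact TU.tpl _

/-- A language which depends only on the prefixes of length `N`, for words of length at least
`N`. -/
theorem TU_prefix [Finite α] (L : Set (List α)) (N : ℕ)
    (h : ∀ w : List α, N ≤ w.length → (w ∈ L ↔ w.take N ∈ L)) : TU L := by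
  have : L = {w | w ∈ L ∧ w.length < N} ∪
      {w | ∃ v : {v : List α // v.length = N ∧ v ∈ L}, w ∈ cat {(v : List α)} Set.univ} := by
    ext w
    constructor
    · intro hw
      by_cases hlen : w.length < N
      · exact Or.inl ⟨hw, hlen⟩
      · right
        have hlen : N ≤ w.length := by omega
        exact ⟨⟨w.take N, by simp [hlen], (h w hlen).1 hw⟩, w.take N, rfl, w.drop N, trivial,
          (List.take_append_drop N w).symm⟩
    · rintro (⟨hw, _⟩ | ⟨⟨v, hv1, hv2⟩, _, rfl, w, _, rfl⟩)
      · exact hw
      · rw [h _ (by simp [hv1])]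
        simpa [← hv1] using hv2
  rw [this]
  have hfin : Finite {v : List α // v.length = N ∧ v ∈ L} :=
    Set.Finite.to_subtype ((List.finite_length_eq α N).subset fun v hv => hv.1)
  refine TU.union _ _ (TU_finite ((finite_length_lt N).subset fun w hw => hw.2)) ?_
  refine finite_union (P := {L | TU L}) TU.empty TU.union _ fun v => ?_
  exact (TU_finite (Set.finite_singleton _)).cat TU_univ

theorem TU_B0 [Finite α] {L : Set (List α)} (h : L ∈ B (α := α) 0) : TU L := by
  rcases h with h | h
  · exact TU_finite h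
  · obtain ⟨N, hN⟩ := exists_length_bound h
    refine TU_prefix L N fun w hw => ?_
    refine iff_of_true ?_ ?_
    · by_contra h'
      exact absurd (hN w h') (by omega)
    · by_contra h'
      have := hN _ h'
      simp at this
      omega

theorem TU_prodL [Finite α] (m : List (Set (List α))) (hm : ∀ K ∈ m, K ∈ B (α := α) 0) :
    TU (prodL m) := by
  induction m with
  | nil => exact TU.tpl []
  | cons K m ih =>
    exact (TU_B0 (hm K (by simp))).cat (ih fun K' h => hm K' (by simp [h]))

theorem TU_Pol [Finite α] {L : Set (List α)} (h : Pol (B (α := α) 0) L) : TU L := by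
  induction h with
  | empty => exact TU.empty
  | base L h =>
    obtain ⟨m, hm, rfl⟩ := h
    exact TU_prodL m hm
  | union L K _ _ h1 h2 => exact TU.union _ _ h1 h2

theorem Pol_of_TU {L : Set (List α)} (h : TU L) : Pol (B (α := α) 0) L := by
  induction h with
  | empty => exact Pol.empty
  | tpl t =>
    induction t with
    | nil => exact Pol_sub (single_mem 0 _)
    | cons a t ih =>
      cases a with
      | none => exact Pol_cat (Pol_sub (univ_mem 0)) ih
      | some a => exact Pol_cat (Pol_sub (single_mem 0 _)) ih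
  | union L K _ _ h1 h2 => exact Pol.union _ _ h1 h2

/-! ### Compatible codings -/

/-- The relation `R u w` (the word `w` codes the word `u`) is compatible with concatenation. -/
structure Dec (R : List α → List γ → Prop) : Prop where
  fn : ∀ u u' w, R u w → R u' w → u = u'
  mul : ∀ u u' w w', R u w → R u' w' → R (u ++ u') (w ++ w')
  lift : ∀ u u' w, R (u ++ u') w → ∃ v v', w = v ++ v' ∧ R u v ∧ R u' v'

/-- The words which code a word of `L`. -/
def sub (R : List α → List γ → Prop) (L : Set (List α)) : Set (List γ) := {w | ∃ u ∈ L, R u w}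

theorem sub_union (R : List α → List γ → Prop) (L K : Set (List α)) :
    sub R (L ∪ K) = sub R L ∪ sub R K := by
  ext w
  constructor
  · rintro ⟨u, hu | hu, h⟩
    · exact Or.inl ⟨u, hu, h⟩
    · exact Or.inr ⟨u, hu, h⟩
  · rintro (⟨u, hu, h⟩ | ⟨u, hu, h⟩)
    · exact ⟨u, Or.inl hu, h⟩
    · exact ⟨u, Or.inr hu, h⟩

theorem sub_empty (R : List α → List γ → Prop) : sub R ∅ = ∅ := by
  ext w
  simp [sub]

theorem Dec.sub_compl {R : List α → List γ → Prop} (hR : Dec R) (L : Set (List α)) :
    sub R Lᶜ = sub R Set.univ \ sub R L := by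
  ext w
  constructor
  · rintro ⟨u, hu, h⟩
    refine ⟨⟨u, trivial, h⟩, ?_⟩
    rintro ⟨u', hu', h'⟩
    exact hu (hR.fn u u' w h h' ▸ hu')
  · rintro ⟨⟨u, _, h⟩, h'⟩
    exact ⟨u, fun hu => h' ⟨u, hu, h⟩, h⟩

theorem Dec.sub_cat {R : List α → List γ → Prop} (hR : Dec R) (L K : Set (List α)) :
    sub R (cat L K) = cat (sub R L) (sub R K) := by
  ext w
  constructor
  · rintro ⟨_, ⟨u, hu, u', hu', rfl⟩, h⟩
    obtain ⟨v, v', rfl, h1, h2⟩ := hR.lift u u' w h
    exact ⟨v, ⟨u, hu, h1⟩, v', ⟨u', hu', h2⟩, rfl⟩
  · rintro ⟨v, ⟨u, hu, h1⟩, v', ⟨u', hu', h2⟩, rfl⟩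
    exact ⟨u ++ u', ⟨u, hu, u', hu', rfl⟩, hR.mul _ _ _ _ h1 h2⟩

/-- Passage to codes raises the level by `s`, if this is the case for the level one and for the
products of finite and cofinite languages. -/
theorem Dec.up {R : List α → List γ → Prop} (hR : Dec R) (s : ℕ) (hG : sub R Set.univ ∈ B (1 + s))
    (hb : ∀ K ∈ MC (B (α := α) 0), sub R K ∈ B (1 + s)) (i : ℕ) :
    (∀ K ∈ B (α := α) (1 + i), sub R K ∈ B (1 + i + s)) ∧
    (∀ K : Set (List α), Pol (B (1 + i)) K → Pol (B (1 + i + s)) (sub R K)) := by
  have step : ∀ i, (∀ K ∈ B (α := α) (1 + i), sub R K ∈ B (1 + i + s)) →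
      (∀ K : Set (List α), Pol (B (1 + i)) K → Pol (B (1 + i + s)) (sub R K)) := by
    intro i hi K hK
    induction hK with
    | empty => rw [sub_empty]; exact Pol.empty
    | base K hK =>
      obtain ⟨m, hm, rfl⟩ := hK
      induction m with
      | nil => exact Pol_sub (hi _ (single_mem _ _))
      | cons K m ih =>
        rw [prodL, hR.sub_cat]
        exact Pol_cat (Pol_sub (hi K (hm K (by simp)))) (ih fun K' h => hm K' (by simp [h]))
    | union L K _ _ h1 h2 => rw [sub_union]; exact Pol.union _ _ h1 h2
  have main : ∀ i, ∀ K ∈ B (α := α) (1 + i), sub R K ∈ B (1 + i + s) := by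
    intro i
    induction i with
    | zero =>
      have e : (1 : ℕ) + 0 = 0 + 1 := rfl
      rw [e]
      refine B_induction (i := 0) ?_ ?_ ?_
      · intro K hK
        simpa [add_comm] using hb K hK
      · intro K h
        rw [hR.sub_compl]
        exact B_sdiff (by simpa [add_comm] using hG) h
      · intro K K' h h'
        rw [sub_union]
        exact B_union h h'
    | succ i ih =>
      have hP := step i ih
      have e : 1 + (i + 1) = (1 + i) + 1 := by omega
      have e' : 1 + i + 1 + s = (1 + i + s) + 1 := by omega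
      rw [e, e']
      refine B_induction ?_ ?_ ?_
      · intro K hK
        exact Pol_le (hP K (Pol.base K hK))
      · intro K h
        rw [hR.sub_compl]
        exact B_sdiff (B_mono (by omega) hG) h
      · intro K K' h h'
        rw [sub_union]
        exact B_union h h'
  exact ⟨main i, step i (main i)⟩

/-! ### Languages given by sets of letters -/

/-- The words all of whose letters are in `D`. -/
def allIn (D : Set γ) : Set (List γ) := {w | ∀ c ∈ w, c ∈ D}

theorem allIn_mem [Finite γ] (D : Set γ) : allIn D ∈ B (α := γ) 1 := by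
  have : allIn D = ({w | ∃ c : {c : γ // c ∉ D}, w ∈ cat Set.univ (cat {[(c : γ)]} Set.univ)} :
      Set (List γ))ᶜ := by
    ext w
    simp only [allIn, Set.mem_ofPred_eq, Set.mem_compl_iff, not_exists]
    constructor
    · rintro h ⟨c, hc⟩ ⟨u, _, _, ⟨_, rfl, v, _, rfl⟩, rfl⟩
      exact hc (h c (by simp))
    · intro h c hc
      by_contra hcD
      obtain ⟨u, v, rfl⟩ := List.append_of_mem hc
      exact h ⟨c, hcD⟩ ⟨u, trivial, _, ⟨[c], rfl, v, trivial, rfl⟩, rfl⟩
  rw [this]
  apply B_compl
  refine finite_union (P := B 1) (empty_mem 1) (fun _ _ h h' => B_union h h') _ fun c => ?_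
  exact Pol_le (Pol_cat (Pol_sub (univ_mem 0))
    (Pol_cat (Pol_sub (single_mem 0 _)) (Pol_sub (univ_mem 0))))

/-- The words whose first letter exists and is in `D`. -/
def headIn (D : Set γ) : Set (List γ) := {w | ∃ c ∈ D, ∃ v, w = c :: v}

theorem headIn_mem [Finite γ] (D : Set γ) : headIn D ∈ B (α := γ) 1 := by
  have : headIn D = {w | ∃ c : {c : γ // c ∈ D}, w ∈ cat {[(c : γ)]} Set.univ} := by
    ext w
    constructor
    · rintro ⟨c, hc, v, rfl⟩
      exact ⟨⟨c, hc⟩, [c], rfl, v, trivial, rfl⟩
    · rintro ⟨⟨c, hc⟩, _, rfl, v, _, rfl⟩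
      exact ⟨c, hc, v, rfl⟩
  rw [this]
  refine finite_union (P := B 1) (empty_mem 1) (fun _ _ h h' => B_union h h') _ fun c => ?_
  exact Pol_le (Pol_cat (Pol_sub (single_mem 0 _)) (Pol_sub (univ_mem 0)))

/-- The one-letter words with the letter in `D`. -/
def oneIn (D : Set γ) : Set (List γ) := {w | ∃ c ∈ D, w = [c]}

theorem oneIn_mem [Finite γ] (D : Set γ) (i : ℕ) : oneIn D ∈ B (α := γ) i := by
  refine fin_mem i ((Set.finite_range (fun c : γ => [c])).subset ?_)
  rintro _ ⟨c, _, rfl⟩
  exact ⟨c, rfl⟩

end Pool.Agent.Helper964_DD
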