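import Mathlib

/-!
# The dot-depth hierarchy: definitions
-/

set_option autoImplicit false

namespace Pool.Agent.Helper964_DD

variable {α : Type}

/-- The concatenation `L K` of two languages. -/
def cat (L K : Set (List α)) : Set (List α) := {w | ∃ u ∈ L, ∃ v ∈ K, w = u ++ v}

/-- The concatenation `L₁ L₂ ⋯ Lₖ` of the languages of a list; it is `{ε}` for the empty list. -/
def prodL : List (Set (List α)) → Set (List α)
  | [] => {[]}
  | K :: l => cat K (prodL l)

/-- The monoid closure of a family of languages: all products `L₁ L₂ ⋯ Lₖ` of members of the
family, and `{ε}` (the product of the empty list). -/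
def MC (C : Set (Set (List α))) : Set (Set (List α)) :=
  {L | ∃ l : List (Set (List α)), (∀ K ∈ l, K ∈ C) ∧ L = prodL l}

/-- The Boolean closure of a family of languages: the smallest family which contains it and is
closed under complement, union and intersection. -/
inductive BC (C : Set (Set (List α))) : Set (List α) → Prop
  | base (L : Set (List α)) : L ∈ C → BC C L
  | compl (L : Set (List α)) : BC C L → BC C Lᶜ
  | union (L K : Set (List α)) : BC C L → BC C K → BC C (L ∪ K)
  | inter (L K : Set (List α)) : BC C L → BC C K → BC C (L ∩ K)

/-- The dot-depth hierarchy: `B 0` consists of the finite and of the cofinite languages, and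
`B (i + 1)` is the Boolean closure of the monoid closure of `B i`. -/
def B : ℕ → Set (Set (List α))
  | 0 => {L | L.Finite ∨ Lᶜ.Finite}
  | i + 1 => {L | BC (MC (B i)) L}

/-- The polynomial closure: the smallest family which contains the products of members of `C` and
is closed under finite unions. -/
inductive Pol (C : Set (Set (List α))) : Set (List α) → Prop
  | empty : Pol C ∅
  | base (L : Set (List α)) : L ∈ MC C → Pol C L
  | union (L K : Set (List α)) : Pol C L → Pol C K → Pol C (L ∪ K)

/-- The language over the alphabet `{0, …, k - 1}` of the automaton with the transition table `c.1`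
(the transition from the state `q` under the letter `a` leads to the entry `q * k + a` of the table,
and to the state `0` if there is no such entry), the initial state `0` and the list `c.2` of final
states. -/
def lang (k : ℕ) (c : List ℕ × List ℕ) : Set (List (Fin k)) :=
  {w | w.foldl (fun (q : ℕ) (a : Fin k) => c.1.getD (q * k + (a : ℕ)) 0) 0 ∈ c.2}

end Pool.Agent.Helper964_DD
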