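import Pool.Agent.Helper964_DD.Defs

/-!
# The Straubing-Thérien hierarchy: definitions
-/

set_option autoImplicit false

namespace Pool.Agent.Helper964_DD

variable {α : Type}

/-- The marked product `K a X`. -/
def mrk (K : Set (List α)) (a : α) (X : Set (List α)) : Set (List α) :=
  {w | ∃ u ∈ K, ∃ v ∈ X, w = u ++ a :: v}

/-- The smallest family which contains `C` and the empty set and is closed under unions and under
marked products with members of `C`: the finite unions of the marked products
`L₀ a₁ L₁ a₂ ⋯ aₖ Lₖ` of members of `C`. -/
inductive SPol (C : Set (Set (List α))) : Set (List α) → Prop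
  | empty : SPol C ∅
  | base (L : Set (List α)) : L ∈ C → SPol C L
  | mark (K : Set (List α)) (a : α) (X : Set (List α)) : K ∈ C → SPol C X → SPol C (mrk K a X)
  | union (L K : Set (List α)) : SPol C L → SPol C K → SPol C (L ∪ K)

/-- The hierarchy over a family `C`: the level `i + 1` is the Boolean closure of the finite unions
of marked products of languages of level `i`. -/
def Hy (C : Set (Set (List α))) : ℕ → Set (Set (List α))
  | 0 => C
  | i + 1 => {L | BC {X | SPol (Hy C i) X} L}

/-- The Straubing-Thérien hierarchy: the hierarchy over the family which consists of the empty
language and of the language of all words. -/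
def ST (i : ℕ) : Set (Set (List α)) := Hy {∅, Set.univ} i

end Pool.Agent.Helper964_DD
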