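import Pool.Agent.Helper964_DD.STlift

/-!
# Languages which are determined by finitely many tests
-/

set_option autoImplicit false

namespace Pool.Agent.Helper964_DD

variable {α : Type}

/-- The language `L` is determined by the tests in `T`. -/
def Det (T : Set (Set (List α))) (L : Set (List α)) : Prop :=
  ∀ z z', (∀ K ∈ T, (z ∈ K ↔ z' ∈ K)) → z ∈ L → z' ∈ L

theorem Det.mono {T T' : Set (Set (List α))} (h : T ⊆ T') {L : Set (List α)} (hL : Det T L) :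
    Det T' L := fun z z' h' => hL z z' fun K hK => h' K (h hK)

theorem det_BC {C : Set (Set (List α))} {L : Set (List α)} (h : BC C L) :
    ∃ T ⊆ C, T.Finite ∧ Det T L := by
  induction h with
  | base L hL =>
    exact ⟨{L}, by simpa using hL, Set.finite_singleton L, fun z z' h hz => (h L rfl).1 hz⟩
  | compl L _ ih =>
    obtain ⟨T, h1, h2, h3⟩ := ih
    exact ⟨T, h1, h2, fun z z' h hz hz' => hz (h3 z' z (fun K hK => (h K hK).symm) hz')⟩
  | union L K _ _ ih ih' =>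
    obtain ⟨T, h1, h2, h3⟩ := ih
    obtain ⟨T', h4, h5, h6⟩ := ih'
    refine ⟨T ∪ T', Set.union_subset h1 h4, h2.union h5, ?_⟩
    rintro z z' h (hz | hz)
    · exact Or.inl (h3 z z' (fun K hK => h K (Or.inl hK)) hz)
    · exact Or.inr (h6 z z' (fun K hK => h K (Or.inr hK)) hz)
  | inter L K _ _ ih ih' =>
    obtain ⟨T, h1, h2, h3⟩ := ih
    obtain ⟨T', h4, h5, h6⟩ := ih'
    refine ⟨T ∪ T', Set.union_subset h1 h4, h2.union h5, ?_⟩
    rintro z z' h ⟨hz, hz'⟩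
    exact ⟨h3 z z' (fun K hK => h K (Or.inl hK)) hz, h6 z z' (fun K hK => h K (Or.inr hK)) hz'⟩

theorem mem_of_det {P : Set (Set (List α))} (h0 : ∅ ∈ P) (hc : ∀ L ∈ P, Lᶜ ∈ P)
    (hu : ∀ L ∈ P, ∀ K ∈ P, L ∪ K ∈ P) {T : Set (Set (List α))} (hf : T.Finite) :
    T ⊆ P → ∀ L, Det T L → L ∈ P := by
  have hi : ∀ L ∈ P, ∀ K ∈ P, L ∩ K ∈ P := by
    intro L hL K hK
    have := hc _ (hu _ (hc _ hL) _ (hc _ hK))
    rwa [Set.compl_union, compl_compl, compl_compl] at this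
  induction T, hf using Set.Finite.induction_on with
  | empty =>
    intro _ L hL
    by_cases h : ∃ z, z ∈ L
    · obtain ⟨z, hz⟩ := h
      have : L = ∅ᶜ := by
        ext z'
        simp only [Set.compl_empty, Set.mem_univ, iff_true]
        exact hL z z' (fun K hK => hK.elim) hz
      rw [this]
      exact hc _ h0
    · have : L = ∅ := by
        ext z
        simp only [Set.mem_empty_iff_false, iff_false]
        exact fun hz => h ⟨z, hz⟩
      rw [this]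
      exact h0
  | @insert K T _ _ ih =>
    intro hT L hL
    have hK : K ∈ P := hT (Set.mem_insert _ _)
    have hT' : T ⊆ P := fun Q hQ => hT (Set.mem_insert_of_mem _ hQ)
    have h1 : {z | ∃ z', (z' ∈ L ∧ z' ∈ K) ∧ ∀ Q ∈ T, (z' ∈ Q ↔ z ∈ Q)} ∈ P := by
      refine ih hT' _ ?_
      rintro z z' h ⟨x, h1, h2⟩
      exact ⟨x, h1, fun Q hQ => (h2 Q hQ).trans (h Q hQ)⟩
    have h2 : {z | ∃ z', (z' ∈ L ∧ z' ∉ K) ∧ ∀ Q ∈ T, (z' ∈ Q ↔ z ∈ Q)} ∈ P := by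
      refine ih hT' _ ?_
      rintro z z' h ⟨x, h1, h2⟩
      exact ⟨x, h1, fun Q hQ => (h2 Q hQ).trans (h Q hQ)⟩
    have e : L = ({z | ∃ z', (z' ∈ L ∧ z' ∈ K) ∧ ∀ Q ∈ T, (z' ∈ Q ↔ z ∈ Q)} ∩ K) ∪
        ({z | ∃ z', (z' ∈ L ∧ z' ∉ K) ∧ ∀ Q ∈ T, (z' ∈ Q ↔ z ∈ Q)} ∩ Kᶜ) := by
      ext z
      constructor
      · intro hz
        by_cases hzK : z ∈ K
        · exact Or.inl ⟨⟨z, ⟨hz, hzK⟩, fun Q _ => Iff.rfl⟩, hzK⟩
        · exact Or.inr ⟨⟨z, ⟨hz, hzK⟩, fun Q _ => Iff.rfl⟩, hzK⟩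
      · rintro (⟨⟨x, ⟨hx, hxK⟩, h⟩, hzK⟩ | ⟨⟨x, ⟨hx, hxK⟩, h⟩, hzK⟩)
        · refine hL x z ?_ hx
          rintro Q (rfl | hQ)
          · exact iff_of_true hxK hzK
          · exact h Q hQ
        · refine hL x z ?_ hx
          rintro Q (rfl | hQ)
          · exact iff_of_false hxK hzK
          · exact h Q hQ
    rw [e]
    exact hu _ (hi _ h1 _ hK) _ (hi _ h2 _ (hc _ hK))

theorem sInter_mem {P : Set (Set (List α))} (h1 : Set.univ ∈ P)
    (hI : ∀ L ∈ P, ∀ K ∈ P, L ∩ K ∈ P) {S : Set (Set (List α))} (hf : S.Finite) :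
    S ⊆ P → ⋂₀ S ∈ P := by
  induction S, hf using Set.Finite.induction_on with
  | empty =>
    intro _
    rw [Set.sInter_empty]
    exact h1
  | @insert K T _ _ ih =>
    intro hT
    rw [Set.sInter_insert]
    exact hI _ (hT (Set.mem_insert _ _)) _ (ih fun Q hQ => hT (Set.mem_insert_of_mem _ hQ))

/-- Two sets of words which pass the same tests contain words of the same type. -/
theorem common_type {V : Set (Set (List α))} (hf : V.Finite) {J J' : List (List α)}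
    (hJ : J ≠ []) (h : ∀ S ⊆ V, ((∃ w ∈ J, w ∈ ⋂₀ S) ↔ ∃ w ∈ J', w ∈ ⋂₀ S)) :
    ∃ w ∈ J, ∃ w' ∈ J', ∀ K ∈ V, (w ∈ K ↔ w' ∈ K) := by
  classical
  obtain ⟨w, hw, hmax⟩ := Finset.exists_max_image J.toFinset
    (fun w => ({K | K ∈ V ∧ w ∈ K} : Set (Set (List α))).ncard)
    (by simpa [Finset.nonempty_iff_ne_empty] using hJ)
  have hwJ : w ∈ J := by simpa using hw
  obtain ⟨w', hw', h1⟩ := (h {K | K ∈ V ∧ w ∈ K} (fun K hK => hK.1)).1
    ⟨w, hwJ, fun K hK => hK.2⟩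
  obtain ⟨w'', hw'', h2⟩ := (h {K | K ∈ V ∧ w' ∈ K} (fun K hK => hK.1)).2
    ⟨w', hw', fun K hK => hK.2⟩
  refine ⟨w, hwJ, w', hw', fun K hK => ⟨fun hwK => h1 K ⟨hK, hwK⟩, fun hwK => ?_⟩⟩
  have h3 : ({K | K ∈ V ∧ w ∈ K} : Set (Set (List α))) ⊆ {K | K ∈ V ∧ w'' ∈ K} :=
    fun Q hQ => ⟨hQ.1, h2 Q ⟨hQ.1, h1 Q hQ⟩⟩
  have h4 := hmax w'' (by simpa using hw'')
  have h5 := Set.eq_of_subset_of_ncard_le h3 h4 (hf.subset fun Q hQ => hQ.1)
  have h6 : K ∈ ({K | K ∈ V ∧ w'' ∈ K} : Set (Set (List α))) := ⟨hK, h2 K ⟨hK, hwK⟩⟩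
  rw [← h5] at h6
  exact h6.2

/-! ### Classes -/

/-- The words which pass exactly the tests with an index in `D` (among those with an index
in `R`). -/
def Kls {ι : Type} (F : ι → Set (List α)) (R D : Set ι) : Set (List α) :=
  {x | ∀ i ∈ R, (x ∈ F i ↔ i ∈ D)}

theorem Kls_mem {C : Set (Set (List α))} (hC : QB C) {ι : Type} {F : ι → Set (List α)}
    {R : Set ι} (hf : R.Finite) (hR : ∀ i ∈ R, F i ∈ C) (D : Set ι) : Kls F R D ∈ C := by
  by_cases h : ∃ x₀, x₀ ∈ Kls F R D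
  · obtain ⟨x₀, hx₀⟩ := h
    have e : Kls F R D = {x | ∀ Q ∈ F '' R, (x ∈ Q ↔ x₀ ∈ Q)} := by
      ext x
      constructor
      · rintro hx _ ⟨i, hi, rfl⟩
        rw [hx i hi, hx₀ i hi]
      · intro hx i hi
        rw [hx _ ⟨i, hi, rfl⟩, hx₀ i hi]
    rw [e]
    refine hC.class_mem (hf.image F) ?_ x₀
    rintro _ ⟨i, hi, rfl⟩
    exact hR i hi
  · have e : Kls F R D = ∅ := by
      ext x
      simp only [Set.mem_empty_iff_false, iff_false]
      exact fun hx => h ⟨x, hx⟩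
    rw [e]
    exact hC.empty

end Pool.Agent.Helper964_DD
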