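import Pool.Agent.Helper964_DD.Stg
import Pool.Agent.Helper964_DD.CovStep

/-!
# A separator of full level gives a language of full level
-/

set_option autoImplicit false

namespace Pool.Agent.Helper964_DD

variable {D : Dt}

/-! ### Letters and stages -/

/-- The letter of an opening connector. -/
abbrev opnL (k a : ℕ) : Prop := a = k + 3 ∨ a = k + 4

/-- The letter of a closing connector. -/
abbrev clsL (k a : ℕ) : Prop := a = k + 5 ∨ a = k + 6

theorem sst_four (k a : ℕ) : sst k 4 a = 4 := by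
  unfold sst
  split_ifs
  · rfl
  · exact sstm_four _

theorem sfold_four (y : List (Fin (ml2 D))) : sfold D 4 y = 4 := by
  induction y with
  | nil => rfl
  | cons a y ih => rw [sfold_cons, sst_four, ih]

theorem sst_opn {k a : ℕ} (h : opnL k a) (σ : ℕ) (hσ : σ ≠ 0) : sst k σ a = 4 := by
  unfold sst sstm
  rw [if_neg (by omega), if_pos (by omega), if_neg hσ]

theorem sst_keep {k a : ℕ} (h : ¬ opnL k a) {σ : ℕ} (hσ : σ = 1 ∨ σ = 2 ∨ σ = 3) :
    sst k σ a = 1 ∨ sst k σ a = 2 ∨ sst k σ a = 3 := by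
  unfold sst sstm
  split_ifs <;> omega

theorem sst_zero {k a : ℕ} (h : ¬ clsL k a) : sst k 0 a = 0 := by
  unfold sst sstm
  split_ifs <;> omega

theorem sst_zero_cls {k a : ℕ} (h : clsL k a) : sst k 0 a = 1 ∨ sst k 0 a = 2 := by
  unfold sst sstm
  split_ifs <;> omega

theorem sfold_closed (y : List (Fin (ml2 D))) : ∀ σ, σ = 1 ∨ σ = 2 ∨ σ = 3 →
    (sfold D σ y = 4 ↔ ∃ a ∈ y, opnL D.1 (a : ℕ)) := by
  induction y with
  | nil =>
    intro σ hσ
    refine iff_of_false ?_ (by simp)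
    change σ ≠ 4
    omega
  | cons a y ih =>
    intro σ hσ
    rw [sfold_cons]
    by_cases h : opnL D.1 (a : ℕ)
    · rw [sst_opn h σ (by omega), sfold_four]
      exact iff_of_true rfl ⟨a, by simp, h⟩
    · rw [ih _ (sst_keep h hσ)]
      constructor
      · rintro ⟨b, hb, h'⟩
        exact ⟨b, by simp [hb], h'⟩
      · rintro ⟨b, hb, h'⟩
        rcases List.mem_cons.1 hb with rfl | hb
        · exact absurd h' h
        · exact ⟨b, hb, h'⟩

theorem sfold_zero4 (y : List (Fin (ml2 D))) : sfold D 0 y = 4 ↔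
    ∃ (u : List (Fin (ml2 D))) (a : Fin (ml2 D)) (v : List (Fin (ml2 D))), y = u ++ a :: v ∧
      clsL D.1 (a : ℕ) ∧ ∃ b ∈ v, opnL D.1 (b : ℕ) := by
  induction y with
  | nil =>
    refine iff_of_false ?_ ?_
    · change (0 : ℕ) ≠ 4
      norm_num
    · rintro ⟨u, a, v, h, _⟩
      simp at h
  | cons c y ih =>
    rw [sfold_cons]
    by_cases h : clsL D.1 (c : ℕ)
    · rw [sfold_closed y _ (by rcases sst_zero_cls h with h | h <;> omega)]
      constructor
      · exact fun h' => ⟨[], c, y, rfl, h, h'⟩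
      · rintro ⟨u, a, v, h1, _, b, hb, h2⟩
        cases u with
        | nil =>
          simp only [List.nil_append, List.cons.injEq] at h1
          exact ⟨b, by rw [h1.2]; exact hb, h2⟩
        | cons x u =>
          simp only [List.cons_append, List.cons.injEq] at h1
          exact ⟨b, by rw [h1.2]; simp [hb], h2⟩
    · rw [sst_zero h, ih]
      constructor
      · rintro ⟨u, a, v, h1, h2⟩
        exact ⟨c :: u, a, v, by rw [h1]; rfl, h2⟩
      · rintro ⟨u, a, v, h1, h2, h3⟩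
        cases u with
        | nil =>
          simp only [List.nil_append, List.cons.injEq] at h1
          rw [h1.1] at h
          exact absurd h2 h
        | cons x u =>
          simp only [List.cons_append, List.cons.injEq] at h1
          exact ⟨u, a, v, h1.2, h2, h3⟩

theorem sst_134 {k a : ℕ} {σ : ℕ} (hσ : σ = 1 ∨ σ = 3 ∨ σ = 4) :
    sst k σ a = 1 ∨ sst k σ a = 3 ∨ sst k σ a = 4 := by
  unfold sst sstm
  split_ifs <;> omega

theorem sfold_134 (y : List (Fin (ml2 D))) : ∀ σ, σ = 1 ∨ σ = 3 ∨ σ = 4 →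
    sfold D σ y = 1 ∨ sfold D σ y = 3 ∨ sfold D σ y = 4 := by
  induction y with
  | nil => exact fun σ hσ => hσ
  | cons a y ih => intro σ hσ; exact ih _ (sst_134 hσ)

/-- The stages of the words which contain the connector `5`. -/
theorem sfold_five (y : List (Fin (ml2 D))) : ∀ σ, σ < 5 → (∃ a ∈ y, (a : ℕ) = D.1 + 6) →
    sfold D σ y = 1 ∨ sfold D σ y = 3 ∨ sfold D σ y = 4 := by
  induction y with
  | nil =>
    rintro σ _ ⟨a, ha, _⟩
    cases ha
  | cons c y ih =>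
    intro σ hσ h
    rw [sfold_cons]
    by_cases hc : (c : ℕ) = D.1 + 6
    · refine sfold_134 y _ ?_
      rw [hc]
      unfold sst sstm
      split_ifs <;> omega
    · refine ih _ ?_ ?_
      · unfold sst sstm
        split_ifs <;> omega
      · obtain ⟨a, ha, h'⟩ := h
        rcases List.mem_cons.1 ha with rfl | ha
        · exact absurd h' hc
        · exact ⟨a, ha, h'⟩

/-- The words of stage 3 contain the connector `5`. -/
theorem five_of_three (y : List (Fin (ml2 D))) : ∀ σ, σ = 0 ∨ σ = 2 ∨ σ = 4 →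
    sfold D σ y = 3 → ∃ a ∈ y, (a : ℕ) = D.1 + 6 := by
  induction y with
  | nil =>
    intro σ hσ h
    change σ = 3 at h
    omega
  | cons c y ih =>
    intro σ hσ h
    rw [sfold_cons] at h
    by_cases hc : (c : ℕ) = D.1 + 6
    · exact ⟨c, by simp, hc⟩
    · have h1 : sst D.1 σ (c : ℕ) = 0 ∨ sst D.1 σ (c : ℕ) = 2 ∨ sst D.1 σ (c : ℕ) = 4 := by
        unfold sst sstm
        split_ifs <;> omega
      obtain ⟨a, ha, h'⟩ := ih _ h1 h
      exact ⟨a, by simp [ha], h'⟩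

/-- The words which contain the connector `5`. -/
def X5 (D : Dt) : Set (List (Fin (ml2 D))) := {y | ∃ a ∈ y, (a : ℕ) = D.1 + 6}

/-- The words of stage 4. -/
def X4 (D : Dt) : Set (List (Fin (ml2 D))) := {y | sfold D 0 y = 4}

theorem X5_Pol : Pol (B 0) (X5 D) := by
  have huniv : Pol (B 0) (Set.univ : Set (List (Fin (ml2 D)))) := Pol_sub (univ_mem 0)
  have e : X5 D = {y | ∃ a : {a : Fin (ml2 D) // (a : ℕ) = D.1 + 6},
      y ∈ cat Set.univ (cat {[(a : Fin (ml2 D))]} Set.univ)} := by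
    ext y
    constructor
    · rintro ⟨a, ha, h⟩
      obtain ⟨u, v, rfl⟩ := List.append_of_mem ha
      exact ⟨⟨a, h⟩, u, trivial, _, ⟨_, rfl, v, trivial, rfl⟩, rfl⟩
    · rintro ⟨⟨a, h⟩, u, _, _, ⟨_, rfl, v, _, rfl⟩, rfl⟩
      exact ⟨a, by simp, h⟩
  rw [e]
  exact finite_union (P := {L | Pol (B 0) L}) Pol.empty (fun _ _ h h' => Pol.union _ _ h h') _
    fun a => Pol_cat huniv (Pol_cat (Pol_sub (single_mem 0 _)) huniv)

theorem X4_Pol : Pol (B 0) (X4 D) := by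
  have huniv : Pol (B 0) (Set.univ : Set (List (Fin (ml2 D)))) := Pol_sub (univ_mem 0)
  have e : X4 D = {y | ∃ p : {p : Fin (ml2 D) × Fin (ml2 D) //
      clsL D.1 (p.1 : ℕ) ∧ opnL D.1 (p.2 : ℕ)},
      y ∈ cat Set.univ (cat {[p.1.1]} (cat Set.univ (cat {[p.1.2]} Set.univ)))} := by
    ext y
    change sfold D 0 y = 4 ↔ _
    rw [sfold_zero4]
    constructor
    · rintro ⟨u, a, v, rfl, ha, b, hb, hb'⟩
      obtain ⟨v₁, v₂, rfl⟩ := List.append_of_mem hb
      exact ⟨⟨(a, b), ha, hb'⟩, u, trivial, _, ⟨_, rfl, _, ⟨v₁, trivial, _,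
        ⟨_, rfl, v₂, trivial, rfl⟩, rfl⟩, rfl⟩, rfl⟩
    · rintro ⟨⟨⟨a, b⟩, ha, hb⟩, u, _, _, ⟨_, rfl, _, ⟨v₁, _, _, ⟨_, rfl, v₂, _, rfl⟩, rfl⟩,
        rfl⟩, rfl⟩
      exact ⟨u, a, _, rfl, ha, b, by simp, hb⟩
  rw [e]
  exact finite_union (P := {L | Pol (B 0) L}) Pol.empty (fun _ _ h h' => Pol.union _ _ h h') _
    fun a => Pol_cat huniv (Pol_cat (Pol_sub (single_mem 0 _)) (Pol_cat huniv
      (Pol_cat (Pol_sub (single_mem 0 _)) huniv)))

theorem le_ml2 (D : Dt) : D.1 + 1 ≤ ml2 D := by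
  unfold ml2
  omega

theorem FL_iff {v m : ℕ} (hv : v ≤ m) {t : ℕ} {z : List (Fin (al m t))}
    (hz : z ∈ FL v m Set.univ t) (X : Set (List (Fin m))) :
    z ∈ FL v m X t ↔ idec v m t z ∈ X := by
  obtain ⟨y, _, hy⟩ := FL_decode hv t z hz
  have h1 : z ∈ FL v m {y} t := (hy {y}).2 rfl
  have h2 : idec v m t z = y := FL_idec v m {y} t z h1
  rw [hy X, h2]

theorem sfold_full {l : List (ℕ × List (Fin D.1))} (hl : Cn D l) :
    sfold D 0 (mk2 D :: rt D l) = sm 0 l := by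
  rw [sfold_cons, sst_mk, sfold_rt l hl]

/-- The indices of the tests which are passed by a segment. -/
def cW {β : Type} (Q : List (ℕ × List β)) : Set (Set (List β)) :=
  {W | ∃ w ∈ Q.map Prod.snd, w ∈ W}

theorem seg_Kls {t : ℕ} {WW : Set (Set (List (Fin D.1)))} {f : List (Fin (al (ml2 D) t))}
    {l : List (ℕ × List (Fin D.1))} (hl : Cn D l)
    (hf : mk2 D :: (idec (D.1 + 1) (ml2 D) t f ++ [mk2 D]) = mk2 D :: rt D l) :
    f ∈ Kls (tW D.1 (al (ml2 D) t)) WW (cW l) := fun _ _ => mem_tW hl hf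

theorem Kls_seg {t : ℕ} {WW : Set (Set (List (Fin D.1)))} {f : List (Fin (al (ml2 D) t))}
    {l : List (ℕ × List (Fin D.1))} (hl : Cn D l)
    (hf : mk2 D :: (idec (D.1 + 1) (ml2 D) t f ++ [mk2 D]) = mk2 D :: rt D l)
    {E : Set (Set (List (Fin D.1)))} (h : f ∈ Kls (tW D.1 (al (ml2 D) t)) WW E) :
    ∀ W ∈ WW, (W ∈ cW l ↔ W ∈ E) := by
  intro W hW
  rw [← h W hW]
  exact (mem_tW hl hf).symm

/-- The comparison of the centers. -/
theorem center_le {t μ ν : ℕ} (hμ : μ < 3 * sz D) (hν : ν < 3 * sz D)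
    (hμo : μ = 2 ∨ μ = 3) (hνc : ν = 4 ∨ ν = 5)
    {WW : Set (Set (List (Fin D.1)))} {z : List (Fin (al (ml2 D) t))}
    {E : Set (Set (List (Fin D.1)))}
    (hz : z ∈ AD D t μ ν (Kls (tW D.1 (al (ml2 D) t)) WW E))
    {P Q R : List (ℕ × List (Fin D.1))} {o c : ℕ × List (Fin D.1)}
    (hl : Cn D (P ++ ((o :: Q) ++ (c :: R))))
    (h : idec (D.1 + 1) (ml2 D) t z = mk2 D :: rt D (P ++ ((o :: Q) ++ (c :: R))))
    (h1 : ∀ b ∈ Q ++ (c :: R), ¬ opn b) (h2 : ∀ b ∈ P ++ (o :: Q), ¬ cls b) :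
    ∀ W ∈ WW, W ∈ cW (o :: Q) → W ∈ E := by
  intro W hW hWQ
  obtain ⟨l₁, w, J, w', l₂, h3, f, hf, h4⟩ := seg_of_AD hμ hν hl h hz
  have h5 := seg_sub h3 h1 h2 (o' := (μ, w)) (c' := (ν, w')) hμo hνc
  rw [← Kls_seg (by rw [h3] at hl; exact hl.right.left) h4 hf W hW]
  obtain ⟨x, hx, hxW⟩ := hWQ
  obtain ⟨b, hb, rfl⟩ := List.mem_map.1 hx
  exact ⟨b.2, List.mem_map.2 ⟨b, h5 b hb, rfl⟩, hxW⟩

theorem easyF (hs : sz D = 2) (t : ℕ) {K : Set (List (Fin D.1))} (hK : K ∈ ST (t + 2))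
    (h1 : lngs D 0 ⊆ K) (h2 : ∀ x ∈ lngs D 1, x ∉ K) :
    FL (D.1 + 1) (ml2 D) (f2 D) (t + 2) ∈ B (t + 3) := by
  have hv := le_ml2 D
  have hm : 2 < 3 * sz D := by omega
  obtain ⟨VV, hV, hVf, hdet⟩ := det_BC (C := {X | SPol (ST (t + 1)) X}) hK
  let WW : Set (Set (List (Fin D.1))) := {W | ∃ S ⊆ VV, W = ⋂₀ S}
  have hWf : WW.Finite := by
    refine (hVf.finite_subsets.image fun S => ⋂₀ S).subset ?_
    rintro _ ⟨S, hS, rfl⟩
    exact ⟨S, hS, rfl⟩
  have hWP : ∀ W ∈ WW, SPol (ST (t + 1)) W := by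
    rintro _ ⟨S, hS, rfl⟩
    exact sInter_mem (P := {X | SPol (ST (t + 1)) X}) (SPol_univ _)
      (fun L hL K hK => SPol_inter (QB_ST _) hL K hK) (hVf.subset hS) (hS.trans hV)
  let X : Set (Set (List (Fin D.1))) → Set (List (Fin (al (ml2 D) (t + 2)))) :=
    fun E => Kls (tW D.1 (al (ml2 D) (t + 2))) WW E
  have hX : ∀ E, SPol (ST (t + 2)) (X E) := fun E => SPol.base _ (Kls_mem (QB_ST _) hWf
    (fun W hW => BC.base _ (tW_ST (hv.trans (le_al _ _)) (by omega) (hWP W hW))) E)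
  have hAD : ∀ μ ν E, AD D (t + 2) μ ν (X E) ∈ B (t + 3) := fun μ ν E =>
    Pol_le ((ST_sub_B (t + 2)).2 _ (AD_ST (by omega) μ ν (hX E)))
  -- only the intersection with the index set matters
  have hXE : ∀ E, X E = X (E ∩ WW) := by
    intro E
    ext f
    refine forall₂_congr fun W hW => ?_
    simp [hW]
  let TT : Set (Set (List (Fin (al (ml2 D) (t + 2))))) :=
    {FL (D.1 + 1) (ml2 D) Set.univ (t + 2), FL (D.1 + 1) (ml2 D) (ill2 D 2) (t + 2),
      FL (D.1 + 1) (ml2 D) (X4 D) (t + 2), FL (D.1 + 1) (ml2 D) (X5 D) (t + 2)} ∪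
    ({A | ∃ E ⊆ WW, A = AD D (t + 2) 2 5 (X E)} ∪ {A | ∃ E ⊆ WW, A = AD D (t + 2) 3 4 (X E)})
  have hTf : TT.Finite := by
    refine Set.Finite.union (by simp) (Set.Finite.union ?_ ?_)
    · refine (hWf.finite_subsets.image fun E => AD D (t + 2) 2 5 (X E)).subset ?_
      rintro _ ⟨E, hE, rfl⟩
      exact ⟨E, hE, rfl⟩
    · refine (hWf.finite_subsets.image fun E => AD D (t + 2) 3 4 (X E)).subset ?_
      rintro _ ⟨E, hE, rfl⟩
      exact ⟨E, hE, rfl⟩
  have hTB : TT ⊆ B (t + 3) := by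
    rintro A ((rfl | rfl | rfl | rfl) | (⟨E, _, rfl⟩ | ⟨E, _, rfl⟩))
    · have := FL_univ_mem (D.1 + 1) (ml2 D) (t + 1)
      exact B_mono (by omega) this
    · have := FL_B1 (D.1 + 1) (ill2_B1 hm) (t + 2)
      exact B_mono (by omega) this
    · exact Pol_le (FL_Pol (D.1 + 1) X4_Pol (t + 2))
    · exact Pol_le (FL_Pol (D.1 + 1) X5_Pol (t + 2))
    · exact hAD 2 5 E
    · exact hAD 3 4 E
  refine mem_of_det (empty_mem _) (fun L h => B_compl h) (fun L h K h' => B_union h h') hTf hTB _ ?_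
  intro z z' hag hz
  by_contra hz'
  have hzu := FL_mono (Set.subset_univ (f2 D)) (t + 2) hz
  have hzu' : z' ∈ FL (D.1 + 1) (ml2 D) Set.univ (t + 2) := (hag _ (by simp [TT])).1 hzu
  have hiff := fun X => FL_iff hv hzu X
  have hiff' := fun X => FL_iff hv hzu' X
  rw [hiff] at hz
  rw [hiff'] at hz'
  have hz3 : (lfold D 2 (0, 0) (idec (D.1 + 1) (ml2 D) (t + 2) z')).2 = 4 ∧
      sfold D 0 (idec (D.1 + 1) (ml2 D) (t + 2) z') = 3 := not_not.1 hz'
  have hill : idec (D.1 + 1) (ml2 D) (t + 2) z ∉ ill2 D 2 := by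
    intro h
    have h3 := (hag (FL (D.1 + 1) (ml2 D) (ill2 D 2) (t + 2)) (by simp [TT])).1 ((hiff _).2 h)
    rw [hiff'] at h3
    exact h3 hz3.1
  have hwf : (lfold D 2 (0, 0) (idec (D.1 + 1) (ml2 D) (t + 2) z)).2 = 4 := not_not.1 hill
  have h4 : sfold D 0 (idec (D.1 + 1) (ml2 D) (t + 2) z) ≠ 4 := by
    intro h
    have h3 := (hag (FL (D.1 + 1) (ml2 D) (X4 D) (t + 2)) (by simp [TT])).1 ((hiff _).2 h)
    rw [hiff'] at h3
    have h5 : sfold D 0 (idec (D.1 + 1) (ml2 D) (t + 2) z') = 4 := h3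
    omega
  have h3 : sfold D 0 (idec (D.1 + 1) (ml2 D) (t + 2) z) ≠ 3 := fun h => hz ⟨hwf, h⟩
  have h5 : idec (D.1 + 1) (ml2 D) (t + 2) z ∈ X5 D := by
    rw [← hiff]
    refine (hag (FL (D.1 + 1) (ml2 D) (X5 D) (t + 2)) (by simp [TT])).2 ?_
    rw [hiff']
    exact five_of_three _ 0 (Or.inl rfl) hz3.2
  have hone : sfold D 0 (idec (D.1 + 1) (ml2 D) (t + 2) z) = 1 := by
    have := sfold_five _ 0 (by norm_num) h5
    omega
  obtain ⟨w, l, h6, h7, h8⟩ := well_formed2 hm hwf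
  obtain ⟨w', l', h6', h7', h8'⟩ := well_formed2 hm hz3.1
  have hmod : 2 % sz D = 0 := by rw [hs]
  rw [hmod] at h7 h7'
  have hc : Cn D ((2, w) :: l) := by
    intro b hb
    rcases List.mem_cons.1 hb with rfl | hb
    · exact hm
    · exact BsOk_Cn h8 b hb
  have hc' : Cn D ((2, w') :: l') := by
    intro b hb
    rcases List.mem_cons.1 hb with rfl | hb
    · exact hm
    · exact BsOk_Cn h8' b hb
  rw [h6, sfold_full hc] at hone
  have hthree := hz3.2
  rw [h6', sfold_full hc'] at hthree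
  obtain ⟨P, o, Q, c, R, h9, h10, h11, h12, h13⟩ := center hs h7 h8 (Or.inl hone)
  obtain ⟨P', o', Q', c', R', h9', h10', h11', h12', h13'⟩ := center hs h7' h8' (Or.inr hthree)
  have ho : o.1 = 2 ∧ c.1 = 5 := by
    rcases h13 with h | h
    · exact h.2
    · omega
  have ho' : o'.1 = 3 ∧ c'.1 = 4 := by
    rcases h13' with h | h
    · omega
    · exact h.2
  rw [h9] at hc
  rw [h9'] at hc'
  have hseg : z ∈ AD D (t + 2) 2 5 (X (cW (o :: Q))) := by
    have e : ((2, o.2) : ℕ × List (Fin D.1)) = o := by rw [← ho.1]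
    refine AD_of_seg (l₁ := P) (J := Q) (l₂ := R) (w := o.2) (w' := c.2) hm (by omega) ?_ ?_
    · have e' : ((5, c.2) : ℕ × List (Fin D.1)) = c := by rw [← ho.2]
      rw [h6, h9, e, e']
    · intro f hf
      rw [e] at hf
      exact seg_Kls hc.right.left hf
  have hseg' : z' ∈ AD D (t + 2) 3 4 (X (cW (o' :: Q'))) := by
    have e : ((3, o'.2) : ℕ × List (Fin D.1)) = o' := by rw [← ho'.1]
    refine AD_of_seg (l₁ := P') (J := Q') (l₂ := R') (w := o'.2) (w' := c'.2) (by omega)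
      (by omega) ?_ ?_
    · have e' : ((4, c'.2) : ℕ × List (Fin D.1)) = c' := by rw [← ho'.2]
      rw [h6', h9', e, e']
    · intro f hf
      rw [e] at hf
      exact seg_Kls hc'.right.left hf
  have hle : ∀ W ∈ WW, W ∈ cW (o' :: Q') → W ∈ cW (o :: Q) := by
    have h20 : z' ∈ AD D (t + 2) 2 5 (X (cW (o :: Q))) := by
      refine (hag _ ?_).1 hseg
      rw [hXE]
      exact Or.inr (Or.inl ⟨_, Set.inter_subset_right, rfl⟩)
    exact center_le hm (by omega) (Or.inl rfl) (Or.inr rfl) h20 hc' (by rw [h6', h9'])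
      h10' h11'
  have hle' : ∀ W ∈ WW, W ∈ cW (o :: Q) → W ∈ cW (o' :: Q') := by
    have h20 : z ∈ AD D (t + 2) 3 4 (X (cW (o' :: Q'))) := by
      refine (hag _ ?_).2 hseg'
      rw [hXE]
      exact Or.inr (Or.inr ⟨_, Set.inter_subset_right, rfl⟩)
    exact center_le (by omega) (by omega) (Or.inr rfl) (Or.inl rfl) h20 hc (by rw [h6, h9])
      h10 h11
  obtain ⟨x, hx, x', hx', hxx⟩ := common_type hVf (J := (o :: Q).map Prod.snd)
    (J' := (o' :: Q').map Prod.snd) (by simp)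
    (fun S hS => ⟨fun h => hle' _ ⟨S, hS, rfl⟩ h, fun h => hle _ ⟨S, hS, rfl⟩ h⟩)
  obtain ⟨b, hb, rfl⟩ := List.mem_map.1 hx
  obtain ⟨b', hb', rfl⟩ := List.mem_map.1 hx'
  have h14 := h12 b hb
  have h14' := h12' b' hb'
  rw [ho.1] at h14
  rw [ho'.1] at h14'
  exact h2 _ h14' (hdet _ _ hxx (h1 h14))

end Pool.Agent.Helper964_DD
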