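import Pool.Agent.Helper964_DD.Path
import Pool.Agent.Helper964_DD.BlkAut
import Pool.Agent.Helper964_DD.CovAut

/-!
# The reduction of separation for a full level to membership in the next level
-/

set_option autoImplicit false

namespace Pool.Agent.Helper964_DD

/-- The automaton of the language `f2`. -/
def f2A (D : Dt) : List ℕ × List ℕ :=
  prodA D 2 (sst D.1) (fun p σ => !(decide (p = 4) && decide (σ = 3)))

theorem sst_lt (k σ a : ℕ) (hσ : σ < 8) : sst k σ a < 8 := by
  unfold sst sstm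
  split_ifs <;> omega

theorem lang_f2A (D : Dt) : lang (ml2 D) (f2A D) = f2 D := by
  have := sz_ge D
  rw [f2A, lang_prodA D (by omega) (fun σ a h => sst_lt D.1 σ a h)]
  ext w
  simp only [Set.mem_ofPred_eq, Bool.not_eq_true', Bool.and_eq_false_iff, decide_eq_false_iff_not]
  change _ ↔ ¬ ((lfold D 2 (0, 0) w).2 = 4 ∧ gfd (sst D.1) 0 w = 3)
  rw [not_and_or]

theorem primrec_f2A {σ : Type} [Primcodable σ] {D : σ → Dt} (hD : Primrec D) :
    Primrec fun c => f2A (D c) := by
  refine primrec_prodA hD (Primrec.const 2) ?_ ?_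
  · have pk : Primrec fun x : σ × ℕ × ℕ => (D x.1).1 := Primrec.fst.comp (hD.comp Primrec.fst)
    have ps : Primrec fun x : σ × ℕ × ℕ => x.2.1 := Primrec.fst.comp Primrec.snd
    have pa : Primrec fun x : σ × ℕ × ℕ => x.2.2 := Primrec.snd.comp Primrec.snd
    have pμ : Primrec fun x : σ × ℕ × ℕ => x.2.2 - ((D x.1).1 + 1) :=
      Primrec.nat_sub.comp pa (Primrec.succ.comp pk)
    have hμ : ∀ i : ℕ, PrimrecPred fun x : σ × ℕ × ℕ => x.2.2 - ((D x.1).1 + 1) = i :=
      fun i => Primrec.eq.comp pμ (Primrec.const i)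
    have hσ : ∀ i : ℕ, PrimrecPred fun x : σ × ℕ × ℕ => x.2.1 = i :=
      fun i => Primrec.eq.comp ps (Primrec.const i)
    unfold sst sstm
    refine Primrec.ite (Primrec.nat_le.comp pa pk) ps ?_
    refine Primrec.ite ((hμ 2).or (hμ 3)) (Primrec.ite (hσ 0) (Primrec.const 0)
      (Primrec.const 4)) ?_
    refine Primrec.ite (hμ 4) (Primrec.ite (hσ 0) (Primrec.const 2) ps) ?_
    exact Primrec.ite (hμ 5) (Primrec.ite (hσ 0) (Primrec.const 1)
      (Primrec.ite (hσ 2) (Primrec.const 3) ps)) ps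
  · have h1 : Primrec fun x : ℕ × ℕ => decide (x.1 = 4) :=
      (Primrec.eq.comp Primrec.fst (Primrec.const 4)).decide
    have h2 : Primrec fun x : ℕ × ℕ => decide (x.2 = 3) :=
      (Primrec.eq.comp Primrec.snd (Primrec.const 3)).decide
    exact Primrec.not.comp (Primrec.and.comp h1 h2)

/-- The data for the separation of two languages. -/
def sDt (x : ℕ × (List ℕ × List ℕ) × (List ℕ × List ℕ)) : Dt := (x.1, [x.2.1, x.2.2])

theorem primrec_sDt : Primrec sDt :=
  Primrec.pair Primrec.fst (Primrec.list_cons.comp (Primrec.fst.comp Primrec.snd)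
    (Primrec.list_cons.comp (Primrec.snd.comp Primrec.snd) (Primrec.const [])))

/-- The reduction of full separation to membership. -/
def fred (n d t : ℕ) (x : ℕ × (List ℕ × List ℕ) × (List ℕ × List ℕ)) : List ℕ × List ℕ :=
  red n d (al (ml2 (sDt x)) (t + 2), hcd (x.1 + 1) (ml2 (sDt x)) (f2A (sDt x)) (t + 2))

theorem primrec_fred (n d t : ℕ) : Primrec (fred n d t) :=
  (primrec_red n d).comp (Primrec.pair (primrec_al' (primrec_ml2 primrec_sDt) (t + 2))
    (primrec_hcd (Primrec.succ.comp Primrec.fst) (primrec_ml2 primrec_sDt)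
      (primrec_f2A primrec_sDt) (t + 2)))

theorem fred_iff (n d : ℕ) (hn : 2 ≤ n) (t k : ℕ) (c₁ c₂ : List ℕ × List ℕ) :
    (∃ K ∈ ST (α := Fin k) (t + 2), lang k c₁ ⊆ K ∧ Disjoint K (lang k c₂)) ↔
      lang n (fred n d t (k, c₁, c₂)) ∈ B (t + 3 + d) := by
  have hs : sz (sDt (k, c₁, c₂)) = 2 := rfl
  have h1 := fullsep_iff hs t
  have h2 := red_iff n d hn (al (ml2 (sDt (k, c₁, c₂))) (t + 2),
    hcd (k + 1) (ml2 (sDt (k, c₁, c₂))) (f2A (sDt (k, c₁, c₂))) (t + 2)) (t + 2)
  simp only [] at h2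
  rw [lang_hcd, lang_f2A] at h2
  rw [show 1 + (t + 2) = t + 3 by omega] at h2
  have h3 : (∃ K ∈ ST (α := Fin k) (t + 2), lang k c₁ ⊆ K ∧ Disjoint K (lang k c₂)) ↔
      ∃ K ∈ ST (α := Fin k) (t + 2), lang k c₁ ⊆ K ∧ ∀ x ∈ lang k c₂, x ∉ K := by
    refine exists_congr fun K => and_congr_right fun _ => and_congr_right fun _ => ?_
    exact Set.disjoint_right
  rw [h3]
  exact h1.trans h2

end Pool.Agent.Helper964_DD
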