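import Pool.Agent.Helper964_DD.Decode

/-!
# The coding which hides letters
-/

set_option autoImplicit false

namespace Pool.Agent.Helper964_DD

variable {α γ : Type}

/-- The classes of the letters of the coded words: a visible letter, a hidden letter, the sharp
and the padding letter. -/
inductive Cl (α : Type) : Type
  | vis : α → Cl α
  | hid : α → Cl α
  | sh : Cl α
  | pad : Cl α

/-- The letters which start a block. -/
def Cl.start {α : Type} : Cl α → Prop
  | .vis _ => True
  | .hid _ => False
  | .sh => True
  | .pad => False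

/-- The decoded word: visible letters, and the hidden letters which are the first one after a
sharp (the Boolean is true if the machine waits for a hidden letter). -/
def gdec (cl : γ → Cl α) : Bool → List γ → List α
  | _, [] => []
  | b, c :: w =>
    match cl c with
    | .vis a => a :: gdec cl false w
    | .hid a => if b then a :: gdec cl false w else gdec cl false w
    | .sh => gdec cl true w
    | .pad => gdec cl b w

/-- The empty word and the words whose first letter starts a block. -/
def good (cl : γ → Cl α) : Set (List γ) := {w | ∀ c v, w = c :: v → (cl c).start}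

/-- The relation `w` codes `u`. -/
def HR (cl : γ → Cl α) (u : List α) (w : List γ) : Prop := w ∈ good cl ∧ gdec cl false w = u

theorem gdec_good (cl : γ → Cl α) {w : List γ} (hw : w ∈ good cl) (b b' : Bool) :
    gdec cl b w = gdec cl b' w := by
  cases w with
  | nil => rfl
  | cons c w =>
    have := hw c w rfl
    rw [gdec, gdec]
    cases h : cl c with
    | vis a => rfl
    | hid a => rw [h] at this; exact this.elim
    | sh => rfl
    | pad => rw [h] at this; exact this.elim

theorem gdec_append (cl : γ → Cl α) {w' : List γ} (hw' : w' ∈ good cl) :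
    ∀ (w : List γ) (b : Bool), gdec cl b (w ++ w') = gdec cl b w ++ gdec cl false w' := by
  intro w
  induction w with
  | nil => intro b; exact gdec_good cl hw' b false
  | cons c w ih =>
    intro b
    rw [List.cons_append, gdec, gdec]
    cases h : cl c with
    | vis a => simp [ih]
    | hid a => cases b <;> simp [ih]
    | sh => simp [ih]
    | pad => simp [ih]

theorem nil_good (cl : γ → Cl α) : [] ∈ good cl := by
  intro c v h
  cases h

theorem good_append (cl : γ → Cl α) {w w' : List γ} (hw : w ∈ good cl) (hw' : w' ∈ good cl) :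
    w ++ w' ∈ good cl := by
  cases w with
  | nil => exact hw'
  | cons c w =>
    intro d v h
    simp only [List.cons_append, List.cons.injEq] at h
    rw [← h.1]
    exact hw c w rfl

theorem idle_split (cl : γ → Cl α) : ∀ w : List γ, ∃ w₁ w₂, w = w₁ ++ w₂ ∧ w₂ ∈ good cl ∧
    gdec cl false w₁ = [] ∧ gdec cl false w₂ = gdec cl false w := by
  intro w
  induction w with
  | nil => exact ⟨[], [], rfl, nil_good cl, rfl, rfl⟩
  | cons c w ih =>
    obtain ⟨w₁, w₂, rfl, h2, h3, h4⟩ := ih
    cases h : cl c with
    | vis a =>
      refine ⟨[], _, rfl, ?_, rfl, rfl⟩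
      intro d v hd
      simp only [List.cons.injEq] at hd
      rw [← hd.1, h]
      trivial
    | hid a =>
      refine ⟨c :: w₁, w₂, rfl, h2, ?_, ?_⟩
      · simpa [gdec, h] using h3
      · rw [h4, gdec, h]
        simp
    | sh =>
      refine ⟨[], _, rfl, ?_, rfl, rfl⟩
      intro d v hd
      simp only [List.cons.injEq] at hd
      rw [← hd.1, h]
      trivial
    | pad =>
      refine ⟨c :: w₁, w₂, rfl, h2, ?_, ?_⟩
      · simpa [gdec, h] using h3
      · rw [h4, gdec, h]

theorem cut_split (cl : γ → Cl α) : ∀ (w : List γ) (b : Bool) (a : α) (u u' : List α),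
    gdec cl b w = a :: u ++ u' → ∃ w₁ w₂, w = w₁ ++ w₂ ∧ w₂ ∈ good cl ∧
      gdec cl b w₁ = a :: u ∧ gdec cl false w₂ = u' := by
  intro w
  induction w with
  | nil => intro b a u u' h; cases h
  | cons c w ih =>
    intro b a u u' h
    have out : ∀ a' : α, a' :: gdec cl false w = a :: u ++ u' →
        ∃ w₁ w₂, w = w₁ ++ w₂ ∧ w₂ ∈ good cl ∧ a' :: gdec cl false w₁ = a :: u ∧
          gdec cl false w₂ = u' := by
      intro a' h'
      simp only [List.cons_append, List.cons.injEq] at h'
      obtain ⟨rfl, h'⟩ := h'
      cases u with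
      | nil =>
        obtain ⟨w₁, w₂, rfl, h2, h3, h4⟩ := idle_split cl w
        exact ⟨w₁, w₂, rfl, h2, by rw [h3], by rw [h4, h']; rfl⟩
      | cons a u =>
        obtain ⟨w₁, w₂, rfl, h2, h3, h4⟩ := ih false a u u' h'
        exact ⟨w₁, w₂, rfl, h2, by rw [h3], h4⟩
    rw [gdec] at h
    cases hc : cl c with
    | vis a' =>
      rw [hc] at h
      obtain ⟨w₁, w₂, rfl, h2, h3, h4⟩ := out a' h
      exact ⟨c :: w₁, w₂, rfl, h2, by rw [gdec, hc]; exact h3, h4⟩
    | hid a' =>
      rw [hc] at h
      cases b with
      | true =>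
        obtain ⟨w₁, w₂, rfl, h2, h3, h4⟩ := out a' (by simpa using h)
        exact ⟨c :: w₁, w₂, rfl, h2, by rw [gdec, hc]; simpa using h3, h4⟩
      | false =>
        obtain ⟨w₁, w₂, rfl, h2, h3, h4⟩ := ih false a u u' (by simpa using h)
        exact ⟨c :: w₁, w₂, rfl, h2, by rw [gdec, hc]; simpa using h3, h4⟩
    | sh =>
      rw [hc] at h
      obtain ⟨w₁, w₂, rfl, h2, h3, h4⟩ := ih true a u u' h
      exact ⟨c :: w₁, w₂, rfl, h2, by rw [gdec, hc]; exact h3, h4⟩
    | pad =>
      rw [hc] at h
      obtain ⟨w₁, w₂, rfl, h2, h3, h4⟩ := ih b a u u' h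
      exact ⟨c :: w₁, w₂, rfl, h2, by rw [gdec, hc]; exact h3, h4⟩

theorem good_prefix (cl : γ → Cl α) {w w' : List γ} (h : w ++ w' ∈ good cl) : w ∈ good cl := by
  intro c v hc
  subst hc
  exact h c (v ++ w') rfl

theorem dec_HR (cl : γ → Cl α) : Dec (HR cl) where
  fn u u' w h h' := h.2.symm.trans h'.2
  mul u u' w w' h h' := by
    refine ⟨good_append cl h.1 h'.1, ?_⟩
    rw [gdec_append cl h'.1, h.2, h'.2]
  lift u u' w h := by
    cases u with
    | nil => exact ⟨[], w, rfl, ⟨nil_good cl, rfl⟩, h⟩
    | cons a u =>
      obtain ⟨w₁, w₂, rfl, h2, h3, h4⟩ := cut_split cl w false a u u' h.2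
      exact ⟨w₁, w₂, rfl, ⟨good_prefix cl h.1, h3⟩, h2, h4⟩

/-! ### Levels of the sets of coded words -/

theorem good_mem [Finite γ] (cl : γ → Cl α) : good cl ∈ B (α := γ) 1 := by
  have : good cl = (headIn {c | ¬ (cl c).start})ᶜ := by
    ext w
    constructor
    · rintro h ⟨c, hc, v, rfl⟩
      exact hc (h c v rfl)
    · intro h c v hw
      by_contra hc
      exact h ⟨c, hc, v, hw⟩
  rw [this]
  exact B_compl (headIn_mem _)

theorem sub_HR_univ (cl : γ → Cl α) : sub (HR cl) Set.univ = good cl := by
  ext w
  constructor
  · rintro ⟨u, _, h⟩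
    exact h.1
  · intro h
    exact ⟨gdec cl false w, trivial, h, rfl⟩

/-- The good words which code the empty word. -/
def ZZ (cl : γ → Cl α) : Set (List γ) := allIn {c | cl c = .sh ∨ cl c = .pad} ∩ good cl

theorem ZZ_mem [Finite γ] (cl : γ → Cl α) : ZZ cl ∈ B (α := γ) 1 :=
  B_inter (allIn_mem _) (good_mem cl)

theorem gdec_true_nil (cl : γ → Cl α) (w : List γ) (h : gdec cl true w = []) :
    w ∈ allIn {c | cl c = .sh ∨ cl c = .pad} := by
  induction w with
  | nil => intro c hc; cases hc
  | cons c w ih =>
    rw [gdec] at h
    cases hc : cl c with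
    | vis a => rw [hc] at h; simp at h
    | hid a => rw [hc] at h; simp at h
    | sh =>
      rw [hc] at h
      intro d hd
      rcases List.mem_cons.1 hd with rfl | hd
      · exact Or.inl hc
      · exact ih h d hd
    | pad =>
      rw [hc] at h
      intro d hd
      rcases List.mem_cons.1 hd with rfl | hd
      · exact Or.inr hc
      · exact ih h d hd

theorem gdec_allIn (cl : γ → Cl α) (w : List γ) (h : w ∈ allIn {c | cl c = .sh ∨ cl c = .pad}) :
    ∀ b, gdec cl b w = [] := by
  induction w with
  | nil => intro b; rfl
  | cons c w ih =>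
    intro b
    have h1 := h c (by simp)
    have h2 : w ∈ allIn {c | cl c = .sh ∨ cl c = .pad} := fun d hd => h d (by simp [hd])
    rw [gdec]
    rcases h1 with h1 | h1
    · rw [h1]; exact ih h2 _
    · rw [h1]; exact ih h2 _

theorem mem_ZZ (cl : γ → Cl α) (w : List γ) : w ∈ ZZ cl ↔ w ∈ good cl ∧ gdec cl false w = [] := by
  constructor
  · rintro ⟨h1, h2⟩
    exact ⟨h2, gdec_allIn cl w h1 false⟩
  · rintro ⟨h1, h2⟩
    refine ⟨gdec_true_nil cl w ?_, h1⟩
    rw [gdec_good cl h1 true false]
    exact h2

theorem sub_HR_nil (cl : γ → Cl α) : sub (HR cl) {[]} = ZZ cl := by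
  ext w
  rw [mem_ZZ]
  constructor
  · rintro ⟨u, hu, h⟩
    rw [Set.mem_singleton_iff] at hu
    subst hu
    exact h
  · intro h
    exact ⟨[], rfl, h⟩

theorem nil_allIn (D : Set γ) : [] ∈ allIn D := by
  intro c hc
  cases hc

/-- The words which produce nothing in the idle state, without block starts. -/
def YY (cl : γ → Cl α) : Set (List γ) := allIn {c | ¬ (cl c).start}

theorem gdec_false_nil (cl : γ → Cl α) (w : List γ) (h : gdec cl false w = []) :
    w ∈ cat (YY cl) (ZZ cl) := by
  induction w with
  | nil => exact ⟨[], nil_allIn _, [], by rw [mem_ZZ]; exact ⟨nil_good cl, rfl⟩, rfl⟩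
  | cons c w ih =>
    rw [gdec] at h
    cases hc : cl c with
    | vis a => rw [hc] at h; simp at h
    | hid a =>
      rw [hc] at h
      obtain ⟨y, hy, z, hz, rfl⟩ := ih (by simpa using h)
      refine ⟨c :: y, ?_, z, hz, rfl⟩
      intro d hd
      rcases List.mem_cons.1 hd with rfl | hd
      · simp [Cl.start, hc]
      · exact hy d hd
    | sh =>
      rw [hc] at h
      refine ⟨[], nil_allIn _, c :: w, ?_, rfl⟩
      rw [mem_ZZ]
      refine ⟨?_, by rw [gdec, hc]; exact h⟩
      intro d v hd
      simp only [List.cons.injEq] at hd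
      rw [← hd.1, hc]
      trivial
    | pad =>
      rw [hc] at h
      obtain ⟨y, hy, z, hz, rfl⟩ := ih h
      refine ⟨c :: y, ?_, z, hz, rfl⟩
      intro d hd
      rcases List.mem_cons.1 hd with rfl | hd
      · simp [Cl.start, hc]
      · exact hy d hd

theorem gdec_YY (cl : γ → Cl α) (w : List γ) (h : w ∈ YY cl) : gdec cl false w = [] := by
  induction w with
  | nil => rfl
  | cons c w ih =>
    have h1 := h c (by simp)
    have h2 : w ∈ YY cl := fun d hd => h d (by simp [hd])
    rw [gdec]
    cases hc : cl c with
    | vis a => simp [hc, Cl.start] at h1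
    | hid a => simpa using ih h2
    | sh => simp [hc, Cl.start] at h1
    | pad => exact ih h2

theorem gdec_append_nil (cl : γ → Cl α) : ∀ (w w' : List γ) (b : Bool), w ≠ [] →
    w ∈ allIn {c | cl c = .sh ∨ cl c = .pad} → w ∈ good cl →
    gdec cl b (w ++ w') = gdec cl true w' := by
  intro w w' b hw h hg
  cases w with
  | nil => exact absurd rfl hw
  | cons c w =>
    have hc : cl c = .sh := by
      have := hg c w rfl
      rcases h c (by simp) with h | h
      · exact h
      · rw [h] at this; exact this.elim
    rw [List.cons_append, gdec, hc]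
    have h2 : w ∈ allIn {c | cl c = .sh ∨ cl c = .pad} := fun d hd => h d (by simp [hd])
    clear hw h hg
    change gdec cl true (w ++ w') = gdec cl true w'
    induction w with
    | nil => rfl
    | cons d w ih =>
      rw [List.cons_append, gdec]
      rcases h2 d (by simp) with h | h
      · rw [h]; exact ih fun e he => h2 e (by simp [he])
      · rw [h]; exact ih fun e he => h2 e (by simp [he])

theorem sub_HR_letter (cl : γ → Cl α) (a : α) : sub (HR cl) {[a]} =
    cat (ZZ cl) (cat (oneIn {c | cl c = .vis a}) (cat (YY cl) (ZZ cl))) ∪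
    cat (ZZ cl \ {[]}) (cat (oneIn {c | cl c = .hid a}) (cat (YY cl) (ZZ cl))) := by
  ext w
  constructor
  · rintro ⟨u, hu, h1, h2⟩
    rw [Set.mem_singleton_iff] at hu
    subst hu
    -- scan the word
    have scan : ∀ (w : List γ) (z : List γ), z ∈ ZZ cl → (z = [] → w ∈ good cl) →
        gdec cl (!z.isEmpty) w = [a] →
        z ++ w ∈ cat (ZZ cl) (cat (oneIn {c | cl c = .vis a}) (cat (YY cl) (ZZ cl))) ∪
          cat (ZZ cl \ {[]}) (cat (oneIn {c | cl c = .hid a}) (cat (YY cl) (ZZ cl))) := by
      intro w
      induction w with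
      | nil => intro z _ _ h; simp [gdec] at h
      | cons c w ih =>
        intro z hz hg h
        rw [gdec] at h
        cases hc : cl c with
        | vis a' =>
          rw [hc] at h
          simp only [List.cons.injEq] at h
          obtain ⟨rfl, h⟩ := h
          left
          exact ⟨z, hz, _, ⟨[c], ⟨c, hc, rfl⟩, w, gdec_false_nil cl w h, rfl⟩, rfl⟩
        | hid a' =>
          rw [hc] at h
          cases z with
          | nil =>
            have := hg rfl c w rfl
            rw [hc] at this
            exact this.elim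
          | cons d z =>
            simp only [List.isEmpty_cons, Bool.not_false, if_true, List.cons.injEq] at h
            obtain ⟨rfl, h⟩ := h
            right
            exact ⟨d :: z, ⟨hz, by simp⟩, _, ⟨[c], ⟨c, hc, rfl⟩, w, gdec_false_nil cl w h, rfl⟩,
              rfl⟩
        | sh =>
          rw [hc] at h
          have hne : (!(z ++ [c]).isEmpty) = true := by simp
          have := ih (z ++ [c]) ?_ (by simp) (by rw [hne]; exact h)
          · simpa using this
          · refine ⟨?_, ?_⟩
            · intro d hd
              rcases List.mem_append.1 hd with hd | hd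
              · exact hz.1 d hd
              · simp only [List.mem_singleton] at hd
                rw [hd]
                exact Or.inl hc
            · cases z with
              | nil =>
                intro d v hd
                simp only [List.nil_append, List.cons.injEq] at hd
                rw [← hd.1, hc]
                trivial
              | cons e z =>
                intro d v hd
                simp only [List.cons_append, List.cons.injEq] at hd
                rw [← hd.1]
                exact hz.2 e z rfl
        | pad =>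
          rw [hc] at h
          cases z with
          | nil =>
            have := hg rfl c w rfl
            rw [hc] at this
            exact this.elim
          | cons e z =>
            have := ih ((e :: z) ++ [c]) ?_ (by simp) (by simpa using h)
            · simpa using this
            · refine ⟨?_, ?_⟩
              · intro d hd
                rcases List.mem_append.1 hd with hd | hd
                · exact hz.1 d hd
                · simp only [List.mem_singleton] at hd
                  rw [hd]
                  exact Or.inr hc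
              · intro d v hd
                simp only [List.cons_append, List.cons.injEq] at hd
                rw [← hd.1]
                exact hz.2 e z rfl
    have := scan w [] ?_ (fun _ => h1) (by simpa using h2)
    · simpa using this
    · rw [mem_ZZ]
      exact ⟨nil_good cl, rfl⟩
  · rintro (⟨z, hz, _, ⟨_, ⟨c, hc, rfl⟩, _, ⟨y, hy, z', hz', rfl⟩, rfl⟩, rfl⟩ |
      ⟨z, ⟨hz, hzn⟩, _, ⟨_, ⟨c, hc, rfl⟩, _, ⟨y, hy, z', hz', rfl⟩, rfl⟩, rfl⟩)
    · refine ⟨[a], rfl, ?_⟩
      have hc' : cl c = .vis a := hc
      have hg : [c] ++ (y ++ z') ∈ good cl := by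
        intro d v hd
        simp only [List.cons_append, List.nil_append, List.cons.injEq] at hd
        rw [← hd.1, hc']
        trivial
      refine ⟨good_append cl hz.2 hg, ?_⟩
      rw [gdec_append cl hg, ((mem_ZZ cl z).1 hz).2, List.nil_append, List.singleton_append, gdec,
        hc']
      simp only [List.cons.injEq, true_and]
      rw [gdec_append cl hz'.2, gdec_YY cl y hy, ((mem_ZZ cl z').1 hz').2]
      rfl
    · refine ⟨[a], rfl, ?_⟩
      have hc' : cl c = .hid a := hc
      refine ⟨?_, ?_⟩
      · cases z with
        | nil => exact absurd rfl hzn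
        | cons e z =>
          intro d v hd
          simp only [List.cons_append, List.cons.injEq] at hd
          rw [← hd.1]
          exact hz.2 e z rfl
      · rw [gdec_append_nil cl z _ false hzn hz.1 hz.2, List.singleton_append, gdec, hc']
        simp only [if_true, List.cons.injEq, true_and]
        rw [gdec_append cl hz'.2, gdec_YY cl y hy, ((mem_ZZ cl z').1 hz').2]
        rfl

theorem sub_HR_letter_mem [Finite γ] (cl : γ → Cl α) (a : α) :
    Pol (B (α := γ) 1) (sub (HR cl) {[a]}) := by
  rw [sub_HR_letter]
  have hY : YY cl ∈ B (α := γ) 1 := allIn_mem _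
  have hZ := ZZ_mem cl
  exact Pol.union _ _
    (Pol_cat (Pol_sub hZ) (Pol_cat (Pol_sub (oneIn_mem _ 1)) (Pol_cat (Pol_sub hY) (Pol_sub hZ))))
    (Pol_cat (Pol_sub (B_sdiff hZ (single_mem 1 _)))
      (Pol_cat (Pol_sub (oneIn_mem _ 1)) (Pol_cat (Pol_sub hY) (Pol_sub hZ))))

theorem sub_HR_Tpl [Finite γ] (cl : γ → Cl α) (t : List (Option α)) :
    Pol (B (α := γ) 1) (sub (HR cl) (Tpl t)) := by
  induction t with
  | nil => rw [Tpl, sub_HR_nil]; exact Pol_sub (ZZ_mem cl)
  | cons a t ih =>
    cases a with
    | none =>
      rw [Tpl, (dec_HR cl).sub_cat, sub_HR_univ]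
      exact Pol_cat (Pol_sub (good_mem cl)) ih
    | some a =>
      rw [Tpl, (dec_HR cl).sub_cat]
      exact Pol_cat (sub_HR_letter_mem cl a) ih

theorem sub_HR_Pol0 [Finite α] [Finite γ] (cl : γ → Cl α) {L : Set (List α)}
    (h : Pol (B (α := α) 0) L) : Pol (B (α := γ) 1) (sub (HR cl) L) := by
  have : ∀ L : Set (List α), TU L → Pol (B (α := γ) 1) (sub (HR cl) L) := by
    intro L hL
    induction hL with
    | empty => rw [sub_empty]; exact Pol.empty
    | tpl t => exact sub_HR_Tpl cl t
    | union L K _ _ h1 h2 => rw [sub_union]; exact Pol.union _ _ h1 h2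
  exact this L (TU_Pol h)

/-- **Coding raises the level by one.** -/
theorem sub_HR_up [Finite α] [Finite γ] (cl : γ → Cl α) (i : ℕ) :
    (∀ K ∈ B (α := α) (1 + i), sub (HR cl) K ∈ B (α := γ) (1 + i + 1)) ∧
    (∀ K : Set (List α), Pol (B i) K → Pol (B (α := γ) (i + 1)) (sub (HR cl) K)) := by
  have h := (dec_HR cl).up 1 (by rw [sub_HR_univ]; exact B_succ (good_mem cl))
    (fun K hK => Pol_le (sub_HR_Pol0 cl (Pol.base K hK)))
  refine ⟨(h i).1, ?_⟩
  cases i with
  | zero => exact fun K hK => sub_HR_Pol0 cl hK
  | succ i =>
    have := (h i).2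
    rw [show 1 + i = i + 1 by omega] at this
    exact this

end Pool.Agent.Helper964_DD
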