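import Pool.Agent.Helper964_DD.Hy
import Pool.Agent.Helper964_DD.Hidden

/-!
# Languages which do not distinguish hidden letters, and deeply hidden letters
-/

set_option autoImplicit false

namespace Pool.Agent.Helper964_DD

variable {γ α : Type}

/-- The language does not distinguish the letters of `hd`. -/
def HF (hd : Set γ) (L : Set (List γ)) : Prop :=
  ∀ a ∈ hd, ∀ b ∈ hd, ∀ p q : List γ, (p ++ a :: q ∈ L ↔ p ++ b :: q ∈ L)

/-- The base of the hierarchy. -/
def T0 (hd : Set γ) : Set (Set (List γ)) := {L | HF hd L ∧ Aper L ∧ FQ L}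

theorem Aper.quo {L : Set (List γ)} (h : Aper L) (p q : List γ) :
    Aper (Helper964_DD.quo L p q) := by
  obtain ⟨N, hN⟩ := h
  refine ⟨N, fun n hn u p' q' => ?_⟩
  have := hN n hn u (p ++ p') (q' ++ q)
  simpa [Helper964_DD.quo] using this

theorem FQ.quo {L : Set (List γ)} (h : FQ L) (p q : List γ) : FQ (Helper964_DD.quo L p q) := by
  refine h.subset ?_
  rintro _ ⟨p', q', rfl⟩
  refine ⟨p ++ p', q' ++ q, ?_⟩
  ext u
  simp [Helper964_DD.quo]

theorem HF.quo {hd : Set γ} {L : Set (List γ)} (h : HF hd L) (p q : List γ) :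
    HF hd (Helper964_DD.quo L p q) := by
  intro a ha b hb p' q'
  have := h a ha b hb (p ++ p') (q' ++ q)
  simpa [Helper964_DD.quo] using this

theorem QB_T0 [Finite γ] (hd : Set γ) : QB (T0 hd) where
  empty := ⟨fun a _ b _ p q => Iff.rfl, ⟨0, fun n _ u p q => Iff.rfl⟩, FQ_empty⟩
  compl := fun L h => ⟨fun a ha b hb p q => not_congr (h.1 a ha b hb p q), h.2.1.compl,
    h.2.2.compl⟩
  union := fun L h K h' => ⟨fun a ha b hb p q => or_congr (h.1 a ha b hb p q)
    (h'.1 a ha b hb p q), h.2.1.union h'.2.1, h.2.2.union h'.2.2⟩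
  quo := fun L h p q => ⟨h.1.quo p q, h.2.1.quo p q, h.2.2.quo p q⟩
  fin := fun L h => h.2.2

/-! ### Insertion -/

/-- Insertion in large powers, for given pairs of words. -/
def InsR (R : List γ → List γ → Prop) (K : Set (List γ)) : Prop :=
  ∃ N, ∀ n ≥ N, ∀ u v : List γ, R u v → ∀ p q : List γ,
    p ++ (rep u n ++ q) ∈ K → p ++ (rep u n ++ (v ++ (rep u n ++ q))) ∈ K

theorem InsR.union {R : List γ → List γ → Prop} {K K' : Set (List γ)} (h : InsR R K)
    (h' : InsR R K') : InsR R (K ∪ K') := by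
  obtain ⟨N, hN⟩ := h
  obtain ⟨N', hN'⟩ := h'
  refine ⟨max N N', ?_⟩
  rintro n hn u v hr p q (h | h)
  · exact Or.inl (hN n (le_of_max_le_left hn) u v hr p q h)
  · exact Or.inr (hN' n (le_of_max_le_right hn) u v hr p q h)

theorem InsR.cat {R : List γ → List γ → Prop} {K K' : Set (List γ)} (h : InsR R K)
    (h' : InsR R K') (ha : Aper (cat K K')) : InsR R (cat K K') := by
  obtain ⟨N₁, hN₁⟩ := h
  obtain ⟨N₂, hN₂⟩ := h'
  obtain ⟨N₃, hN₃⟩ := ha
  refine ⟨2 * (N₁ + N₂ + N₃) + 1, ?_⟩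
  intro n hn u v hr p q hw
  obtain ⟨s, hs, s', hs', e⟩ := hw
  rcases cut_rep u n p q s s' e with ⟨c, h1, h2⟩ | ⟨c, h1, h2⟩ | ⟨i, j, y, y', h1, h2, h3, h4⟩
  · refine ⟨s, hs, _, hN₂ n (by omega) u v hr c q (h2 ▸ hs'), by rw [h1]; simp⟩
  · refine ⟨_, hN₁ n (by omega) u v hr p c (h2 ▸ hs), s', hs', by rw [h1]; simp⟩
  · have hx : ∀ t : List γ, u ++ t = y ++ (y' ++ t) := fun t => by rw [h2]; simp
    by_cases hi : N₁ + N₂ + N₃ ≤ i
    · have h5 := hN₁ i (by omega) u v hr p y (h3 ▸ hs)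
      have h6 : p ++ (rep u i ++ (v ++ (rep u n ++ q))) ∈ Helper964_DD.cat K K' := by
        refine ⟨_, h5, s', hs', ?_⟩
        rw [h4, ← h1, show i + 1 + j = i + (1 + j) by ring, rep_add u i, rep_add u 1, rep_one]
        simp only [List.append_assoc]
        rw [hx]
      rwa [Aper.iff_of_ge hN₃ (m := i) (n := n) (by omega) (by omega)] at h6
    · have h5 := hN₂ j (by omega) u v hr y' q (h4 ▸ hs')
      have h6 : (p ++ (rep u n ++ v)) ++ (rep u j ++ q) ∈ Helper964_DD.cat K K' := by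
        refine ⟨s, hs, _, h5, ?_⟩
        rw [h3, ← h1, show i + 1 + j = i + (1 + j) by ring, rep_add u i, rep_add u 1, rep_one]
        simp only [List.append_assoc]
        rw [hx]
      rw [Aper.iff_of_ge hN₃ (m := j) (n := n) (by omega) (by omega)] at h6
      simpa using h6

/-- A hidden letter and a hidden word. -/
def hidR (hd : Set γ) (u v : List γ) : Prop := ∃ x ∈ hd, u = [x] ∧ ∀ c ∈ v, c ∈ hd

theorem HF_word {hd : Set γ} {L : Set (List γ)} (h : HF hd L) {x : γ} (hx : x ∈ hd)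
    (v : List γ) (hv : ∀ c ∈ v, c ∈ hd) : ∀ p q : List γ,
    (p ++ (v ++ q) ∈ L ↔ p ++ (rep [x] v.length ++ q) ∈ L) := by
  induction v with
  | nil => intro p q; simp
  | cons c v ih =>
    intro p q
    have h1 := h c (hv c (by simp)) x hx p (v ++ q)
    have h2 := ih (fun c hc => hv c (by simp [hc])) (p ++ [x]) q
    rw [List.cons_append, h1, List.length_cons, rep_succ]
    simpa using h2

theorem insR_T0 {hd : Set γ} {L : Set (List γ)} (h : L ∈ T0 hd) : InsR (hidR hd) L := by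
  obtain ⟨h1, ⟨N, hN⟩, _⟩ := h
  refine ⟨N, ?_⟩
  rintro n hn _ v ⟨x, hx, rfl, hv⟩ p q hw
  rw [Aper.iff_of_ge hN (m := n) (n := n + (v.length + n)) hn (by omega), rep_add, rep_add] at hw
  have := (HF_word h1 hx v hv (p ++ rep [x] n) (rep [x] n ++ q)).2 (by simpa using hw)
  simpa using this

theorem insR_single (hd : Set γ) (a : γ) : InsR (hidR hd) ({[a]} : Set (List γ)) := by
  refine ⟨2, ?_⟩
  rintro n hn _ v ⟨x, _, rfl, _⟩ p q hw
  exfalso
  have := congrArg List.length (Set.mem_singleton_iff.1 hw)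
  simp only [List.length_append, rep_length, List.length_cons, List.length_nil] at this
  omega

theorem insR_SPol {hd : Set γ} {K : Set (List γ)} (hK : SPol (T0 hd) K) :
    Aper K ∧ InsR (hidR hd) K := by
  induction hK with
  | empty => exact ⟨⟨0, fun n _ u p q => Iff.rfl⟩, ⟨0, fun n _ u v _ p q h => h.elim⟩⟩
  | base L h => exact ⟨h.2.1, insR_T0 h⟩
  | mark L a X hL _ ih =>
    have h1 : Aper (cat {[a]} X) := (aper_B0 (single_mem 0 [a])).cat ih.1
    have h2 : Aper (cat L (cat {[a]} X)) := hL.2.1.cat h1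
    rw [mrk_eq_cat]
    exact ⟨h2, (insR_T0 hL).cat ((insR_single hd a).cat ih.2 h1) h2⟩
  | union L K _ _ h1 h2 => exact ⟨h1.1.union h2.1, h1.2.union h2.2⟩

/-! ### Codes of hidden letters -/

/-- Codes of hidden letters are not distinguished, if the exponent is large. -/
def HidR (hd : Set γ) (K : Set (List γ)) : Prop :=
  ∃ N, ∀ n ≥ N, ∀ (sh x : γ) (H : Type) (e : H → γ) (l : List H), x ∈ hd →
    (∀ h ∈ l, e h ∈ hd) → ∀ h ∈ l, ∀ p q : List γ,
    (p ++ (enc sh x e l n h ++ q) ∈ K ↔ p ++ (enc0 sh x e l n ++ q) ∈ K)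

theorem Hid.hidR {K : Set (List γ)} (h : Hid K) (hd : Set γ) : HidR hd K := by
  obtain ⟨N, hN⟩ := h
  exact ⟨N, fun n hn sh x H e l _ _ h hh p q => hN n hn sh x H e l h hh p q⟩

theorem insR_list {hd : Set γ} {K : Set (List γ)} {N : ℕ}
    (hN : ∀ n ≥ N, ∀ u v : List γ, hidR hd u v → ∀ p q : List γ,
      p ++ (rep u n ++ q) ∈ K → p ++ (rep u n ++ (v ++ (rep u n ++ q))) ∈ K) {H : Type}
    (e : H → γ) {x : γ} (hx : x ∈ hd) (n : ℕ) (hn : N ≤ n) (l : List H)
    (hl : ∀ h ∈ l, e h ∈ hd) : ∀ p q : List γ, p ++ (rep [x] n ++ q) ∈ K →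
      p ++ (rep [x] n ++ (l.flatMap (fun b => e b :: rep [x] n) ++ q)) ∈ K := by
  induction l with
  | nil => intro p q h; simpa using h
  | cons b l ih =>
    intro p q h
    have h1 := hN n hn [x] [e b] ⟨x, hx, rfl, by simpa using hl b (by simp)⟩ p q h
    have h2 := ih (fun h hh => hl h (by simp [hh])) (p ++ (rep [x] n ++ [e b])) q
      (by simpa using h1)
    simpa using h2

theorem hidR_SPol {hd : Set γ} {K : Set (List γ)} (hK : SPol (T0 hd) K) : HidR hd K := by
  obtain ⟨⟨N₂, hN₂⟩, N₁, hN₁⟩ := insR_SPol hK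
  refine ⟨max N₁ N₂, fun n hn sh x H e l hx hl h hh p q => ?_⟩
  have hn₁ : N₁ ≤ n := le_of_max_le_left hn
  have hn₂ : N₂ ≤ n := le_of_max_le_right hn
  constructor
  · intro hw
    obtain ⟨l₁, l₂, rfl⟩ := List.append_of_mem hh
    have h1 := insR_list hN₁ e hx n hn₁ l₁ (fun h hh => hl h (by simp [hh])) (p ++ [sh])
      (e h :: (rep [x] n ++ (rep (blk x e (l₁ ++ h :: l₂) n) n ++ q))) (by simpa [enc] using hw)
    have h2 := insR_list hN₁ e hx n hn₁ l₂ (fun h hh => hl h (by simp [hh]))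
      (p ++ (sh :: (rep [x] n ++ (blk x e l₁ n ++ [e h]))))
      (rep (blk x e (l₁ ++ h :: l₂) n) n ++ q) (by simpa [blk] using h1)
    have h3 : (p ++ (sh :: rep [x] n)) ++ (rep (blk x e (l₁ ++ h :: l₂) n) (n + 1) ++ q) ∈ K := by
      rw [rep_succ]
      simpa [blk] using h2
    rw [← hN₂ n hn₂] at h3
    simpa [enc0] using h3
  · intro hw
    have h1 := hN₁ n hn₁ [x] [e h] ⟨x, hx, rfl, by simpa using hl h hh⟩ (p ++ [sh])
      (rep (blk x e l n) n ++ q) (by simpa [enc0] using hw)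
    simpa [enc] using h1

theorem hidR_Hy1 {hd : Set γ} : ∀ K ∈ Hy (T0 hd) 1, HidR hd K := by
  refine Hy_induction (fun K hK => hidR_SPol hK) ?_ ?_
  · rintro L ⟨N, hN⟩
    exact ⟨N, fun n hn sh x H e l hx hl h hh p q =>
      not_congr (hN n hn sh x H e l hx hl h hh p q)⟩
  · rintro L K ⟨N, hN⟩ ⟨N', hN'⟩
    exact ⟨max N N', fun n hn sh x H e l hx hl h hh p q =>
      or_congr (hN n (le_of_max_le_left hn) sh x H e l hx hl h hh p q)
        (hN' n (le_of_max_le_right hn) sh x H e l hx hl h hh p q)⟩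

/-! ### The coding morphism -/

/-- The hidden letters. -/
def hdF (v m : ℕ) : Set (Fin m) := {e | v ≤ (e : ℕ)}

/-- The list of the hidden letters. -/
def hl (v m : ℕ) : List (Fin m) := (List.finRange m).filter (fun e => decide (v ≤ (e : ℕ)))

theorem mem_hl {v m : ℕ} {e : Fin m} : e ∈ hl v m ↔ v ≤ (e : ℕ) := by simp [hl]

/-- The embedding of the alphabet. -/
def up2 {m : ℕ} (e : Fin m) : Fin (m + 2) := ⟨e, by omega⟩

/-- The sharp. -/
def shF (m : ℕ) : Fin (m + 2) := ⟨m, by omega⟩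

/-- The padding letter. -/
def padF (m : ℕ) : Fin (m + 2) := ⟨m + 1, by omega⟩

/-- The coding morphism: visible letters are not changed, the others are hidden. -/
def phi (v m N : ℕ) (e : Fin m) : List (Fin (m + 2)) :=
  if (e : ℕ) < v then [up2 e] else enc (shF m) (padF m) up2 (hl v m) N e

theorem rep_flatMap (φ : α → List γ) (u : List α) (n : ℕ) :
    (rep u n).flatMap φ = rep (u.flatMap φ) n := by
  induction n with
  | zero => rfl
  | succ n ih => rw [rep_succ, rep_succ, List.flatMap_append, ih]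

theorem Aper.pre {K : Set (List γ)} (h : Aper K) (φ : α → List γ) (p q : List γ) :
    Aper (Helper964_DD.pre φ K p q) := by
  obtain ⟨N, hN⟩ := h
  refine ⟨N, fun n hn u p' q' => ?_⟩
  have := hN n hn (u.flatMap φ) (p ++ p'.flatMap φ) (q'.flatMap φ ++ q)
  simp only [Helper964_DD.pre, Set.mem_ofPred_eq, List.flatMap_append, rep_flatMap]
  simpa using this

theorem pre_eq_quo (φ : α → List γ) (K : Set (List γ)) (p q : List γ) :
    pre φ K p q = pre φ (quo K p q) [] [] := by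
  ext u
  simp [pre, quo]

theorem pre_finite {K : Set (List γ)} (h : FQ K) (φ : α → List γ) :
    {X | ∃ p q, X = pre φ K p q}.Finite := by
  refine (h.image (fun Q => pre φ Q [] [])).subset ?_
  rintro _ ⟨p, q, rfl⟩
  exact ⟨quo K p q, ⟨p, q, rfl⟩, (pre_eq_quo φ K p q).symm⟩

theorem FQ.pre {K : Set (List γ)} (h : FQ K) (φ : α → List γ) (p q : List γ) :
    FQ (Helper964_DD.pre φ K p q) := by
  refine (pre_finite h φ).subset ?_
  rintro _ ⟨p', q', rfl⟩
  refine ⟨p ++ p'.flatMap φ, q'.flatMap φ ++ q, ?_⟩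
  ext u
  simp [Helper964_DD.quo, Helper964_DD.pre]

theorem pre_phi_T0 {v m : ℕ} (hv : v ≤ m) {K : Set (List (Fin (m + 2)))}
    (h1 : HidR (hdF v (m + 2)) K) (h2 : Aper K) (h3 : FQ K) :
    ∀ᶠ N in Filter.atTop, ∀ p q, pre (phi v m N) K p q ∈ T0 (hdF v m) := by
  obtain ⟨N₀, hN₀⟩ := h1
  filter_upwards [Filter.eventually_ge_atTop N₀] with N hN p q
  refine ⟨?_, h2.pre _ p q, h3.pre _ p q⟩
  intro a ha b hb p' q'
  have hpad : padF m ∈ hdF v (m + 2) := by
    change v ≤ m + 1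
    omega
  have hup : ∀ h ∈ hl v m, (up2 h : Fin (m + 2)) ∈ hdF v (m + 2) := fun h hh =>
    (show v ≤ (h : ℕ) from mem_hl.1 hh)
  have key := fun (c : Fin m) (hc : v ≤ (c : ℕ)) => hN₀ N hN (shF m) (padF m) (Fin m) up2 (hl v m) hpad hup
    c (mem_hl.2 hc) (p ++ p'.flatMap (phi v m N)) (q'.flatMap (phi v m N) ++ q)
  have e : ∀ c : Fin m, v ≤ (c : ℕ) → (p' ++ c :: q' ∈ pre (phi v m N) K p q ↔
      (p ++ p'.flatMap (phi v m N)) ++ (enc (shF m) (padF m) up2 (hl v m) N c ++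
        (q'.flatMap (phi v m N) ++ q)) ∈ K) := by
    intro c hc
    have hphi : phi v m N c = enc (shF m) (padF m) up2 (hl v m) N c := by
      rw [phi, if_neg (by omega)]
    simp only [pre, Set.mem_ofPred_eq, List.flatMap_append, List.flatMap_cons, hphi,
      List.append_assoc]
  rw [e a ha, e b hb, key a ha, key b hb]

/-! ### Deeply hidden letters -/

theorem tgt_Hy0 (C : Set (Set (List α))) : Tgt (α := α) (fun t => Hy C t)
    (fun t => {L | SPol (Hy C t) L}) where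
  compl _ L h := BC.compl L h
  unionT _ L K h h' := BC.union L K h h'
  sub _ L h := SPol.base L h
  empty _ := SPol.empty
  unionP _ L K h h' := SPol.union L K h h'
  mark _ a X Y hX hY := SPol.mark X a Y hX hY
  up _ L h := BC.base L h

/-- The number of letters after `t` steps. -/
def al (m : ℕ) : ℕ → ℕ
  | 0 => m
  | t + 1 => al m t + 2

theorem le_al (m t : ℕ) : m ≤ al m t := by
  induction t with
  | zero => exact le_rfl
  | succ t ih => exact ih.trans (by rw [al]; omega)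

/-- The iterated coding morphisms. -/
inductive IsE (v m : ℕ) : (t : ℕ) → (Fin m → List (Fin (al m t))) → Prop
  | zero : IsE v m 0 (fun e => [e])
  | succ (t : ℕ) (E : Fin m → List (Fin (al m t))) (N : ℕ) : IsE v m t E →
      IsE v m (t + 1) (fun e => (E e).flatMap (phi v (al m t) N))

theorem phi_shift {v m : ℕ} (hv : v ≤ m) (t : ℕ) (K : Set (List (Fin (m + 2))))
    (hK : K ∈ Hy (T0 (hdF v (m + 2))) (1 + t)) :
    ∀ᶠ N in Filter.atTop, ∀ p q, pre (phi v m N) K p q ∈ Hy (T0 (hdF v m)) t :=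
  (shiftH (tgt_Hy0 (T0 (hdF v m))) Filter.atTop (phi v m) (T0 (hdF v (m + 2))) 1
    (fun K hK => pre_phi_T0 hv (hidR_Hy1 K hK)
      ((Hy_induction (C := T0 (hdF v (m + 2))) (i := 0) (P := Aper)
        (fun L hL => (insR_SPol hL).1) (fun L h => h.compl)
        (fun L K h h' => h.union h')) K hK)
      ((QB_Hy (QB_T0 _) 1).fin K hK)) t).1 K hK

/-- The words `E a`, `E b` for hidden letters `a`, `b` are not distinguished by the languages of
`S`. -/
def Indist {m m' : ℕ} (v : ℕ) (E : Fin m → List (Fin m')) (S : Set (Set (List (Fin m')))) : Prop :=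
  ∀ K ∈ S, ∀ a b : Fin m, v ≤ (a : ℕ) → v ≤ (b : ℕ) → ∀ p q,
    (p ++ (E a ++ q) ∈ K ↔ p ++ (E b ++ q) ∈ K)

theorem indist_step {m m' : ℕ} {v : ℕ} (S : Set (Set (List (Fin (m' + 2))))) (N : ℕ)
    (E : Fin m → List (Fin m'))
    (h : Indist v E (⋃ K ∈ S, {X | ∃ p q, X = pre (phi v m' N) K p q})) :
    Indist v (fun e => (E e).flatMap (phi v m' N)) S := by
  intro K hK a b ha hb p q
  have h4 := h (pre (phi v m' N) K p q)
    (by simp only [Set.mem_iUnion]; exact ⟨K, hK, p, q, rfl⟩) a b ha hb [] []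
  simpa [pre] using h4

theorem family_step {m' : ℕ} {v : ℕ} (hv : v ≤ m') (t : ℕ)
    (S : Set (Set (List (Fin (m' + 2))))) (hf : S.Finite)
    (hS : S ⊆ Hy (T0 (hdF v (m' + 2))) (t + 1)) :
    ∃ N, (⋃ K ∈ S, {X | ∃ p q, X = pre (phi v m' N) K p q}).Finite ∧
      (⋃ K ∈ S, {X | ∃ p q, X = pre (phi v m' N) K p q}) ⊆ Hy (T0 (hdF v m')) t := by
  have h1 : ∀ K ∈ S, ∀ᶠ N in Filter.atTop, ∀ p q,
      pre (phi v m' N) K p q ∈ Hy (T0 (hdF v m')) t := by
    intro K hK
    refine phi_shift hv t K ?_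
    rw [Nat.add_comm 1 t]
    exact hS hK
  rw [← Filter.eventually_all_finite hf] at h1
  obtain ⟨N, hN⟩ := h1.exists
  refine ⟨N, hf.biUnion fun K hK => pre_finite ((QB_Hy (QB_T0 _) (t + 1)).fin K (hS hK)) _, ?_⟩
  intro X hX
  simp only [Set.mem_iUnion] at hX
  obtain ⟨K, hK, p, q, rfl⟩ := hX
  exact hN K hK p q

theorem exists_code {v m : ℕ} (hv : v ≤ m) (t : ℕ) : ∀ S : Set (Set (List (Fin (al m t)))),
    S.Finite → S ⊆ Hy (T0 (hdF v (al m t))) t → ∃ E, IsE v m t E ∧ Indist v E S := by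
  induction t with
  | zero =>
    intro S _ hS
    refine ⟨_, IsE.zero, fun K hK a b ha hb p q => ?_⟩
    exact (hS hK).1 a ha b hb p q
  | succ t ih =>
    intro S hf hS
    obtain ⟨N, h1, h2⟩ := family_step (m' := al m t) (hv.trans (le_al m t)) t S hf hS
    obtain ⟨E, hE, h3⟩ := ih _ h1 h2
    exact ⟨_, IsE.succ t E N hE, indist_step (m' := al m t) S N E h3⟩

theorem mem_rep {u : List γ} {n : ℕ} {c : γ} (h : c ∈ rep u n) : c ∈ u := by
  simp only [rep, List.mem_flatten, List.mem_replicate] at h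
  obtain ⟨_, ⟨_, rfl⟩, h⟩ := h
  exact h

theorem mem_enc {H : Type} {sh x : γ} {e : H → γ} {l : List H} {n : ℕ} {h : H} {c : γ}
    (hc : c ∈ enc sh x e l n h) : c = sh ∨ c = x ∨ c = e h ∨ ∃ b ∈ l, c = e b := by
  rw [enc] at hc
  rcases List.mem_cons.1 hc with rfl | hc
  · exact Or.inl rfl
  rcases List.mem_append.1 hc with hc | hc
  · exact Or.inr (Or.inl (by simpa using mem_rep hc))
  rcases List.mem_cons.1 hc with rfl | hc
  · exact Or.inr (Or.inr (Or.inl rfl))
  rcases List.mem_append.1 hc with hc | hc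
  · exact Or.inr (Or.inl (by simpa using mem_rep hc))
  have hc := mem_rep hc
  rw [blk] at hc
  obtain ⟨b, hb, hc⟩ := List.mem_flatMap.1 hc
  rcases List.mem_cons.1 hc with rfl | hc
  · exact Or.inr (Or.inr (Or.inr ⟨b, hb, rfl⟩))
  · exact Or.inr (Or.inl (by simpa using mem_rep hc))

theorem hidden_step {v m' N : ℕ} (hv : v ≤ m') (w : List (Fin m')) (h1 : w ≠ [])
    (h2 : ∀ c ∈ w, v ≤ (c : ℕ)) : w.flatMap (phi v m' N) ≠ [] ∧
      ∀ c ∈ w.flatMap (phi v m' N), v ≤ (c : ℕ) := by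
  have hphi : ∀ c ∈ w, phi v m' N c = enc (shF m') (padF m') up2 (hl v m') N c := by
    intro c hc
    rw [phi, if_neg (by have := h2 c hc; omega)]
  constructor
  · cases w with
    | nil => exact absurd rfl h1
    | cons c l =>
      have := hphi c (by simp)
      rw [List.flatMap_cons, this]
      simp [enc]
  · intro c hc
    obtain ⟨b, hb, hc⟩ := List.mem_flatMap.1 hc
    rw [hphi b hb] at hc
    rcases mem_enc hc with rfl | rfl | rfl | ⟨d, hd, rfl⟩
    · exact hv
    · change v ≤ m' + 1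
      omega
    · exact h2 b hb
    · exact (show v ≤ (d : ℕ) from mem_hl.1 hd)

theorem IsE.hidden {v m : ℕ} (hv : v ≤ m) {t : ℕ} {E : Fin m → List (Fin (al m t))}
    (h : IsE v m t E) : ∀ a : Fin m, v ≤ (a : ℕ) → E a ≠ [] ∧ ∀ c ∈ E a, v ≤ (c : ℕ) := by
  induction h with
  | zero =>
    intro a ha
    exact ⟨by simp, by simpa using ha⟩
  | succ t E N _ ih =>
    intro a ha
    exact hidden_step (m' := al m t) (hv.trans (le_al m t)) (E a) (ih a ha).1 (ih a ha).2

theorem visible_step {v m' N : ℕ} (a : Fin m') (ha : (a : ℕ) < v) :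
    [a].flatMap (phi v m' N) = [up2 a] := by
  rw [List.flatMap_cons, List.flatMap_nil, List.append_nil, phi, if_pos ha]

theorem IsE.visible {v m : ℕ} {t : ℕ} {E : Fin m → List (Fin (al m t))}
    (h : IsE v m t E) : ∀ a : Fin m, (a : ℕ) < v → ∃ a' : Fin (al m t), (a' : ℕ) = a ∧
      E a = [a'] := by
  induction h with
  | zero => exact fun a _ => ⟨a, rfl, rfl⟩
  | succ t E N _ ih =>
    intro a ha
    obtain ⟨a', h1, h2⟩ := ih a ha
    refine ⟨up2 (m := al m t) a', h1, ?_⟩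
    have h3 := visible_step (N := N) a' (by omega : (a' : ℕ) < v)
    rw [← h2] at h3
    exact h3

end Pool.Agent.Helper964_DD
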