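import Pool.Agent.Helper964_DD.Quo

/-!
# Hierarchies over a family of languages
-/

set_option autoImplicit false

namespace Pool.Agent.Helper964_DD

variable {α γ : Type}

theorem Hy_induction {C : Set (Set (List α))} {i : ℕ} {P : Set (List α) → Prop}
    (hb : ∀ L, SPol (Hy C i) L → P L) (hc : ∀ L, P L → P Lᶜ)
    (hu : ∀ L K, P L → P K → P (L ∪ K)) : ∀ L ∈ Hy C (i + 1), P L := by
  intro L hL
  induction hL with
  | base L hL => exact hb L hL
  | compl L _ ih => exact hc L ih
  | union L K _ _ h1 h2 => exact hu L K h1 h2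
  | inter L K _ _ h1 h2 =>
    have := hc _ (hu _ _ (hc _ h1) (hc _ h2))
    rwa [Set.compl_union, compl_compl, compl_compl] at this

theorem tgt_Hy (C : Set (Set (List α))) (s : ℕ) : Tgt (α := α) (fun t => Hy C (s + t))
    (fun t => {L | SPol (Hy C (s + t)) L}) where
  compl t L h := BC.compl L h
  unionT t L K h h' := BC.union L K h h'
  sub t L h := SPol.base L h
  empty t := SPol.empty
  unionP t L K h h' := SPol.union L K h h'
  mark t a X Y hX hY := SPol.mark X a Y hX hY
  up t L h := BC.base L h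

theorem Hy_add (C : Set (Set (List α))) (s t : ℕ) : Hy (Hy C s) t = Hy C (s + t) := by
  induction t with
  | zero => rfl
  | succ t ih => rw [Hy, ih]; rfl

theorem Hy_succ {C : Set (Set (List α))} {i : ℕ} {L : Set (List α)} (h : L ∈ Hy C i) :
    L ∈ Hy C (i + 1) := BC.base _ (SPol.base _ h)

theorem Hy_mono {C : Set (Set (List α))} {i j : ℕ} (h : i ≤ j) {L : Set (List α)}
    (hL : L ∈ Hy C i) : L ∈ Hy C j := by
  induction h with
  | refl => exact hL
  | step _ ih => exact Hy_succ ih

/-! ### Inverse images of marked products -/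

theorem split_cons {A B s x : List α} {c : α} (h : A ++ B = s ++ c :: x) :
    (∃ a', A = s ++ c :: a' ∧ x = a' ++ B) ∨ (∃ a', s = A ++ a' ∧ B = a' ++ c :: x) := by
  rcases List.append_eq_append_iff.1 h with ⟨a', h1, h2⟩ | ⟨c', h1, h2⟩
  · exact Or.inr ⟨a', h1, h2⟩
  · cases c' with
    | nil => exact Or.inr ⟨[], by simpa using h1.symm, by simpa using h2.symm⟩
    | cons c0 c' =>
      simp only [List.cons_append, List.cons.injEq] at h2
      obtain ⟨rfl, h2⟩ := h2
      exact Or.inl ⟨c', h1, h2⟩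

theorem flatMap_mark (φ : α → List γ) : ∀ (u : List α) (s s' : List γ) (c : γ),
    u.flatMap φ = s ++ c :: s' → ∃ u₁ a u₂ y y', u = u₁ ++ a :: u₂ ∧ φ a = y ++ c :: y' ∧
      s = u₁.flatMap φ ++ y ∧ s' = y' ++ u₂.flatMap φ := by
  intro u
  induction u with
  | nil => intro s s' c h; simp at h
  | cons a u ih =>
    intro s s' c h
    rw [List.flatMap_cons] at h
    rcases split_cons h with ⟨a', h1, h2⟩ | ⟨a', h1, h2⟩
    · exact ⟨[], a, u, s, a', rfl, h1, by simp, h2⟩
    · obtain ⟨u₁, b, u₂, y, y', h3, h4, h5, h6⟩ := ih a' s' c h2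
      exact ⟨a :: u₁, b, u₂, y, y', by rw [h3]; rfl, h4, by rw [h1, h5]; simp, h6⟩

theorem mem_pre_mrk (φ : α → List γ) (K X : Set (List γ)) (c : γ) (p q : List γ) (u : List α) :
    u ∈ pre φ (mrk K c X) p q ↔
      (∃ p₁ p₂, p = p₁ ++ c :: p₂ ∧ p₁ ∈ K ∧ u ∈ pre φ X p₂ q) ∨
      (∃ q₁ q₂, q = q₁ ++ c :: q₂ ∧ u ∈ pre φ K p q₁ ∧ q₂ ∈ X) ∨
      (∃ u₁ a u₂ y y', u = u₁ ++ a :: u₂ ∧ φ a = y ++ c :: y' ∧ u₁ ∈ pre φ K p y ∧
        u₂ ∈ pre φ X y' q) := by
  constructor
  · rintro ⟨s, hs, x, hx, h⟩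
    rcases split_cons h with ⟨a', h1, h2⟩ | ⟨a', h1, h2⟩
    · left
      refine ⟨s, a', h1, hs, ?_⟩
      change a' ++ (u.flatMap φ ++ q) ∈ X
      rw [← h2]
      exact hx
    · rcases split_cons h2 with ⟨b', h3, h4⟩ | ⟨b', h3, h4⟩
      · right; right
        obtain ⟨u₁, a, u₂, y, y', h5, h6, h7, h8⟩ := flatMap_mark φ u a' b' c h3
        refine ⟨u₁, a, u₂, y, y', h5, h6, ?_, ?_⟩
        · change p ++ (u₁.flatMap φ ++ y) ∈ K
          rw [← h7, ← h1]
          exact hs
        · change y' ++ (u₂.flatMap φ ++ q) ∈ X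
          rw [← List.append_assoc, ← h8, ← h4]
          exact hx
      · right; left
        refine ⟨b', x, h4, ?_, hx⟩
        change p ++ (u.flatMap φ ++ b') ∈ K
        rw [← h3, ← h1]
        exact hs
  · rintro (⟨p₁, p₂, rfl, h1, h2⟩ | ⟨q₁, q₂, rfl, h1, h2⟩ | ⟨u₁, a, u₂, y, y', rfl, h2, h3, h4⟩)
    · exact ⟨p₁, h1, _, h2, by simp⟩
    · exact ⟨_, h1, q₂, h2, by simp⟩
    · refine ⟨_, h3, _, h4, ?_⟩
      simp [h2]

open Classical in
theorem pre_mrk_mem [Finite α] {T P : ℕ → Set (Set (List α))} (tgt : Tgt T P) (t : ℕ)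
    (φ : α → List γ) (K X : Set (List γ)) (c : γ) (hK : ∀ p q, pre φ K p q ∈ T t)
    (hX : ∀ p q, pre φ X p q ∈ P t) (p q : List γ) : pre φ (mrk K c X) p q ∈ P t := by
  have hKP : ∀ p q, pre φ K p q ∈ P t := fun p q => tgt.sub _ _ (hK p q)
  have e : pre φ (mrk K c X) p q =
      {u | ∃ i ∈ Finset.range (p.length + 1),
        u ∈ if p = p.take i ++ c :: p.drop (i + 1) ∧ p.take i ∈ K
          then pre φ X (p.drop (i + 1)) q else ∅} ∪
      ({u | ∃ i ∈ Finset.range (q.length + 1),
        u ∈ if q = q.take i ++ c :: q.drop (i + 1) ∧ q.drop (i + 1) ∈ X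
          then pre φ K p (q.take i) else ∅} ∪
      {u | ∃ a : α, u ∈ {u | ∃ i ∈ Finset.range ((φ a).length + 1),
        u ∈ if φ a = (φ a).take i ++ c :: (φ a).drop (i + 1) then
          {u : List α | ∃ u₁ ∈ pre φ K p ((φ a).take i), ∃ u₂ ∈ pre φ X ((φ a).drop (i + 1)) q,
            u = u₁ ++ a :: u₂} else ∅}}) := by
    ext u
    rw [mem_pre_mrk]
    constructor
    · rintro (⟨p₁, p₂, rfl, h1, h2⟩ | ⟨q₁, q₂, rfl, h1, h2⟩ | ⟨u₁, a, u₂, y, y', rfl, h2, h3, h4⟩)
      · left
        refine ⟨p₁.length, by simp, ?_⟩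
        have hd : (p₁ ++ c :: p₂).drop (p₁.length + 1) = p₂ := by simp [List.drop_append]
        have ht : (p₁ ++ c :: p₂).take p₁.length = p₁ := by simp
        rw [hd, ht, if_pos ⟨rfl, h1⟩]
        exact h2
      · right; left
        refine ⟨q₁.length, by simp, ?_⟩
        have hd : (q₁ ++ c :: q₂).drop (q₁.length + 1) = q₂ := by simp [List.drop_append]
        have ht : (q₁ ++ c :: q₂).take q₁.length = q₁ := by simp
        rw [hd, ht, if_pos ⟨rfl, h2⟩]
        exact h1
      · right; right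
        refine ⟨a, y.length, by simp [h2], ?_⟩
        have hd : (φ a).drop (y.length + 1) = y' := by simp [h2, List.drop_append]
        have ht : (φ a).take y.length = y := by simp [h2]
        rw [hd, ht, if_pos h2]
        exact ⟨u₁, h3, u₂, h4, rfl⟩
    · rintro (⟨i, _, hi⟩ | ⟨i, _, hi⟩ | ⟨a, i, _, hi⟩)
      · left
        by_cases h : p = p.take i ++ c :: p.drop (i + 1) ∧ p.take i ∈ K
        · rw [if_pos h] at hi
          exact ⟨p.take i, p.drop (i + 1), h.1, h.2, hi⟩
        · rw [if_neg h] at hi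
          exact hi.elim
      · right; left
        by_cases h : q = q.take i ++ c :: q.drop (i + 1) ∧ q.drop (i + 1) ∈ X
        · rw [if_pos h] at hi
          exact ⟨q.take i, q.drop (i + 1), h.1, hi, h.2⟩
        · rw [if_neg h] at hi
          exact hi.elim
      · right; right
        by_cases h : φ a = (φ a).take i ++ c :: (φ a).drop (i + 1)
        · rw [if_pos h] at hi
          obtain ⟨u₁, h1, u₂, h2, rfl⟩ := hi
          exact ⟨u₁, a, u₂, (φ a).take i, (φ a).drop (i + 1), rfl, h, h1, h2⟩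
        · rw [if_neg h] at hi
          exact hi.elim
  rw [e]
  refine tgt.unionP _ _ _ ?_ (tgt.unionP _ _ _ ?_ ?_)
  · refine finset_union (tgt.empty t) (tgt.unionP t) _ _ fun i _ => ?_
    split_ifs
    · exact hX _ _
    · exact tgt.empty t
  · refine finset_union (tgt.empty t) (tgt.unionP t) _ _ fun i _ => ?_
    split_ifs
    · exact hKP _ _
    · exact tgt.empty t
  · refine finite_union (tgt.empty t) (tgt.unionP t) _ fun a => ?_
    refine finset_union (tgt.empty t) (tgt.unionP t) _ _ fun i _ => ?_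
    split_ifs
    · exact tgt.mark t a _ _ (hK _ _) (hX _ _)
    · exact tgt.empty t

/-- The shift theorem for the hierarchy over a family. -/
theorem shiftH [Finite α] {T P : ℕ → Set (Set (List α))} (tgt : Tgt T P) {ι : Type}
    (l : Filter ι) (φ : ι → α → List γ) (C : Set (Set (List γ))) (s : ℕ)
    (hbase : ∀ K ∈ Hy C s, ∀ᶠ k in l, ∀ p q, pre (φ k) K p q ∈ T 0) (t : ℕ) :
    (∀ K ∈ Hy C (s + t), ∀ᶠ k in l, ∀ p q, pre (φ k) K p q ∈ T t) ∧
    (∀ K, SPol (Hy C (s + t)) K → ∀ᶠ k in l, ∀ p q, pre (φ k) K p q ∈ P t) := by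
  have step : ∀ t, (∀ K ∈ Hy C (s + t), ∀ᶠ k in l, ∀ p q, pre (φ k) K p q ∈ T t) →
      (∀ K, SPol (Hy C (s + t)) K → ∀ᶠ k in l, ∀ p q, pre (φ k) K p q ∈ P t) := by
    intro t ht K hK
    induction hK with
    | empty => exact Filter.Eventually.of_forall fun k p q => tgt.empty t
    | base K hK =>
      filter_upwards [ht K hK] with k hk p q
      exact tgt.sub _ _ (hk p q)
    | mark K a X hK _ ih =>
      filter_upwards [ht K hK, ih] with k h1 h2 p q
      exact pre_mrk_mem tgt t (φ k) K X a h1 h2 p q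
    | union K K' _ _ h1 h2 =>
      filter_upwards [h1, h2] with k h1 h2 p q
      exact tgt.unionP _ _ _ (h1 p q) (h2 p q)
  have main : ∀ t, ∀ K ∈ Hy C (s + t), ∀ᶠ k in l, ∀ p q, pre (φ k) K p q ∈ T t := by
    intro t
    induction t with
    | zero => exact hbase
    | succ t ih =>
      have hP := step t ih
      intro K hK
      refine Hy_induction (i := s + t)
        (P := fun K => ∀ᶠ k in l, ∀ p q, pre (φ k) K p q ∈ T (t + 1)) ?_ ?_ ?_ K hK
      · intro K hK
        filter_upwards [hP K hK] with k hk p q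
        exact tgt.up _ _ (hk p q)
      · intro K h
        filter_upwards [h] with k hk p q
        exact tgt.compl _ _ (hk p q)
      · intro K K' h h'
        filter_upwards [h, h'] with k hk hk' p q
        exact tgt.unionT _ _ _ (hk p q) (hk' p q)
  exact ⟨main t, step t (main t)⟩

/-! ### Quotients in the hierarchy over a family -/

theorem mrk_eq_cat (K : Set (List α)) (a : α) (X : Set (List α)) :
    mrk K a X = cat K (cat {[a]} X) := by
  ext w
  constructor
  · rintro ⟨u, hu, v, hv, rfl⟩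
    exact ⟨u, hu, _, ⟨[a], rfl, v, hv, rfl⟩, rfl⟩
  · rintro ⟨u, hu, _, ⟨_, rfl, v, hv, rfl⟩, rfl⟩
    exact ⟨u, hu, v, hv, rfl⟩

theorem FQ_SPol [Finite α] {C : Set (Set (List α))} (hC : ∀ K ∈ C, FQ K) {L : Set (List α)}
    (hL : SPol C L) : FQ L := by
  induction hL with
  | empty => exact FQ_finite Set.finite_empty
  | base L h => exact hC L h
  | mark K a X hK _ ih =>
    rw [mrk_eq_cat]
    exact (hC K hK).cat ((FQ_finite (Set.finite_singleton _)).cat ih)
  | union L K _ _ h1 h2 => exact h1.union h2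

theorem quo_SPol [Finite α] {C : Set (Set (List α))} (hC : ∀ K ∈ C, ∀ p q, quo K p q ∈ C)
    {L : Set (List α)} (hL : SPol C L) : ∀ p q, SPol C (quo L p q) := by
  induction hL with
  | empty => intro p q; exact SPol.empty
  | base L h => intro p q; exact SPol.base _ (hC L h p q)
  | mark K a X hK _ ih =>
    intro p q
    rw [quo_eq_pre]
    exact pre_mrk_mem (tgt_Hy C 0) 0 (fun a => [a]) K X a
      (fun p q => by rw [← quo_eq_pre]; exact hC K hK p q)
      (fun p q => by rw [← quo_eq_pre]; exact ih p q) p q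
  | union L K _ _ h1 h2 => intro p q; exact SPol.union _ _ (h1 p q) (h2 p q)

theorem QB_Hy [Finite α] {C : Set (Set (List α))} (hC : QB C) (i : ℕ) : QB (Hy C i) := by
  induction i with
  | zero => exact hC
  | succ i ih =>
    refine ⟨BC.base _ SPol.empty, fun L h => BC.compl L h, fun L h K h' => BC.union L K h h',
      ?_, ?_⟩
    · refine Hy_induction ?_ ?_ ?_
      · exact fun L hL p q => BC.base _ (quo_SPol ih.quo hL p q)
      · exact fun L h p q => BC.compl _ (h p q)
      · exact fun L K h h' p q => BC.union _ _ (h p q) (h' p q)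
    · exact Hy_induction (fun L hL => FQ_SPol ih.fin hL) (fun L h => h.compl)
        (fun L K h h' => h.union h')

theorem FQ_univ : FQ (Set.univ : Set (List α)) := by
  refine (Set.finite_singleton (Set.univ : Set (List α))).subset ?_
  rintro _ ⟨p, q, rfl⟩
  rfl

theorem FQ_empty : FQ (∅ : Set (List α)) := by
  refine (Set.finite_singleton (∅ : Set (List α))).subset ?_
  rintro _ ⟨p, q, rfl⟩
  rfl

theorem QB_ST0 : QB ({∅, Set.univ} : Set (Set (List α))) where
  empty := Or.inl rfl
  compl := by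
    rintro L (rfl | rfl)
    · right
      exact Set.compl_empty
    · left
      exact Set.compl_univ
  union := by
    rintro L (rfl | rfl) K (rfl | rfl)
    · left; simp
    · right; simp
    · right; simp
    · right; simp
  quo := by
    rintro L (rfl | rfl) p q
    · left; rfl
    · right; rfl
  fin := by
    rintro L (rfl | rfl)
    · exact FQ_empty
    · exact FQ_univ

theorem QB_ST [Finite α] (i : ℕ) : QB (ST (α := α) i) := QB_Hy QB_ST0 i

end Pool.Agent.Helper964_DD
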