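import Pool.Agent.Helper964_DD.Blk

/-!
# The well formed words with connectors are given by local conditions
-/

set_option autoImplicit false

namespace Pool.Agent.Helper964_DD

/-- The condition for two consecutive letters. -/
def oq2 (D : Dt) (c d : ℕ) : Prop :=
  (c ≤ D.1 → D.1 < d) ∧ (D.1 < c → d < D.1 ∨ (d = D.1 ∧ finh D (c - (D.1 + 1)) = true))

/-- The condition for three consecutive letters. -/
def oq3 (D : Dt) (c d e : ℕ) : Prop :=
  D.1 < c → (d < D.1 → e = D.1 + 1 + nxh D (c - (D.1 + 1)) d) ∧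
    (d = D.1 → D.1 < e ∧ alw D (c - (D.1 + 1)) (e - (D.1 + 1)))

/-- The conditions for all consecutive letters. -/
def Oq (D : Dt) : List (Fin (ml2 D)) → Prop
  | [] => True
  | [_] => True
  | c :: d :: r => oq2 D c d ∧ (∀ e r', r = e :: r' → oq3 D c d e) ∧ Oq D (d :: r)

variable {D : Dt} {m : ℕ}

theorem local_aux2 (r : List (Fin (ml2 D))) :
    (∀ (c : Fin (ml2 D)) h, (c : ℕ) = D.1 + 1 + h →
      ((lfold D m (h, 2) r).2 ≠ 5 ↔ Oq D (c :: r))) ∧
    (∀ (c a : Fin (ml2 D)) h, (c : ℕ) = D.1 + 1 + h → (a : ℕ) < D.1 →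
      ((lfold D m (nxh D h a, 3) r).2 ≠ 5 ↔ Oq D (c :: a :: r))) ∧
    (∀ (c d : Fin (ml2 D)) h, (c : ℕ) = D.1 + 1 + h → (d : ℕ) = D.1 → finh D h = true →
      ((lfold D m (h, 4) r).2 ≠ 5 ↔ Oq D (c :: d :: r))) := by
  induction r with
  | nil =>
    refine ⟨?_, ?_, ?_⟩
    · intro c h _
      refine iff_of_true ?_ trivial
      simp [lfold_nil]
    · intro c a h hc ha
      refine iff_of_true (by simp [lfold_nil]) ?_
      refine ⟨⟨fun h => by omega, fun _ => Or.inl ha⟩, ?_, trivial⟩
      intro e r' h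
      cases h
    · intro c d h hc hd hf
      refine iff_of_true (by simp [lfold_nil]) ?_
      have hcx : (c : ℕ) - (D.1 + 1) = h := by omega
      refine ⟨⟨fun h => by omega, fun _ => Or.inr ⟨hd, by rw [hcx]; exact hf⟩⟩, ?_, trivial⟩
      intro e r' h
      cases h
  | cons b r ih =>
    obtain ⟨ih1, ih2, ih3⟩ := ih
    refine ⟨?_, ?_, ?_⟩
    · intro c h hc
      rw [lfold_cons]
      by_cases h1 : (b : ℕ) < D.1
      · have e : lst D m (h, 2) (b : ℕ) = (nxh D h b, 3) := by simp [lst, h1]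
        rw [e]
        exact ih2 c b h hc h1
      · have hcx : (c : ℕ) - (D.1 + 1) = h := by omega
        by_cases h2 : (b : ℕ) = D.1 ∧ finh D h = true
        · have e : lst D m (h, 2) (b : ℕ) = (h, 4) := by simp [lst, h2]
          rw [e]
          exact ih3 c b h hc h2.1 h2.2
        · have e : lst D m (h, 2) (b : ℕ) = (0, 5) := by simp [lst, h1, h2]
          rw [e, lfold_five]
          refine iff_of_false (fun h => h rfl) fun h' => ?_
          rcases h'.1.2 (by omega) with h3 | h3
          · exact h1 h3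
          · rw [hcx] at h3
            exact h2 h3
    · intro c a h hc ha
      rw [lfold_cons]
      have hcx : (c : ℕ) - (D.1 + 1) = h := by omega
      by_cases h1 : (b : ℕ) = D.1 + 1 + nxh D h a
      · have e : lst D m (nxh D h a, 3) (b : ℕ) = (nxh D h a, 2) := by simp [lst, h1]
        rw [e, ih1 b _ h1]
        constructor
        · intro h'
          refine ⟨⟨fun h => by omega, fun _ => Or.inl ha⟩, ?_,
            ⟨fun _ => by omega, fun h => by omega⟩, fun e r' _ h => by omega, h'⟩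
          intro e r' he _
          simp only [List.cons.injEq] at he
          refine ⟨fun _ => ?_, fun h => by omega⟩
          rw [← he.1, hcx]
          exact h1
        · exact fun h => h.2.2.2.2
      · have e : lst D m (nxh D h a, 3) (b : ℕ) = (0, 5) := by simp [lst, h1]
        rw [e, lfold_five]
        refine iff_of_false (fun h => h rfl) fun h' => ?_
        have := (h'.2.1 b r rfl (by omega)).1 ha
        rw [hcx] at this
        exact h1 this
    · intro c d h hc hd hf
      rw [lfold_cons]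
      have hcx : (c : ℕ) - (D.1 + 1) = h := by omega
      by_cases h1 : D.1 < (b : ℕ) ∧ alw D h ((b : ℕ) - (D.1 + 1))
      · have e : lst D m (h, 4) (b : ℕ) = ((b : ℕ) - (D.1 + 1), 2) := by simp [lst, h1]
        rw [e, ih1 b _ (by omega)]
        constructor
        · intro h'
          refine ⟨⟨fun h => by omega, fun _ => Or.inr ⟨hd, by rw [hcx]; exact hf⟩⟩, ?_,
            ⟨fun _ => h1.1, fun h => by omega⟩, fun e r' _ h => by omega, h'⟩
          intro e r' he _
          simp only [List.cons.injEq] at he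
          refine ⟨fun h => by omega, fun _ => ?_⟩
          rw [← he.1, hcx]
          exact h1
        · exact fun h => h.2.2.2.2
      · have e : lst D m (h, 4) (b : ℕ) = (0, 5) := by simp [lst, h1]
        rw [e, lfold_five]
        refine iff_of_false (fun h => h rfl) fun h' => ?_
        have := (h'.2.1 b r rfl (by omega)).2 hd
        rw [hcx] at this
        exact h1 this

theorem not_Oq_iff (y : List (Fin (ml2 D))) : ¬ Oq D y ↔
    (∃ (u : List (Fin (ml2 D))) (c d : Fin (ml2 D)) (v : List (Fin (ml2 D))),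
      y = u ++ c :: d :: v ∧ ¬ oq2 D c d) ∨
    (∃ (u : List (Fin (ml2 D))) (c d e : Fin (ml2 D)) (v : List (Fin (ml2 D))),
      y = u ++ c :: d :: e :: v ∧ ¬ oq3 D c d e) := by
  induction y with
  | nil =>
    refine iff_of_false (fun h => h trivial) ?_
    rintro (⟨u, c, d, v, h, _⟩ | ⟨u, c, d, e, v, h, _⟩)
    · simp at h
    · simp at h
  | cons a y ih =>
    cases y with
    | nil =>
      refine iff_of_false (fun h => h trivial) ?_
      rintro (⟨u, c, d, v, h, _⟩ | ⟨u, c, d, e, v, h, _⟩)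
      · have := congrArg List.length h
        simp only [List.length_append, List.length_cons, List.length_nil] at this
        omega
      · have := congrArg List.length h
        simp only [List.length_append, List.length_cons, List.length_nil] at this
        omega
    | cons b y =>
      constructor
      · intro h
        by_cases h1 : oq2 D a b
        · by_cases h2 : ∀ e r', y = e :: r' → oq3 D a b e
          · have h3 : ¬ Oq D (b :: y) := fun h3 => h ⟨h1, h2, h3⟩
            rcases ih.1 h3 with ⟨u, c, d, v, h4, h5⟩ | ⟨u, c, d, e, v, h4, h5⟩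
            · exact Or.inl ⟨a :: u, c, d, v, by rw [h4]; rfl, h5⟩
            · exact Or.inr ⟨a :: u, c, d, e, v, by rw [h4]; rfl, h5⟩
          · simp only [not_forall] at h2
            obtain ⟨e, r', h3, h4⟩ := h2
            exact Or.inr ⟨[], a, b, e, r', by rw [h3]; rfl, h4⟩
        · exact Or.inl ⟨[], a, b, y, rfl, h1⟩
      · rintro h ⟨h1, h2, h3⟩
        rcases h with ⟨u, c, d, v, h4, h5⟩ | ⟨u, c, d, e, v, h4, h5⟩
        · cases u with
          | nil =>
            simp only [List.nil_append, List.cons.injEq] at h4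
            rw [h4.1, h4.2.1] at h1
            exact h5 h1
          | cons a' u =>
            simp only [List.cons_append, List.cons.injEq] at h4
            exact ih.2 (Or.inl ⟨u, c, d, v, h4.2, h5⟩) h3
        · cases u with
          | nil =>
            simp only [List.nil_append, List.cons.injEq] at h4
            have := h2 e v h4.2.2
            rw [h4.1, h4.2.1] at this
            exact h5 this
          | cons a' u =>
            simp only [List.cons_append, List.cons.injEq] at h4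
            exact ih.2 (Or.inr ⟨u, c, d, e, v, h4.2, h5⟩) h3

theorem lst_phase (s : ℕ × ℕ) (a : ℕ) : (lst D m s a).2 ≠ 0 := by
  unfold lst
  split_ifs <;> norm_num

theorem lfold_phase (w : List (Fin (ml2 D))) (hw : w ≠ []) (s : ℕ × ℕ) :
    (lfold D m s w).2 ≠ 0 := by
  rcases List.eq_nil_or_concat w with rfl | ⟨w', b, rfl⟩
  · exact absurd rfl hw
  · rw [List.concat_eq_append, lfold_append, lfold_cons, lfold_nil]
    exact lst_phase _ _

theorem lst_mark {s : ℕ × ℕ} {a : ℕ} (h : (lst D m s a).2 = 4) : a = D.1 := by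
  unfold lst at h
  split_ifs at h with h1 h2 h3 h4 h5 h6 h7 h8 h9 h10
  all_goals first | assumption | exact h7.1 | exact h6.1 | (simp at h)

theorem lst_of_mark {s : ℕ × ℕ} (hs : s.2 ≠ 0) :
    (lst D m s D.1).2 = 4 ∨ (lst D m s D.1).2 = 5 := by
  unfold lst
  rw [if_neg hs]
  split_ifs with h2 h3 h4 h5 h6 h7 h8 h9 h10
  all_goals first | omega | (simp; done) | (simp; omega)

/-- The words whose first two letters are the mark and the connector `m`. -/
def pfx (D : Dt) (m : ℕ) : Set (List (Fin (ml2 D))) :=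
  {y | ∃ r, y = mk2 D :: lg D (D.1 + 1 + m) :: r}

/-- The words which end with the mark. -/
def sfx (D : Dt) : Set (List (Fin (ml2 D))) := {y | ∃ r, y = r ++ [mk2 D]}

theorem ill2_iff (hm : m < 3 * sz D) (y : List (Fin (ml2 D))) : y ∉ ill2 D m ↔
    y ∈ pfx D m ∧ y ∈ sfx D ∧ Oq D y := by
  have hm' := lg_val (conn_lt hm)
  have hy' : y ∉ ill2 D m ↔ (lfold D m (0, 0) y).2 = 4 := not_not
  rw [hy']
  have e : lst D m (0, 0) (mk2 D : Fin (ml2 D)) = (0, 1) := by simp [lst, mk2_val]
  have e' : lst D m (0, 1) (lg D (D.1 + 1 + m) : Fin (ml2 D)) = (m, 2) := by simp [lst, hm']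
  have key : ∀ r, Oq D (mk2 D :: lg D (D.1 + 1 + m) :: r) ↔
      (lfold D m (0, 0) (mk2 D :: lg D (D.1 + 1 + m) :: r)).2 ≠ 5 := by
    intro r
    rw [lfold_cons, lfold_cons, e, e', (local_aux2 r).1 (lg D (D.1 + 1 + m)) m hm']
    constructor
    · exact fun h => h.2.2
    · intro h
      refine ⟨⟨fun _ => by rw [hm']; omega, fun h => ?_⟩, fun e r' _ h => ?_, h⟩
      · rw [mk2_val] at h
        omega
      · rw [mk2_val] at h
        omega
  constructor
  · intro h
    obtain ⟨w, l, h1, -, -⟩ := well_formed2 hm h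
    have h2 : y ∈ pfx D m := ⟨_, h1⟩
    refine ⟨h2, ?_, ?_⟩
    · rcases List.eq_nil_or_concat y with h' | ⟨r', b, h'⟩
      · rw [h'] at h1
        cases h1
      · rw [List.concat_eq_append] at h'
        rw [h', lfold_append, lfold_cons, lfold_nil] at h
        exact ⟨r', by rw [h', eq_lg (lst_mark h)]; rfl⟩
    · obtain ⟨r, rfl⟩ := h2
      rw [key, h]
      norm_num
  · rintro ⟨⟨r, rfl⟩, ⟨r', h1⟩, h2⟩
    rw [key] at h2
    have hr : r' ≠ [] := by
      rintro rfl
      have := congrArg List.length h1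
      simp only [List.length_append, List.length_cons, List.length_nil] at this
      omega
    rw [h1, lfold_append, lfold_cons, lfold_nil, mk2_val] at h2 ⊢
    exact (lst_of_mark (lfold_phase r' hr (0, 0))).resolve_right h2

theorem ill2_B1 (hm : m < 3 * sz D) : ill2 D m ∈ B (α := Fin (ml2 D)) 1 := by
  have h0 : ∀ {ι : Type} [Finite ι] (F : ι → Set (List (Fin (ml2 D)))),
      (∀ i, Pol (B 0) (F i)) → Pol (B 0) {w | ∃ i, w ∈ F i} := fun F hF =>
    finite_union (P := {L | Pol (B 0) L}) Pol.empty (fun _ _ h h' => Pol.union _ _ h h') F hF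
  have huniv : Pol (B 0) (Set.univ : Set (List (Fin (ml2 D)))) := Pol_sub (univ_mem 0)
  have hs : ∀ w : List (Fin (ml2 D)), Pol (B 0) {w} := fun w => Pol_sub (single_mem 0 w)
  have h1 : pfx D m = cat {[mk2 D, lg D (D.1 + 1 + m)]} Set.univ := by
    ext y
    constructor
    · rintro ⟨r, rfl⟩
      exact ⟨_, rfl, r, trivial, rfl⟩
    · rintro ⟨_, rfl, r, _, rfl⟩
      exact ⟨r, rfl⟩
  have h2 : sfx D = cat Set.univ {[mk2 D]} := by
    ext y
    constructor
    · rintro ⟨r, rfl⟩
      exact ⟨r, trivial, _, rfl, rfl⟩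
    · rintro ⟨r, _, _, rfl, rfl⟩
      exact ⟨r, rfl⟩
  have h3 : {y : List (Fin (ml2 D)) | ¬ Oq D y} =
      {y | ∃ p : {p : Fin (ml2 D) × Fin (ml2 D) // ¬ oq2 D p.1 p.2},
        y ∈ cat Set.univ (cat {[p.1.1, p.1.2]} Set.univ)} ∪
      {y | ∃ p : {p : Fin (ml2 D) × Fin (ml2 D) × Fin (ml2 D) // ¬ oq3 D p.1 p.2.1 p.2.2},
        y ∈ cat Set.univ (cat {[p.1.1, p.1.2.1, p.1.2.2]} Set.univ)} := by
    ext y
    rw [Set.mem_ofPred_eq, not_Oq_iff]
    constructor
    · rintro (⟨u, c, d, v, rfl, h⟩ | ⟨u, c, d, e, v, rfl, h⟩)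
      · exact Or.inl ⟨⟨(c, d), h⟩, u, trivial, _, ⟨_, rfl, v, trivial, rfl⟩, rfl⟩
      · exact Or.inr ⟨⟨(c, d, e), h⟩, u, trivial, _, ⟨_, rfl, v, trivial, rfl⟩, rfl⟩
    · rintro (⟨⟨⟨c, d⟩, h⟩, u, _, _, ⟨_, rfl, v, _, rfl⟩, rfl⟩ |
        ⟨⟨⟨c, d, e⟩, h⟩, u, _, _, ⟨_, rfl, v, _, rfl⟩, rfl⟩)
      · exact Or.inl ⟨u, c, d, v, rfl, h⟩
      · exact Or.inr ⟨u, c, d, e, v, rfl, h⟩
  have h4 : (ill2 D m)ᶜ = pfx D m ∩ (sfx D ∩ {y | ¬ Oq D y}ᶜ) := by
    ext y
    rw [Set.mem_compl_iff, ill2_iff hm]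
    simp only [Set.mem_inter_iff, Set.mem_compl_iff, Set.mem_ofPred_eq, not_not]
  rw [← compl_compl (ill2 D m), h4]
  refine B_compl (B_inter ?_ (B_inter ?_ (B_compl ?_)))
  · rw [h1]
    exact Pol_le (Pol_cat (hs _) huniv)
  · rw [h2]
    exact Pol_le (Pol_cat huniv (hs _))
  · rw [h3]
    refine Pol_le (Pol.union _ _ ?_ ?_)
    · exact h0 _ fun p => Pol_cat huniv (Pol_cat (hs _) huniv)
    · exact h0 _ fun p => Pol_cat huniv (Pol_cat (hs _) huniv)

theorem FL_B1 (v : ℕ) {m : ℕ} {X : Set (List (Fin m))} (hX : X ∈ B (α := Fin m) 1) (t : ℕ) :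
    FL v m X t ∈ B (1 + t) := by
  induction t with
  | zero => exact hX
  | succ t ih => exact (sub_HR_up (clF v (al m t)) t).1 _ ih

end Pool.Agent.Helper964_DD
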