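import Pool.Agent.Helper964_DD.Chain

/-!
# Sequences of connectors
-/

set_option autoImplicit false

namespace Pool.Agent.Helper964_DD

variable {D : Dt}

/-- The admissible sequences of connectors after the connector `h`. -/
def Pth (D : Dt) : ℕ → List ℕ → Prop
  | _, [] => True
  | h, μ :: cs => alw D h μ ∧ Pth D μ cs

/-- The last connector. -/
def lc (h : ℕ) (cs : List ℕ) : ℕ := cs.foldl (fun _ μ => μ) h

theorem lc_append (h : ℕ) (cs cs' : List ℕ) : lc h (cs ++ cs') = lc (lc h cs) cs' := by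
  simp [lc, List.foldl_append]

theorem Pth_append (cs cs' : List ℕ) : ∀ h, Pth D h (cs ++ cs') ↔
    Pth D h cs ∧ Pth D (lc h cs) cs' := by
  induction cs with
  | nil => intro h; simp [Pth, lc]
  | cons μ cs ih =>
    intro h
    have : Pth D h (μ :: (cs ++ cs')) ↔ alw D h μ ∧ Pth D μ (cs ++ cs') := Iff.rfl
    rw [List.cons_append, this, ih]
    have h2 : lc h (μ :: cs) = lc μ cs := rfl
    rw [h2]
    exact and_assoc.symm

theorem Pth_congr {h h' : ℕ} (e : h % sz D = h' % sz D) {cs : List ℕ} (hc : Pth D h cs) :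
    Pth D h' cs := by
  cases cs with
  | nil => trivial
  | cons μ cs => exact ⟨(alw_congr e μ).1 hc.1, hc.2⟩

theorem Pth_lt {cs : List ℕ} : ∀ {h : ℕ}, Pth D h cs → ∀ μ ∈ cs, μ < 3 * sz D := by
  induction cs with
  | nil => intro h _ μ hμ; cases hμ
  | cons ν cs ih =>
    intro h hc μ hμ
    rcases List.mem_cons.1 hμ with rfl | hμ
    · exact alw_lt hc.1
    · exact ih hc.2 μ hμ

theorem lc_congr {h h' s : ℕ} (e : h % s = h' % s) (cs : List ℕ) :
    lc h cs % s = lc h' cs % s := by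
  cases cs with
  | nil => exact e
  | cons μ cs => rfl

theorem Pth_rep {τ : ℕ} (hτ : τ < sz D) (N : ℕ) : ∀ h, h % sz D = τ →
    Pth D h (rep [τ] N) ∧ lc h (rep [τ] N) % sz D = τ := by
  induction N with
  | zero => intro h hh; exact ⟨trivial, hh⟩
  | succ N ih =>
    intro h hh
    rw [rep_succ]
    have h1 := Nat.mod_eq_of_lt hτ
    obtain ⟨h2, h3⟩ := ih τ h1
    exact ⟨⟨Or.inl ⟨hτ, by rw [h1, hh]⟩, h2⟩, h3⟩

theorem lfold_bks {m : ℕ} {u : ℕ → List (Fin D.1)} (hu : ∀ j < sz D, u j ∈ lngs D j)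
    (cs : List ℕ) : ∀ h h₀, finh D h₀ = true → h₀ % sz D = h % sz D → Pth D h cs →
      ∃ h', finh D h' = true ∧ h' % sz D = lc h cs % sz D ∧
        lfold D m (h₀, 2) (bks D u cs) = (h', 2) := by
  induction cs with
  | nil => intro h h₀ h1 h2 _; exact ⟨h₀, h1, h2, rfl⟩
  | cons μ cs ih =>
    intro h h₀ h1 h2 h3
    have hs := sz_ge D
    have h4 : alw D h₀ μ := (alw_congr h2.symm μ).1 h3.1
    have h5 := lfold_block (m := m) h1 h4 (u (μ % sz D))
    have h6 : finh D (endh D μ (u (μ % sz D))) = true :=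
      (finh_endh (alw_lt h4) _).2 (hu _ (Nat.mod_lt _ (by omega)))
    obtain ⟨h', h7, h8, h9⟩ := ih μ _ h6 (endh_mod _ μ) h3.2
    refine ⟨h', h7, h8, ?_⟩
    have e : bks D u (μ :: cs) = (mk2 D :: bw D μ (u (μ % sz D))) ++ bks D u cs := rfl
    rw [e, lfold_append, h5, h9]

theorem lfold_wrd {m : ℕ} (hm : m < 3 * sz D) {u : ℕ → List (Fin D.1)}
    (hu : ∀ j < sz D, u j ∈ lngs D j) {cs : List ℕ} (hc : Pth D m cs) :
    (lfold D m (0, 0) (wrd D u (m :: cs))).2 = 4 := by
  have hs := sz_ge D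
  have e : wrd D u (m :: cs) = mk2 D :: (bw D m (u (m % sz D)) ++ (bks D u cs ++ [mk2 D])) := by
    simp [wrd, bks, bk]
  have e0 : lst D m (0, 0) (mk2 D : Fin (ml2 D)) = (0, 1) := by simp [lst, mk2_val]
  have e1 : lst D m (0, 1) (lg D (D.1 + 1 + m) : Fin (ml2 D)) = (m, 2) := by
    simp [lst, lg_val (conn_lt hm)]
  obtain ⟨h', h1, _, h2⟩ := lfold_bks (m := m) hu cs m (endh D m (u (m % sz D)))
    ((finh_endh hm _).2 (hu _ (Nat.mod_lt _ (by omega)))) (endh_mod _ m) hc
  have e2 : lst D m (h', 2) (mk2 D : Fin (ml2 D)) = (h', 4) := by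
    simp [lst, mk2_val, h1]
  rw [e, lfold_cons, e0, bw, List.cons_append, lfold_cons, e1, lfold_append, lfold_ann,
    lfold_append, h2, lfold_cons, e2]
  rfl

/-- The stage of a sequence of connectors. -/
def smc (σ : ℕ) (cs : List ℕ) : ℕ := cs.foldl sstm σ

theorem smc_append (σ : ℕ) (cs cs' : List ℕ) : smc σ (cs ++ cs') = smc (smc σ cs) cs' := by
  simp [smc, List.foldl_append]

theorem sfold_bks {u : ℕ → List (Fin D.1)} (cs : List ℕ) : (∀ μ ∈ cs, μ < 3 * sz D) →
    ∀ σ, sfold D σ (bks D u cs) = smc σ cs := by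
  induction cs with
  | nil => intro _ σ; rfl
  | cons μ cs ih =>
    intro h σ
    have e : bks D u (μ :: cs) = (mk2 D :: bw D μ (u (μ % sz D))) ++ bks D u cs := rfl
    rw [e, sfold_append, sfold_block (h μ (by simp)), ih fun μ hμ => h μ (by simp [hμ])]
    rfl

theorem sfold_wrd {u : ℕ → List (Fin D.1)} {cs : List ℕ} (h : ∀ μ ∈ cs, μ < 3 * sz D) :
    sfold D 0 (wrd D u cs) = smc 0 cs := by
  rw [wrd, sfold_append, sfold_bks cs h, sfold_cons, sst_mk]
  rfl

theorem smc_rep {τ : ℕ} (hτ : τ < 2) (σ N : ℕ) : smc σ (rep [τ] N) = σ := by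
  induction N with
  | zero => rfl
  | succ N ih =>
    rw [rep_succ, smc_append, show smc σ [τ] = σ by
      change sstm σ τ = σ
      unfold sstm
      split_ifs <;> omega, ih]

/-! ### The chain -/

/-- The lengths of the powers. -/
def Mn (n : ℕ) : ℕ → ℕ
  | 0 => 1
  | j + 1 => n * Mn n j + 2

theorem Mn_pos (n j : ℕ) : 0 < Mn n j := by
  cases j with
  | zero => exact Nat.one_pos
  | succ j => exact Nat.succ_pos _

/-- The left and the right context. -/
def PQ (n r : ℕ) : ℕ → List ℕ × List ℕ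
  | 0 => ([], [5])
  | i + 1 => ((PQ n r i).1 ++ (rep [i % 2] (n * Mn n (r - i)) ++ [if i % 2 = 0 then 3 else 2]),
      (if i % 2 = 0 then 4 else 5) :: (rep [i % 2] (n * Mn n (r - i)) ++ (PQ n r i).2))

/-- The chain. -/
def ch (n r i : ℕ) : List ℕ :=
  2 :: ((PQ n r i).1 ++ (rep [i % 2] (n * Mn n (r - i)) ++ (PQ n r i).2))

theorem rep_rep {γ : Type} (a : List γ) (m n : ℕ) : rep (rep a m) n = rep a (n * m) := by
  induction n with
  | zero => simp [rep]
  | succ n ih =>
    rw [rep_succ, ih, ← rep_add]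
    congr 1
    ring

theorem ch_step (n : ℕ) {r i : ℕ} (hi : i < r) {M : ℕ} (hM : 6 ≤ M) :
    Stp M n (ch n r i) (ch n r (i + 1)) := by
  obtain ⟨j, hj⟩ : ∃ j, r - i = j + 1 := ⟨r - i - 1, by omega⟩
  have hj' : r - (i + 1) = j := by omega
  have h1 : ∀ τ N : ℕ, τ < 2 → ∀ μ ∈ rep [τ] N, μ < M := by
    intro τ N hτ μ hμ
    have := mem_rep hμ
    simp only [List.mem_singleton] at this
    omega
  have h2 := Stp.mk (M := M) (n := n) (2 :: (PQ n r i).1) (rep [i % 2] (Mn n (j + 1)))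
    ((if i % 2 = 0 then 3 else 2) :: (rep [(i + 1) % 2] (n * Mn n j) ++
      [if i % 2 = 0 then 4 else 5])) (PQ n r i).2 ?_ ?_ ?_ ?_
  · have e1 : ch n r i = (2 :: (PQ n r i).1) ++ (rep (rep [i % 2] (Mn n (j + 1))) n ++
        (PQ n r i).2) := by
      rw [ch, rep_rep, hj]
      rfl
    have e2 : ch n r (i + 1) = (2 :: (PQ n r i).1) ++ (rep (rep [i % 2] (Mn n (j + 1))) n ++
        (((if i % 2 = 0 then 3 else 2) :: (rep [(i + 1) % 2] (n * Mn n j) ++
          [if i % 2 = 0 then 4 else 5])) ++ (rep (rep [i % 2] (Mn n (j + 1))) n ++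
            (PQ n r i).2))) := by
      rw [ch, PQ, rep_rep, hj, hj']
      simp
    rw [e1, e2]
    exact h2
  · intro h
    have := congrArg List.length h
    rw [rep_length] at this
    simp only [List.length_cons, List.length_nil] at this
    have := Mn_pos n (j + 1)
    omega
  · simp only [List.length_cons, List.length_append, rep_length, List.length_nil, Mn]
    omega
  · exact h1 _ _ (Nat.mod_lt _ (by norm_num))
  · intro μ hμ
    rcases List.mem_cons.1 hμ with rfl | hμ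
    · split_ifs <;> omega
    rcases List.mem_append.1 hμ with hμ | hμ
    · exact h1 _ _ (Nat.mod_lt _ (by norm_num)) μ hμ
    · simp only [List.mem_singleton] at hμ
      rw [hμ]
      split_ifs <;> omega

/-- The left contexts. -/
theorem PQ_left (hs : sz D = 2) (n r i : ℕ) : Pth D 2 (PQ n r i).1 ∧
    lc 2 (PQ n r i).1 % sz D = i % 2 ∧ smc 0 (PQ n r i).1 = 0 := by
  induction i with
  | zero =>
    refine ⟨trivial, ?_, rfl⟩
    rw [hs]
    change 2 % 2 = 0 % 2
    norm_num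
  | succ i ih =>
    obtain ⟨h1, h2, h3⟩ := ih
    have hi : i % 2 < 2 := Nat.mod_lt _ (by norm_num)
    obtain ⟨h4, h5⟩ := Pth_rep (D := D) (τ := i % 2) (by omega) (n * Mn n (r - i))
      (lc 2 (PQ n r i).1) h2
    have h6 : alw D (lc (lc 2 (PQ n r i).1) (rep [i % 2] (n * Mn n (r - i))))
        (if i % 2 = 0 then 3 else 2) := by
      unfold alw
      rw [hs] at h5 ⊢
      split_ifs <;> omega
    refine ⟨?_, ?_, ?_⟩
    · rw [PQ, Pth_append, Pth_append]
      exact ⟨h1, h4, h6, trivial⟩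
    · rw [PQ, lc_append, lc_append]
      change (if i % 2 = 0 then 3 else 2) % sz D = _
      rw [hs]
      split_ifs <;> omega
    · rw [PQ, smc_append, smc_append, h3, smc_rep hi]
      change sstm 0 (if i % 2 = 0 then 3 else 2) = 0
      split_ifs <;> rfl

/-- The right contexts. -/
theorem PQ_right (hs : sz D = 2) (n r i : ℕ) : (∀ h, h % sz D = i % 2 → Pth D h (PQ n r i).2) ∧
    smc 1 (PQ n r i).2 = 1 ∧ smc 3 (PQ n r i).2 = 3 ∧
      (i % 2 = 0 → smc 0 (PQ n r i).2 = 1 ∧ smc 2 (PQ n r i).2 = 3) ∧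
      (i % 2 = 1 → smc 0 (PQ n r i).2 = 3) := by
  induction i with
  | zero =>
    refine ⟨?_, rfl, rfl, fun _ => ⟨rfl, rfl⟩, fun h => absurd h (by norm_num)⟩
    intro h hh
    refine ⟨?_, trivial⟩
    unfold alw
    rw [hs] at hh ⊢
    omega
  | succ i ih =>
    obtain ⟨h1, h2, h3, h4, h5⟩ := ih
    have hi : i % 2 < 2 := Nat.mod_lt _ (by norm_num)
    have hsm : ∀ σ, smc σ (PQ n r (i + 1)).2 =
        smc (sstm σ (if i % 2 = 0 then 4 else 5)) (PQ n r i).2 := by
      intro σ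
      rw [PQ]
      change smc (sstm σ (if i % 2 = 0 then 4 else 5)) (rep [i % 2] (n * Mn n (r - i)) ++
        (PQ n r i).2) = _
      rw [smc_append, smc_rep hi]
    refine ⟨?_, ?_, ?_, ?_, ?_⟩
    · intro h hh
      rw [PQ]
      obtain ⟨h6, h7⟩ := Pth_rep (D := D) (τ := i % 2) (by omega) (n * Mn n (r - i))
        (if i % 2 = 0 then 4 else 5) (by rw [hs]; split_ifs <;> omega)
      refine ⟨?_, ?_⟩
      · unfold alw
        rw [hs] at hh ⊢
        split_ifs <;> omega
      · rw [Pth_append]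
        exact ⟨h6, h1 _ h7⟩
    · rw [hsm]
      have : sstm 1 (if i % 2 = 0 then 4 else 5) = 1 := by split_ifs <;> rfl
      rw [this, h2]
    · rw [hsm]
      have : sstm 3 (if i % 2 = 0 then 4 else 5) = 3 := by split_ifs <;> rfl
      rw [this, h3]
    · intro hi1
      have h6 : ¬ i % 2 = 0 := by omega
      rw [hsm, hsm, if_neg h6]
      exact ⟨h2, h3⟩
    · intro hi1
      have h6 : i % 2 = 0 := by omega
      rw [hsm, if_pos h6]
      exact (h4 h6).2

/-- **Full separation, the second direction.** -/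
theorem hardF (hs : sz D = 2) (t : ℕ)
    (h : FL (D.1 + 1) (ml2 D) (f2 D) (t + 2) ∈ B (t + 3)) :
    ∃ K ∈ ST (α := Fin D.1) (t + 2), lngs D 0 ⊆ K ∧ ∀ x ∈ lngs D 1, x ∉ K := by
  have hm : 2 < 3 * sz D := by omega
  obtain ⟨V, hVf, hV, hno⟩ := chain_hard t (X := f2 D) (Y := (f2 D)ᶜ) h (fun z hz => hz)
    (fun z hz hz' => FL_idec _ _ _ _ z hz (FL_idec _ _ _ _ z hz')) (by
      intro u hu n r
      refine ⟨ch n r, fun i hi => Relation.ReflTransGen.single (ch_step n hi (by omega)), ?_⟩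
      intro i _
      obtain ⟨h1, h2, h3⟩ := PQ_left hs n r i
      obtain ⟨h4, _, _, h5, h6⟩ := PQ_right hs n r i
      obtain ⟨h7, h8⟩ := Pth_rep (D := D) (τ := i % 2)
        (by have := Nat.mod_lt i (show 0 < 2 by norm_num); omega) (n * Mn n (r - i))
        (lc 2 (PQ n r i).1) h2
      have hp : Pth D 2 ((PQ n r i).1 ++ (rep [i % 2] (n * Mn n (r - i)) ++ (PQ n r i).2)) := by
        rw [Pth_append, Pth_append]
        exact ⟨h1, h7, h4 _ h8⟩
      have hl := lfold_wrd hm hu hp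
      have hlt : ∀ μ ∈ ch n r i, μ < 3 * sz D := by
        intro μ hμ
        rcases List.mem_cons.1 hμ with rfl | hμ
        · exact hm
        · exact Pth_lt hp μ hμ
      have hst : sfold D 0 (wrd D u (ch n r i)) = smc 0 (PQ n r i).2 := by
        rw [sfold_wrd hlt]
        have e : smc 0 (ch n r i) = smc 0 ((PQ n r i).1 ++
            (rep [i % 2] (n * Mn n (r - i)) ++ (PQ n r i).2)) := rfl
        rw [e, smc_append, h3, smc_append, smc_rep (Nat.mod_lt _ (by norm_num))]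
      constructor
      · intro h0 hcon
        rw [hst, (h5 h0).1] at hcon
        exact absurd hcon.2 (by norm_num)
      · intro h0 hcon
        exact hcon ⟨hl, by rw [hst, h6 h0]⟩)
  refine ⟨{w | ∃ w' ∈ lngs D 0, ∀ W ∈ V, (w' ∈ W ↔ w ∈ W)}, ?_, ?_, ?_⟩
  · refine mem_of_det (P := ST (t + 2)) (QB_ST _).empty (QB_ST _).compl (QB_ST _).union hVf
      (fun W hW => BC.base _ (hV W hW)) _ ?_
    rintro z z' hz ⟨w, h1, h2⟩
    exact ⟨w, h1, fun W hW => (h2 W hW).trans (hz W hW)⟩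
  · exact fun w hw => ⟨w, hw, fun W _ => Iff.rfl⟩
  · rintro x hx ⟨w, h1, h2⟩
    apply hno
    refine ⟨fun j => if j = 0 then w else x, ?_, ?_⟩
    · intro j hj
      rw [hs] at hj
      by_cases hj0 : j = 0
      · rw [hj0]
        simpa using h1
      · have : j = 1 := by omega
        rw [this]
        simpa using hx
    · intro W hW i _ j _
      have := h2 W hW
      by_cases hi : i = 0 <;> by_cases hj : j = 0 <;> simp [hi, hj, this]

theorem fullsep_iff (hs : sz D = 2) (t : ℕ) :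
    (∃ K ∈ ST (α := Fin D.1) (t + 2), lngs D 0 ⊆ K ∧ ∀ x ∈ lngs D 1, x ∉ K) ↔
      FL (D.1 + 1) (ml2 D) (f2 D) (t + 2) ∈ B (t + 3) :=
  ⟨fun ⟨_, hK, h1, h2⟩ => easyF hs t hK h1 h2, hardF hs t⟩

end Pool.Agent.Helper964_DD
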