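import Pool.Agent.Helper964_DD.Shift
import Pool.Agent.Helper964_DD.DefsST

/-!
# Quotients, and intersections of polynomials
-/

set_option autoImplicit false

namespace Pool.Agent.Helper964_DD

variable {α : Type}

/-- The two-sided quotient `p⁻¹ K q⁻¹`. -/
def quo (K : Set (List α)) (p q : List α) : Set (List α) := {u | p ++ (u ++ q) ∈ K}

/-- The language has only finitely many quotients. -/
def FQ (K : Set (List α)) : Prop := {Q | ∃ p q, Q = quo K p q}.Finite

theorem FQ.compl {K : Set (List α)} (h : FQ K) : FQ Kᶜ := by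
  refine (h.image (fun Q => Qᶜ)).subset ?_
  rintro _ ⟨p, q, rfl⟩
  exact ⟨quo K p q, ⟨p, q, rfl⟩, rfl⟩

theorem FQ.union {K M : Set (List α)} (h : FQ K) (h' : FQ M) : FQ (K ∪ M) := by
  refine ((h.prod h').image (fun Q => Q.1 ∪ Q.2)).subset ?_
  rintro _ ⟨p, q, rfl⟩
  exact ⟨(quo K p q, quo M p q), ⟨⟨p, q, rfl⟩, ⟨p, q, rfl⟩⟩, rfl⟩

theorem FQ_finite [Finite α] {K : Set (List α)} (h : K.Finite) : FQ K := by
  obtain ⟨n, hn⟩ := exists_length_bound h
  refine ((finite_length_lt (α := α) n).finite_subsets).subset ?_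
  rintro _ ⟨p, q, rfl⟩ u hu
  have := hn _ hu
  simp only [List.length_append] at this
  simp only [Set.mem_ofPred_eq]
  omega

theorem quo_cat (K M : Set (List α)) (p q : List α) : quo (cat K M) p q =
    (Set.sUnion {Q | ∃ p₁ p₂, p = p₁ ++ p₂ ∧ p₁ ∈ K ∧ Q = quo M p₂ q} ∪
      Set.sUnion {Q | ∃ q₁ q₂, q = q₁ ++ q₂ ∧ q₂ ∈ M ∧ Q = quo K p q₁}) ∪
      cat (quo K p []) (quo M [] q) := by
  ext u
  constructor
  · rintro ⟨s, hs, s', hs', e⟩
    rcases List.append_eq_append_iff.1 e with ⟨c, hc1, hc2⟩ | ⟨c, hc1, hc2⟩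
    · rcases List.append_eq_append_iff.1 hc2 with ⟨d, hd1, hd2⟩ | ⟨d, hd1, hd2⟩
      · left; right
        refine ⟨_, ⟨d, s', hd2, hs', rfl⟩, ?_⟩
        change p ++ (u ++ d) ∈ K
        rw [← hd1, ← hc1]
        exact hs
      · right
        refine ⟨c, ?_, d, ?_, hd1⟩
        · change p ++ (c ++ []) ∈ K
          rw [List.append_nil, ← hc1]
          exact hs
        · change [] ++ (d ++ q) ∈ M
          rw [List.nil_append, ← hd2]
          exact hs'
    · left; left
      refine ⟨_, ⟨s, c, hc1, hs, rfl⟩, ?_⟩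
      change c ++ (u ++ q) ∈ M
      rw [← hc2]
      exact hs'
  · rintro ((⟨_, ⟨p₁, p₂, rfl, h1, rfl⟩, h2⟩ | ⟨_, ⟨q₁, q₂, rfl, h1, rfl⟩, h2⟩) |
      ⟨u₁, h1, u₂, h2, rfl⟩)
    · exact ⟨p₁, h1, _, h2, by simp⟩
    · exact ⟨_, h2, q₂, h1, by simp⟩
    · refine ⟨_, h1, _, h2, by simp⟩

theorem FQ.cat {K M : Set (List α)} (h : FQ K) (h' : FQ M) : FQ (cat K M) := by
  refine ((h'.finite_subsets.prod (h.finite_subsets.prod (h.prod h'))).image
    (fun x : Set (Set (List α)) × Set (Set (List α)) × Set (List α) × Set (List α) =>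
      (Set.sUnion x.1 ∪ Set.sUnion x.2.1) ∪ Helper964_DD.cat x.2.2.1 x.2.2.2)).subset ?_
  rintro _ ⟨p, q, rfl⟩
  refine ⟨(_, _, _, _), ⟨?_, ?_, ?_, ?_⟩, (quo_cat K M p q).symm⟩
  · rintro _ ⟨p₁, p₂, _, _, rfl⟩
    exact ⟨_, _, rfl⟩
  · rintro _ ⟨q₁, q₂, _, _, rfl⟩
    exact ⟨_, _, rfl⟩
  · exact ⟨_, _, rfl⟩
  · exact ⟨_, _, rfl⟩

/-- Boolean algebras closed under quotients, whose members have only finitely many quotients. -/
structure QB (C : Set (Set (List α))) : Prop where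
  empty : ∅ ∈ C
  compl : ∀ L ∈ C, Lᶜ ∈ C
  union : ∀ L ∈ C, ∀ K ∈ C, L ∪ K ∈ C
  quo : ∀ L ∈ C, ∀ p q, quo L p q ∈ C
  fin : ∀ L ∈ C, FQ L

theorem QB.inter {C : Set (Set (List α))} (hC : QB C) {L K : Set (List α)} (hL : L ∈ C)
    (hK : K ∈ C) : L ∩ K ∈ C := by
  have := hC.compl _ (hC.union _ (hC.compl _ hL) _ (hC.compl _ hK))
  rwa [Set.compl_union, compl_compl, compl_compl] at this

theorem QB.univ {C : Set (Set (List α))} (hC : QB C) : Set.univ ∈ C := by
  have := hC.compl _ hC.empty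
  rwa [Set.compl_empty] at this

theorem QB.class_mem {C : Set (Set (List α))} (hC : QB C) {R : Set (Set (List α))}
    (hf : R.Finite) (hR : R ⊆ C) (x₀ : List α) : {x | ∀ Q ∈ R, (x ∈ Q ↔ x₀ ∈ Q)} ∈ C := by
  induction R, hf using Set.Finite.induction_on with
  | empty =>
    have : {x : List α | ∀ Q ∈ (∅ : Set (Set (List α))), (x ∈ Q ↔ x₀ ∈ Q)} = Set.univ := by
      ext x
      simp
    rw [this]
    exact hC.univ
  | @insert Q R _ _ ih =>
    have h1 := ih fun K hK => hR (Set.mem_insert_of_mem _ hK)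
    have h2 : Q ∈ C := hR (Set.mem_insert _ _)
    by_cases hx : x₀ ∈ Q
    · have : {x | ∀ K ∈ insert Q R, (x ∈ K ↔ x₀ ∈ K)} =
          Q ∩ {x | ∀ K ∈ R, (x ∈ K ↔ x₀ ∈ K)} := by
        ext x
        simp [hx]
      rw [this]
      exact hC.inter h2 h1
    · have : {x | ∀ K ∈ insert Q R, (x ∈ K ↔ x₀ ∈ K)} =
          Qᶜ ∩ {x | ∀ K ∈ R, (x ∈ K ↔ x₀ ∈ K)} := by
        ext x
        simp [hx]
      rw [this]
      exact hC.inter (hC.compl _ h2) h1

/-- The set of the words `x` with a given left quotient `(x a)⁻¹ M`. -/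
theorem QB.left_mem {C : Set (Set (List α))} (hC : QB C) {M : Set (List α)} (hM : M ∈ C) (a : α)
    (Q : Set (List α)) : {x | Helper964_DD.quo M (x ++ [a]) [] = Q} ∈ C := by
  by_cases h : ∃ x₀, Helper964_DD.quo M (x₀ ++ [a]) [] = Q
  · obtain ⟨x₀, rfl⟩ := h
    have hf : {Q | ∃ z, Q = Helper964_DD.quo M [] (a :: z)}.Finite :=
      (hC.fin M hM).subset fun Q ⟨z, hz⟩ => ⟨[], a :: z, hz⟩
    have := hC.class_mem hf (fun Q ⟨z, hz⟩ => hz ▸ hC.quo M hM _ _) x₀
    have e : {x | Helper964_DD.quo M (x ++ [a]) [] = Helper964_DD.quo M (x₀ ++ [a]) []} =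
        {x | ∀ Q ∈ {Q | ∃ z, Q = Helper964_DD.quo M [] (a :: z)}, (x ∈ Q ↔ x₀ ∈ Q)} := by
      ext x
      simp only [Set.mem_ofPred_eq, forall_exists_index, forall_eq_apply_imp_iff]
      constructor
      · intro h z
        have := Set.ext_iff.1 h z
        simpa [Helper964_DD.quo] using this
      · intro h
        ext z
        have := h z
        simpa [Helper964_DD.quo] using this
    rw [e]
    exact this
  · have e : {x | Helper964_DD.quo M (x ++ [a]) [] = Q} = ∅ := by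
      ext x
      simp only [Set.mem_ofPred_eq, Set.mem_empty_iff_false, iff_false]
      exact fun hx => h ⟨x, hx⟩
    rw [e]
    exact hC.empty

/-! ### Polynomials with marked products -/

theorem SPol_mono {C D : Set (Set (List α))} (h : C ⊆ D) {L : Set (List α)} (hL : SPol C L) :
    SPol D L := by
  induction hL with
  | empty => exact SPol.empty
  | base L hL => exact SPol.base L (h hL)
  | mark K a X hK _ ih => exact SPol.mark K a X (h hK) ih
  | union L K _ _ h1 h2 => exact SPol.union L K h1 h2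

theorem SPol_sUnion {C : Set (Set (List α))} {ι : Type} {s : Set ι} (hs : s.Finite)
    (F : ι → Set (List α)) (hF : ∀ i ∈ s, SPol C (F i)) : SPol C {w | ∃ i ∈ s, w ∈ F i} := by
  have := finset_union (P := {L | SPol C L}) SPol.empty (fun _ _ h h' => SPol.union _ _ h h')
    hs.toFinset F (fun i hi => hF i (by simpa using hi))
  simpa using this

theorem mrk_empty (K : Set (List α)) (a : α) : mrk K a ∅ = ∅ := by
  ext w
  simp [mrk]

theorem base_inter {C : Set (Set (List α))} (hC : QB C) {Y : Set (List α)} (hY : SPol C Y) :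
    ∀ K ∈ C, SPol C (K ∩ Y) := by
  induction hY with
  | empty => intro K _; rw [Set.inter_empty]; exact SPol.empty
  | base M hM => intro K hK; exact SPol.base _ (hC.inter hK hM)
  | mark M b Y hM _ ih =>
    intro K hK
    have e : K ∩ mrk M b Y = {w | ∃ Q ∈ {Q | ∃ p q, Q = quo K p q},
        w ∈ mrk (M ∩ {y | quo K (y ++ [b]) [] = Q}) b (Q ∩ Y)} := by
      ext w
      constructor
      · rintro ⟨hw, y, hy, y', hy', rfl⟩
        refine ⟨quo K (y ++ [b]) [], ⟨_, _, rfl⟩, y, ⟨hy, rfl⟩, y', ⟨?_, hy'⟩, rfl⟩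
        change (y ++ [b]) ++ (y' ++ []) ∈ K
        simpa using hw
      · rintro ⟨Q, _, y, ⟨hy, rfl⟩, y', ⟨h1, h2⟩, rfl⟩
        refine ⟨?_, y, hy, y', h2, rfl⟩
        have : (y ++ [b]) ++ (y' ++ []) ∈ K := h1
        simpa using this
    rw [e]
    refine SPol_sUnion (hC.fin K hK) _ ?_
    rintro Q ⟨p, q, rfl⟩
    exact SPol.mark _ b _ (hC.inter hM (hC.left_mem hK b _)) (ih _ (hC.quo K hK p q))
  | union Y Y' _ _ h1 h2 =>
    intro K hK
    rw [Set.inter_union_distrib_left]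
    exact SPol.union _ _ (h1 K hK) (h2 K hK)

theorem mrk_inter_mrk (K M X Y : Set (List α)) (a b : α) :
    mrk K a X ∩ mrk M b Y =
      ({w | a = b ∧ w ∈ mrk (K ∩ M) a (X ∩ Y)} ∪
      {w | ∃ Q ∈ {Q | ∃ p q, Q = quo M p q},
        w ∈ mrk (K ∩ {x | quo M (x ++ [a]) [] = Q}) a (X ∩ mrk Q b Y)}) ∪
      {w | ∃ Q ∈ {Q | ∃ p q, Q = quo K p q},
        w ∈ mrk (M ∩ {y | quo K (y ++ [b]) [] = Q}) b (mrk Q a X ∩ Y)} := by
  ext w
  constructor
  · rintro ⟨⟨x, hx, x', hx', rfl⟩, y, hy, y', hy', e⟩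
    rcases List.append_eq_append_iff.1 e with ⟨c, hc1, hc2⟩ | ⟨c, hc1, hc2⟩
    · -- y = x ++ c, a :: x' = c ++ b :: y'
      cases c with
      | nil =>
        simp only [List.nil_append, List.cons.injEq] at hc2
        left; left
        refine ⟨hc2.1, x, ⟨hx, ?_⟩, x', ⟨hx', ?_⟩, rfl⟩
        · rw [hc1] at hy; simpa using hy
        · rw [hc2.2]; exact hy'
      | cons c0 c =>
        simp only [List.cons_append, List.cons.injEq] at hc2
        obtain ⟨rfl, rfl⟩ := hc2
        left; right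
        refine ⟨quo M (x ++ [a]) [], ⟨_, _, rfl⟩, x, ⟨hx, rfl⟩, _, ⟨hx', c, ?_, y', hy', rfl⟩, rfl⟩
        change (x ++ [a]) ++ (c ++ []) ∈ M
        rw [hc1] at hy
        simpa using hy
    · cases c with
      | nil =>
        simp only [List.nil_append, List.cons.injEq] at hc2
        left; left
        refine ⟨hc2.1.symm, x, ⟨hx, ?_⟩, x', ⟨hx', ?_⟩, rfl⟩
        · rw [hc1]; simpa using hy
        · rw [← hc2.2]; exact hy'
      | cons c0 c =>
        simp only [List.cons_append, List.cons.injEq] at hc2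
        obtain ⟨rfl, rfl⟩ := hc2
        right
        refine ⟨quo K (y ++ [b]) [], ⟨_, _, rfl⟩, y, ⟨hy, rfl⟩, _,
          ⟨⟨c, ?_, x', hx', rfl⟩, hy'⟩, ?_⟩
        · change (y ++ [b]) ++ (c ++ []) ∈ K
          rw [hc1] at hx
          simpa using hx
        · rw [hc1]
          simp
  · rintro ((⟨rfl, x, ⟨h1, h2⟩, x', ⟨h3, h4⟩, rfl⟩ |
      ⟨_, _, x, ⟨h1, rfl⟩, _, ⟨h3, z, h4, y', h5, rfl⟩, rfl⟩) |
      ⟨_, _, y, ⟨h1, rfl⟩, _, ⟨⟨z, h3, x', h4, rfl⟩, h5⟩, rfl⟩)
    · exact ⟨⟨x, h1, x', h3, rfl⟩, x, h2, x', h4, rfl⟩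
    · refine ⟨⟨x, h1, _, h3, rfl⟩, x ++ a :: z, ?_, y', h5, by simp⟩
      have : (x ++ [a]) ++ (z ++ []) ∈ M := h4
      simpa using this
    · refine ⟨⟨y ++ b :: z, ?_, x', h4, by simp⟩, y, h1, _, h5, rfl⟩
      have : (y ++ [b]) ++ (z ++ []) ∈ K := h3
      simpa using this

/-- **Polynomials are closed under intersection** (Arfi). -/
theorem SPol_inter {C : Set (Set (List α))} (hC : QB C) {L : Set (List α)} (hL : SPol C L) :
    ∀ Y, SPol C Y → SPol C (L ∩ Y) := by
  induction hL with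
  | empty => intro Y _; rw [Set.empty_inter]; exact SPol.empty
  | base K hK => intro Y hY; exact base_inter hC hY K hK
  | mark K a X hK hX ih =>
    intro Y hY
    induction hY generalizing K with
    | empty => rw [Set.inter_empty]; exact SPol.empty
    | base M hM =>
      rw [Set.inter_comm]
      exact base_inter hC (SPol.mark K a X hK hX) M hM
    | mark M b Y hM hY ihY =>
      rw [mrk_inter_mrk]
      refine SPol.union _ _ (SPol.union _ _ ?_ ?_) ?_
      · by_cases hab : a = b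
        · have : {w | a = b ∧ w ∈ mrk (K ∩ M) a (X ∩ Y)} = mrk (K ∩ M) a (X ∩ Y) := by
            ext w
            simp [hab]
          rw [this]
          exact SPol.mark _ a _ (hC.inter hK hM) (ih Y hY)
        · have : {w | a = b ∧ w ∈ mrk (K ∩ M) a (X ∩ Y)} = ∅ := by
            ext w
            simp [hab]
          rw [this]
          exact SPol.empty
      · refine SPol_sUnion (hC.fin M hM) _ ?_
        rintro Q ⟨p, q, rfl⟩
        exact SPol.mark _ a _ (hC.inter hK (hC.left_mem hM a _))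
          (ih _ (SPol.mark _ b _ (hC.quo M hM p q) hY))
      · refine SPol_sUnion (hC.fin K hK) _ ?_
        rintro Q ⟨p, q, rfl⟩
        exact SPol.mark _ b _ (hC.inter hM (hC.left_mem hK b _))
          (ihY _ (hC.quo K hK p q))
    | union Y Y' _ _ h1 h2 =>
      rw [Set.inter_union_distrib_left]
      exact SPol.union _ _ (h1 K hK) (h2 K hK)
  | union L K _ _ h1 h2 =>
    intro Y hY
    rw [Set.union_inter_distrib_right]
    exact SPol.union _ _ (h1 Y hY) (h2 Y hY)

/-! ### The levels of the dot-depth hierarchy -/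

theorem quo_eq_pre (K : Set (List α)) (p q : List α) : quo K p q = pre (fun a => [a]) K p q := by
  ext u
  simp [quo, pre]

theorem FQ_prodL [Finite α] (m : List (Set (List α))) (h : ∀ K ∈ m, FQ K) : FQ (prodL m) := by
  induction m with
  | nil => exact FQ_finite (Set.finite_singleton _)
  | cons K m ih => exact (h K (by simp)).cat (ih fun K' hK' => h K' (by simp [hK']))

theorem FQ_B [Finite α] (i : ℕ) : ∀ K ∈ B (α := α) i, FQ K := by
  induction i with
  | zero =>
    rintro K (h | h)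
    · exact FQ_finite h
    · have := (FQ_finite h).compl
      rwa [compl_compl] at this
  | succ i ih =>
    refine B_induction ?_ (fun L h => h.compl) (fun L K h h' => h.union h')
    rintro L ⟨m, hm, rfl⟩
    exact FQ_prodL m fun K hK => ih K (hm K hK)

theorem quo_mem [Finite α] {i : ℕ} {K : Set (List α)} (hK : K ∈ B i) (p q : List α) :
    quo K p q ∈ B i := by
  rw [quo_eq_pre]
  exact (pre_mem (fun a => [a]) (by simp) i).1 K hK p q

theorem quo_Pol [Finite α] {i : ℕ} {K : Set (List α)} (hK : Pol (B i) K) (p q : List α) :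
    Pol (B i) (quo K p q) := by
  rw [quo_eq_pre]
  exact (pre_mem (fun a => [a]) (by simp) i).2 K hK p q

theorem QB_B [Finite α] (i : ℕ) : QB (B (α := α) i) where
  empty := empty_mem i
  compl _ h := B_compl h
  union _ h _ h' := B_union h h'
  quo _ h p q := quo_mem h p q
  fin := FQ_B i

theorem Pol_of_SPol {i : ℕ} {L : Set (List α)} (h : SPol (B i) L) : Pol (B i) L := by
  induction h with
  | empty => exact Pol.empty
  | base L h => exact Pol_sub h
  | mark K a X hK _ ih => exact ((tgt_B i).mark 0 a K X hK ih)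
  | union L K _ _ h1 h2 => exact Pol.union _ _ h1 h2

theorem cat_eq (K M : Set (List α)) :
    cat K M = {w | [] ∈ M ∧ w ∈ K} ∪ {w | ∃ a, w ∈ mrk K a (quo M [a] [])} := by
  ext w
  constructor
  · rintro ⟨u, hu, v, hv, rfl⟩
    cases v with
    | nil => exact Or.inl ⟨hv, by simpa using hu⟩
    | cons a v => exact Or.inr ⟨a, u, hu, v, by simpa [quo] using hv, rfl⟩
  · rintro (⟨h1, h2⟩ | ⟨a, u, hu, v, hv, rfl⟩)
    · exact ⟨w, h2, [], h1, by simp⟩
    · exact ⟨u, hu, a :: v, by simpa [quo] using hv, rfl⟩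

theorem cat_mrk_eq (K M X : Set (List α)) (b : α) :
    cat K (mrk M b X) = {w | [] ∈ M ∧ w ∈ mrk K b X} ∪
      {w | ∃ a, w ∈ mrk K a (mrk (quo M [a] []) b X)} := by
  ext w
  constructor
  · rintro ⟨u, hu, _, ⟨v, hv, x, hx, rfl⟩, rfl⟩
    cases v with
    | nil => exact Or.inl ⟨hv, u, hu, x, hx, rfl⟩
    | cons a v => exact Or.inr ⟨a, u, hu, _, ⟨v, by simpa [quo] using hv, x, hx, rfl⟩, rfl⟩
  · rintro (⟨h1, u, hu, x, hx, rfl⟩ | ⟨a, u, hu, _, ⟨v, hv, x, hx, rfl⟩, rfl⟩)
    · exact ⟨u, hu, _, ⟨[], h1, x, hx, rfl⟩, rfl⟩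
    · exact ⟨u, hu, _, ⟨a :: v, by simpa [quo] using hv, x, hx, rfl⟩, rfl⟩

theorem SPol_cond {C : Set (Set (List α))} {P : Prop} {X : Set (List α)} (hX : SPol C X) :
    SPol C {w | P ∧ w ∈ X} := by
  by_cases h : P
  · have : {w | P ∧ w ∈ X} = X := by
      ext w
      simp [h]
    rw [this]
    exact hX
  · have : {w | P ∧ w ∈ X} = ∅ := by
      ext w
      simp [h]
    rw [this]
    exact SPol.empty

theorem SPol_cat [Finite α] {C : Set (Set (List α))} (hC : QB C) {K : Set (List α)} (hK : K ∈ C)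
    {X : Set (List α)} (hX : SPol C X) : SPol C (cat K X) := by
  induction hX with
  | empty => rw [cat_empty]; exact SPol.empty
  | base M hM =>
    rw [cat_eq]
    refine SPol.union _ _ (SPol_cond (SPol.base K hK)) ?_
    refine finite_union (P := {L | SPol C L}) SPol.empty (fun _ _ h h' => SPol.union _ _ h h') _
      fun a => ?_
    exact SPol.mark K a _ hK (SPol.base _ (hC.quo M hM _ _))
  | mark M b X hM hX _ =>
    rw [cat_mrk_eq]
    refine SPol.union _ _ (SPol_cond (SPol.mark K b X hK hX)) ?_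
    refine finite_union (P := {L | SPol C L}) SPol.empty (fun _ _ h h' => SPol.union _ _ h h') _
      fun a => ?_
    exact SPol.mark K a _ hK (SPol.mark _ b X (hC.quo M hM _ _) hX)
  | union L M _ _ h1 h2 => rw [cat_union]; exact SPol.union _ _ h1 h2

theorem SPol_of_Pol [Finite α] {i : ℕ} {L : Set (List α)} (h : Pol (B i) L) : SPol (B i) L := by
  induction h with
  | empty => exact SPol.empty
  | base L h =>
    obtain ⟨m, hm, rfl⟩ := h
    induction m with
    | nil => exact SPol.base _ (single_mem i _)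
    | cons K m ih =>
      exact SPol_cat (QB_B i) (hm K (by simp)) (ih fun K' h => hm K' (by simp [h]))
  | union L K _ _ h1 h2 => exact SPol.union _ _ h1 h2

/-- The half levels are closed under intersection. -/
theorem Pol_inter [Finite α] {i : ℕ} {L K : Set (List α)} (h : Pol (B i) L) (h' : Pol (B i) K) :
    Pol (B i) (L ∩ K) :=
  Pol_of_SPol (SPol_inter (QB_B i) (SPol_of_Pol h) K (SPol_of_Pol h'))

/-- Separation of words gives separation of languages. -/
theorem exists_separator {P : Set (Set (List α))} (h0 : ∅ ∈ P) (h1 : Set.univ ∈ P)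
    (hU : ∀ L K, L ∈ P → K ∈ P → L ∪ K ∈ P) (hI : ∀ L K, L ∈ P → K ∈ P → L ∩ K ∈ P)
    {ι : Type} {s : Set ι} (hs : s.Finite) (F : ι → Set (List α)) (hF : ∀ i ∈ s, F i ∈ P)
    (L₁ L₂ : Set (List α)) (h : ∀ x ∈ L₁, ∀ y ∈ L₂, ∃ i ∈ s, y ∈ F i ∧ x ∉ F i) :
    ∃ K ∈ P, L₂ ⊆ K ∧ ∀ x ∈ L₁, x ∉ K := by
  classical
  have inter : ∀ t : Finset ι, (∀ i ∈ t, F i ∈ P) → {x | ∀ i ∈ t, x ∈ F i} ∈ P := by
    intro t
    induction t using Finset.induction_on with
    | empty =>
      intro _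
      have : {x : List α | ∀ i ∈ (∅ : Finset ι), x ∈ F i} = Set.univ := by
        ext x
        simp
      rw [this]
      exact h1
    | insert a t ha ih =>
      intro ht
      have : {x | ∀ i ∈ insert a t, x ∈ F i} = F a ∩ {x | ∀ i ∈ t, x ∈ F i} := by
        ext x
        simp
      rw [this]
      exact hI _ _ (ht a (by simp)) (ih fun i hi => ht i (by simp [hi]))
  let S : Finset ι := hs.toFinset
  have hS : ∀ i, i ∈ S ↔ i ∈ s := fun i => by simp [S]
  let D : List α → Finset ι := fun y => S.filter fun i => y ∈ F i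
  refine ⟨{x | ∃ t ∈ S.powerset, x ∈ {x | (∃ y ∈ L₂, D y = t) ∧ ∀ i ∈ t, x ∈ F i}}, ?_, ?_, ?_⟩
  · refine finset_union h0 hU _ _ fun t ht => ?_
    by_cases hy : ∃ y ∈ L₂, D y = t
    · have : {x | (∃ y ∈ L₂, D y = t) ∧ ∀ i ∈ t, x ∈ F i} = {x | ∀ i ∈ t, x ∈ F i} := by
        ext x
        simp only [Set.mem_ofPred_eq, and_iff_right_iff_imp]
        exact fun _ => hy
      rw [this]
      exact inter t fun i hi => hF i ((hS i).1 (Finset.mem_powerset.1 ht hi))
    · have : {x | (∃ y ∈ L₂, D y = t) ∧ ∀ i ∈ t, x ∈ F i} = ∅ := by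
        ext x
        simp only [Set.mem_ofPred_eq, Set.mem_empty_iff_false, iff_false, not_and]
        exact fun h => absurd h hy
      rw [this]
      exact h0
  · intro y hy
    refine ⟨D y, by simp [D], ⟨y, hy, rfl⟩, fun i hi => ?_⟩
    exact (Finset.mem_filter.1 hi).2
  · rintro x hx ⟨t, _, ⟨y, hy, rfl⟩, hall⟩
    obtain ⟨i, hi, h3, h4⟩ := h x hx y hy
    exact h4 (hall i (Finset.mem_filter.2 ⟨(hS i).2 hi, h3⟩))

end Pool.Agent.Helper964_DD
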