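import Pool.Agent.Helper964_DD.STlift
import Pool.Agent.Helper964_DD.Aut
import Pool.Agent.Helper964_DD.BarAut

/-!
# Rows of blocks
-/

set_option autoImplicit false

namespace Pool.Agent.Helper964_DD

/-- The transitions of the automaton which checks rows of blocks. The letter `k` is the mark, `k + 1`
and `k + 2` are two hidden letters. The phases are: 0 (start), 1 (after a mark, first part),
2 (in a block of the first part), 3 (in the middle block), 4 (after a mark, second part), 5 (in a block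
of the second part), 6 (error). -/
def gst (k : ℕ) (c₁ c₂ : List ℕ × List ℕ) (s : ℕ × ℕ) (a : ℕ) : ℕ × ℕ :=
  if s.2 = 0 then (if a = k then (0, 1) else (0, 6))
  else if s.2 = 1 then (if a = k + 2 then (0, 2) else if a = k + 1 then (0, 3) else (0, 6))
  else if s.2 = 2 then (if a < k then (tr k c₁.1 s.1 a, 2)
    else if a = k ∧ memB c₁.2 s.1 = true then (0, 1) else (0, 6))
  else if s.2 = 3 then (if a < k then (0, 3) else if a = k then (0, 4) else (0, 6))
  else if s.2 = 4 then (if a = k + 2 then (0, 5) else (0, 6))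
  else if s.2 = 5 then (if a < k then (tr k c₂.1 s.1 a, 5)
    else if a = k ∧ memB c₂.2 s.1 = true then (0, 4) else (0, 6))
  else (0, 6)

/-- The run of this automaton. -/
def gfold (k : ℕ) (c₁ c₂ : List ℕ × List ℕ) (s : ℕ × ℕ) (y : List (Fin (k + 3))) : ℕ × ℕ :=
  y.foldl (fun (s : ℕ × ℕ) (a : Fin (k + 3)) => gst k c₁ c₂ s (a : ℕ)) s

/-- The mark. -/
def dl (k : ℕ) : Fin (k + 3) := ⟨k, by omega⟩

/-- The hidden letter of the middle block. -/
def hu (k : ℕ) : Fin (k + 3) := ⟨k + 1, by omega⟩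

/-- The hidden letter of the other blocks. -/
def hm (k : ℕ) : Fin (k + 3) := ⟨k + 2, by omega⟩

/-- The visible letters. -/
def e3 (k : ℕ) (a : Fin k) : Fin (k + 3) := ⟨a, by omega⟩

variable {k : ℕ} {c₁ c₂ : List ℕ × List ℕ}

theorem gfold_nil (s : ℕ × ℕ) : gfold k c₁ c₂ s [] = s := rfl

theorem gfold_cons (s : ℕ × ℕ) (a : Fin (k + 3)) (y : List (Fin (k + 3))) :
    gfold k c₁ c₂ s (a :: y) = gfold k c₁ c₂ (gst k c₁ c₂ s a) y := rfl

theorem gfold_append (s : ℕ × ℕ) (y y' : List (Fin (k + 3))) :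
    gfold k c₁ c₂ s (y ++ y') = gfold k c₁ c₂ (gfold k c₁ c₂ s y) y' := by
  simp [gfold, List.foldl_append]

theorem gst_six (x a : ℕ) : gst k c₁ c₂ (x, 6) a = (0, 6) := by simp [gst]

theorem gfold_six (y : List (Fin (k + 3))) : ∀ x, (gfold k c₁ c₂ (x, 6) y).2 = 6 := by
  induction y with
  | nil => intro x; rfl
  | cons a y ih => intro x; rw [gfold_cons, gst_six]; exact ih 0

theorem gst_mark (s : ℕ × ℕ) : gst k c₁ c₂ s (dl k : Fin (k + 3)) = (0, 1) ∨
    gst k c₁ c₂ s (dl k : Fin (k + 3)) = (0, 4) ∨ gst k c₁ c₂ s (dl k : Fin (k + 3)) = (0, 6) := by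
  have h1 : ((dl k : Fin (k + 3)) : ℕ) = k := rfl
  rw [h1]
  unfold gst
  split_ifs <;> first | omega | simp

theorem gfold_closed (y : List (Fin (k + 3))) : ∀ x ph, ph = 3 ∨ ph = 4 ∨ ph = 5 ∨ ph = 6 →
    (gfold k c₁ c₂ (x, ph) y).2 ≠ 1 := by
  induction y with
  | nil =>
    intro x ph hph
    simp only [gfold_nil]
    omega
  | cons a y ih =>
    intro x ph hph
    rw [gfold_cons]
    have h : (gst k c₁ c₂ (x, ph) (a : ℕ)).2 = 3 ∨ (gst k c₁ c₂ (x, ph) (a : ℕ)).2 = 4 ∨
        (gst k c₁ c₂ (x, ph) (a : ℕ)).2 = 5 ∨ (gst k c₁ c₂ (x, ph) (a : ℕ)).2 = 6 := by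
      unfold gst
      rcases hph with rfl | rfl | rfl | rfl <;> simp only [] <;> split_ifs <;>
        first | omega | (simp; done) | simp_all
    exact ih _ _ h

theorem gfold_no_mark (y : List (Fin (k + 3))) (hy : ∀ c ∈ y, (c : ℕ) ≠ k) : ∀ x ph,
    ph = 1 ∨ ph = 2 ∨ ph = 3 ∨ ph = 6 → (gfold k c₁ c₂ (x, ph) y).2 ≠ 4 := by
  induction y with
  | nil =>
    intro x ph hph
    simp only [gfold_nil]
    omega
  | cons a y ih =>
    intro x ph hph
    rw [gfold_cons]
    have ha := hy a (by simp)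
    have h : (gst k c₁ c₂ (x, ph) (a : ℕ)).2 = 1 ∨ (gst k c₁ c₂ (x, ph) (a : ℕ)).2 = 2 ∨
        (gst k c₁ c₂ (x, ph) (a : ℕ)).2 = 3 ∨ (gst k c₁ c₂ (x, ph) (a : ℕ)).2 = 6 := by
      unfold gst
      rcases hph with rfl | rfl | rfl | rfl <;> simp only [] <;> split_ifs <;>
        first | omega | (simp; done) | simp_all
    exact ih (fun c hc => hy c (by simp [hc])) _ _ h

theorem gfold_two (b : List (Fin (k + 3))) (hb : ∀ c ∈ b, (c : ℕ) ≠ k) : ∀ (q : ℕ)
    (r : List (Fin (k + 3))), (gfold k c₁ c₂ (q, 2) (b ++ dl k :: r)).2 ≠ 6 →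
      run k c₁.1 q (vp k (k + 3) b) ∈ c₁.2 ∧
      gfold k c₁ c₂ (q, 2) (b ++ dl k :: r) = gfold k c₁ c₂ (0, 1) r := by
  induction b with
  | nil =>
    intro q r h
    rw [List.nil_append, gfold_cons] at h ⊢
    have h1 : ((dl k : Fin (k + 3)) : ℕ) = k := rfl
    by_cases hq : q ∈ c₁.2
    · have e : gst k c₁ c₂ (q, 2) (dl k : Fin (k + 3)) = (0, 1) := by
        rw [h1]
        simp [gst, memB_iff, hq]
      rw [e]
      exact ⟨hq, rfl⟩
    · have e : gst k c₁ c₂ (q, 2) (dl k : Fin (k + 3)) = (0, 6) := by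
        rw [h1]
        simp [gst, memB_iff, hq]
      rw [e, gfold_six] at h
      exact absurd rfl h
  | cons c b ih =>
    intro q r h
    rw [List.cons_append, gfold_cons] at h ⊢
    have hc := hb c (by simp)
    by_cases h1 : (c : ℕ) < k
    · have e : gst k c₁ c₂ (q, 2) (c : ℕ) = (tr k c₁.1 q c, 2) := by simp [gst, h1]
      rw [e] at h ⊢
      rw [vp_cons_lt h1]
      exact ih (fun d hd => hb d (by simp [hd])) _ r h
    · have e : gst k c₁ c₂ (q, 2) (c : ℕ) = (0, 6) := by simp [gst, h1, hc]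
      rw [e, gfold_six] at h
      exact absurd rfl h

theorem gfold_five (b : List (Fin (k + 3))) (hb : ∀ c ∈ b, (c : ℕ) ≠ k) : ∀ (q : ℕ)
    (r : List (Fin (k + 3))), (gfold k c₁ c₂ (q, 5) (b ++ dl k :: r)).2 ≠ 6 →
      run k c₂.1 q (vp k (k + 3) b) ∈ c₂.2 ∧
      gfold k c₁ c₂ (q, 5) (b ++ dl k :: r) = gfold k c₁ c₂ (0, 4) r := by
  induction b with
  | nil =>
    intro q r h
    rw [List.nil_append, gfold_cons] at h ⊢
    have h1 : ((dl k : Fin (k + 3)) : ℕ) = k := rfl
    by_cases hq : q ∈ c₂.2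
    · have e : gst k c₁ c₂ (q, 5) (dl k : Fin (k + 3)) = (0, 4) := by
        rw [h1]
        simp [gst, memB_iff, hq]
      rw [e]
      exact ⟨hq, rfl⟩
    · have e : gst k c₁ c₂ (q, 5) (dl k : Fin (k + 3)) = (0, 6) := by
        rw [h1]
        simp [gst, memB_iff, hq]
      rw [e, gfold_six] at h
      exact absurd rfl h
  | cons c b ih =>
    intro q r h
    rw [List.cons_append, gfold_cons] at h ⊢
    have hc := hb c (by simp)
    by_cases h1 : (c : ℕ) < k
    · have e : gst k c₁ c₂ (q, 5) (c : ℕ) = (tr k c₂.1 q c, 5) := by simp [gst, h1]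
      rw [e] at h ⊢
      rw [vp_cons_lt h1]
      exact ih (fun d hd => hb d (by simp [hd])) _ r h
    · have e : gst k c₁ c₂ (q, 5) (c : ℕ) = (0, 6) := by simp [gst, h1, hc]
      rw [e, gfold_six] at h
      exact absurd rfl h

theorem gfold_three (b : List (Fin (k + 3))) (hb : ∀ c ∈ b, (c : ℕ) ≠ k) : ∀ (x : ℕ)
    (r : List (Fin (k + 3))), (gfold k c₁ c₂ (x, 3) (b ++ r)).2 ≠ 6 →
      ∀ c ∈ b, (c : ℕ) < k := by
  induction b with
  | nil => intro x r _ c hc; cases hc
  | cons c b ih =>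
    intro x r h
    rw [List.cons_append, gfold_cons] at h
    have hc := hb c (by simp)
    by_cases h1 : (c : ℕ) < k
    · have e : gst k c₁ c₂ (x, 3) (c : ℕ) = (0, 3) := by simp [gst, h1]
      rw [e] at h
      have := ih (fun d hd => hb d (by simp [hd])) _ r h
      intro d hd
      rcases List.mem_cons.1 hd with rfl | hd
      · exact h1
      · exact this d hd
    · have e : gst k c₁ c₂ (x, 3) (c : ℕ) = (0, 6) := by simp [gst, h1, hc]
      rw [e, gfold_six] at h
      exact absurd rfl h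

theorem gfold_one (b : List (Fin (k + 3))) (hb : ∀ c ∈ b, (c : ℕ) ≠ k)
    (hb' : ∃ c ∈ b, (c : ℕ) = k + 2) (r : List (Fin (k + 3)))
    (h : (gfold k c₁ c₂ (0, 1) (b ++ dl k :: r)).2 ≠ 6) :
      vp k (k + 3) b ∈ lang k c₁ ∧
      gfold k c₁ c₂ (0, 1) (b ++ dl k :: r) = gfold k c₁ c₂ (0, 1) r := by
  cases b with
  | nil =>
    obtain ⟨c, hc, _⟩ := hb'
    cases hc
  | cons c b =>
    have hbb : ∀ d ∈ b, (d : ℕ) ≠ k := fun d hd => hb d (by simp [hd])
    rw [List.cons_append, gfold_cons] at h ⊢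
    by_cases h2 : (c : ℕ) = k + 2
    · have e : gst k c₁ c₂ (0, 1) (c : ℕ) = (0, 2) := by simp [gst, h2]
      rw [e] at h ⊢
      rw [vp_cons_ge (by omega)]
      exact gfold_two b hbb 0 r h
    · by_cases h1 : (c : ℕ) = k + 1
      · have e : gst k c₁ c₂ (0, 1) (c : ℕ) = (0, 3) := by simp [gst, h1]
        rw [e] at h
        have h3 := gfold_three b hbb 0 _ h
        obtain ⟨d, hd, hd2⟩ := hb'
        rcases List.mem_cons.1 hd with rfl | hd
        · omega
        · have := h3 d hd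
          omega
      · have e : gst k c₁ c₂ (0, 1) (c : ℕ) = (0, 6) := by simp [gst, h1, h2]
        rw [e, gfold_six] at h
        exact absurd rfl h

theorem gfold_four (b : List (Fin (k + 3))) (hb : ∀ c ∈ b, (c : ℕ) ≠ k)
    (r : List (Fin (k + 3))) (h : (gfold k c₁ c₂ (0, 4) (b ++ dl k :: r)).2 ≠ 6) :
      vp k (k + 3) b ∈ lang k c₂ := by
  cases b with
  | nil =>
    rw [List.nil_append, gfold_cons] at h
    have e : gst k c₁ c₂ (0, 4) (dl k : Fin (k + 3)) = (0, 6) := by simp [gst, dl]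
    rw [e, gfold_six] at h
    exact absurd rfl h
  | cons c b =>
    rw [List.cons_append, gfold_cons] at h
    by_cases h2 : (c : ℕ) = k + 2
    · have e : gst k c₁ c₂ (0, 4) (c : ℕ) = (0, 5) := by simp [gst, h2]
      rw [e] at h
      rw [vp_cons_ge (by omega)]
      exact (gfold_five b (fun d hd => hb d (by simp [hd])) 0 r h).1
    · have e : gst k c₁ c₂ (0, 4) (c : ℕ) = (0, 6) := by simp [gst, h2]
      rw [e, gfold_six] at h
      exact absurd rfl h

/-! ### The structure of the rows of blocks -/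

/-- The rows without the first mark. -/
def rtail (k : ℕ) (ws : List (List (Fin k))) : List (Fin (k + 3)) :=
  ws.flatMap (fun w => hm k :: (w.map (e3 k) ++ [dl k]))

theorem rtail_cons (w : List (Fin k)) (ws : List (List (Fin k))) :
    rtail k (w :: ws) = (hm k :: w.map (e3 k)) ++ dl k :: rtail k ws := by
  simp [rtail]

theorem row_structure (y : List (Fin (k + 3))) :
    ((gfold k c₁ c₂ (0, 1) y).2 = 1 → ∃ ws, y = rtail k ws ∧ ∀ w ∈ ws, w ∈ lang k c₁) ∧
    (∀ q, (gfold k c₁ c₂ (q, 2) y).2 = 1 → ∃ w ws, y = w.map (e3 k) ++ dl k :: rtail k ws ∧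
      run k c₁.1 q w ∈ c₁.2 ∧ ∀ w ∈ ws, w ∈ lang k c₁) := by
  induction y with
  | nil =>
    refine ⟨fun _ => ⟨[], rfl, by simp⟩, ?_⟩
    intro q h
    simp [gfold_nil] at h
  | cons c y ih =>
    refine ⟨?_, ?_⟩
    · intro h
      rw [gfold_cons] at h
      by_cases h2 : (c : ℕ) = k + 2
      · have e : gst k c₁ c₂ (0, 1) (c : ℕ) = (0, 2) := by simp [gst, h2]
        rw [e] at h
        obtain ⟨w, ws, h3, h4, h5⟩ := ih.2 0 h
        refine ⟨w :: ws, ?_, ?_⟩
        · rw [h3, rtail_cons]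
          have : c = hm k := Fin.ext h2
          rw [this]
          rfl
        · intro w' hw'
          rcases List.mem_cons.1 hw' with rfl | hw'
          · exact h4
          · exact h5 w' hw'
      · by_cases h1 : (c : ℕ) = k + 1
        · have e : gst k c₁ c₂ (0, 1) (c : ℕ) = (0, 3) := by simp [gst, h1]
          rw [e] at h
          exact absurd h (gfold_closed y 0 3 (by omega))
        · have e : gst k c₁ c₂ (0, 1) (c : ℕ) = (0, 6) := by simp [gst, h1, h2]
          rw [e] at h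
          exact absurd h (gfold_closed y 0 6 (by omega))
    · intro q h
      rw [gfold_cons] at h
      by_cases h1 : (c : ℕ) < k
      · have e : gst k c₁ c₂ (q, 2) (c : ℕ) = (tr k c₁.1 q c, 2) := by simp [gst, h1]
        rw [e] at h
        obtain ⟨w, ws, h3, h4, h5⟩ := ih.2 _ h
        refine ⟨⟨c, h1⟩ :: w, ws, ?_, h4, h5⟩
        rw [h3]
        rfl
      · by_cases h2 : (c : ℕ) = k ∧ memB c₁.2 q = true
        · have e : gst k c₁ c₂ (q, 2) (c : ℕ) = (0, 1) := by simp [gst, h2]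
          rw [e] at h
          obtain ⟨ws, h3, h4⟩ := ih.1 h
          refine ⟨[], ws, ?_, (memB_iff _ _).1 h2.2, h4⟩
          rw [h3]
          have : c = dl k := Fin.ext h2.1
          rw [this]
          rfl
        · have e : gst k c₁ c₂ (q, 2) (c : ℕ) = (0, 6) := by
            simp [gst, h1, h2]
          rw [e] at h
          exact absurd h (gfold_closed y 0 6 (by omega))

theorem row_form {y : List (Fin (k + 3))} (h : (gfold k c₁ c₂ (0, 0) y).2 = 1) :
    ∃ ws, y = dl k :: rtail k ws ∧ ∀ w ∈ ws, w ∈ lang k c₁ := by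
  cases y with
  | nil => simp [gfold_nil] at h
  | cons c y =>
    rw [gfold_cons] at h
    by_cases h1 : (c : ℕ) = k
    · have e : gst k c₁ c₂ (0, 0) (c : ℕ) = (0, 1) := by simp [gst, h1]
      rw [e] at h
      obtain ⟨ws, h2, h3⟩ := (row_structure y).1 h
      refine ⟨ws, ?_, h3⟩
      have : c = dl k := Fin.ext h1
      rw [h2, this]
    · have e : gst k c₁ c₂ (0, 0) (c : ℕ) = (0, 6) := by simp [gst, h1]
      rw [e, gfold_six] at h
      simp at h

/-! ### Explicit rows -/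

theorem gfold_map_two (w : List (Fin k)) : ∀ q, gfold k c₁ c₂ (q, 2) (w.map (e3 k)) =
    (run k c₁.1 q w, 2) := by
  induction w with
  | nil => intro q; rfl
  | cons a w ih =>
    intro q
    rw [List.map_cons, gfold_cons]
    have e : gst k c₁ c₂ (q, 2) (e3 k a : Fin (k + 3)) = (tr k c₁.1 q a, 2) := by
      have : ((e3 k a : Fin (k + 3)) : ℕ) = a := rfl
      simp [gst, this]
    rw [e, ih]
    rfl

theorem gfold_map_five (w : List (Fin k)) : ∀ q, gfold k c₁ c₂ (q, 5) (w.map (e3 k)) =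
    (run k c₂.1 q w, 5) := by
  induction w with
  | nil => intro q; rfl
  | cons a w ih =>
    intro q
    rw [List.map_cons, gfold_cons]
    have e : gst k c₁ c₂ (q, 5) (e3 k a : Fin (k + 3)) = (tr k c₂.1 q a, 5) := by
      have : ((e3 k a : Fin (k + 3)) : ℕ) = a := rfl
      simp [gst, this]
    rw [e, ih]
    rfl

theorem gfold_map_three (w : List (Fin k)) : ∀ x, x = 0 →
    gfold k c₁ c₂ (x, 3) (w.map (e3 k)) = (0, 3) := by
  induction w with
  | nil => intro x hx; rw [hx]; rfl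
  | cons a w ih =>
    intro x hx
    rw [List.map_cons, gfold_cons]
    have e : gst k c₁ c₂ (x, 3) (e3 k a : Fin (k + 3)) = (0, 3) := by
      have : ((e3 k a : Fin (k + 3)) : ℕ) = a := rfl
      simp [gst, this]
    rw [e, ih 0 rfl]

theorem gfold_block_one {w : List (Fin k)} (hw : w ∈ lang k c₁) :
    gfold k c₁ c₂ (0, 1) (hm k :: (w.map (e3 k) ++ [dl k])) = (0, 1) := by
  rw [gfold_cons]
  have e : gst k c₁ c₂ (0, 1) (hm k : Fin (k + 3)) = (0, 2) := by simp [gst, hm]
  have hw' : run k c₁.1 0 w ∈ c₁.2 := hw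
  rw [e, gfold_append, gfold_map_two, gfold_cons, gfold_nil]
  simp [gst, dl, memB_iff, hw']

theorem gfold_block_four {w : List (Fin k)} (hw : w ∈ lang k c₂) :
    gfold k c₁ c₂ (0, 4) (hm k :: (w.map (e3 k) ++ [dl k])) = (0, 4) := by
  rw [gfold_cons]
  have e : gst k c₁ c₂ (0, 4) (hm k : Fin (k + 3)) = (0, 5) := by simp [gst, hm]
  have hw' : run k c₂.1 0 w ∈ c₂.2 := hw
  rw [e, gfold_append, gfold_map_five, gfold_cons, gfold_nil]
  simp [gst, dl, memB_iff, hw']

theorem gfold_block_mid (w : List (Fin k)) :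
    gfold k c₁ c₂ (0, 1) (hu k :: (w.map (e3 k) ++ [dl k])) = (0, 4) := by
  rw [gfold_cons]
  have e : gst k c₁ c₂ (0, 1) (hu k : Fin (k + 3)) = (0, 3) := by simp [gst, hu]
  rw [e, gfold_append, gfold_map_three w 0 rfl, gfold_cons, gfold_nil]
  simp [gst, dl]

theorem gfold_loop (s : ℕ × ℕ) (b : List (Fin (k + 3))) (h : gfold k c₁ c₂ s b = s) (n : ℕ) :
    gfold k c₁ c₂ s (rep b n) = s := by
  induction n with
  | zero => rfl
  | succ n ih => rw [rep_succ, gfold_append, h, ih]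

end Pool.Agent.Helper964_DD
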