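import Pool.Agent.Helper964_DD.Row
import Pool.Agent.Helper964_DD.STpull

/-!
# Tests for rows of blocks
-/

set_option autoImplicit false

namespace Pool.Agent.Helper964_DD

variable {k : ℕ} {c₁ c₂ : List ℕ × List ℕ}

/-- The marked blocks with content in `K`. -/
def MM (k t : ℕ) (K : Set (List (Fin k))) : Set (List (Fin (al (k + 3) t))) :=
  {z | z ∈ allIn {c : Fin (al (k + 3) t) | (c : ℕ) ≠ k}} ∩
    ({z | vp k (al (k + 3) t) z ∈ K} ∩
      {z | idec (k + 1) (k + 3) t z ∈ mrk Set.univ (hm k) Set.univ})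

/-- The words without visible letters. -/
def OO (k t : ℕ) : Set (List (Fin (al (k + 3) t))) :=
  {z | vp (k + 1) (al (k + 3) t) z ∈ ({[]} : Set (List (Fin (k + 1))))}

/-- The mark. -/
def dz (k t : ℕ) : Fin (al (k + 3) t) := upt t (dl k)

/-- A row with a block from `K`. -/
def K1 (k t : ℕ) (K : Set (List (Fin k))) : Set (List (Fin (al (k + 3) t))) :=
  mrk Set.univ (dz k t) (mrk (MM k t K) (dz k t) Set.univ)

/-- A row whose first block is in `K₁`, or whose last block is in `K₂`, or which has two consecutive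
blocks from `K₂` and `K₁`, or which has no block. -/
def K2 (k t : ℕ) (K₁ K₂ : Set (List (Fin k))) : Set (List (Fin (al (k + 3) t))) :=
  {z | vp (k + 1) (al (k + 3) t) z ∈ mrk {[]} (Fin.last k) {[]}} ∪
    (mrk (OO k t) (dz k t) (mrk (MM k t K₁) (dz k t) Set.univ) ∪
      (mrk Set.univ (dz k t) (mrk (MM k t K₂) (dz k t) (OO k t)) ∪
        mrk Set.univ (dz k t) (mrk (MM k t K₂) (dz k t)
          (mrk (MM k t K₁) (dz k t) Set.univ))))

theorem le3 (k t : ℕ) : k + 1 ≤ al (k + 3) t := (show k + 1 ≤ k + 3 by omega).trans (le_al _ t)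

theorem MM_SPol {l : ℕ} (hl : 1 ≤ l) {K : Set (List (Fin k))} (hK : SPol (ST l) K) :
    SPol (ST l) (MM k l K) := by
  refine SPol_inter (QB_ST _) ?_ _ (SPol_inter (QB_ST _) ?_ _ ?_)
  · exact SPol.base _ (ST_mono hl (allIn_ST _))
  · exact (vp_ST ((Nat.le_succ k).trans (le3 k _)) l).2 K hK
  · exact idec_ST _ _ (SPol.mark _ _ _ (Or.inr rfl) (SPol.base _ (Or.inr rfl))) l

theorem OO_ST {l : ℕ} (hl : 1 ≤ l) : OO k l ∈ ST (α := Fin (al (k + 3) l)) l :=
  (vp_ST (le3 k _) l).1 _ (ST_mono hl nil_ST1)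

theorem K1_SPol {l : ℕ} (hl : 1 ≤ l) {K : Set (List (Fin k))} (hK : SPol (ST l) K) :
    SPol (ST l) (K1 k l K) :=
  SPol_mrk (SPol_univ _) _ (SPol_mrk (MM_SPol hl hK) _ (SPol_univ _))

theorem K2_SPol {l : ℕ} (hl : 1 ≤ l) {K₁ K₂ : Set (List (Fin k))} (h1 : SPol (ST l) K₁)
    (h2 : SPol (ST l) K₂) : SPol (ST l) (K2 k l K₁ K₂) := by
  have hO : SPol (ST l) (OO k l) := SPol.base _ (OO_ST hl)
  have hn : ({[]} : Set (List (Fin (k + 1)))) ∈ ST l := ST_mono hl nil_ST1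
  refine SPol.union _ _ ?_ (SPol.union _ _ ?_ (SPol.union _ _ ?_ ?_))
  · exact (vp_ST (le3 k _) l).2 _ (SPol.mark _ _ _ hn (SPol.base _ hn))
  · exact SPol_mrk hO _ (SPol_mrk (MM_SPol hl h1) _ (SPol_univ _))
  · exact SPol_mrk (SPol_univ _) _ (SPol_mrk (MM_SPol hl h2) _ hO)
  · exact SPol_mrk (SPol_univ _) _ (SPol_mrk (MM_SPol hl h2) _
      (SPol_mrk (MM_SPol hl h1) _ (SPol_univ _)))

/-! ### Blocks -/

theorem vp_vp (m : ℕ) (z : List (Fin m)) : vp k m z = vp k (k + 1) (vp (k + 1) m z) := by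
  induction z with
  | nil => rfl
  | cons c z ih =>
    by_cases h1 : (c : ℕ) < k
    · rw [vp_cons_lt h1, vp_cons_lt (show (c : ℕ) < k + 1 by omega), ih]
      rw [vp_cons_lt (c := (⟨c, by omega⟩ : Fin (k + 1))) h1]
    · by_cases h2 : (c : ℕ) < k + 1
      · rw [vp_cons_ge h1, vp_cons_lt h2, ih]
        rw [vp_cons_ge (c := (⟨c, h2⟩ : Fin (k + 1))) h1]
      · rw [vp_cons_ge h1, vp_cons_ge h2, ih]

theorem vp_idec' (t : ℕ) (z : List (Fin (al (k + 3) t))) :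
    vp k (k + 3) (idec (k + 1) (k + 3) t z) = vp k (al (k + 3) t) z := by
  rw [vp_vp, vp_idec (by omega), ← vp_vp]

theorem idec_no_mark (t : ℕ) (z : List (Fin (al (k + 3) t))) (h : ∀ c ∈ z, (c : ℕ) ≠ k) :
    ∀ c ∈ idec (k + 1) (k + 3) t z, (c : ℕ) ≠ k := by
  intro c hc hck
  obtain ⟨y₁, y₂, hy⟩ := List.append_of_mem hc
  obtain ⟨z₁, z₂, rfl, _, _⟩ := idec_split_vis t c (by omega) z y₁ y₂ hy
  exact h (upt t c) (by simp) hck

theorem idec_mark (t : ℕ) (z₁ z₂ : List (Fin (al (k + 3) t))) :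
    idec (k + 1) (k + 3) t (z₁ ++ dz k t :: z₂) =
      idec (k + 1) (k + 3) t z₁ ++ dl k :: idec (k + 1) (k + 3) t z₂ :=
  idec_vis_append t (dl k) (Nat.lt_succ_self k) z₁ z₂

theorem MM_spec {t : ℕ} {K : Set (List (Fin k))} {z : List (Fin (al (k + 3) t))}
    (hz : z ∈ MM k t K) : (∀ c ∈ idec (k + 1) (k + 3) t z, (c : ℕ) ≠ k) ∧
      (∃ c ∈ idec (k + 1) (k + 3) t z, (c : ℕ) = k + 2) ∧
      vp k (k + 3) (idec (k + 1) (k + 3) t z) ∈ K := by
  obtain ⟨h1, h2, h3⟩ := hz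
  refine ⟨idec_no_mark t z h1, ?_, ?_⟩
  · obtain ⟨y₁, _, y₂, _, h⟩ := h3
    exact ⟨hm k, by rw [h]; simp, rfl⟩
  · rw [vp_idec']
    exact h2

theorem disj1 {t : ℕ} {K : Set (List (Fin k))} (hK : ∀ x ∈ lang k c₁, x ∉ K)
    {z : List (Fin (al (k + 3) t))}
    (hz : (gfold k c₁ c₁ (0, 0) (idec (k + 1) (k + 3) t z)).2 = 1) : z ∉ K1 k t K := by
  rintro ⟨z₀, _, _, ⟨z₁, hz₁, z₂, _, rfl⟩, rfl⟩
  obtain ⟨h1, h2, h3⟩ := MM_spec hz₁
  rw [idec_mark, idec_mark, gfold_append, gfold_cons] at hz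
  rcases gst_mark (c₁ := c₁) (c₂ := c₁)
    (gfold k c₁ c₁ (0, 0) (idec (k + 1) (k + 3) t z₀)) with e | e | e
  · rw [e] at hz
    exact hK _ (gfold_one _ h1 h2 _ (by rw [hz]; norm_num)).1 h3
  · rw [e] at hz
    exact gfold_closed _ 0 4 (by omega) hz
  · rw [e] at hz
    exact gfold_closed _ 0 6 (by omega) hz

theorem OO_spec {t : ℕ} {z : List (Fin (al (k + 3) t))} (hz : z ∈ OO k t) :
    vp (k + 1) (k + 3) (idec (k + 1) (k + 3) t z) = [] := by
  rw [vp_idec (by omega)]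
  exact hz

theorem no_mark_of_vp_nil {y : List (Fin (k + 3))} (h : vp (k + 1) (k + 3) y = []) :
    ∀ c ∈ y, (c : ℕ) ≠ k := by
  intro c hc hck
  obtain ⟨y₁, y₂, rfl⟩ := List.append_of_mem hc
  rw [vp_append, vp_cons_lt (show (c : ℕ) < k + 1 by omega)] at h
  simp at h

theorem gfold_start {y : List (Fin (k + 3))} (h : vp (k + 1) (k + 3) y = []) (s : ℕ × ℕ)
    (hs : gst k c₁ c₂ (gfold k c₁ c₂ (0, 0) y) (dl k : Fin (k + 3)) = s) :
    s = (0, 1) ∨ s = (0, 6) := by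
  cases y with
  | nil =>
    left
    rw [← hs]
    simp [gfold_nil, gst, dl]
  | cons c y =>
    right
    have hc := no_mark_of_vp_nil h c (by simp)
    have e : gst k c₁ c₂ (0, 0) (c : ℕ) = (0, 6) := by simp [gst, hc]
    rw [gfold_cons, e] at hs
    have h6 := gfold_six (c₁ := c₁) (c₂ := c₂) y 0
    have h7 : gfold k c₁ c₂ (0, 6) y = ((gfold k c₁ c₂ (0, 6) y).1, 6) :=
      Prod.ext rfl h6
    rw [h7, gst_six] at hs
    exact hs.symm

theorem disj2 {t : ℕ} {K₁ K₂ : Set (List (Fin k))} (hK₁ : ∀ x ∈ lang k c₁, x ∉ K₁)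
    (hK₂ : ∀ x ∈ lang k c₂, x ∉ K₂) {z : List (Fin (al (k + 3) t))}
    (hz : (gfold k c₁ c₂ (0, 0) (idec (k + 1) (k + 3) t z)).2 = 4) : z ∉ K2 k t K₁ K₂ := by
  have six : ∀ (y : List (Fin (k + 3))), (gfold k c₁ c₂ (0, 6) y).2 = 4 → False := by
    intro y h
    rw [gfold_six] at h
    norm_num at h
  rintro (hz' | ⟨z₀, hz₀, _, ⟨z₁, hz₁, z₂, _, rfl⟩, rfl⟩ |
    ⟨z₀, _, _, ⟨z₁, hz₁, z₂, hz₂, rfl⟩, rfl⟩ |
    ⟨z₀, _, _, ⟨z₁, hz₁, _, ⟨z₂, hz₂, z₃, _, rfl⟩, rfl⟩, rfl⟩)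
  · -- only one mark
    obtain ⟨u, hu, v, hv, h⟩ := hz'
    rw [Set.mem_singleton_iff] at hu hv
    rw [hu, hv, ← vp_idec (show k + 1 ≤ k + 3 by omega)] at h
    generalize hy : idec (k + 1) (k + 3) t z = y at hz h
    cases y with
    | nil => simp [vp] at h
    | cons c y =>
      rw [gfold_cons] at hz
      by_cases hc : (c : ℕ) = k
      · have e : gst k c₁ c₂ (0, 0) (c : ℕ) = (0, 1) := by simp [gst, hc]
        rw [e] at hz
        rw [vp_cons_lt (show (c : ℕ) < k + 1 by omega)] at h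
        simp only [List.nil_append, List.cons.injEq] at h
        exact gfold_no_mark y (no_mark_of_vp_nil h.2) 0 1 (by omega) hz
      · have e : gst k c₁ c₂ (0, 0) (c : ℕ) = (0, 6) := by simp [gst, hc]
        rw [e] at hz
        exact six _ hz
  · obtain ⟨h1, h2, h3⟩ := MM_spec hz₁
    rw [idec_mark, idec_mark, gfold_append, gfold_cons] at hz
    rcases gfold_start (OO_spec hz₀) _ rfl with e | e
    · rw [e] at hz
      exact hK₁ _ (gfold_one _ h1 h2 _ (by rw [hz]; norm_num)).1 h3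
    · rw [e] at hz
      exact six _ hz
  · obtain ⟨h1, h2, h3⟩ := MM_spec hz₁
    rw [idec_mark, idec_mark, gfold_append, gfold_cons] at hz
    rcases gst_mark (c₁ := c₁) (c₂ := c₂)
      (gfold k c₁ c₂ (0, 0) (idec (k + 1) (k + 3) t z₀)) with e | e | e
    · rw [e] at hz
      rw [(gfold_one _ h1 h2 _ (by rw [hz]; norm_num)).2] at hz
      exact gfold_no_mark _ (no_mark_of_vp_nil (OO_spec hz₂)) 0 1 (by omega) hz
    · rw [e] at hz
      exact hK₂ _ (gfold_four _ h1 _ (by rw [hz]; norm_num)) h3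
    · rw [e] at hz
      exact six _ hz
  · obtain ⟨h1, h2, h3⟩ := MM_spec hz₁
    obtain ⟨h4, h5, h6⟩ := MM_spec hz₂
    rw [idec_mark, idec_mark, idec_mark, gfold_append, gfold_cons] at hz
    rcases gst_mark (c₁ := c₁) (c₂ := c₂)
      (gfold k c₁ c₂ (0, 0) (idec (k + 1) (k + 3) t z₀)) with e | e | e
    · rw [e] at hz
      rw [(gfold_one _ h1 h2 _ (by rw [hz]; norm_num)).2] at hz
      exact hK₁ _ (gfold_one _ h4 h5 _ (by rw [hz]; norm_num)).1 h6
    · rw [e] at hz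
      exact hK₂ _ (gfold_four _ h1 _ (by rw [hz]; norm_num)) h3
    · rw [e] at hz
      exact six _ hz

/-! ### Rows are covered -/

theorem vp_map_e3 (w : List (Fin k)) :
    vp (k + 1) (k + 3) (w.map (e3 k)) = w.map Fin.castSucc := by
  induction w with
  | nil => rfl
  | cons a w ih =>
    have h : ((e3 k a : Fin (k + 3)) : ℕ) < k + 1 := by
      change (a : ℕ) < k + 1
      omega
    rw [List.map_cons, vp_cons_lt h, ih]
    rfl

theorem block_mem {t : ℕ} {K : Set (List (Fin k))} {z : List (Fin (al (k + 3) t))}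
    {w : List (Fin k)} (hz : idec (k + 1) (k + 3) t z = hm k :: w.map (e3 k)) (hw : w ∈ K) :
    z ∈ MM k t K := by
  have h1 : vp (k + 1) (al (k + 3) t) z = w.map Fin.castSucc := by
    rw [← vp_idec (show k + 1 ≤ k + 3 by omega), hz,
      vp_cons_ge (show ¬ ((hm k : Fin (k + 3)) : ℕ) < k + 1 by change ¬ k + 2 < k + 1; omega),
      vp_map_e3]
  obtain ⟨h2, h3⟩ := no_mark_of_vp z w h1
  refine ⟨h2, ?_, ?_⟩
  · change vp k (al (k + 3) t) z ∈ K
    rw [h3]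
    exact hw
  · change idec (k + 1) (k + 3) t z ∈ mrk Set.univ (hm k) Set.univ
    rw [hz]
    exact ⟨[], trivial, _, trivial, rfl⟩

theorem OO_of_nil {t : ℕ} {z : List (Fin (al (k + 3) t))}
    (hz : idec (k + 1) (k + 3) t z = []) : z ∈ OO k t := by
  change vp (k + 1) (al (k + 3) t) z = []
  rw [← vp_idec (show k + 1 ≤ k + 3 by omega), hz]
  rfl

theorem split_row {t : ℕ} {z : List (Fin (al (k + 3) t))} {w : List (Fin k)}
    {ws : List (List (Fin k))} (hz : idec (k + 1) (k + 3) t z = rtail k (w :: ws)) :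
    ∃ z₁ z₂, z = z₁ ++ dz k t :: z₂ ∧ idec (k + 1) (k + 3) t z₁ = hm k :: w.map (e3 k) ∧
      idec (k + 1) (k + 3) t z₂ = rtail k ws := by
  rw [rtail_cons] at hz
  exact idec_split_vis t (dl k) (Nat.lt_succ_self k) z _ _ hz

/-- The discrete intermediate value theorem. -/
theorem ivt {t : ℕ} {K₁ K₂ : Set (List (Fin k))} (ws : List (List (Fin k))) : ws ≠ [] →
    (∀ w ∈ ws, w ∈ K₁ ∨ w ∈ K₂) → ∀ z : List (Fin (al (k + 3) t)),
      idec (k + 1) (k + 3) t z = rtail k ws →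
      z ∈ mrk (MM k t K₁) (dz k t) Set.univ ∨ ∀ p, p ++ dz k t :: z ∈ K2 k t K₁ K₂ := by
  induction ws with
  | nil => intro h; exact absurd rfl h
  | cons w ws ih =>
    intro _ hws z hz
    obtain ⟨z₁, z₂, rfl, h1, h2⟩ := split_row hz
    by_cases hw : w ∈ K₁
    · exact Or.inl ⟨z₁, block_mem h1 hw, z₂, trivial, rfl⟩
    · have hw2 : w ∈ K₂ := (hws w (by simp)).resolve_left hw
      have h3 := block_mem (K := K₂) h1 hw2
      right
      intro p
      cases ws with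
      | nil =>
        right; right; left
        exact ⟨p, trivial, _, ⟨z₁, h3, z₂, OO_of_nil h2, rfl⟩, rfl⟩
      | cons w' ws =>
        rcases ih (by simp) (fun w hw => hws w (by simp [hw])) z₂ h2 with h4 | h4
        · right; right; right
          exact ⟨p, trivial, _, ⟨z₁, h3, z₂, h4, rfl⟩, rfl⟩
        · have := h4 (p ++ dz k t :: z₁)
          simpa using this

theorem dl_rtail (ws : List (List (Fin k))) : ∃ r, dl k :: rtail k ws = r ++ [dl k] := by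
  rcases List.eq_nil_or_concat ws with rfl | ⟨ws', w, rfl⟩
  · exact ⟨[], rfl⟩
  · refine ⟨dl k :: (rtail k ws' ++ (hm k :: w.map (e3 k))), ?_⟩
    simp [rtail, List.concat_eq_append]

theorem K1_mem {t : ℕ} {K : Set (List (Fin k))} {z : List (Fin (al (k + 3) t))}
    {ws : List (List (Fin k))} (hz : idec (k + 1) (k + 3) t z = dl k :: rtail k ws)
    {w : List (Fin k)} (hw : w ∈ ws) (hK : w ∈ K) : z ∈ K1 k t K := by
  obtain ⟨ws₁, ws₂, rfl⟩ := List.append_of_mem hw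
  obtain ⟨r, hr⟩ := dl_rtail ws₁
  have e : dl k :: rtail k (ws₁ ++ w :: ws₂) = r ++ dl k :: rtail k (w :: ws₂) := by
    have : rtail k (ws₁ ++ w :: ws₂) = rtail k ws₁ ++ rtail k (w :: ws₂) := by
      simp [rtail]
    rw [this, ← List.cons_append, hr]
    simp
  rw [e] at hz
  obtain ⟨z₀, z', rfl, _, h1⟩ := idec_split_vis t (dl k) (Nat.lt_succ_self k) z _ _ hz
  obtain ⟨z₁, z₂, rfl, h2, _⟩ := split_row h1
  exact ⟨z₀, trivial, _, ⟨z₁, block_mem h2 hK, z₂, trivial, rfl⟩, rfl⟩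

theorem cover_mem {t : ℕ} {K₁ K₂ : Set (List (Fin k))} {Ks : List (Set (List (Fin k)))}
    (hc : ∀ w ∈ lang k c₁, ∃ K ∈ K₁ :: K₂ :: Ks, w ∈ K) {z : List (Fin (al (k + 3) t))}
    (hz : (gfold k c₁ c₁ (0, 0) (idec (k + 1) (k + 3) t z)).2 = 1) :
    z ∈ K2 k t K₁ K₂ ∨ ∃ K ∈ Ks, z ∈ K1 k t K := by
  by_cases h : ∃ K ∈ Ks, z ∈ K1 k t K
  · exact Or.inr h
  · left
    obtain ⟨ws, h1, h2⟩ := row_form hz
    have h3 : ∀ w ∈ ws, w ∈ K₁ ∨ w ∈ K₂ := by
      intro w hw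
      obtain ⟨K, hK, hwK⟩ := hc w (h2 w hw)
      rcases List.mem_cons.1 hK with rfl | hK
      · exact Or.inl hwK
      rcases List.mem_cons.1 hK with rfl | hK
      · exact Or.inr hwK
      · exact absurd ⟨K, hK, K1_mem h1 hw hwK⟩ h
    obtain ⟨z₀, z', rfl, h4, h5⟩ := idec_split_vis t (dl k) (Nat.lt_succ_self k) z [] _ h1
    have h6 := OO_of_nil h4
    cases ws with
    | nil =>
      left
      refine ⟨[], rfl, [], rfl, ?_⟩
      have h7 : vp (k + 1) (al (k + 3) t) z₀ = [] := h6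
      have h8 : vp (k + 1) (al (k + 3) t) z' = [] := OO_of_nil h5
      have h9 : vp (k + 1) (al (k + 3) t) (upt t (dl k) :: z') =
          Fin.last k :: vp (k + 1) (al (k + 3) t) z' :=
        vp_cons_lt (c := upt t (dl k)) (show k < k + 1 by omega) z'
      rw [vp_append, h7, h9, h8]
    | cons w ws =>
      rcases ivt (w :: ws) (by simp) h3 z' h5 with h7 | h7
      · exact Or.inr (Or.inl ⟨z₀, h6, z', h7, rfl⟩)
      · exact h7 z₀

end Pool.Agent.Helper964_DD
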