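import Pool.Agent.Helper964_DD.Vis

/-!
# Inverse images of projections and decodings in the Straubing-Thérien hierarchy
-/

set_option autoImplicit false

namespace Pool.Agent.Helper964_DD

variable {α γ : Type}

theorem mrk_mrk (K X Y : Set (List α)) (b a : α) :
    mrk (mrk K b X) a Y = mrk K b (mrk X a Y) := by
  ext w
  constructor
  · rintro ⟨_, ⟨u, hu, x, hx, rfl⟩, y, hy, rfl⟩
    exact ⟨u, hu, x ++ a :: y, ⟨x, hx, y, hy, rfl⟩, by simp⟩
  · rintro ⟨u, hu, _, ⟨x, hx, y, hy, rfl⟩, rfl⟩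
    exact ⟨u ++ b :: x, ⟨u, hu, x, hx, rfl⟩, y, hy, by simp⟩

theorem union_mrk (K X Y : Set (List α)) (a : α) : mrk (K ∪ X) a Y = mrk K a Y ∪ mrk X a Y := by
  ext w
  constructor
  · rintro ⟨u, hu | hu, y, hy, rfl⟩
    · exact Or.inl ⟨u, hu, y, hy, rfl⟩
    · exact Or.inr ⟨u, hu, y, hy, rfl⟩
  · rintro (⟨u, hu, y, hy, rfl⟩ | ⟨u, hu, y, hy, rfl⟩)
    · exact ⟨u, Or.inl hu, y, hy, rfl⟩
    · exact ⟨u, Or.inr hu, y, hy, rfl⟩

theorem empty_mrk (Y : Set (List α)) (a : α) : mrk ∅ a Y = ∅ := by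
  ext w
  simp [mrk]

theorem SPol_mrk {C : Set (Set (List α))} {X Y : Set (List α)} (hX : SPol C X) (a : α)
    (hY : SPol C Y) : SPol C (mrk X a Y) := by
  induction hX with
  | empty => rw [empty_mrk]; exact SPol.empty
  | base L h => exact SPol.mark L a Y h hY
  | mark K b X hK _ ih => rw [mrk_mrk]; exact SPol.mark K b _ hK ih
  | union L K _ _ h1 h2 => rw [union_mrk]; exact SPol.union _ _ h1 h2

theorem ST_mono {i j : ℕ} (h : i ≤ j) : ST (α := α) i ⊆ ST j := fun _ hL => Hy_mono h hL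

theorem SPol_univ (i : ℕ) : SPol (ST i) (Set.univ : Set (List α)) :=
  SPol.base _ (ST_mono (Nat.zero_le i) (Or.inr rfl))

theorem univ_ST (i : ℕ) : (Set.univ : Set (List α)) ∈ ST i :=
  ST_mono (Nat.zero_le i) (Or.inr rfl)

theorem empty_ST (i : ℕ) : (∅ : Set (List α)) ∈ ST i :=
  ST_mono (Nat.zero_le i) (Or.inl rfl)

theorem allIn_ST [Finite α] (D : Set α) : allIn D ∈ ST (α := α) 1 := by
  have : allIn D = ({w : List α | ∃ c : {c : α // c ∉ D}, w ∈ mrk Set.univ (c : α) Set.univ})ᶜ := by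
    ext w
    constructor
    · rintro h ⟨⟨c, hc⟩, u, _, v, _, rfl⟩
      exact hc (h c (by simp))
    · intro h c hc
      by_contra hD
      obtain ⟨u, v, rfl⟩ := List.append_of_mem hc
      exact h ⟨⟨c, hD⟩, u, trivial, v, trivial, rfl⟩
  rw [this]
  refine BC.compl _ (BC.base _ ?_)
  refine finite_union (P := {L | SPol (Hy ({∅, Set.univ} : Set (Set (List α))) 0) L}) SPol.empty
    (fun _ _ h h' => SPol.union _ _ h h') _ fun a => ?_
  exact SPol.mark _ _ _ (Or.inr rfl) (SPol.base _ (Or.inr rfl))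

/-! ### Letter to letter morphisms -/

theorem emb_ST [Finite α] (ι : α → γ) (t : ℕ) {K : Set (List γ)} (hK : SPol (ST t) K)
    (p q : List γ) : SPol (ST (α := α) t) (pre (fun a => [ι a]) K p q) := by
  have h := (shiftH (tgt_Hy ({∅, Set.univ} : Set (Set (List α))) 0) (⊤ : Filter Unit)
    (fun _ => fun a => [ι a]) ({∅, Set.univ} : Set (Set (List γ))) 0 (fun K hK =>
      Filter.Eventually.of_forall fun _ p q => by
        rcases hK with rfl | rfl
        · exact Or.inl rfl
        · exact Or.inr rfl) t).2 K (by rw [Nat.zero_add]; exact hK)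
  rw [Filter.eventually_top] at h
  have h' := h () p q
  rw [Nat.zero_add] at h'
  exact h'

/-! ### The projection to the visible letters -/

theorem vp_mrk' {v m : ℕ} (hv : v ≤ m) (K X : Set (List (Fin v))) (a : Fin v) :
    {z : List (Fin m) | vp v m z ∈ mrk K a X} =
      mrk {z | vp v m z ∈ K} (Fin.castLE hv a) {z | vp v m z ∈ X} := by
  rw [vp_mrk hv, mrk_eq_cat]

theorem vp_ST {v m : ℕ} (hv : v ≤ m) (t : ℕ) :
    (∀ K ∈ ST (α := Fin v) t, {z : List (Fin m) | vp v m z ∈ K} ∈ ST t) ∧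
    (∀ K, SPol (ST (α := Fin v) t) K → SPol (ST t) {z : List (Fin m) | vp v m z ∈ K}) := by
  have step : ∀ t, (∀ K ∈ ST (α := Fin v) t, {z : List (Fin m) | vp v m z ∈ K} ∈ ST t) →
      (∀ K, SPol (ST (α := Fin v) t) K → SPol (ST t) {z : List (Fin m) | vp v m z ∈ K}) := by
    intro t ht K hK
    induction hK with
    | empty => exact SPol.empty
    | base K hK => exact SPol.base _ (ht K hK)
    | mark K a X hK _ ih =>
      rw [vp_mrk' hv]
      exact SPol.mark _ _ _ (ht K hK) ih
    | union L K _ _ h1 h2 => exact SPol.union _ _ h1 h2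
  have main : ∀ t, ∀ K ∈ ST (α := Fin v) t, {z : List (Fin m) | vp v m z ∈ K} ∈ ST t := by
    intro t
    induction t with
    | zero =>
      rintro K (rfl | rfl)
      · exact empty_ST 0
      · exact univ_ST 0
    | succ t ih =>
      refine Hy_induction ?_ ?_ ?_
      · exact fun K hK => BC.base _ (step t ih K hK)
      · exact fun K h => BC.compl _ h
      · exact fun K K' h h' => BC.union _ _ h h'
  exact ⟨main t, step t (main t)⟩

/-! ### Decoding -/

theorem clF_vis {v m : ℕ} {c : Fin (m + 2)} (h : (c : ℕ) < m) (h' : (c : ℕ) < v) :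
    clF v m c = .vis ⟨c, h⟩ := by simp [clF, h, h']

theorem clF_hid {v m : ℕ} {c : Fin (m + 2)} (h : (c : ℕ) < m) (h' : ¬ (c : ℕ) < v) :
    clF v m c = .hid ⟨c, h⟩ := by simp [clF, h, h']

theorem clF_sh {v m : ℕ} {c : Fin (m + 2)} (h : (c : ℕ) = m) : clF v m c = .sh := by
  simp [clF, h]

theorem clF_pad {v m : ℕ} {c : Fin (m + 2)} (h : ¬ (c : ℕ) < m) (h' : (c : ℕ) ≠ m) :
    clF v m c = .pad := by simp [clF, h, h']

theorem eq_padF {m : ℕ} {c : Fin (m + 2)} (h : ¬ (c : ℕ) < m) (h' : (c : ℕ) ≠ m) :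
    c = padF m := Fin.ext (by have := c.2; change (c : ℕ) = m + 1; omega)

theorem gdec_split_vis {v m : ℕ} (a : Fin m) (ha : (a : ℕ) < v) :
    ∀ (z : List (Fin (m + 2))) (b : Bool) (y₁ y₂ : List (Fin m)),
      gdec (clF v m) b z = y₁ ++ a :: y₂ → ∃ z₁ z₂, z = z₁ ++ up2 a :: z₂ ∧
        gdec (clF v m) b z₁ = y₁ ∧ gdec (clF v m) false z₂ = y₂ := by
  intro z
  induction z with
  | nil => intro b y₁ y₂ h; simp [gdec] at h
  | cons c z ih =>
    intro b y₁ y₂ h
    have out : ∀ (a' : Fin m), clF v m c = .vis a' ∨ (clF v m c = .hid a' ∧ b = true) →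
        ∃ z₁ z₂, c :: z = z₁ ++ up2 a :: z₂ ∧ gdec (clF v m) b z₁ = y₁ ∧
          gdec (clF v m) false z₂ = y₂ := by
      intro a' hc
      have h1 : a' :: gdec (clF v m) false z = y₁ ++ a :: y₂ := by
        rcases hc with hc | ⟨hc, rfl⟩
        · rw [gdec, hc] at h; exact h
        · rw [gdec, hc] at h; simpa using h
      have h4 : ∀ z', gdec (clF v m) b (c :: z') = a' :: gdec (clF v m) false z' := by
        intro z'
        rcases hc with hc | ⟨hc, rfl⟩
        · rw [gdec, hc]
        · rw [gdec, hc]; simp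
      cases y₁ with
      | nil =>
        simp only [List.nil_append, List.cons.injEq] at h1
        obtain ⟨rfl, h2⟩ := h1
        have hca : c = up2 a' := by
          by_cases hm : (c : ℕ) < m
          · by_cases hv : (c : ℕ) < v
            · rw [clF_vis hm hv] at hc
              rcases hc with hc | ⟨hc, _⟩
              · simp only [Cl.vis.injEq] at hc
                rw [← hc]
                rfl
              · cases hc
            · rw [clF_hid hm hv] at hc
              rcases hc with hc | ⟨hc, _⟩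
              · cases hc
              · simp only [Cl.hid.injEq] at hc
                exact absurd (by rw [← hc] at ha; exact ha) hv
          · by_cases hm' : (c : ℕ) = m
            · rw [clF_sh hm'] at hc
              rcases hc with hc | ⟨hc, _⟩ <;> cases hc
            · rw [clF_pad hm hm'] at hc
              rcases hc with hc | ⟨hc, _⟩ <;> cases hc
        exact ⟨[], z, by rw [hca]; rfl, rfl, h2⟩
      | cons y₀ y₁ =>
        simp only [List.cons_append, List.cons.injEq] at h1
        obtain ⟨rfl, h2⟩ := h1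
        obtain ⟨z₁, z₂, rfl, h5, h6⟩ := ih false y₁ y₂ h2
        exact ⟨c :: z₁, z₂, rfl, by rw [h4, h5], h6⟩
    have skip : ∀ b', (∀ z', gdec (clF v m) b (c :: z') = gdec (clF v m) b' z') →
        ∃ z₁ z₂, c :: z = z₁ ++ up2 a :: z₂ ∧ gdec (clF v m) b z₁ = y₁ ∧
          gdec (clF v m) false z₂ = y₂ := by
      intro b' hb
      rw [hb] at h
      obtain ⟨z₁, z₂, rfl, h5, h6⟩ := ih b' y₁ y₂ h
      exact ⟨c :: z₁, z₂, rfl, by rw [hb, h5], h6⟩
    cases hc : clF v m c with
    | vis a' => exact out a' (Or.inl hc)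
    | hid a' =>
      cases b with
      | true => exact out a' (Or.inr ⟨hc, rfl⟩)
      | false => exact skip false fun z' => by rw [gdec, hc]; simp
    | sh => exact skip true fun z' => by rw [gdec, hc]
    | pad => exact skip b fun z' => by rw [gdec, hc]

theorem gdec_split_hid {v m : ℕ} (a : Fin m) (ha : ¬ (a : ℕ) < v) :
    ∀ (z : List (Fin (m + 2))) (b : Bool) (y₁ y₂ : List (Fin m)),
      gdec (clF v m) b z = y₁ ++ a :: y₂ →
      (∃ z₁ j z₂, z = z₁ ++ shF m :: (rep [padF m] j ++ up2 a :: z₂) ∧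
        gdec (clF v m) b z₁ = y₁ ∧ gdec (clF v m) false z₂ = y₂) ∨
      (b = true ∧ y₁ = [] ∧ ∃ j z₂, z = rep [padF m] j ++ up2 a :: z₂ ∧
        gdec (clF v m) false z₂ = y₂) := by
  intro z
  induction z with
  | nil => intro b y₁ y₂ h; simp [gdec] at h
  | cons c z ih =>
    intro b y₁ y₂ h
    by_cases hm : (c : ℕ) < m
    · by_cases hv : (c : ℕ) < v
      · have hc := clF_vis hm hv
        have hg : ∀ z', gdec (clF v m) b (c :: z') = ⟨c, hm⟩ :: gdec (clF v m) false z' :=
          fun z' => by rw [gdec, hc]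
        rw [hg] at h
        cases y₁ with
        | nil =>
          simp only [List.nil_append, List.cons.injEq] at h
          exact absurd (by rw [← h.1]; exact hv) ha
        | cons y₀ y₁ =>
          simp only [List.cons_append, List.cons.injEq] at h
          rcases ih false y₁ y₂ h.2 with ⟨z₁, j, z₂, rfl, h5, h6⟩ | ⟨h5, _⟩
          · exact Or.inl ⟨c :: z₁, j, z₂, rfl, by rw [hg, h5, h.1], h6⟩
          · cases h5
      · have hc := clF_hid hm hv
        cases b with
        | true =>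
          have hg : ∀ z', gdec (clF v m) true (c :: z') = ⟨c, hm⟩ :: gdec (clF v m) false z' :=
            fun z' => by rw [gdec, hc]; simp
          rw [hg] at h
          cases y₁ with
          | nil =>
            simp only [List.nil_append, List.cons.injEq] at h
            refine Or.inr ⟨rfl, rfl, 0, z, ?_, h.2⟩
            rw [← h.1]
            rfl
          | cons y₀ y₁ =>
            simp only [List.cons_append, List.cons.injEq] at h
            rcases ih false y₁ y₂ h.2 with ⟨z₁, j, z₂, rfl, h5, h6⟩ | ⟨h5, _⟩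
            · exact Or.inl ⟨c :: z₁, j, z₂, rfl, by rw [hg, h5, h.1], h6⟩
            · cases h5
        | false =>
          have hg : ∀ z', gdec (clF v m) false (c :: z') = gdec (clF v m) false z' :=
            fun z' => by rw [gdec, hc]; simp
          rw [hg] at h
          rcases ih false y₁ y₂ h with ⟨z₁, j, z₂, rfl, h5, h6⟩ | ⟨h5, _⟩
          · exact Or.inl ⟨c :: z₁, j, z₂, rfl, by rw [hg, h5], h6⟩
          · cases h5
    · by_cases hm' : (c : ℕ) = m
      · have hc := clF_sh (v := v) hm'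
        have hcs : c = shF m := Fin.ext hm'
        have hg : ∀ z', gdec (clF v m) b (c :: z') = gdec (clF v m) true z' :=
          fun z' => by rw [gdec, hc]
        rw [hg] at h
        rcases ih true y₁ y₂ h with ⟨z₁, j, z₂, rfl, h5, h6⟩ | ⟨_, rfl, j, z₂, rfl, h6⟩
        · exact Or.inl ⟨c :: z₁, j, z₂, rfl, by rw [hg, h5], h6⟩
        · exact Or.inl ⟨[], j, z₂, by rw [hcs]; rfl, rfl, h6⟩
      · have hc := clF_pad (v := v) hm hm'
        have hcp := eq_padF hm hm'
        have hg : ∀ z', gdec (clF v m) b (c :: z') = gdec (clF v m) b z' :=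
          fun z' => by rw [gdec, hc]
        rw [hg] at h
        rcases ih b y₁ y₂ h with ⟨z₁, j, z₂, rfl, h5, h6⟩ | ⟨h5, rfl, j, z₂, rfl, h6⟩
        · exact Or.inl ⟨c :: z₁, j, z₂, rfl, by rw [hg, h5], h6⟩
        · exact Or.inr ⟨h5, rfl, j + 1, z₂, by rw [hcp, rep_succ]; rfl, h6⟩

theorem up2_vis {v m : ℕ} (a : Fin m) (ha : (a : ℕ) < v) : clF v m (up2 a) = .vis a := by
  rw [clF_vis (c := up2 a) (show ((up2 a : Fin (m + 2)) : ℕ) < m from a.2) ha]
  rfl

theorem up2_hid {v m : ℕ} (a : Fin m) (ha : ¬ (a : ℕ) < v) : clF v m (up2 a) = .hid a := by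
  rw [clF_hid (c := up2 a) (show ((up2 a : Fin (m + 2)) : ℕ) < m from a.2) ha]
  rfl

theorem gdec_vis_append {v m : ℕ} (a : Fin m) (ha : (a : ℕ) < v) (z₁ z₂ : List (Fin (m + 2)))
    (b : Bool) : gdec (clF v m) b (z₁ ++ up2 a :: z₂) =
      gdec (clF v m) b z₁ ++ a :: gdec (clF v m) false z₂ := by
  have hc := up2_vis a ha
  rw [gdec_append, gdec, hc]
  intro d w hd
  simp only [List.cons.injEq] at hd
  rw [← hd.1, hc]
  trivial

theorem gdec_hid_append {v m : ℕ} (a : Fin m) (ha : ¬ (a : ℕ) < v) (z₁ z₂ : List (Fin (m + 2)))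
    (j : ℕ) (b : Bool) : gdec (clF v m) b (z₁ ++ shF m :: (rep [padF m] j ++ up2 a :: z₂)) =
      gdec (clF v m) b z₁ ++ a :: gdec (clF v m) false z₂ := by
  have hs : clF v m (shF m) = .sh := clF_sh rfl
  have hp : clF v m (padF m) = .pad := clF_pad (c := padF m)
    (show ¬ m + 1 < m by omega) (show m + 1 ≠ m by omega)
  rw [gdec_append, gdec, hs]
  · change _ ++ gdec (clF v m) true _ = _
    rw [gdec_rep_pad _ hp, gdec, up2_hid a ha]
    simp
  · intro d w hd
    simp only [List.cons.injEq] at hd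
    rw [← hd.1, hs]
    trivial

theorem mem_allIn_pad {m : ℕ} (w : List (Fin (m + 2))) (h : w ∈ allIn {padF m}) :
    w = rep [padF m] w.length := by
  induction w with
  | nil => rfl
  | cons c w ih =>
    have h1 : c = padF m := h c (by simp)
    have h2 := ih fun d hd => h d (by simp [hd])
    rw [List.length_cons, rep_succ, ← h2, h1]
    rfl

theorem gdec_mrk_vis {v m : ℕ} (a : Fin m) (ha : (a : ℕ) < v) (K X : Set (List (Fin m))) :
    {z | gdec (clF v m) false z ∈ mrk K a X} =
      mrk {z | gdec (clF v m) false z ∈ K} (up2 a) {z | gdec (clF v m) false z ∈ X} := by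
  ext z
  constructor
  · rintro ⟨y₁, h1, y₂, h2, h⟩
    obtain ⟨z₁, z₂, rfl, rfl, rfl⟩ := gdec_split_vis a ha z false y₁ y₂ h
    exact ⟨z₁, h1, z₂, h2, rfl⟩
  · rintro ⟨z₁, h1, z₂, h2, rfl⟩
    exact ⟨_, h1, _, h2, gdec_vis_append a ha z₁ z₂ false⟩

theorem gdec_mrk_hid {v m : ℕ} (a : Fin m) (ha : ¬ (a : ℕ) < v) (K X : Set (List (Fin m))) :
    {z | gdec (clF v m) false z ∈ mrk K a X} =
      mrk {z | gdec (clF v m) false z ∈ K} (shF m)
        (mrk (allIn {padF m}) (up2 a) {z | gdec (clF v m) false z ∈ X}) := by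
  ext z
  constructor
  · rintro ⟨y₁, h1, y₂, h2, h⟩
    rcases gdec_split_hid a ha z false y₁ y₂ h with ⟨z₁, j, z₂, rfl, rfl, rfl⟩ | ⟨h, _⟩
    · refine ⟨z₁, h1, _, ⟨rep [padF m] j, ?_, z₂, h2, rfl⟩, rfl⟩
      exact rep_mem_allIn (D := {padF m}) (by intro c hc; simpa using hc) j
    · cases h
  · rintro ⟨z₁, h1, _, ⟨w, hw, z₂, h2, rfl⟩, rfl⟩
    refine ⟨_, h1, _, h2, ?_⟩
    have := gdec_hid_append a ha z₁ z₂ w.length false
    rw [← mem_allIn_pad w hw] at this
    exact this

theorem gdec_ST (v m t : ℕ) :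
    (∀ K ∈ ST (α := Fin m) t, {z | gdec (clF v m) false z ∈ K} ∈ ST (t + 1)) ∧
    (∀ K, SPol (ST (α := Fin m) t) K →
      SPol (ST (t + 1)) {z | gdec (clF v m) false z ∈ K}) := by
  have step : ∀ t, (∀ K ∈ ST (α := Fin m) t, {z | gdec (clF v m) false z ∈ K} ∈ ST (t + 1)) →
      (∀ K, SPol (ST (α := Fin m) t) K →
        SPol (ST (t + 1)) {z | gdec (clF v m) false z ∈ K}) := by
    intro t ht K hK
    induction hK with
    | empty => exact SPol.empty
    | base K hK => exact SPol.base _ (ht K hK)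
    | mark K a X hK _ ih =>
      by_cases ha : (a : ℕ) < v
      · rw [gdec_mrk_vis a ha]
        exact SPol.mark _ _ _ (ht K hK) ih
      · rw [gdec_mrk_hid a ha]
        exact SPol.mark _ _ _ (ht K hK)
          (SPol.mark _ _ _ (ST_mono (Nat.le_add_left 1 t) (allIn_ST _)) ih)
    | union L K _ _ h1 h2 => exact SPol.union _ _ h1 h2
  have main : ∀ t, ∀ K ∈ ST (α := Fin m) t, {z | gdec (clF v m) false z ∈ K} ∈ ST (t + 1) := by
    intro t
    induction t with
    | zero =>
      rintro K (rfl | rfl)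
      · exact empty_ST 1
      · exact univ_ST 1
    | succ t ih =>
      refine Hy_induction ?_ ?_ ?_
      · exact fun K hK => BC.base _ (step t ih K hK)
      · exact fun K h => BC.compl _ h
      · exact fun K K' h h' => BC.union _ _ h h'
  exact ⟨main t, step t (main t)⟩

/-! ### Iterated decoding -/

/-- The word which is decoded after `t` steps. -/
def idec (v m : ℕ) : (t : ℕ) → List (Fin (al m t)) → List (Fin m)
  | 0, z => z
  | t + 1, z => idec v m t (gdec (clF v (al m t)) false z)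

/-- The embedding of the letters in the alphabet after `t` steps. -/
def upt {m : ℕ} (t : ℕ) (a : Fin m) : Fin (al m t) := Fin.castLE (le_al m t) a

theorem idec_nil (v m t : ℕ) : idec v m t [] = [] := by
  induction t with
  | zero => rfl
  | succ t ih => exact ih

theorem FL_idec (v m : ℕ) (X : Set (List (Fin m))) (t : ℕ) : ∀ z ∈ FL v m X t,
    idec v m t z ∈ X := by
  induction t with
  | zero => exact fun z hz => hz
  | succ t ih =>
    rintro z ⟨u, hu, h⟩
    have h2 := ih u hu
    rw [← h.2] at h2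
    exact h2

theorem idec_vis_append {v m : ℕ} (t : ℕ) (a : Fin m) (ha : (a : ℕ) < v) :
    ∀ z₁ z₂ : List (Fin (al m t)), idec v m t (z₁ ++ upt t a :: z₂) =
      idec v m t z₁ ++ a :: idec v m t z₂ := by
  induction t with
  | zero => intro z₁ z₂; rfl
  | succ t ih =>
    intro z₁ z₂
    have h := gdec_vis_append (m := al m t) (upt t a) ha z₁ z₂ false
    have h2 := ih (gdec (clF v (al m t)) false z₁) (gdec (clF v (al m t)) false z₂)
    rw [← h] at h2
    exact h2

theorem idec_split_vis {v m : ℕ} (t : ℕ) (a : Fin m) (ha : (a : ℕ) < v) :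
    ∀ (z : List (Fin (al m t))) (y₁ y₂ : List (Fin m)), idec v m t z = y₁ ++ a :: y₂ →
      ∃ z₁ z₂, z = z₁ ++ upt t a :: z₂ ∧ idec v m t z₁ = y₁ ∧ idec v m t z₂ = y₂ := by
  induction t with
  | zero => intro z y₁ y₂ h; exact ⟨y₁, y₂, h, rfl, rfl⟩
  | succ t ih =>
    intro z y₁ y₂ h
    obtain ⟨x₁, x₂, h1, rfl, rfl⟩ := ih (gdec (clF v (al m t)) false z) y₁ y₂ h
    obtain ⟨z₁, z₂, h2, h3, h4⟩ := gdec_split_vis (m := al m t) (upt t a) ha z false x₁ x₂ h1
    refine ⟨z₁, z₂, h2, ?_, ?_⟩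
    · rw [← h3]
      rfl
    · rw [← h4]
      rfl

theorem vp_idec {v m : ℕ} (hv : v ≤ m) (t : ℕ) : ∀ z : List (Fin (al m t)),
    vp v m (idec v m t z) = vp v (al m t) z := by
  induction t with
  | zero => intro z; rfl
  | succ t ih =>
    intro z
    change vp v m (idec v m t (gdec (clF v (al m t)) false z)) = _
    rw [ih]
    exact vp_gdec (m := al m t) (hv.trans (le_al m t)) z false

theorem idec_ST (v m : ℕ) {X : Set (List (Fin m))} (hX : SPol (ST 0) X) (t : ℕ) :
    SPol (ST t) {z : List (Fin (al m t)) | idec v m t z ∈ X} := by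
  have h : ∀ t s, (∀ Y : Set (List (Fin (al m t))), SPol (ST s) Y →
      SPol (ST (s + 1)) {z : List (Fin (al m (t + 1))) |
        gdec (clF v (al m t)) false z ∈ Y}) := fun t s Y hY => (gdec_ST v (al m t) s).2 Y hY
  induction t with
  | zero => exact hX
  | succ t ih => exact h t t _ ih

end Pool.Agent.Helper964_DD
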