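import Pool.Agent.Helper964_DD.Loc
import Pool.Agent.Helper964_DD.Det

/-!
# Segments of well formed words
-/

set_option autoImplicit false

namespace Pool.Agent.Helper964_DD

variable {D : Dt}

theorem ann_letter (w : List (Fin D.1)) : ∀ h, ∀ c ∈ ann D h w,
    (c : ℕ) < D.1 ∨ D.1 + 1 + 3 * sz D ≤ (c : ℕ) := by
  induction w with
  | nil => intro h c hc; cases hc
  | cons a w ih =>
    intro h c hc
    rcases List.mem_cons.1 hc with rfl | hc
    · rw [lg_val (vis_lt a.2)]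
      exact Or.inl a.2
    rcases List.mem_cons.1 hc with rfl | hc
    · rw [lg_val (hid_lt (nxh_lt D h a))]
      have := nxh_ge D h a
      exact Or.inr (by omega)
    · exact ih _ c hc

theorem bw_no_mark {μ : ℕ} (hμ : μ < 3 * sz D) (w : List (Fin D.1)) :
    ∀ c ∈ bw D μ w, (c : ℕ) ≠ D.1 := by
  intro c hc
  rcases List.mem_cons.1 hc with rfl | hc
  · rw [lg_val (conn_lt hμ)]
    omega
  · rcases ann_letter w _ c hc with h | h <;> omega

theorem bw_conn {μ ν : ℕ} (hμ : μ < 3 * sz D) (hν : ν < 3 * sz D) {w : List (Fin D.1)}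
    (h : lg D (D.1 + 1 + ν) ∈ bw D μ w) : ν = μ := by
  rcases List.mem_cons.1 h with h | h
  · have := congrArg Fin.val h
    rw [lg_val (conn_lt hμ), lg_val (conn_lt hν)] at this
    omega
  · have := ann_letter w _ _ h
    rw [lg_val (conn_lt hν)] at this
    omega

theorem mark_unique {γ : Type} {d : γ} : ∀ (p p' q q' : List γ), (∀ c ∈ p, c ≠ d) →
    (∀ c ∈ p', c ≠ d) → p ++ d :: q = p' ++ d :: q' → p = p' ∧ q = q' := by
  intro p
  induction p with
  | nil =>
    intro p' q q' _ h' h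
    cases p' with
    | nil => simpa using h
    | cons c p' =>
      simp only [List.nil_append, List.cons_append, List.cons.injEq] at h
      exact absurd h.1.symm (h' c (by simp))
  | cons c p ih =>
    intro p' q q' h1 h' h
    cases p' with
    | nil =>
      simp only [List.nil_append, List.cons_append, List.cons.injEq] at h
      exact absurd h.1 (h1 c (by simp))
    | cons c' p' =>
      simp only [List.cons_append, List.cons.injEq] at h
      obtain ⟨h2, h3⟩ := ih p' q q' (fun c hc => h1 c (by simp [hc]))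
        (fun c hc => h' c (by simp [hc])) h.2
      exact ⟨by rw [h.1, h2], h3⟩

theorem mark_split {γ : Type} {d : γ} : ∀ (p r p' q : List γ), (∀ c ∈ p, c ≠ d) →
    p ++ d :: r = p' ++ d :: q → (p' = p ∧ q = r) ∨ ∃ p'', p' = p ++ d :: p'' ∧
      r = p'' ++ d :: q := by
  intro p
  induction p with
  | nil =>
    intro r p' q _ h
    cases p' with
    | nil =>
      simp only [List.nil_append, List.cons.injEq, true_and] at h
      exact Or.inl ⟨rfl, h.symm⟩
    | cons c p' =>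
      simp only [List.nil_append, List.cons_append, List.cons.injEq] at h
      exact Or.inr ⟨p', by rw [← h.1]; rfl, h.2⟩
  | cons c p ih =>
    intro r p' q h1 h
    cases p' with
    | nil =>
      simp only [List.nil_append, List.cons_append, List.cons.injEq] at h
      exact absurd h.1 (h1 c (by simp))
    | cons c' p' =>
      simp only [List.cons_append, List.cons.injEq] at h
      rcases ih r p' q (fun c hc => h1 c (by simp [hc])) h.2 with ⟨h2, h3⟩ | ⟨p'', h2, h3⟩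
      · exact Or.inl ⟨by rw [← h.1, h2], h3⟩
      · exact Or.inr ⟨p'', by rw [← h.1, h2]; rfl, h3⟩

/-- All connectors are codes of connectors. -/
def Cn (D : Dt) (l : List (ℕ × List (Fin D.1))) : Prop := ∀ b ∈ l, b.1 < 3 * sz D

theorem rt_split {l : List (ℕ × List (Fin D.1))} : Cn D l → ∀ p q,
    mk2 D :: rt D l = p ++ mk2 D :: q →
      ∃ l₁ l₂, l = l₁ ++ l₂ ∧ q = rt D l₂ ∧ p ++ [mk2 D] = mk2 D :: rt D l₁ := by
  induction l with
  | nil =>
    intro _ p q h
    cases p with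
    | nil =>
      simp only [List.nil_append, List.cons.injEq, true_and] at h
      exact ⟨[], [], rfl, h.symm, rfl⟩
    | cons c p =>
      have := congrArg List.length h
      simp only [rt, List.flatMap_nil, List.length_cons, List.length_nil, List.cons_append,
        List.length_append] at this
      omega
  | cons b l ih =>
    intro hl p q h
    cases p with
    | nil =>
      simp only [List.nil_append, List.cons.injEq, true_and] at h
      exact ⟨[], b :: l, rfl, h.symm, rfl⟩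
    | cons c p =>
      rw [rt_cons] at h
      simp only [List.cons_append, List.cons.injEq] at h
      obtain ⟨rfl, h⟩ := h
      have hb := bw_no_mark (hl b (by simp)) b.2
      have hl' : Cn D l := fun b' hb' => hl b' (by simp [hb'])
      have hb' : ∀ c ∈ bw D b.1 b.2, c ≠ mk2 D := by
        intro c hc hcm
        apply hb c hc
        rw [hcm, mk2_val]
      rcases mark_split _ _ _ _ hb' h with ⟨h1, h2⟩ | ⟨p'', h1, h2⟩
      · refine ⟨[b], l, rfl, h2, ?_⟩
        rw [h1, rt_cons]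
        rfl
      · obtain ⟨l₁, l₂, h3, h4, h5⟩ := ih hl' (mk2 D :: p'') q (by rw [h2]; rfl)
        refine ⟨b :: l₁, l₂, by rw [h3]; rfl, h4, ?_⟩
        rw [h1, rt_cons]
        simp only [List.cons_append, List.cons.injEq, true_and] at h5
        simp [h5]

theorem rt_single {l : List (ℕ × List (Fin D.1))} (hl : Cn D l) {g : List (Fin (ml2 D))}
    (hg : ∀ c ∈ g, (c : ℕ) ≠ D.1) (h : g ++ [mk2 D] = rt D l) :
    ∃ b, l = [b] ∧ g = bw D b.1 b.2 := by
  cases l with
  | nil =>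
    have := congrArg List.length h
    simp [rt] at this
  | cons b l =>
    rw [rt_cons] at h
    have hb := bw_no_mark (hl b (by simp)) b.2
    obtain ⟨h1, h2⟩ := mark_unique (d := mk2 D) g (bw D b.1 b.2) [] (rt D l)
      (fun c hc hcm => hg c hc (by rw [hcm, mk2_val]))
      (fun c hc hcm => hb c hc (by rw [hcm, mk2_val])) h
    cases l with
    | nil => exact ⟨b, rfl, h1⟩
    | cons b' l =>
      have := congrArg List.length h2
      rw [rt_cons] at this
      simp at this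

theorem Cn.left {l l' : List (ℕ × List (Fin D.1))} (h : Cn D (l ++ l')) : Cn D l :=
  fun b hb => h b (by simp [hb])

theorem Cn.right {l l' : List (ℕ × List (Fin D.1))} (h : Cn D (l ++ l')) : Cn D l' :=
  fun b hb => h b (by simp [hb])

theorem mk_rt_end (l : List (ℕ × List (Fin D.1))) : ∃ p, mk2 D :: rt D l = p ++ [mk2 D] := by
  rcases List.eq_nil_or_concat l with rfl | ⟨l', b, rfl⟩
  · exact ⟨[], rfl⟩
  · refine ⟨mk2 D :: (rt D l' ++ bw D b.1 b.2), ?_⟩
    rw [List.concat_eq_append, rt_append, rt_cons]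
    simp [rt]

/-! ### Visible parts -/

theorem vp_ann (w : List (Fin D.1)) : ∀ h, vp (D.1 + 1) (ml2 D) (ann D h w) =
    w.map Fin.castSucc := by
  induction w with
  | nil => intro h; rfl
  | cons a w ih =>
    intro h
    have h1 : ((lg D a : Fin (ml2 D)) : ℕ) = a := lg_val (vis_lt a.2)
    have h2 : ¬ ((lg D (D.1 + 1 + nxh D h a) : Fin (ml2 D)) : ℕ) < D.1 + 1 := by
      rw [lg_val (hid_lt (nxh_lt D h a))]
      omega
    have h3 : ((lg D a : Fin (ml2 D)) : ℕ) < D.1 + 1 := by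
      rw [h1]
      omega
    rw [ann, vp_cons_lt h3, vp_cons_ge h2, ih]
    rw [List.map_cons]
    congr 1
    exact Fin.ext h1

theorem vp_bw {μ : ℕ} (hμ : μ < 3 * sz D) (w : List (Fin D.1)) :
    vp (D.1 + 1) (ml2 D) (bw D μ w) = w.map Fin.castSucc := by
  have h2 : ¬ ((lg D (D.1 + 1 + μ) : Fin (ml2 D)) : ℕ) < D.1 + 1 := by
    rw [lg_val (conn_lt hμ)]
    omega
  rw [bw, vp_cons_ge h2, vp_ann]

theorem vp_mk (y : List (Fin (ml2 D))) : vp (D.1 + 1) (ml2 D) (mk2 D :: y) =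
    Fin.last D.1 :: vp (D.1 + 1) (ml2 D) y := by
  have h1 : ((mk2 D : Fin (ml2 D)) : ℕ) = D.1 := mk2_val
  rw [vp_cons_lt (show ((mk2 D : Fin (ml2 D)) : ℕ) < D.1 + 1 by omega)]
  congr 1
  exact Fin.ext h1

theorem vp_rt {l : List (ℕ × List (Fin D.1))} : Cn D l →
    vp (D.1 + 1) (ml2 D) (mk2 D :: rt D l) =
      blocks Fin.castSucc (Fin.last D.1) (l.map Prod.snd) := by
  rw [blocks_eq_tl, vp_mk]
  induction l with
  | nil => intro _; rfl
  | cons b l ih =>
    intro hl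
    have h1 := ih fun b' hb' => hl b' (by simp [hb'])
    simp only [List.cons.injEq, true_and] at h1 ⊢
    rw [rt_cons, vp_append, vp_bw (hl b (by simp)), vp_mk, h1]
    simp [tl]

/-! ### The tests -/

/-- The words `f` such that `$ f $` has a block from `W`. -/
def tW (k m : ℕ) (W : Set (List (Fin k))) : Set (List (Fin m)) :=
  {f | Fin.last k :: (vp (k + 1) m f ++ [Fin.last k]) ∈ bar Fin.castSucc (Fin.last k) W}

theorem bar_ST {k m : ℕ} (hm : k + 1 ≤ m) {i : ℕ} (hi : 1 ≤ i) {K : Set (List (Fin k))}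
    (hK : SPol (ST i) K) : SPol (ST i)
      {z : List (Fin m) | vp (k + 1) m z ∈ bar Fin.castSucc (Fin.last k) K} := by
  let d : Fin m := ⟨k, by omega⟩
  have hd : Fin.castLE hm (Fin.last k) = d := rfl
  have e : {z : List (Fin m) | vp (k + 1) m z ∈ bar Fin.castSucc (Fin.last k) K} =
      mrk Set.univ d (mrk ({z | vp k m z ∈ K} ∩ allIn {c | c ≠ d}) d Set.univ) := by
    ext z
    constructor
    · rintro ⟨a, w, hw, b, h⟩
      obtain ⟨z₁, z₂, rfl, _, h2⟩ := vp_split hm z _ _ _ h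
      obtain ⟨z₃, z₄, rfl, h3, _⟩ := vp_split hm z₂ _ _ _ h2
      obtain ⟨h5, h6⟩ := no_mark_of_vp z₃ w h3
      refine ⟨z₁, trivial, _, ⟨z₃, ⟨?_, ?_⟩, z₄, trivial, rfl⟩, rfl⟩
      · change vp k m z₃ ∈ K
        rw [h6]
        exact hw
      · intro c hc hcd
        exact h5 c hc (by rw [hcd])
    · rintro ⟨z₁, _, _, ⟨z₃, ⟨h1, h2⟩, z₄, _, rfl⟩, rfl⟩
      refine ⟨vp (k + 1) m z₁, vp k m z₃, h1, vp (k + 1) m z₄, ?_⟩
      have h3 : vp (k + 1) m z₃ = (vp k m z₃).map Fin.castSucc :=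
        vp_of_no_mark z₃ fun c hc hck => h2 c hc (Fin.ext hck)
      have h4 : ∀ z : List (Fin m), vp (k + 1) m (d :: z) = Fin.last k :: vp (k + 1) m z :=
        fun z => vp_cons_lt (c := d) (show k < k + 1 by omega) z
      simp only [vp_append, h4, h3]
  rw [e]
  refine SPol_mrk (SPol_univ _) _ (SPol_mrk ?_ _ (SPol_univ _))
  exact SPol_inter (QB_ST _) ((vp_ST (by omega) i).2 K hK) _
    (SPol.base _ (ST_mono hi (allIn_ST _)))

theorem tW_ST {k m : ℕ} (hm : k + 1 ≤ m) {i : ℕ} (hi : 1 ≤ i) {W : Set (List (Fin k))}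
    (hW : SPol (ST i) W) : SPol (ST i) (tW k m W) := by
  let d : Fin m := ⟨k, by omega⟩
  have h4 : ∀ z : List (Fin m), vp (k + 1) m (d :: z) = Fin.last k :: vp (k + 1) m z :=
    fun z => vp_cons_lt (c := d) (show k < k + 1 by omega) z
  have e : tW k m W =
      quo {z : List (Fin m) | vp (k + 1) m z ∈ bar Fin.castSucc (Fin.last k) W} [d] [d] := by
    ext f
    change _ ↔ vp (k + 1) m ([d] ++ (f ++ [d])) ∈ bar Fin.castSucc (Fin.last k) W
    rw [List.singleton_append, h4, vp_append, h4]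
    rfl
  rw [e]
  exact quo_SPol (fun K hK p q => (QB_ST i).quo K hK p q) (bar_ST hm hi hW) [d] [d]

/-- The words without the mark which contain the connector `μ`. -/
def MQ (D : Dt) (t μ : ℕ) : Set (List (Fin (al (ml2 D) t))) :=
  allIn {c | (c : ℕ) ≠ D.1} ∩
    {z | idec (D.1 + 1) (ml2 D) t z ∈ mrk Set.univ (lg D (D.1 + 1 + μ)) Set.univ}

/-- The mark. -/
def dm (D : Dt) (t : ℕ) : Fin (al (ml2 D) t) := upt t (mk2 D)

/-- The words with a segment from `X` which starts with a block with the connector `μ` and is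
followed by a block with the connector `ν`. -/
def AD (D : Dt) (t μ ν : ℕ) (X : Set (List (Fin (al (ml2 D) t)))) :
    Set (List (Fin (al (ml2 D) t))) :=
  mrk Set.univ (dm D t) (mrk ((MQ D t μ ∪ mrk (MQ D t μ) (dm D t) Set.univ) ∩ X) (dm D t)
    (mrk (MQ D t ν) (dm D t) Set.univ))

theorem MQ_ST {t : ℕ} (ht : 1 ≤ t) (μ : ℕ) : SPol (ST t) (MQ D t μ) :=
  SPol_inter (QB_ST _) (SPol.base _ (ST_mono ht (allIn_ST _))) _
    (idec_ST _ _ (SPol.mark _ _ _ (Or.inr rfl) (SPol.base _ (Or.inr rfl))) t)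

theorem AD_ST {t : ℕ} (ht : 1 ≤ t) (μ ν : ℕ) {X : Set (List (Fin (al (ml2 D) t)))}
    (hX : SPol (ST t) X) : SPol (ST t) (AD D t μ ν X) := by
  refine SPol_mrk (SPol_univ _) _ (SPol_mrk ?_ _ (SPol_mrk (MQ_ST ht _) _ (SPol_univ _)))
  exact SPol_inter (QB_ST _) (SPol.union _ _ (MQ_ST ht _)
    (SPol_mrk (MQ_ST ht _) _ (SPol_univ _))) _ hX

theorem idec_mk (t : ℕ) (z₁ z₂ : List (Fin (al (ml2 D) t))) :
    idec (D.1 + 1) (ml2 D) t (z₁ ++ dm D t :: z₂) =
      idec (D.1 + 1) (ml2 D) t z₁ ++ mk2 D :: idec (D.1 + 1) (ml2 D) t z₂ :=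
  idec_vis_append t (mk2 D) (by rw [mk2_val]; omega) z₁ z₂

theorem idec_mk_split (t : ℕ) (z : List (Fin (al (ml2 D) t))) (y₁ y₂ : List (Fin (ml2 D)))
    (h : idec (D.1 + 1) (ml2 D) t z = y₁ ++ mk2 D :: y₂) :
      ∃ z₁ z₂, z = z₁ ++ dm D t :: z₂ ∧ idec (D.1 + 1) (ml2 D) t z₁ = y₁ ∧
        idec (D.1 + 1) (ml2 D) t z₂ = y₂ :=
  idec_split_vis t (mk2 D) (by rw [mk2_val]; omega) z y₁ y₂ h

theorem MQ_spec {t μ : ℕ} {z : List (Fin (al (ml2 D) t))} (hz : z ∈ MQ D t μ) :
    (∀ c ∈ idec (D.1 + 1) (ml2 D) t z, (c : ℕ) ≠ D.1) ∧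
      lg D (D.1 + 1 + μ) ∈ idec (D.1 + 1) (ml2 D) t z := by
  obtain ⟨h1, y₁, _, y₂, _, h⟩ := hz
  refine ⟨?_, by rw [h]; simp⟩
  intro c hc hck
  obtain ⟨y₁, y₂, hy⟩ := List.append_of_mem hc
  obtain ⟨z₁, z₂, rfl, _, _⟩ := idec_split_vis t c (by omega) z y₁ y₂ hy
  exact h1 (upt t c) (by simp) hck

theorem MQ_of_bw {t μ : ℕ} (hμ : μ < 3 * sz D) {w : List (Fin D.1)}
    {z : List (Fin (al (ml2 D) t))} (hz : idec (D.1 + 1) (ml2 D) t z = bw D μ w) :
    z ∈ MQ D t μ := by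
  have hm : D.1 + 1 ≤ ml2 D := by
    unfold ml2
    omega
  have h1 : vp (D.1 + 1) (al (ml2 D) t) z = w.map Fin.castSucc := by
    rw [← vp_idec hm, hz, vp_bw hμ]
  refine ⟨(no_mark_of_vp z w h1).1, ?_⟩
  change idec (D.1 + 1) (ml2 D) t z ∈ mrk Set.univ (lg D (D.1 + 1 + μ)) Set.univ
  rw [hz]
  exact ⟨[], trivial, _, trivial, rfl⟩

/-- A segment gives a factorization. -/
theorem AD_of_seg {t μ ν : ℕ} {X : Set (List (Fin (al (ml2 D) t)))}
    {z : List (Fin (al (ml2 D) t))} {l₁ J l₂ : List (ℕ × List (Fin D.1))}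
    {w w' : List (Fin D.1)} (hμ : μ < 3 * sz D) (hν : ν < 3 * sz D)
    (hz : idec (D.1 + 1) (ml2 D) t z = mk2 D :: rt D (l₁ ++ (((μ, w) :: J) ++ ((ν, w') :: l₂))))
    (hX : ∀ f, mk2 D :: (idec (D.1 + 1) (ml2 D) t f ++ [mk2 D]) = mk2 D :: rt D ((μ, w) :: J) →
      f ∈ X) : z ∈ AD D t μ ν X := by
  obtain ⟨p, hp⟩ := mk_rt_end l₁
  obtain ⟨q, hq⟩ := mk_rt_end J
  have e : mk2 D :: rt D (l₁ ++ (((μ, w) :: J) ++ ((ν, w') :: l₂))) =
      p ++ mk2 D :: ((bw D μ w ++ q) ++ mk2 D :: (bw D ν w' ++ mk2 D :: rt D l₂)) := by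
    rw [rt_append, rt_append, rt_cons, rt_cons, ← List.cons_append, hp]
    have : bw D μ w ++ mk2 D :: rt D J = (bw D μ w ++ q) ++ [mk2 D] := by
      rw [hq]
      simp
    rw [this]
    simp
  rw [e] at hz
  obtain ⟨z₁, z₂, rfl, _, h2⟩ := idec_mk_split t z _ _ hz
  obtain ⟨z₃, z₄, rfl, h3, h4⟩ := idec_mk_split t z₂ _ _ h2
  obtain ⟨z₅, z₆, rfl, h5, _⟩ := idec_mk_split t z₄ _ _ h4
  refine ⟨z₁, trivial, _, ⟨z₃, ⟨?_, ?_⟩, _, ⟨z₅, MQ_of_bw hν h5, z₆, trivial, rfl⟩, rfl⟩, rfl⟩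
  · cases J with
    | nil =>
      have hq' : q = [] := by
        have := congrArg List.length hq
        simp only [rt, List.flatMap_nil, List.length_cons, List.length_nil,
          List.length_append] at this
        exact List.eq_nil_of_length_eq_zero (by omega)
      rw [hq', List.append_nil] at h3
      exact Or.inl (MQ_of_bw hμ h3)
    | cons b J =>
      obtain ⟨q', rfl⟩ : ∃ q', q = mk2 D :: q' := by
        cases q with
        | nil =>
          have := congrArg List.length hq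
          rw [rt_cons] at this
          simp only [List.length_cons, List.length_nil, List.length_append] at this
          omega
        | cons c q =>
          simp only [List.cons_append, List.cons.injEq] at hq
          exact ⟨q, by rw [← hq.1]⟩
      obtain ⟨z₇, z₈, rfl, h7, _⟩ := idec_mk_split t z₃ _ _ h3
      exact Or.inr ⟨z₇, MQ_of_bw hμ h7, z₈, trivial, rfl⟩
  · apply hX
    rw [h3, rt_cons]
    simp only [List.cons.injEq, true_and]
    rw [List.append_assoc, ← hq]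

/-- A factorization gives a segment. -/
theorem seg_of_AD {t μ ν : ℕ} {X : Set (List (Fin (al (ml2 D) t)))}
    {z : List (Fin (al (ml2 D) t))} {l : List (ℕ × List (Fin D.1))} (hμ : μ < 3 * sz D)
    (hν : ν < 3 * sz D) (hl : Cn D l)
    (hz : idec (D.1 + 1) (ml2 D) t z = mk2 D :: rt D l) (h : z ∈ AD D t μ ν X) :
    ∃ l₁ w J w' l₂, l = l₁ ++ (((μ, w) :: J) ++ ((ν, w') :: l₂)) ∧
      ∃ f ∈ X, mk2 D :: (idec (D.1 + 1) (ml2 D) t f ++ [mk2 D]) =
        mk2 D :: rt D ((μ, w) :: J) := by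
  obtain ⟨z₁, _, _, ⟨z₃, ⟨h1, h2⟩, _, ⟨z₅, h3, z₆, _, rfl⟩, rfl⟩, rfl⟩ := h
  rw [idec_mk, idec_mk, idec_mk] at hz
  obtain ⟨l₁, l', rfl, h4, _⟩ := rt_split hl _ _ hz.symm
  have h5 : mk2 D :: rt D l' = (mk2 D :: idec (D.1 + 1) (ml2 D) t z₃) ++ mk2 D ::
      (idec (D.1 + 1) (ml2 D) t z₅ ++ mk2 D :: idec (D.1 + 1) (ml2 D) t z₆) := by
    rw [← h4]
    rfl
  obtain ⟨l₃, l₄, rfl, h6, h7⟩ := rt_split hl.right _ _ h5
  have h8 : mk2 D :: rt D l₄ = (mk2 D :: idec (D.1 + 1) (ml2 D) t z₅) ++ mk2 D ::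
      idec (D.1 + 1) (ml2 D) t z₆ := by
    rw [← h6]
    rfl
  obtain ⟨l₅, l₆, rfl, _, h10⟩ := rt_split hl.right.right _ _ h8
  obtain ⟨h11, h12⟩ := MQ_spec h3
  simp only [List.cons_append, List.cons.injEq, true_and] at h10
  obtain ⟨b, rfl, hb⟩ := rt_single hl.right.right.left h11 h10
  have hb1 : b.1 = ν := by
    rw [hb] at h12
    exact (bw_conn (hl b (by simp)) hν h12).symm
  -- the first block of the segment
  have h13 : ∃ w J, l₃ = (μ, w) :: J := by
    simp only [List.cons_append, List.cons.injEq, true_and] at h7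
    rcases h1 with h1 | ⟨z₇, h1, z₈, _, rfl⟩
    · obtain ⟨h14, h15⟩ := MQ_spec h1
      obtain ⟨b', rfl, hb'⟩ := rt_single hl.right.left h14 h7
      rw [hb'] at h15
      have := bw_conn (hl b' (by simp)) hμ h15
      exact ⟨b'.2, [], by rw [this]⟩
    · rw [idec_mk] at h7
      have h16 : mk2 D :: rt D l₃ = (mk2 D :: idec (D.1 + 1) (ml2 D) t z₇) ++ mk2 D ::
          (idec (D.1 + 1) (ml2 D) t z₈ ++ [mk2 D]) := by
        rw [← h7]
        simp
      obtain ⟨l₇, l₈, rfl, _, h17⟩ := rt_split hl.right.left _ _ h16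
      simp only [List.cons_append, List.cons.injEq, true_and] at h17
      obtain ⟨h14, h15⟩ := MQ_spec h1
      obtain ⟨b', rfl, hb'⟩ := rt_single hl.right.left.left h14 h17
      rw [hb'] at h15
      have := bw_conn (hl b' (by simp)) hμ h15
      exact ⟨b'.2, l₈, by rw [this]; rfl⟩
  obtain ⟨w, J, rfl⟩ := h13
  refine ⟨l₁, w, J, b.2, l₆, ?_, z₃, h2, h7⟩
  rw [← hb1]
  simp

theorem mem_tW {t : ℕ} {W : Set (List (Fin D.1))} {f : List (Fin (al (ml2 D) t))}
    {l : List (ℕ × List (Fin D.1))} (hl : Cn D l)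
    (hf : mk2 D :: (idec (D.1 + 1) (ml2 D) t f ++ [mk2 D]) = mk2 D :: rt D l) :
    f ∈ tW D.1 (al (ml2 D) t) W ↔ ∃ w ∈ l.map Prod.snd, w ∈ W := by
  have hm : D.1 + 1 ≤ ml2 D := by
    unfold ml2
    omega
  have h1 : Fin.last D.1 :: (vp (D.1 + 1) (al (ml2 D) t) f ++ [Fin.last D.1]) =
      blocks Fin.castSucc (Fin.last D.1) (l.map Prod.snd) := by
    rw [← vp_rt hl, ← hf, vp_mk, vp_append, vp_mk, vp_idec hm]
    rfl
  have h2 : f ∈ tW D.1 (al (ml2 D) t) W ↔
      Fin.last D.1 :: (vp (D.1 + 1) (al (ml2 D) t) f ++ [Fin.last D.1]) ∈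
        bar Fin.castSucc (Fin.last D.1) W := Iff.rfl
  rw [h2, h1]
  exact blocks_mem_bar (Fin.castSucc_injective D.1)
    (fun a => (Fin.castSucc_lt_last a).ne) W _

end Pool.Agent.Helper964_DD
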