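import Pool.Agent.Helper964_DD.Basic

/-!
# Inverse images of products under morphisms, with contexts
-/

set_option autoImplicit false

namespace Pool.Agent.Helper964_DD

variable {α γ : Type}

/-- The words whose image under the morphism `φ`, between the contexts `p` and `q`, is in `K`. -/
def pre (φ : α → List γ) (K : Set (List γ)) (p q : List γ) : Set (List α) :=
  {u | p ++ (u.flatMap φ ++ q) ∈ K}

/-- A cut of the image of a word under a morphism. -/
theorem flatMap_cut (φ : α → List γ) : ∀ (u : List α) (s s' : List γ), u.flatMap φ = s ++ s' →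
    (∃ u₁ a u₂ y y', u = u₁ ++ a :: u₂ ∧ φ a = y ++ y' ∧ s = u₁.flatMap φ ++ y ∧
      s' = y' ++ u₂.flatMap φ) ∨ (s = u.flatMap φ ∧ s' = []) := by
  intro u
  induction u with
  | nil =>
    intro s s' h
    right
    simp only [List.flatMap_nil, List.nil_eq, List.append_eq_nil_iff] at h
    simp [h.1, h.2]
  | cons a u ih =>
    intro s s' h
    rw [List.flatMap_cons] at h
    rcases List.append_eq_append_iff.1 h with ⟨c, hc1, hc2⟩ | ⟨c, hc1, hc2⟩
    · -- s = φ a ++ c
      rcases ih c s' hc2 with ⟨u₁, b, u₂, y, y', h1, h2, h3, h4⟩ | ⟨h1, h2⟩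
      · left
        refine ⟨a :: u₁, b, u₂, y, y', by simp [h1], h2, ?_, h4⟩
        rw [hc1, h3]
        simp
      · right
        refine ⟨?_, h2⟩
        rw [hc1, h1]
        simp
    · left
      exact ⟨[], a, u, s, c, by simp, hc1, by simp, by rw [hc2]⟩

theorem mem_pre_cat (φ : α → List γ) (K K' : Set (List γ)) (p q : List γ) (u : List α) :
    u ∈ pre φ (cat K K') p q ↔
      (∃ p₁ p₂, p = p₁ ++ p₂ ∧ p₁ ∈ K ∧ u ∈ pre φ K' p₂ q) ∨
      (∃ q₁ q₂, q = q₁ ++ q₂ ∧ u ∈ pre φ K p q₁ ∧ q₂ ∈ K') ∨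
      (∃ u₁ a u₂ y y', u = u₁ ++ a :: u₂ ∧ φ a = y ++ y' ∧ u₁ ∈ pre φ K p y ∧
        u₂ ∈ pre φ K' y' q) := by
  constructor
  · rintro ⟨s, hs, s', hs', h⟩
    rcases List.append_eq_append_iff.1 h with ⟨c, hc1, hc2⟩ | ⟨c, hc1, hc2⟩
    · -- s = p ++ c
      rcases List.append_eq_append_iff.1 hc2 with ⟨d, hd1, hd2⟩ | ⟨d, hd1, hd2⟩
      · -- c = flatMap ++ d
        right; left
        refine ⟨d, s', hd2, ?_, hs'⟩
        simp only [pre, Set.mem_ofPred_eq]
        rw [← hd1, ← hc1]
        exact hs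
      · rcases flatMap_cut φ u c d hd1 with ⟨u₁, a, u₂, y, y', h1, h2, h3, h4⟩ | ⟨h1, h2⟩
        · right; right
          refine ⟨u₁, a, u₂, y, y', h1, h2, ?_, ?_⟩
          · simp only [pre, Set.mem_ofPred_eq]
            rw [← h3, ← hc1]
            exact hs
          · simp only [pre, Set.mem_ofPred_eq]
            rw [← List.append_assoc, ← h4, ← hd2]
            exact hs'
        · right; left
          refine ⟨[], q, rfl, ?_, ?_⟩
          · simp only [pre, Set.mem_ofPred_eq, List.append_nil]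
            rw [← h1, ← hc1]
            exact hs
          · rw [h2] at hd2
            simp only [List.nil_append] at hd2
            rw [← hd2]
            exact hs'
    · left
      refine ⟨s, c, hc1, hs, ?_⟩
      simp only [pre, Set.mem_ofPred_eq]
      rw [← hc2]
      exact hs'
  · rintro (⟨p₁, p₂, rfl, h1, h2⟩ | ⟨q₁, q₂, rfl, h1, h2⟩ | ⟨u₁, a, u₂, y, y', rfl, h2, h3, h4⟩)
    · exact ⟨p₁, h1, _, h2, by simp⟩
    · exact ⟨_, h1, q₂, h2, by simp⟩
    · refine ⟨_, h3, _, h4, ?_⟩
      simp [h2]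

/-- The families to which the inverse images belong: `T t` (full levels) and `P t` (half
levels). -/
structure Tgt (T P : ℕ → Set (Set (List α))) : Prop where
  compl : ∀ t L, L ∈ T (t + 1) → Lᶜ ∈ T (t + 1)
  unionT : ∀ t L K, L ∈ T (t + 1) → K ∈ T (t + 1) → L ∪ K ∈ T (t + 1)
  sub : ∀ t L, L ∈ T t → L ∈ P t
  empty : ∀ t, ∅ ∈ P t
  unionP : ∀ t L K, L ∈ P t → K ∈ P t → L ∪ K ∈ P t
  mark : ∀ t (a : α) X Y, X ∈ T t → Y ∈ P t →
    {u : List α | ∃ u₁ ∈ X, ∃ u₂ ∈ Y, u = u₁ ++ a :: u₂} ∈ P t
  up : ∀ t L, L ∈ P t → L ∈ T (t + 1)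

theorem tgt_B (s : ℕ) : Tgt (α := α) (fun t => B (s + t)) (fun t => {L | Pol (B (s + t)) L}) where
  compl t L h := B_compl h
  unionT t L K h h' := B_union h h'
  sub t L h := Pol_sub h
  empty t := Pol.empty
  unionP t L K h h' := Pol.union L K h h'
  mark t a X Y hX hY := by
    have : {u : List α | ∃ u₁ ∈ X, ∃ u₂ ∈ Y, u = u₁ ++ a :: u₂} = cat X (cat {[a]} Y) := by
      ext u
      constructor
      · rintro ⟨u₁, h1, u₂, h2, rfl⟩
        exact ⟨u₁, h1, [a] ++ u₂, append_mem_cat rfl h2, by simp⟩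
      · rintro ⟨u₁, h1, _, ⟨_, rfl, u₂, h2, rfl⟩, rfl⟩
        exact ⟨u₁, h1, u₂, h2, by simp⟩
    rw [this]
    exact Pol_cat (Pol_sub hX) (Pol_cat (Pol_sub (single_mem _ _)) hY)
  up t L h := Pol_le h

theorem pre_compl (φ : α → List γ) (K : Set (List γ)) (p q : List γ) :
    pre φ Kᶜ p q = (pre φ K p q)ᶜ := rfl

theorem pre_union (φ : α → List γ) (K K' : Set (List γ)) (p q : List γ) :
    pre φ (K ∪ K') p q = pre φ K p q ∪ pre φ K' p q := rfl

open Classical in
theorem pre_cat_mem [Finite α] {T P : ℕ → Set (Set (List α))} (tgt : Tgt T P) (t : ℕ)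
    (φ : α → List γ) (K K' : Set (List γ)) (hK : ∀ p q, pre φ K p q ∈ T t)
    (hK' : ∀ p q, pre φ K' p q ∈ P t) (p q : List γ) : pre φ (cat K K') p q ∈ P t := by
  have hKP : ∀ p q, pre φ K p q ∈ P t := fun p q => tgt.sub _ _ (hK p q)
  have e : pre φ (cat K K') p q =
      {u | ∃ i ∈ Finset.range (p.length + 1),
        u ∈ if p.take i ∈ K then pre φ K' (p.drop i) q else ∅} ∪
      ({u | ∃ i ∈ Finset.range (q.length + 1),
        u ∈ if q.drop i ∈ K' then pre φ K p (q.take i) else ∅} ∪
      {u | ∃ a : α, u ∈ {u | ∃ i ∈ Finset.range ((φ a).length + 1),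
        u ∈ {u : List α | ∃ u₁ ∈ pre φ K p ((φ a).take i), ∃ u₂ ∈ pre φ K' ((φ a).drop i) q,
          u = u₁ ++ a :: u₂}}}) := by
    ext u
    rw [mem_pre_cat]
    constructor
    · rintro (⟨p₁, p₂, rfl, h1, h2⟩ | ⟨q₁, q₂, rfl, h1, h2⟩ | ⟨u₁, a, u₂, y, y', rfl, h2, h3, h4⟩)
      · left
        refine ⟨p₁.length, by simp, ?_⟩
        simp [h1, h2]
      · right; left
        refine ⟨q₁.length, by simp, ?_⟩
        simp [h1, h2]
      · right; right
        refine ⟨a, y.length, by simp [h2], u₁, by simp [h2, h3], u₂, by simp [h2, h4], rfl⟩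
    · rintro (⟨i, _, hi⟩ | ⟨i, _, hi⟩ | ⟨a, i, _, u₁, h1, u₂, h2, rfl⟩)
      · left
        by_cases h : p.take i ∈ K
        · rw [if_pos h] at hi
          exact ⟨p.take i, p.drop i, (List.take_append_drop i p).symm, h, hi⟩
        · rw [if_neg h] at hi
          exact hi.elim
      · right; left
        by_cases h : q.drop i ∈ K'
        · rw [if_pos h] at hi
          exact ⟨q.take i, q.drop i, (List.take_append_drop i q).symm, hi, h⟩
        · rw [if_neg h] at hi
          exact hi.elim
      · right; right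
        exact ⟨u₁, a, u₂, (φ a).take i, (φ a).drop i, rfl,
          (List.take_append_drop i (φ a)).symm, h1, h2⟩
  rw [e]
  refine tgt.unionP _ _ _ ?_ (tgt.unionP _ _ _ ?_ ?_)
  · refine finset_union (tgt.empty t) (tgt.unionP t) _ _ fun i _ => ?_
    split_ifs
    · exact hK' _ _
    · exact tgt.empty t
  · refine finset_union (tgt.empty t) (tgt.unionP t) _ _ fun i _ => ?_
    split_ifs
    · exact hKP _ _
    · exact tgt.empty t
  · refine finite_union (tgt.empty t) (tgt.unionP t) _ fun a => ?_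
    refine finset_union (tgt.empty t) (tgt.unionP t) _ _ fun i _ => ?_
    exact tgt.mark t a _ _ (hK _ _) (hK' _ _)

/-- **The shift theorem.** Let `φ k` be a family of morphisms such that for every language `K` of
level `s` the inverse images of `K` under `φ k` (with all contexts) are eventually in `T 0`. Then
the inverse images of the languages of level `s + t` are eventually in `T t`, and those of the
languages of the half level are eventually in `P t`. -/
theorem shift [Finite α] {T P : ℕ → Set (Set (List α))} (tgt : Tgt T P) {ι : Type}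
    (l : Filter ι) (φ : ι → α → List γ) (s : ℕ)
    (hbase : ∀ K ∈ B s, ∀ᶠ k in l, ∀ p q, pre (φ k) K p q ∈ T 0) (t : ℕ) :
    (∀ K ∈ B (s + t), ∀ᶠ k in l, ∀ p q, pre (φ k) K p q ∈ T t) ∧
    (∀ K, Pol (B (s + t)) K → ∀ᶠ k in l, ∀ p q, pre (φ k) K p q ∈ P t) := by
  have step : ∀ t, (∀ K ∈ B (s + t), ∀ᶠ k in l, ∀ p q, pre (φ k) K p q ∈ T t) →
      (∀ K, Pol (B (s + t)) K → ∀ᶠ k in l, ∀ p q, pre (φ k) K p q ∈ P t) := by
    intro t ht K hK
    induction hK with
    | empty => exact Filter.Eventually.of_forall fun k p q => tgt.empty t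
    | base K hK =>
      obtain ⟨m, hm, rfl⟩ := hK
      induction m with
      | nil =>
        filter_upwards [ht {[]} (single_mem _ _)] with k hk p q
        exact tgt.sub _ _ (hk p q)
      | cons K m ih =>
        filter_upwards [ht K (hm K (by simp)), ih fun K' h => hm K' (by simp [h])] with k h1 h2 p q
        exact pre_cat_mem tgt t (φ k) K (prodL m) h1 h2 p q
    | union K K' _ _ h1 h2 =>
      filter_upwards [h1, h2] with k h1 h2 p q
      exact tgt.unionP _ _ _ (h1 p q) (h2 p q)
  have main : ∀ t, ∀ K ∈ B (s + t), ∀ᶠ k in l, ∀ p q, pre (φ k) K p q ∈ T t := by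
    intro t
    induction t with
    | zero => exact hbase
    | succ t ih =>
      have hP := step t ih
      intro K hK
      refine B_induction (i := s + t)
        (P := fun K => ∀ᶠ k in l, ∀ p q, pre (φ k) K p q ∈ T (t + 1)) ?_ ?_ ?_ K hK
      · intro K hK
        filter_upwards [hP K (Pol.base K hK)] with k hk p q
        exact tgt.up _ _ (hk p q)
      · intro K h
        filter_upwards [h] with k hk p q
        exact tgt.compl _ _ (hk p q)
      · intro K K' h h'
        filter_upwards [h, h'] with k hk hk' p q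
        exact tgt.unionT _ _ _ (hk p q) (hk' p q)
  exact ⟨main t, step t (main t)⟩

/-! ### Morphisms which do not erase -/

theorem finite_length_lt [Finite α] (n : ℕ) : {u : List α | u.length < n}.Finite :=
  List.finite_length_lt α n

theorem length_flatMap_ge (φ : α → List γ) (hφ : ∀ a, φ a ≠ []) (u : List α) :
    u.length ≤ (u.flatMap φ).length := by
  induction u with
  | nil => simp
  | cons a u ih =>
    rw [List.flatMap_cons, List.length_append, List.length_cons]
    have := List.length_pos_iff.2 (hφ a)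
    omega

theorem exists_length_bound {L : Set (List γ)} (h : L.Finite) : ∃ n, ∀ w ∈ L, w.length < n := by
  obtain ⟨n, hn⟩ := (h.image List.length).bddAbove
  exact ⟨n + 1, fun w hw => Nat.lt_succ_of_le (hn ⟨w, hw, rfl⟩)⟩

theorem pre_B0 [Finite α] (φ : α → List γ) (hφ : ∀ a, φ a ≠ []) {K : Set (List γ)}
    (hK : K ∈ B (α := γ) 0) (p q : List γ) : pre φ K p q ∈ B (α := α) 0 := by
  have fin : ∀ K : Set (List γ), K.Finite → (pre φ K p q).Finite := by
    intro K hK
    obtain ⟨n, hn⟩ := exists_length_bound hK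
    refine (finite_length_lt n).subset fun u hu => ?_
    have := hn _ hu
    simp only [List.length_append] at this
    have h2 := length_flatMap_ge φ hφ u
    simp only [Set.mem_ofPred_eq]
    omega
  rcases hK with h | h
  · exact Or.inl (fin K h)
  · exact Or.inr (fin _ h)

theorem pre_mem [Finite α] (φ : α → List γ) (hφ : ∀ a, φ a ≠ []) (i : ℕ) :
    (∀ K ∈ B (α := γ) i, ∀ p q, pre φ K p q ∈ B (α := α) i) ∧
    (∀ K : Set (List γ), Pol (B i) K → ∀ p q, Pol (B i) (pre φ K p q)) := by
  have := shift (tgt_B (α := α) 0) (⊤ : Filter Unit) (fun _ => φ) 0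
    (fun K hK => Filter.Eventually.of_forall fun _ p q => by
      simpa using pre_B0 φ hφ hK p q) i
  constructor
  · intro K hK p q
    have h := this.1 K (by simpa using hK)
    rw [Filter.eventually_top] at h
    simpa using h () p q
  · intro K hK p q
    have h := this.2 K (by simpa using hK)
    rw [Filter.eventually_top] at h
    simpa using h () p q

end Pool.Agent.Helper964_DD
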