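import Pool.Agent.Helper964_DD.Seg

/-!
# Stages of well formed words
-/

set_option autoImplicit false

namespace Pool.Agent.Helper964_DD

/-- The stages: 0 (only connectors 2 and 3), 1 (the first other connector was 5), 2 (it was 4, and
there was no connector 5), 3 (it was 4, and there was a connector 5), 4 (error). -/
def sstm (σ μ : ℕ) : ℕ :=
  if μ = 2 ∨ μ = 3 then (if σ = 0 then 0 else 4)
  else if μ = 4 then (if σ = 0 then 2 else σ)
  else if μ = 5 then (if σ = 0 then 1 else if σ = 2 then 3 else σ)
  else σ

/-- The stage automaton. -/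
def sst (k σ a : ℕ) : ℕ := if a ≤ k then σ else sstm σ (a - (k + 1))

/-- The run of the stage automaton. -/
def sfold (D : Dt) (σ : ℕ) (w : List (Fin (ml2 D))) : ℕ :=
  w.foldl (fun (σ : ℕ) (a : Fin (ml2 D)) => sst D.1 σ (a : ℕ)) σ

/-- The language whose level is considered: all words but the well formed words of stage 3. -/
def f2 (D : Dt) : Set (List (Fin (ml2 D))) :=
  {y | ¬ ((lfold D 2 (0, 0) y).2 = 4 ∧ sfold D 0 y = 3)}

variable {D : Dt}

theorem sfold_cons (σ : ℕ) (a : Fin (ml2 D)) (w : List (Fin (ml2 D))) :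
    sfold D σ (a :: w) = sfold D (sst D.1 σ a) w := rfl

theorem sfold_append (σ : ℕ) (w w' : List (Fin (ml2 D))) :
    sfold D σ (w ++ w') = sfold D (sfold D σ w) w' := by
  simp [sfold, List.foldl_append]

theorem sst_ann (w : List (Fin D.1)) : ∀ h σ, sfold D σ (ann D h w) = σ := by
  induction w with
  | nil => intro h σ; rfl
  | cons a w ih =>
    intro h σ
    rw [ann, sfold_cons, sfold_cons, lg_val (vis_lt a.2), lg_val (hid_lt (nxh_lt D h a))]
    have h1 : sst D.1 σ (a : ℕ) = σ := by
      rw [sst, if_pos (by omega)]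
    have h2 : sst D.1 σ (D.1 + 1 + nxh D h a) = σ := by
      have h3 : D.1 + 1 + nxh D h a - (D.1 + 1) = nxh D h a := by omega
      have h4 := nxh_ge D h a
      have h5 := sz_ge D
      rw [sst, if_neg (by omega), h3, sstm, if_neg (by omega), if_neg (by omega),
        if_neg (by omega)]
    rw [h1, h2, ih]

theorem sfold_bw {μ : ℕ} (hμ : μ < 3 * sz D) (w : List (Fin D.1)) (σ : ℕ) :
    sfold D σ (bw D μ w) = sstm σ μ := by
  rw [bw, sfold_cons, lg_val (conn_lt hμ), sst_ann, sst, if_neg (by omega)]
  congr 1
  omega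

theorem sst_mk (σ : ℕ) : sst D.1 σ (mk2 D : Fin (ml2 D)) = σ := by
  rw [mk2_val, sst, if_pos le_rfl]

theorem sfold_block {μ : ℕ} (hμ : μ < 3 * sz D) (w : List (Fin D.1)) (σ : ℕ) :
    sfold D σ (mk2 D :: bw D μ w) = sstm σ μ := by
  rw [sfold_cons, sst_mk, sfold_bw hμ]

/-- The stage of a sequence of blocks. -/
def sm {β : Type} (σ : ℕ) (l : List (ℕ × β)) : ℕ := l.foldl (fun σ b => sstm σ b.1) σ

theorem sm_append {β : Type} (σ : ℕ) (l l' : List (ℕ × β)) : sm σ (l ++ l') = sm (sm σ l) l' := by
  simp [sm, List.foldl_append]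

theorem sfold_rt (l : List (ℕ × List (Fin D.1))) (hl : Cn D l) : ∀ σ,
    sfold D σ (rt D l) = sm σ l := by
  induction l with
  | nil => intro σ; rfl
  | cons b l ih =>
    intro σ
    rw [rt_cons, sfold_append, sfold_bw (hl b (by simp)), sfold_cons, sst_mk,
      ih fun b hb => hl b (by simp [hb])]
    rfl

/-! ### Sequences of blocks -/

section lists

variable {β : Type}

/-- The block is an opening block. -/
abbrev opn (b : ℕ × β) : Prop := b.1 = 2 ∨ b.1 = 3

/-- The block is a closing block. -/
abbrev cls (b : ℕ × β) : Prop := b.1 = 4 ∨ b.1 = 5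

theorem sstm_four (μ : ℕ) : sstm 4 μ = 4 := by
  unfold sstm
  split_ifs <;> simp_all

theorem sm_four (l : List (ℕ × β)) : sm 4 l = 4 := by
  induction l with
  | nil => rfl
  | cons b l ih =>
    change sm (sstm 4 b.1) l = 4
    rw [sstm_four, ih]

theorem sm_closed (l : List (ℕ × β)) : ∀ σ, σ = 1 ∨ σ = 2 ∨ σ = 3 → sm σ l ≠ 4 →
    (∀ b ∈ l, ¬ opn b) ∧ (σ = 1 → sm σ l = 1) ∧ (σ = 3 → sm σ l = 3) ∧
      (σ = 2 → (sm σ l = 3 ↔ ∃ b ∈ l, b.1 = 5) ∧ (sm σ l = 2 ↔ ¬ ∃ b ∈ l, b.1 = 5)) := by
  induction l with
  | nil =>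
    intro σ hσ h
    refine ⟨by simp, fun h => h, fun h => h, fun h => ?_⟩
    subst h
    simp [sm]
  | cons b l ih =>
    intro σ hσ h
    have e : sm σ (b :: l) = sm (sstm σ b.1) l := rfl
    rw [e] at h ⊢
    by_cases ho : opn b
    · exfalso
      have : sstm σ b.1 = 4 := by
        unfold sstm
        rw [if_pos ho, if_neg (by omega)]
      rw [this, sm_four] at h
      exact h rfl
    · have h1 : sstm σ b.1 = 1 ∨ sstm σ b.1 = 2 ∨ sstm σ b.1 = 3 := by
        unfold sstm
        rw [if_neg ho]
        split_ifs <;> omega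
      obtain ⟨h2, h3, h4, h5⟩ := ih _ h1 h
      refine ⟨?_, ?_, ?_, ?_⟩
      · intro b' hb'
        rcases List.mem_cons.1 hb' with rfl | hb'
        · exact ho
        · exact h2 b' hb'
      · intro hs
        apply h3
        subst hs
        unfold sstm
        rw [if_neg ho]
        split_ifs <;> simp_all
      · intro hs
        apply h4
        subst hs
        unfold sstm
        rw [if_neg ho]
        split_ifs <;> simp_all
      · intro hs
        subst hs
        by_cases h6 : b.1 = 5
        · have h7 : sstm 2 b.1 = 3 := by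
            unfold sstm
            rw [if_neg ho, if_neg (by omega), if_pos h6]
            simp
          rw [h7] at h4 ⊢
          rw [h4 rfl]
          refine ⟨iff_of_true rfl ⟨b, by simp, h6⟩, iff_of_false (by norm_num) ?_⟩
          exact fun h => h ⟨b, by simp, h6⟩
        · have h7 : sstm 2 b.1 = 2 := by
            unfold sstm
            rw [if_neg ho]
            split_ifs <;> first | rfl | omega
          rw [h7] at h5 ⊢
          have h8 := h5 rfl
          have h9 : (∃ b' ∈ b :: l, b'.1 = 5) ↔ ∃ b' ∈ l, b'.1 = 5 := by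
            constructor
            · rintro ⟨b', hb', hx⟩
              rcases List.mem_cons.1 hb' with rfl | hb'
              · exact absurd hx h6
              · exact ⟨b', hb', hx⟩
            · rintro ⟨b', hb', hx⟩
              exact ⟨b', by simp [hb'], hx⟩
          rw [h9]
          exact h8

theorem sm_zero (l : List (ℕ × β)) (h : ∀ b ∈ l, ¬ cls b) : sm 0 l = 0 := by
  induction l with
  | nil => rfl
  | cons b l ih =>
    have h1 : sstm 0 b.1 = 0 := by
      have := h b (by simp)
      unfold sstm
      split_ifs <;> first | rfl | omega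
    change sm (sstm 0 b.1) l = 0
    rw [h1]
    exact ih fun b' hb' => h b' (by simp [hb'])

/-- The decomposition at the first element with a property. -/
theorem first_split (P : ℕ × β → Prop) [DecidablePred P] (l : List (ℕ × β)) :
    (∀ b ∈ l, ¬ P b) ∨ ∃ l₁ b l₂, l = l₁ ++ b :: l₂ ∧ (∀ b ∈ l₁, ¬ P b) ∧ P b := by
  induction l with
  | nil => exact Or.inl (by simp)
  | cons b l ih =>
    by_cases hb : P b
    · exact Or.inr ⟨[], b, l, rfl, by simp, hb⟩
    · rcases ih with h | ⟨l₁, c, l₂, rfl, h1, h2⟩
      · left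
        intro b' hb'
        rcases List.mem_cons.1 hb' with rfl | hb'
        · exact hb
        · exact h b' hb'
      · refine Or.inr ⟨b :: l₁, c, l₂, rfl, ?_, h2⟩
        intro b' hb'
        rcases List.mem_cons.1 hb' with rfl | hb'
        · exact hb
        · exact h1 b' hb'

/-- The decomposition at the last element with a property. -/
theorem last_split (P : ℕ × β → Prop) [DecidablePred P] (l : List (ℕ × β)) :
    (∀ b ∈ l, ¬ P b) ∨ ∃ l₁ b l₂, l = l₁ ++ b :: l₂ ∧ (∀ b ∈ l₂, ¬ P b) ∧ P b := by
  induction l with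
  | nil => exact Or.inl (by simp)
  | cons b l ih =>
    rcases ih with h | ⟨l₁, c, l₂, rfl, h1, h2⟩
    · by_cases hb : P b
      · exact Or.inr ⟨[], b, l, rfl, h, hb⟩
      · left
        intro b' hb'
        rcases List.mem_cons.1 hb' with rfl | hb'
        · exact hb
        · exact h b' hb'
    · exact Or.inr ⟨b :: l₁, c, l₂, rfl, h1, h2⟩

/-- The segment between the last opening block and the first closing block is contained in all
segments which start with an opening block and are followed by a closing block. -/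
theorem seg_sub {P Q R P' Q' R' : List (ℕ × β)} {o c o' c' : ℕ × β}
    (h : P ++ ((o :: Q) ++ (c :: R)) = P' ++ ((o' :: Q') ++ (c' :: R')))
    (h1 : ∀ b ∈ Q ++ (c :: R), ¬ opn b) (h2 : ∀ b ∈ P ++ (o :: Q), ¬ cls b)
    (ho : opn o') (hc : cls c') : ∀ b ∈ o :: Q, b ∈ o' :: Q' := by
  -- the position of the opening block
  have hA : ∃ s, P = P' ++ s ∧ s ++ ((o :: Q) ++ (c :: R)) = (o' :: Q') ++ (c' :: R') := by
    rcases List.append_eq_append_iff.1 h with ⟨s, h3, h4⟩ | ⟨s, h3, h4⟩
    · cases s with
      | nil => exact ⟨[], by simpa using h3.symm, by simpa using h4⟩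
      | cons x s =>
        exfalso
        simp only [List.cons_append, List.cons.injEq] at h4
        have : o' ∈ Q ++ (c :: R) := by
          have h5 : Q ++ c :: R = s ++ (o' :: (Q' ++ c' :: R')) := by simpa using h4.2
          rw [h5]
          simp
        exact h1 o' this ho
    · exact ⟨s, h3, h4.symm⟩
  obtain ⟨s, rfl, h3⟩ := hA
  have e : (s ++ (o :: Q)) ++ (c :: R) = (o' :: Q') ++ (c' :: R') := by
    rw [← h3]
    simp
  rcases List.append_eq_append_iff.1 e with ⟨r, h4, h5⟩ | ⟨r, h4, h5⟩
  · intro b hb
    rw [h4]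
    simp only [List.mem_append]
    exact Or.inl (Or.inr hb)
  · cases r with
    | nil =>
      intro b hb
      rw [List.append_nil] at h4
      rw [← h4]
      simp only [List.mem_append]
      exact Or.inr hb
    | cons x r =>
      exfalso
      simp only [List.cons_append, List.cons.injEq] at h5
      refine h2 c' ?_ hc
      rw [List.append_assoc, h4, ← h5.1]
      simp

end lists

theorem BsOk_append {l l' : List (ℕ × List (Fin D.1))} : ∀ {h : ℕ}, BsOk D h (l ++ l') →
    BsOk D h l := by
  induction l with
  | nil => intro h _; trivial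
  | cons b l ih => intro h hl; exact ⟨hl.1, hl.2.1, ih hl.2.2⟩

/-- The kind after a sequence of blocks. -/
def lastK (h : ℕ) (l : List (ℕ × List (Fin D.1))) : ℕ := l.foldl (fun _ b => b.1) h

theorem BsOk_right {l l' : List (ℕ × List (Fin D.1))} : ∀ {h : ℕ}, BsOk D h (l ++ l') →
    BsOk D (lastK h l) l' := by
  induction l with
  | nil => intro h hl; exact hl
  | cons b l ih => intro h hl; exact ih hl.2.2

theorem BsOk_Cn {l : List (ℕ × List (Fin D.1))} : ∀ {h : ℕ}, BsOk D h l → Cn D l := by
  induction l with
  | nil => intro h _ b hb; cases hb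
  | cons b l ih =>
    intro h hl b' hb'
    rcases List.mem_cons.1 hb' with rfl | hb'
    · exact alw_lt hl.1
    · exact ih hl.2.2 b' hb'

/-- Blocks with the connectors `0` and `1` do not change the kind. -/
theorem BsOk_flat (hs : sz D = 2) {l : List (ℕ × List (Fin D.1))} : ∀ {h : ℕ}, BsOk D h l →
    (∀ b ∈ l, b.1 < 2) → (∀ b ∈ l, b.2 ∈ lngs D (h % 2)) ∧ lastK h l % 2 = h % 2 := by
  induction l with
  | nil => intro h _ _; exact ⟨by simp, rfl⟩
  | cons b l ih =>
    intro h hl hb
    have h1 := hb b (by simp)
    have h2 : b.1 % 2 = h % 2 := by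
      have := hl.1
      unfold alw at this
      rw [hs] at this
      omega
    obtain ⟨h3, h4⟩ := ih hl.2.2 fun b' hb' => hb b' (by simp [hb'])
    refine ⟨?_, ?_⟩
    · intro b' hb'
      rcases List.mem_cons.1 hb' with rfl | hb'
      · have := hl.2.1
        rwa [hs, h2] at this
      · rw [← h2]
        exact h3 b' hb'
    · change lastK b.1 l % 2 = _
      rw [h4, h2]

/-- The center of a well formed word. -/
theorem center (hs : sz D = 2) {w : List (Fin D.1)} {l : List (ℕ × List (Fin D.1))}
    (hw : w ∈ lngs D 0) (hl : BsOk D 2 l) (hσ : sm 0 ((2, w) :: l) = 1 ∨ sm 0 ((2, w) :: l) = 3) :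
    ∃ P o Q c R, (2, w) :: l = P ++ ((o :: Q) ++ (c :: R)) ∧ (∀ b ∈ Q ++ (c :: R), ¬ opn b) ∧
      (∀ b ∈ P ++ (o :: Q), ¬ cls b) ∧ (∀ b ∈ o :: Q, b.2 ∈ lngs D (o.1 % 2)) ∧
      ((sm 0 ((2, w) :: l) = 1 ∧ o.1 = 2 ∧ c.1 = 5) ∨
        (sm 0 ((2, w) :: l) = 3 ∧ o.1 = 3 ∧ c.1 = 4)) := by
  rcases first_split (cls (β := List (Fin D.1))) ((2, w) :: l) with h | ⟨A, c, R, hA, h1, h2⟩
  · rw [sm_zero _ h] at hσ
    omega
  · rw [hA, sm_append, sm_zero A h1] at hσ
    change sm (sstm 0 c.1) R = 1 ∨ sm (sstm 0 c.1) R = 3 at hσ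
    rcases last_split (opn (β := List (Fin D.1))) A with h | ⟨P, o, Q, hP, h3, h4⟩
    · exfalso
      cases A with
      | nil =>
        simp only [List.nil_append, List.cons.injEq] at hA
        rw [← hA.1] at h2
        rcases h2 with h2 | h2 <;> simp at h2
      | cons b A =>
        simp only [List.cons_append, List.cons.injEq] at hA
        refine h b (by simp) ?_
        rw [← hA.1]
        exact Or.inl rfl
    · -- the stage after the first closing block
      have h5 : sstm 0 c.1 = 1 ∨ sstm 0 c.1 = 2 ∨ sstm 0 c.1 = 3 := by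
        rcases h2 with h2 | h2 <;> simp [sstm, h2]
      have h6 : sm (sstm 0 c.1) R ≠ 4 := by omega
      obtain ⟨h7, h8, _, h9⟩ := sm_closed R _ h5 h6
      have hQ : ∀ b ∈ Q, b.1 < 2 := by
        intro b hb
        have h10 := h3 b hb
        have h11 := h1 b (by rw [hP]; simp [hb])
        have h12 : b.1 < 3 * sz D := by
          have h13 : b ∈ (2, w) :: l := by
            rw [hA, hP]
            simp [hb]
          rcases List.mem_cons.1 h13 with rfl | h13
          · rw [hs]
            norm_num
          · exact BsOk_Cn hl b h13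
        rw [hs] at h12
        simp only [opn, cls] at h10 h11
        omega
      -- the conditions for the center
      have hok : o.2 ∈ lngs D (o.1 % 2) ∧ BsOk D o.1 (Q ++ (c :: R)) := by
        have e : (2, w) :: l = P ++ (o :: (Q ++ (c :: R))) := by
          rw [hA, hP]
          simp
        cases P with
        | nil =>
          simp only [List.nil_append, List.cons.injEq] at e
          rw [← e.1, ← e.2]
          exact ⟨by simpa using hw, hl⟩
        | cons x P =>
          simp only [List.cons_append, List.cons.injEq] at e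
          rw [e.2] at hl
          have := BsOk_right hl
          exact ⟨by have h := this.2.1; rwa [hs] at h, this.2.2⟩
      obtain ⟨h10, h11⟩ := BsOk_flat hs (BsOk_append hok.2) hQ
      have h12 : alw D (lastK o.1 Q) c.1 := (BsOk_right hok.2).1
      refine ⟨P, o, Q, c, R, by rw [hA, hP]; simp, ?_, ?_, ?_, ?_⟩
      · intro b hb
        rcases List.mem_append.1 hb with hb | hb
        · exact h3 b hb
        · rcases List.mem_cons.1 hb with rfl | hb
          · rcases h2 with h2 | h2 <;> simp [opn, h2]
          · exact h7 b hb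
      · rw [← hP]
        exact h1
      · intro b hb
        rcases List.mem_cons.1 hb with rfl | hb
        · exact hok.1
        · exact h10 b hb
      · rw [hA, sm_append, sm_zero A h1]
        change (sm (sstm 0 c.1) R = 1 ∧ _) ∨ (sm (sstm 0 c.1) R = 3 ∧ _)
        unfold alw at h12
        rw [hs] at h12
        rcases h2 with h2 | h2
        · right
          have h13 : sstm 0 c.1 = 2 := by simp [sstm, h2]
          rw [h13] at hσ h9 ⊢
          have h14 := h9 rfl
          refine ⟨?_, ?_, h2⟩
          · rcases hσ with hσ | hσ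
            · exfalso
              by_cases h15 : ∃ b ∈ R, b.1 = 5
              · rw [h14.1.2 h15] at hσ
                exact absurd hσ (by norm_num)
              · rw [h14.2.2 h15] at hσ
                exact absurd hσ (by norm_num)
            · exact hσ
          · rcases h4 with h4 | h4
            · exfalso
              have h16 : o.1 % 2 = 0 := by rw [h4]
              clear hσ h9 h14
              omega
            · exact h4
        · left
          have h13 : sstm 0 c.1 = 1 := by simp [sstm, h2]
          rw [h13] at h8 ⊢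
          refine ⟨h8 rfl, ?_, h2⟩
          rcases h4 with h4 | h4
          · exact h4
          · exfalso
            have h16 : o.1 % 2 = 1 := by rw [h4]
            clear hσ h8
            omega

end Pool.Agent.Helper964_DD
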