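import Pool.Agent.Helper964_DD.HidFree
import Pool.Agent.Helper964_DD.Bar

/-!
# Visible letters, and iterated hiding
-/

set_option autoImplicit false

namespace Pool.Agent.Helper964_DD

/-- The projection to the visible letters. -/
def vp (v m : ℕ) (w : List (Fin m)) : List (Fin v) :=
  w.filterMap (fun e => if h : (e : ℕ) < v then some ⟨e, h⟩ else none)

theorem vp_append (v m : ℕ) (w w' : List (Fin m)) : vp v m (w ++ w') = vp v m w ++ vp v m w' := by
  simp [vp]

theorem vp_cons_lt {v m : ℕ} {c : Fin m} (h : (c : ℕ) < v) (w : List (Fin m)) :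
    vp v m (c :: w) = ⟨c, h⟩ :: vp v m w := by
  simp [vp, h]

theorem vp_cons_ge {v m : ℕ} {c : Fin m} (h : ¬ (c : ℕ) < v) (w : List (Fin m)) :
    vp v m (c :: w) = vp v m w := by
  simp [vp, h]

theorem vp_nil (v m : ℕ) : vp v m [] = [] := rfl

theorem vp_split {v m : ℕ} (hv : v ≤ m) : ∀ (z : List (Fin m)) (u₁ : List (Fin v)) (a : Fin v)
    (u₂ : List (Fin v)), vp v m z = u₁ ++ a :: u₂ →
    ∃ z₁ z₂, z = z₁ ++ Fin.castLE hv a :: z₂ ∧ vp v m z₁ = u₁ ∧ vp v m z₂ = u₂ := by
  intro z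
  induction z with
  | nil => intro u₁ a u₂ h; simp [vp] at h
  | cons c z ih =>
    intro u₁ a u₂ h
    by_cases hc : (c : ℕ) < v
    · rw [vp_cons_lt hc] at h
      cases u₁ with
      | nil =>
        simp only [List.nil_append, List.cons.injEq] at h
        refine ⟨[], z, ?_, rfl, h.2⟩
        rw [← h.1]
        rfl
      | cons b u₁ =>
        simp only [List.cons_append, List.cons.injEq] at h
        obtain ⟨z₁, z₂, h1, h2, h3⟩ := ih u₁ a u₂ h.2
        exact ⟨c :: z₁, z₂, by rw [h1]; rfl, by rw [vp_cons_lt hc, h2, h.1], h3⟩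
    · rw [vp_cons_ge hc] at h
      obtain ⟨z₁, z₂, h1, h2, h3⟩ := ih u₁ a u₂ h
      exact ⟨c :: z₁, z₂, by rw [h1]; rfl, by rw [vp_cons_ge hc, h2], h3⟩

theorem vp_mrk {v m : ℕ} (hv : v ≤ m) (K X : Set (List (Fin v))) (a : Fin v) :
    {z : List (Fin m) | vp v m z ∈ mrk K a X} =
      cat {z | vp v m z ∈ K} (cat {[Fin.castLE hv a]} {z | vp v m z ∈ X}) := by
  ext z
  constructor
  · rintro ⟨u₁, h1, u₂, h2, h⟩
    obtain ⟨z₁, z₂, rfl, rfl, rfl⟩ := vp_split hv z u₁ a u₂ h
    exact ⟨z₁, h1, _, ⟨_, rfl, z₂, h2, rfl⟩, rfl⟩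
  · rintro ⟨z₁, h1, _, ⟨_, rfl, z₂, h2, rfl⟩, rfl⟩
    refine ⟨_, h1, _, h2, ?_⟩
    rw [vp_append, List.singleton_append]
    congr 1
    exact vp_cons_lt (c := Fin.castLE hv a) a.2 z₂

theorem vp_lift {v m : ℕ} (hv : v ≤ m) (t : ℕ) :
    (∀ K ∈ ST (α := Fin v) t, {z : List (Fin m) | vp v m z ∈ K} ∈ B t) ∧
    (∀ K, SPol (ST (α := Fin v) t) K → Pol (B t) {z : List (Fin m) | vp v m z ∈ K}) := by
  have step : ∀ t, (∀ K ∈ ST (α := Fin v) t, {z : List (Fin m) | vp v m z ∈ K} ∈ B t) →
      (∀ K, SPol (ST (α := Fin v) t) K → Pol (B t) {z : List (Fin m) | vp v m z ∈ K}) := by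
    intro t ht K hK
    induction hK with
    | empty => exact Pol.empty
    | base K hK => exact Pol_sub (ht K hK)
    | mark K a X hK _ ih =>
      rw [vp_mrk hv]
      exact Pol_cat (Pol_sub (ht K hK)) (Pol_cat (Pol_sub (single_mem _ _)) ih)
    | union L K _ _ h1 h2 => exact Pol.union _ _ h1 h2
  have main : ∀ t, ∀ K ∈ ST (α := Fin v) t, {z : List (Fin m) | vp v m z ∈ K} ∈ B t := by
    intro t
    induction t with
    | zero =>
      rintro K (rfl | rfl)
      · exact empty_mem 0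
      · exact univ_mem 0
    | succ t ih =>
      refine Hy_induction ?_ ?_ ?_
      · exact fun K hK => Pol_le (step t ih K hK)
      · exact fun K h => B_compl h
      · exact fun K K' h h' => B_union h h'
  exact ⟨main t, step t (main t)⟩

theorem vp_of_no_mark {k m : ℕ} (z : List (Fin m)) (h : ∀ c ∈ z, (c : ℕ) ≠ k) :
    vp (k + 1) m z = (vp k m z).map Fin.castSucc := by
  induction z with
  | nil => rfl
  | cons c z ih =>
    have h1 := h c (by simp)
    have h2 := ih fun d hd => h d (by simp [hd])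
    by_cases hc : (c : ℕ) < k
    · rw [vp_cons_lt hc, vp_cons_lt (show (c : ℕ) < k + 1 by omega), h2]
      rfl
    · rw [vp_cons_ge hc, vp_cons_ge (show ¬ (c : ℕ) < k + 1 by omega), h2]

theorem no_mark_of_vp {k m : ℕ} : ∀ (z : List (Fin m)) (w : List (Fin k)),
    vp (k + 1) m z = w.map Fin.castSucc → (∀ c ∈ z, (c : ℕ) ≠ k) ∧ vp k m z = w := by
  intro z
  induction z with
  | nil =>
    intro w h
    refine ⟨by simp, ?_⟩
    rw [vp_nil] at h ⊢
    cases w with
    | nil => rfl
    | cons a w => simp at h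
  | cons c z ih =>
    intro w h
    by_cases hc : (c : ℕ) < k + 1
    · rw [vp_cons_lt hc] at h
      cases w with
      | nil => simp at h
      | cons a w =>
        simp only [List.map_cons, List.cons.injEq] at h
        obtain ⟨h1, h2⟩ := ih w h.2
        have h3 : (c : ℕ) = (a : ℕ) := congrArg Fin.val h.1
        have h4 : (c : ℕ) < k := by rw [h3]; exact a.2
        refine ⟨?_, ?_⟩
        · intro d hd
          rcases List.mem_cons.1 hd with rfl | hd
          · omega
          · exact h1 d hd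
        · rw [vp_cons_lt h4, h2]
          congr 1
          exact Fin.ext h3
    · rw [vp_cons_ge hc] at h
      obtain ⟨h1, h2⟩ := ih w h
      refine ⟨?_, by rw [vp_cons_ge (by omega), h2]⟩
      intro d hd
      rcases List.mem_cons.1 hd with rfl | hd
      · omega
      · exact h1 d hd

/-- The words whose visible part contains a block from a language of a half level. -/
theorem vp_bar_Pol {k m : ℕ} (hm : k + 1 ≤ m) (i : ℕ) {K : Set (List (Fin k))}
    (hK : SPol (ST (1 + i)) K) : Pol (B (1 + i))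
      {z : List (Fin m) | vp (k + 1) m z ∈ bar Fin.castSucc (Fin.last k) K} := by
  let d : Fin m := ⟨k, by omega⟩
  have hd : Fin.castLE hm (Fin.last k) = d := rfl
  have e : {z : List (Fin m) | vp (k + 1) m z ∈ bar Fin.castSucc (Fin.last k) K} =
      cat Set.univ (cat {[d]} (cat ({z | vp k m z ∈ K} ∩ allIn {c | c ≠ d})
        (cat {[d]} Set.univ))) := by
    ext z
    constructor
    · rintro ⟨a, w, hw, b, h⟩
      obtain ⟨z₁, z₂, rfl, _, h2⟩ := vp_split hm z _ _ _ h
      obtain ⟨z₃, z₄, rfl, h3, _⟩ := vp_split hm z₂ _ _ _ h2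
      obtain ⟨h5, h6⟩ := no_mark_of_vp z₃ w h3
      refine ⟨z₁, trivial, _, ⟨[d], rfl, _, ⟨z₃, ⟨?_, ?_⟩, _, ⟨[d], rfl, z₄, trivial, rfl⟩, rfl⟩,
        rfl⟩, ?_⟩
      · change vp k m z₃ ∈ K
        rw [h6]
        exact hw
      · intro c hc hcd
        exact h5 c hc (by rw [hcd])
      · simp [hd]
    · rintro ⟨z₁, _, _, ⟨_, rfl, _, ⟨z₃, ⟨h1, h2⟩, _, ⟨_, rfl, z₄, _, rfl⟩, rfl⟩, rfl⟩, rfl⟩
      refine ⟨vp (k + 1) m z₁, vp k m z₃, h1, vp (k + 1) m z₄, ?_⟩
      have h3 : vp (k + 1) m z₃ = (vp k m z₃).map Fin.castSucc :=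
        vp_of_no_mark z₃ fun c hc hck => h2 c hc (Fin.ext hck)
      have h4 : ∀ z : List (Fin m), vp (k + 1) m (d :: z) = Fin.last k :: vp (k + 1) m z :=
        fun z => vp_cons_lt (c := d) (show k < k + 1 by omega) z
      simp only [List.singleton_append, vp_append, h4, h3]
  rw [e]
  have h1 : Pol (B (1 + i)) ({z : List (Fin m) | vp k m z ∈ K} ∩ allIn {c | c ≠ d}) :=
    Pol_inter ((vp_lift (by omega) (1 + i)).2 K hK)
      (Pol_sub (B_mono (Nat.le_add_right 1 i) (allIn_mem _)))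
  exact Pol_cat (Pol_sub (univ_mem _)) (Pol_cat (Pol_sub (single_mem _ _))
    (Pol_cat h1 (Pol_cat (Pol_sub (single_mem _ _)) (Pol_sub (univ_mem _)))))

/-! ### Iterated hiding -/

/-- The language after `t` hiding steps. -/
def FL (v m : ℕ) (L : Set (List (Fin m))) : (t : ℕ) → Set (List (Fin (al m t)))
  | 0 => L
  | t + 1 => sub (HR (clF v (al m t))) (FL v m L t)

theorem vp_gdec {v m : ℕ} (hv : v ≤ m) (z : List (Fin (m + 2))) : ∀ b,
    vp v m (gdec (clF v m) b z) = vp v (m + 2) z := by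
  induction z with
  | nil => intro b; rfl
  | cons c z ih =>
    intro b
    rw [gdec]
    by_cases h1 : (c : ℕ) < m
    · by_cases h2 : (c : ℕ) < v
      · have hcl : clF v m c = .vis ⟨c, h1⟩ := by simp [clF, h1, h2]
        rw [hcl, vp_cons_lt h2]
        change vp v m (⟨c, h1⟩ :: gdec (clF v m) false z) = _
        rw [vp_cons_lt (c := (⟨c, h1⟩ : Fin m)) h2, ih]
      · have hcl : clF v m c = .hid ⟨c, h1⟩ := by simp [clF, h1, h2]
        rw [hcl, vp_cons_ge h2]
        cases b with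
        | true =>
          change vp v m (⟨c, h1⟩ :: gdec (clF v m) false z) = _
          rw [vp_cons_ge (c := (⟨c, h1⟩ : Fin m)) h2, ih]
        | false => exact ih false
    · by_cases h2 : (c : ℕ) = m
      · have hcl : clF v m c = .sh := by simp [clF, h2]
        rw [hcl, vp_cons_ge (show ¬ (c : ℕ) < v by omega)]
        exact ih true
      · have hcl : clF v m c = .pad := by simp [clF, h1, h2]
        rw [hcl, vp_cons_ge (show ¬ (c : ℕ) < v by omega)]
        exact ih b

theorem decode_step {v m : ℕ} (hv : v ≤ m) (U : Set (List (Fin m)))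
    (z : List (Fin (m + 2))) (hz : z ∈ sub (HR (clF v m)) U) :
    ∃ y ∈ U, vp v (m + 2) z = vp v m y ∧ ∀ X, (z ∈ sub (HR (clF v m)) X ↔ y ∈ X) := by
  obtain ⟨y, hy, h⟩ := hz
  refine ⟨y, hy, ?_, ?_⟩
  · rw [← vp_gdec hv z false, h.2]
  · intro X
    constructor
    · rintro ⟨y', hy', h'⟩
      rw [(dec_HR (clF v m)).fn y y' z h h']
      exact hy'
    · intro hX
      exact ⟨y, hX, h⟩

theorem FL_decode {v m : ℕ} (hv : v ≤ m) (t : ℕ) : ∀ z ∈ FL v m Set.univ t,
    ∃ y, vp v (al m t) z = vp v m y ∧ ∀ X, (z ∈ FL v m X t ↔ y ∈ X) := by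
  induction t with
  | zero => exact fun z _ => ⟨z, rfl, fun X => Iff.rfl⟩
  | succ t ih =>
    intro z hz
    obtain ⟨y', h1, h2, h3⟩ := decode_step (m := al m t) (hv.trans (le_al m t)) _ z hz
    obtain ⟨y, h4, h5⟩ := ih y' h1
    refine ⟨y, h2.trans h4, fun X => ?_⟩
    rw [← h5 X]
    exact h3 (FL v m X t)

theorem FL_Pol (v : ℕ) {m : ℕ} {I : Set (List (Fin m))} (hI : Pol (B 0) I) (t : ℕ) :
    Pol (B t) (FL v m I t) := by
  induction t with
  | zero => exact hI
  | succ t ih => exact (sub_HR_up (clF v (al m t)) t).2 _ ih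

theorem FL_univ_mem (v m t : ℕ) : FL v m Set.univ (t + 1) ∈ B (1 + t) := by
  induction t with
  | zero =>
    have : sub (HR (clF v m)) Set.univ ∈ B (α := Fin (m + 2)) 1 := by
      rw [sub_HR_univ]
      exact good_mem _
    exact this
  | succ t ih => exact (sub_HR_up (clF v (al m (t + 1))) t).1 _ ih

theorem FL_mono {v m : ℕ} {X Y : Set (List (Fin m))} (h : X ⊆ Y) (t : ℕ) :
    FL v m X t ⊆ FL v m Y t := by
  induction t with
  | zero => exact h
  | succ t ih =>
    rintro z ⟨y, hy, hz⟩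
    exact ⟨y, ih hy, hz⟩

/-! ### The codes are decoded correctly -/

theorem YY_of_enc {γ H A : Type} {cl : γ → Cl A} {x : γ} {e : H → γ} (hx : cl x = .pad)
    (l : List H) (he : ∀ a ∈ l, ∃ i, cl (e a) = .hid i) (n : ℕ) : blk x e l n ∈ YY cl := by
  intro c hc
  rw [blk] at hc
  obtain ⟨b, hb, hc⟩ := List.mem_flatMap.1 hc
  rcases List.mem_cons.1 hc with rfl | hc
  · obtain ⟨i, hi⟩ := he b hb
    simp [Cl.start, hi]
  · have := mem_rep hc
    simp only [List.mem_singleton] at this
    subst this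
    simp [Cl.start, hx]

theorem HR_phi_letter {v m : ℕ} (hv : v ≤ m) (N : ℕ) (a : Fin m) :
    HR (clF v m) [a] (phi v m N a) := by
  by_cases ha : (a : ℕ) < v
  · rw [phi, if_pos ha]
    have hcl : clF v m (up2 a) = .vis a := by
      have h1 : ((up2 a : Fin (m + 2)) : ℕ) < m := a.2
      simp only [clF, dif_pos h1]
      rw [if_pos (show ((up2 a : Fin (m + 2)) : ℕ) < v from ha)]
      rfl
    refine ⟨?_, ?_⟩
    · intro c w h
      simp only [List.cons.injEq] at h
      rw [← h.1, hcl]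
      trivial
    · rw [gdec, hcl]
      rfl
  · rw [phi, if_neg ha]
    have hsh : clF v m (shF m) = .sh := by simp [clF, shF]
    have hpad : clF v m (padF m) = .pad := by simp [clF, padF]
    have hhid : ∀ b : Fin m, v ≤ (b : ℕ) → clF v m (up2 b) = .hid b := by
      intro b hb
      have h1 : ((up2 b : Fin (m + 2)) : ℕ) < m := b.2
      simp only [clF, dif_pos h1]
      rw [if_neg (show ¬ ((up2 b : Fin (m + 2)) : ℕ) < v by change ¬ (b : ℕ) < v; omega)]
      rfl
    refine ⟨?_, ?_⟩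
    · intro c w h
      simp only [enc, List.cons.injEq] at h
      rw [← h.1, hsh]
      trivial
    · rw [enc, gdec, hsh]
      change gdec (clF v m) true _ = _
      rw [gdec_rep_pad _ hpad, gdec, hhid a (by omega)]
      simp only [if_true, List.cons.injEq, true_and]
      apply gdec_YY
      intro c hc
      rcases List.mem_append.1 hc with hc | hc
      · have := mem_rep hc
        simp only [List.mem_singleton] at this
        subst this
        simp [Cl.start, hpad]
      · exact YY_of_enc hpad (hl v m) (fun b hb => ⟨b, hhid b (mem_hl.1 hb)⟩) N c (mem_rep hc)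

theorem HR_phi {v m : ℕ} (hv : v ≤ m) (N : ℕ) (w : List (Fin m)) :
    HR (clF v m) w (w.flatMap (phi v m N)) := by
  induction w with
  | nil => exact ⟨nil_good _, rfl⟩
  | cons a w ih =>
    have := (dec_HR (clF v m)).mul _ _ _ _ (HR_phi_letter hv N a) ih
    simpa using this

theorem phi_mem_sub {v m : ℕ} (hv : v ≤ m) (N : ℕ) (w : List (Fin m)) (X : Set (List (Fin m))) :
    w.flatMap (phi v m N) ∈ sub (HR (clF v m)) X ↔ w ∈ X := by
  constructor
  · rintro ⟨w', hw', h⟩
    rw [(dec_HR (clF v m)).fn w w' _ (HR_phi hv N w) h]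
    exact hw'
  · intro h
    exact ⟨w, h, HR_phi hv N w⟩

theorem IsE.mem_FL {v m : ℕ} (hv : v ≤ m) {t : ℕ} {E : Fin m → List (Fin (al m t))}
    (h : IsE v m t E) (X : Set (List (Fin m))) : ∀ w : List (Fin m),
    w.flatMap E ∈ FL v m X t ↔ w ∈ X := by
  induction h with
  | zero =>
    intro w
    have : w.flatMap (fun e => [e]) = w := by simp
    change (w.flatMap (fun e => [e]) : List (Fin m)) ∈ X ↔ w ∈ X
    rw [this]
  | succ t E N _ ih =>
    intro w
    rw [← ih w]
    have h1 := phi_mem_sub (m := al m t) (hv.trans (le_al m t)) N (w.flatMap E) (FL v m X t)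
    rw [List.flatMap_assoc] at h1
    exact h1

end Pool.Agent.Helper964_DD
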